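import Mathlib

/-!
Definitions for the combinatorial side: finite multigraphs given by two maps `src tgt : E → V`
(loops and parallel edges allowed), number of components of `(V, A)`, flow polynomial by the subset
expansion, dichromatic polynomial.
-/

set_option autoImplicit false

namespace Pool.Agent.H140R2.FR

variable {V E : Type} [Fintype V] [DecidableEq V] [Fintype E] [DecidableEq E]

/-- `k(A)`: the number of connected components of the spanning subgraph `(V, A)`. -/
noncomputable def comps (src tgt : E → V) (A : Finset E) : ℕ :=
  Nat.card (Quot (fun v w : V => ∃ e ∈ A, src e = v ∧ tgt e = w))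

/-- `F(G,q) = ∑_A (-1)^{|E∖A|} q^{|A|-|V|+k(A)}` (the exponent is nonnegative). -/
noncomputable def flowVal (src tgt : E → V) (q : ℝ) : ℝ :=
  ∑ A : Finset E, (-1) ^ (Fintype.card E - A.card) * q ^ (A.card + comps src tgt A - Fintype.card V)

/-- `Z(G;q,v) = ∑_A q^{k(A)} v^{|A|}`. -/
noncomputable def dichrom (src tgt : E → V) (q v : ℝ) : ℝ :=
  ∑ A : Finset E, q ^ (comps src tgt A) * v ^ A.card

/-- no edge is a bridge: deleting an edge does not change the number of components. -/
def Bridgeless (src tgt : E → V) : Prop :=
  ∀ e : E, comps src tgt (Finset.univ.erase e) = comps src tgt Finset.univ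

/-- every vertex has degree 3 (a loop counts twice). -/
def Cubic (src tgt : E → V) : Prop :=
  ∀ v : V, (Finset.univ.filter (fun e => src e = v)).card + (Finset.univ.filter (fun e => tgt e = v)).card = 3

end Pool.Agent.H140R2.FR
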