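import Mathlib
import Pool.Agent.Helper96.FlowAssemble

/-!
# Flow polynomials of finite multigraphs (C2)

A finite multigraph (loops and parallel edges allowed) is given by a map `ends : E → Sym2 V`.
The flow polynomial is defined by its subset expansion.
-/

set_option autoImplicit false

open Finset Polynomial

namespace Pool.Agent.H140R2.FR

open Pool.Agent.Helper96.Flow

section defs

variable {V E : Type}

/-- number of connected components of the spanning subgraph with edge set `A` -/
noncomputable def kc (ends : E → Sym2 V) (A : Set E) : ℕ :=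
  Nat.card (SimpleGraph.fromEdgeSet (ends '' A)).ConnectedComponent

/-- no edge is a bridge: deleting an edge does not change the number of components. -/
def Bridgeless (ends : E → Sym2 V) : Prop := ∀ e : E, kc ends {e}ᶜ = kc ends Set.univ

/-- the flow polynomial `∑_{A ⊆ E} (-1)^(|E|-|A|) X^(|A| + k(A) - |V|)`. -/
noncomputable def flowPoly [Fintype V] [Fintype E] (ends : E → Sym2 V) : ℤ[X] :=
  ∑ A ∈ (univ : Finset E).powerset, C ((-1 : ℤ) ^ (Fintype.card E - A.card)) *
    X ^ (A.card + kc ends (A : Set E) - Fintype.card V)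

/-- the function `s` is constant on the edges in `A` -/
def Cst (ends : E → Sym2 V) (A : Set E) {X : Type} (s : V → X) : Prop :=
  ∀ e ∈ A, ∀ a b, ends e = s(a, b) → s a = s b

theorem cst_of_reachable (ends : E → Sym2 V) (A : Set E) {X : Type} (s : V → X)
    (h : Cst ends A s) {a b : V} (hab : (SimpleGraph.fromEdgeSet (ends '' A)).Reachable a b) :
    s a = s b := by
  obtain ⟨p⟩ := hab
  induction p with
  | nil => rfl
  | cons hadj _ ih =>
    rw [← ih]
    rw [SimpleGraph.fromEdgeSet_adj] at hadj
    obtain ⟨⟨e, he, hee⟩, _⟩ := hadj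
    exact h e he _ _ hee

theorem reachable_of_edge (ends : E → Sym2 V) (A : Set E) {e : E} (he : e ∈ A) {a b : V}
    (h : ends e = s(a, b)) : (SimpleGraph.fromEdgeSet (ends '' A)).Reachable a b := by
  by_cases hab : a = b
  · subst hab; rfl
  · apply SimpleGraph.Adj.reachable
    rw [SimpleGraph.fromEdgeSet_adj]
    exact ⟨⟨e, he, h⟩, hab⟩

theorem count_cc [Finite V] (ends : E → Sym2 V) (A : Set E) (X : Type) [Finite X] :
    Nat.card {s : V → X // Cst ends A s} = Nat.card X ^ kc ends A := by
  classical
  have e1 : {s : V → X // Cst ends A s} ≃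
      ((SimpleGraph.fromEdgeSet (ends '' A)).ConnectedComponent → X) :=
    { toFun := fun s => fun c => Quot.lift s.1 (fun a b hab => cst_of_reachable ends A s.1 s.2 hab) c
      invFun := fun g => ⟨fun v => g (SimpleGraph.connectedComponentMk _ v), fun e he a b hab => by
        show g _ = g _
        congr 1
        exact SimpleGraph.ConnectedComponent.sound (reachable_of_edge ends A he hab)⟩
      left_inv := fun s => rfl
      right_inv := fun g => by
        funext q
        induction q using Quot.ind
        rfl }
  have : Finite (SimpleGraph.fromEdgeSet (ends '' A)).ConnectedComponent := Quot.finite _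
  rw [Nat.card_congr e1, Nat.card_fun, kc]

theorem kc_eq_quot [Fintype V] [DecidableEq V] [Fintype E] [DecidableEq E] (src tgt : E → V) (A : Finset E) :
    kc (fun e => s(src e, tgt e)) (A : Set E) =
      Nat.card (Quot (fun v w : V => ∃ e ∈ A, src e = v ∧ tgt e = w)) := by
  have h1 := count_cc (fun e => s(src e, tgt e)) (A : Set E) (ZMod 2)
  have h2 := count_const src tgt A (ZMod 2)
  have h3 : Nat.card {s : V → ZMod 2 // Cst (fun e => s(src e, tgt e)) (A : Set E) s} =
      Nat.card {s : V → ZMod 2 // ∀ e ∈ A, s (src e) = s (tgt e)} := by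
    apply Nat.card_congr
    apply Equiv.subtypeEquivRight
    intro s
    constructor
    · intro h e he
      exact h e (by exact_mod_cast he) _ _ rfl
    · intro h e he a b hab
      rw [Sym2.eq_iff] at hab
      have := h e (by exact_mod_cast he)
      rcases hab with ⟨rfl, rfl⟩ | ⟨rfl, rfl⟩
      · exact this
      · exact this.symm
  rw [h1, h2, Nat.card_zmod] at h3
  exact Nat.pow_right_injective le_rfl h3

/-- the flow polynomial counts nowhere-zero flows. -/
theorem flowPoly_spec [Fintype V] [DecidableEq V] [Fintype E] [DecidableEq E] (src tgt : E → V)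
    (k : ℕ) (hk : 1 ≤ k) :
    (flowPoly (fun e => s(src e, tgt e))).eval (k : ℤ) = (numNZ src tgt k : ℤ) := by
  classical
  unfold flowPoly
  have hk0 : (k : ℤ) ^ Fintype.card V ≠ 0 := by
    apply pow_ne_zero
    exact_mod_cast (by omega : k ≠ 0)
  apply mul_left_cancel₀ hk0
  rw [potts src tgt k hk, eval_finsetSum, Finset.mul_sum]
  have h1 : ∀ σ : V → Fin k, ∏ e : E, ((if σ (src e) = σ (tgt e) then (k : ℤ) else 0) - 1) =
      ∑ A ∈ (univ : Finset E).powerset, (if ∀ e ∈ A, σ (src e) = σ (tgt e) then
        (k : ℤ) ^ A.card * (-1) ^ (univ \ A).card else 0) := by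
    intro σ
    simp only [sub_eq_add_neg]
    rw [Finset.prod_add]
    refine Finset.sum_congr rfl fun A _ => ?_
    rw [Finset.prod_const]
    split_ifs with h
    · rw [Finset.prod_congr rfl (fun e he => by rw [if_pos (h e he)]), Finset.prod_const]
    · push Not at h
      obtain ⟨e, he, hne⟩ := h
      rw [Finset.prod_eq_zero he (by rw [if_neg hne]), zero_mul]
  simp only [h1]
  rw [Finset.sum_comm]
  refine Finset.sum_congr rfl fun A _ => ?_
  have h2 := rank_bound src tgt A
  have h3 := count_const src tgt A (Fin k)
  rw [Nat.card_eq_fintype_card, Fintype.card_subtype, Nat.card_fin] at h3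
  rw [Finset.sum_ite, Finset.sum_const_zero, add_zero, Finset.sum_const, nsmul_eq_mul, h3,
    eval_mul, eval_C, eval_pow, eval_X, kc_eq_quot]
  generalize Nat.card (Quot (fun v w : V => ∃ e ∈ A, src e = v ∧ tgt e = w)) = c at *
  obtain ⟨d, hd⟩ : ∃ d, A.card + c = Fintype.card V + d := ⟨A.card + c - Fintype.card V, by omega⟩
  rw [show A.card + c - Fintype.card V = d by omega]
  rw [Finset.card_sdiff_of_subset (Finset.subset_univ A), Finset.card_univ]
  push_cast
  symm
  calc (k : ℤ) ^ c * ((k : ℤ) ^ A.card * (-1) ^ (Fintype.card E - A.card))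
      = (k : ℤ) ^ (A.card + c) * (-1) ^ (Fintype.card E - A.card) := by rw [pow_add]; ring
    _ = _ := by rw [hd, pow_add]; ring

/-- halving: if `u, v` are separated by an element of `K`, then identifying `u` and `v`
halves the number of functions to `ZMod 2` -/
theorem halve [Finite V] (K : AddSubgroup (V → ZMod 2)) (u v : V)
    (hχ : ∃ χ ∈ K, χ u ≠ χ v) :
    Nat.card {s : V → ZMod 2 // s ∈ K} = 2 * Nat.card {s : V → ZMod 2 // s ∈ K ∧ s u = s v} := by
  classical
  obtain ⟨χ, hχ, hne⟩ := hχ
  have key : ∀ z : ZMod 2, z ≠ 0 → z = 1 := by decide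
  have hχ1 : χ u - χ v = 1 := key _ (sub_ne_zero.2 hne)
  have e : {s : V → ZMod 2 // s ∈ K} ≃ {s : V → ZMod 2 // s ∈ K ∧ s u = s v} ⊕
      {s : V → ZMod 2 // s ∈ K ∧ s u = s v} :=
    { toFun := fun s => if h : s.1 u = s.1 v then Sum.inl ⟨s.1, s.2, h⟩ else
        Sum.inr ⟨s.1 - χ, K.sub_mem s.2 hχ, by
          have h1 : s.1 u - s.1 v = 1 := key _ (sub_ne_zero.2 h)
          show s.1 u - χ u = s.1 v - χ v
          rw [sub_eq_sub_iff_sub_eq_sub, h1, hχ1]⟩
      invFun := fun t => Sum.elim (fun s => ⟨s.1, s.2.1⟩) (fun s => ⟨s.1 + χ, K.add_mem s.2.1 hχ⟩) t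
      left_inv := by
        intro s
        by_cases h : s.1 u = s.1 v
        · simp [h]
        · simp [h]
      right_inv := by
        rintro (s | s)
        · simp [s.2.2]
        · have : ¬ (s.1 + χ) u = (s.1 + χ) v := by
            simp [s.2.2, hne]
          refine (dif_neg this).trans ?_
          simp }
  rw [Nat.card_congr e, Nat.card_sum, two_mul]

/-- the subgroup of functions constant on `A` -/
def KA (ends : E → Sym2 V) (A : Set E) : AddSubgroup (V → ZMod 2) where
  carrier := {s | Cst ends A s}
  add_mem' := by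
    intro s t hs ht e he a b hab
    show s a + t a = s b + t b
    rw [hs e he a b hab, ht e he a b hab]
  zero_mem' := by
    intro e _ a b _
    rfl
  neg_mem' := by
    intro s hs e he a b hab
    show - s a = - s b
    rw [hs e he a b hab]

theorem exists_sep (ends : E → Sym2 V) (A : Set E) (u v : V)
    (h : ¬ (SimpleGraph.fromEdgeSet (ends '' A)).Reachable u v) :
    ∃ χ ∈ KA ends A, χ u ≠ χ v := by
  classical
  refine ⟨fun w => if (SimpleGraph.fromEdgeSet (ends '' A)).Reachable u w then 1 else 0, ?_, ?_⟩
  · intro e he a b hab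
    have hr := reachable_of_edge ends A he hab
    have : (SimpleGraph.fromEdgeSet (ends '' A)).Reachable u a ↔
        (SimpleGraph.fromEdgeSet (ends '' A)).Reachable u b :=
      ⟨fun h => h.trans hr, fun h => h.trans hr.symm⟩
    simp only [this]
  · simp [h]

theorem card_KA [Finite V] (ends : E → Sym2 V) (A : Set E) :
    Nat.card {s : V → ZMod 2 // s ∈ KA ends A} = 2 ^ kc ends A := by
  have := count_cc ends A (ZMod 2)
  rw [Nat.card_zmod] at this
  exact this

/-- adding a bridge decreases the number of components by one -/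
theorem kc_insert [Finite V] (ends : E → Sym2 V) (A : Set E) (e : E) (u v : V)
    (he : ends e = s(u, v)) (h : ¬ (SimpleGraph.fromEdgeSet (ends '' A)).Reachable u v) :
    kc ends A = kc ends (insert e A) + 1 := by
  have h1 := halve (KA ends A) u v (exists_sep ends A u v h)
  rw [card_KA] at h1
  have h2 : Nat.card {s : V → ZMod 2 // s ∈ KA ends A ∧ s u = s v} = 2 ^ kc ends (insert e A) := by
    rw [← card_KA]
    apply Nat.card_congr
    apply Equiv.subtypeEquivRight
    intro s
    constructor
    · rintro ⟨hs, huv⟩ f hf a b hab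
      rcases Set.mem_insert_iff.1 hf with rfl | hf
      · rw [he, Sym2.eq_iff] at hab
        rcases hab with ⟨rfl, rfl⟩ | ⟨rfl, rfl⟩
        · exact huv
        · exact huv.symm
      · exact hs f hf a b hab
    · intro hs
      exact ⟨fun f hf a b hab => hs f (Set.mem_insert_of_mem _ hf) a b hab,
        hs e (Set.mem_insert _ _) u v he⟩
  rw [h2, ← pow_succ'] at h1
  exact Nat.pow_right_injective le_rfl h1

/-- adding an edge inside a component does not change the number of components -/
theorem kc_insert_of_reachable [Finite V] (ends : E → Sym2 V) (A : Set E) (e : E) (u v : V)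
    (he : ends e = s(u, v)) (h : (SimpleGraph.fromEdgeSet (ends '' A)).Reachable u v) :
    kc ends A = kc ends (insert e A) := by
  have h1 := count_cc ends A (ZMod 2)
  have h2 := count_cc ends (insert e A) (ZMod 2)
  have h3 : Nat.card {s : V → ZMod 2 // Cst ends A s} =
      Nat.card {s : V → ZMod 2 // Cst ends (insert e A) s} := by
    apply Nat.card_congr
    apply Equiv.subtypeEquivRight
    intro s
    constructor
    · intro hs f hf a b hab
      rcases Set.mem_insert_iff.1 hf with rfl | hf
      · have := cst_of_reachable ends A s hs h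
        rw [he, Sym2.eq_iff] at hab
        rcases hab with ⟨rfl, rfl⟩ | ⟨rfl, rfl⟩
        · exact this
        · exact this.symm
      · exact hs f hf a b hab
    · intro hs f hf a b hab
      exact hs f (Set.mem_insert_of_mem _ hf) a b hab
  rw [h1, h2, Nat.card_zmod] at h3
  exact Nat.pow_right_injective le_rfl h3

/-- the flow polynomial of a graph with a bridge vanishes -/
theorem flowPoly_bridge [Fintype V] [Fintype E] (ends : E → Sym2 V) (e : E) (u v : V)
    (he : ends e = s(u, v))
    (h : ¬ (SimpleGraph.fromEdgeSet (ends '' ({e}ᶜ : Set E))).Reachable u v) :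
    flowPoly ends = 0 := by
  classical
  rw [flowPoly]
  have hu : (Finset.univ : Finset E) = insert e (Finset.univ.erase e) := by simp
  rw [hu, Finset.sum_powerset_insert (by simp), ← Finset.sum_add_distrib]
  apply Finset.sum_eq_zero
  intro A hA
  rw [Finset.mem_powerset] at hA
  have heA : e ∉ A := fun h => by simpa using hA h
  have hsub : (A : Set E) ⊆ ({e}ᶜ : Set E) := by
    intro f hf
    simp only [Set.mem_compl_iff, Set.mem_singleton_iff]
    rintro rfl
    exact heA (by exact_mod_cast hf)
  have hnr : ¬ (SimpleGraph.fromEdgeSet (ends '' (A : Set E))).Reachable u v := by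
    intro hr
    exact h (hr.mono (SimpleGraph.fromEdgeSet_mono (Set.image_mono hsub)))
  have hk := kc_insert ends (A : Set E) e u v he hnr
  rw [Finset.coe_insert, Finset.card_insert_of_notMem heA]
  have hlt : A.card < Fintype.card E := by
    have := Finset.card_lt_card (Finset.ssubset_univ_iff.2 (fun h : A = univ => heA (h ▸ Finset.mem_univ e)))
    simpa using this
  obtain ⟨r, hr⟩ : ∃ r, Fintype.card E = A.card + 1 + r := ⟨Fintype.card E - (A.card + 1), by omega⟩
  have e1 : Fintype.card E - A.card = r + 1 := by omega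
  have e2 : Fintype.card E - (A.card + 1) = r := by omega
  have e3 : A.card + 1 + kc ends (insert e (A : Set E)) = A.card + kc ends (A : Set E) := by omega
  rw [e1, e2, e3, pow_succ]
  simp only [map_mul, map_neg, map_one, map_pow]
  ring

theorem bridgeless_of_ne_zero [Fintype V] [Fintype E] (ends : E → Sym2 V)
    (h : flowPoly ends ≠ 0) : Bridgeless ends := by
  intro e
  obtain ⟨u, v, huv⟩ : ∃ u v, ends e = s(u, v) := by
    induction hz : ends e using Sym2.ind with
    | _ x y => exact ⟨x, y, rfl⟩
  by_cases hr : (SimpleGraph.fromEdgeSet (ends '' ({e}ᶜ : Set E))).Reachable u v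
  · have h1 := kc_insert_of_reachable ends ({e}ᶜ : Set E) e u v huv hr
    rw [h1]
    congr 1
    ext f
    simp [Classical.em]
  · exact absurd (flowPoly_bridge ends e u v huv hr) h

end defs

theorem poly_eq_of_nat (P Q : ℤ[X]) (h : ∀ k : ℕ, 1 ≤ k → P.eval (k : ℤ) = Q.eval (k : ℤ)) :
    P = Q := by
  apply Polynomial.eq_of_infinite_eval_eq
  apply Set.infinite_of_injective_forall_mem (f := fun M : ℕ => ((M + 1 : ℕ) : ℤ))
  · intro a b hab
    have hab' : ((a + 1 : ℕ) : ℤ) = ((b + 1 : ℕ) : ℤ) := hab
    have : a + 1 = b + 1 := by exact_mod_cast hab'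
    omega
  · intro M
    rw [Set.mem_ofPred_eq]
    exact h (M + 1) (by omega)

/-- the endpoints of the edges of a list -/
def lends {V : Type} (L : List (V × V)) (e : Fin L.length) : Sym2 V := s((L.get e).1, (L.get e).2)

theorem flowPoly_lends {V : Type} [Fintype V] [DecidableEq V] (L : List (V × V)) :
    flowPoly (lends L) = QL L := by
  apply poly_eq_of_nat
  intro k hk
  rw [QL_spec L k hk]
  exact flowPoly_spec (lsrc L) (ltgt L) k hk

end Pool.Agent.H140R2.FR
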