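import Mathlib
import Pool.Agent.Helper96.FlowAssemble
import Pool.Agent.H140R2.FR.CombFlow

/-!
# Density of flow roots near a negative value (C3)

If the flow polynomial of some multigraph is negative at `q₀ > 3`, then every neighbourhood of `q₀`
contains a root of the flow polynomial of some bridgeless multigraph.
-/

set_option autoImplicit false

open Finset Polynomial

namespace Pool.Agent.H140R2.FR

open Pool.Agent.Helper96.Flow

/-- the Potts weight of an edge. -/
def wz (N : ℕ) {V : Type} (σ : V → Fin N) (p : V × V) : ℤ :=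
  (if σ p.1 = σ p.2 then (N : ℤ) else 0) - 1

theorem QL_pottsZ {V : Type} [Fintype V] [DecidableEq V] (N : ℕ) (hN : 1 ≤ N) (L : List (V × V)) :
    (N : ℤ) ^ Fintype.card V * (QL L).eval (N : ℤ)
      = ∑ σ : V → Fin N, (L.map (wz N σ)).prod := by
  have h := potts (lsrc L) (ltgt L) N hN
  rw [← QL_spec L N hN] at h
  rw [h]
  apply Finset.sum_congr rfl
  intro σ _
  rw [← Fin.prod_univ_fun_getElem]
  apply Finset.prod_congr rfl
  intro e _
  rw [wz, lsrc, ltgt]
  rfl

/-- identification of two vertices -/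
def mg {V : Type} [DecidableEq V] (u v : V) (huv : u ≠ v) (w : V) : {w : V // w ≠ v} :=
  if h : w = v then ⟨u, huv⟩ else ⟨w, h⟩

theorem mg_self {V : Type} [DecidableEq V] (u v : V) (huv : u ≠ v) : mg u v huv v = ⟨u, huv⟩ := by
  rw [mg, dif_pos rfl]

theorem mg_of_ne {V : Type} [DecidableEq V] (u v : V) (huv : u ≠ v) {w : V} (h : w ≠ v) :
    mg u v huv w = ⟨w, h⟩ := by
  rw [mg, dif_neg h]

/-- contraction of a list of edges -/
def cn {V : Type} [DecidableEq V] (u v : V) (huv : u ≠ v) (L : List (V × V)) :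
    List ({w : V // w ≠ v} × {w : V // w ≠ v}) := L.map (Prod.map (mg u v huv) (mg u v huv))

/-- deletion and contraction -/
theorem QL_contr {V : Type} [Fintype V] [DecidableEq V] (u v : V) (huv : u ≠ v)
    (L : List (V × V)) : QL ((u, v) :: L) = QL (cn u v huv L) - QL L := by
  apply poly_eq_of_nat
  intro N hN
  have hN0 : (N : ℤ) ^ Fintype.card V ≠ 0 := by
    apply pow_ne_zero
    exact_mod_cast (by omega : N ≠ 0)
  apply mul_left_cancel₀ hN0
  rw [QL_pottsZ N hN, eval_sub, mul_sub, QL_pottsZ N hN L]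
  have hc : Fintype.card V = Fintype.card {w : V // w ≠ v} + 1 := by
    have h1 := Fintype.card_subtype_compl (fun w : V => w = v)
    have h2 : Fintype.card {w : V // w = v} = 1 := Fintype.card_unique
    have h3 : 0 < Fintype.card V := Fintype.card_pos_iff.2 ⟨v⟩
    have h4 : Fintype.card {w : V // w ≠ v} = Fintype.card V - 1 := by
      rw [← h2, ← h1]
    omega
  have h2 : (N : ℤ) ^ Fintype.card V * (QL (cn u v huv L)).eval (N : ℤ)
      = (N : ℤ) * ∑ τ : {w : V // w ≠ v} → Fin N, ((cn u v huv L).map (wz N τ)).prod := by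
    rw [hc, pow_succ', mul_assoc, QL_pottsZ N hN]
  have h3 : ∑ τ : {w : V // w ≠ v} → Fin N, ((cn u v huv L).map (wz N τ)).prod
      = ∑ σ : V → Fin N, if σ u = σ v then (L.map (wz N σ)).prod else 0 := by
    rw [← Finset.sum_filter]
    refine Finset.sum_bij' (fun τ _ => fun w => τ (mg u v huv w)) (fun σ _ => fun w => σ w.1)
      ?_ ?_ ?_ ?_ ?_
    · intro τ _
      rw [Finset.mem_filter]
      refine ⟨Finset.mem_univ _, ?_⟩
      show τ (mg u v huv u) = τ (mg u v huv v)
      rw [mg_self, mg_of_ne u v huv huv]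
    · intro σ _
      exact Finset.mem_univ _
    · intro τ _
      funext w
      show τ (mg u v huv w.1) = τ w
      rw [mg_of_ne u v huv w.2]
    · intro σ hσ
      have hσ' := (Finset.mem_filter.1 hσ).2
      funext w
      show σ (mg u v huv w).1 = σ w
      by_cases hw : w = v
      · subst hw; rw [mg_self]; exact hσ'
      · rw [mg_of_ne u v huv hw]
    · intro τ _
      rw [cn, List.map_map]
      rfl
  rw [h2, h3, Finset.mul_sum, ← Finset.sum_sub_distrib]
  refine Finset.sum_congr rfl fun σ _ => ?_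
  rw [List.map_cons, List.prod_cons, wz]
  split_ifs <;> ring

/-- loops -/
theorem QL_loop {V : Type} [Fintype V] [DecidableEq V] (u : V)
    (L : List (V × V)) : QL ((u, u) :: L) = (X - 1) * QL L := by
  apply poly_eq_of_nat
  intro N hN
  have hN0 : (N : ℤ) ^ Fintype.card V ≠ 0 := by
    apply pow_ne_zero
    exact_mod_cast (by omega : N ≠ 0)
  apply mul_left_cancel₀ hN0
  rw [QL_pottsZ N hN, eval_mul, ← mul_assoc, mul_comm ((N : ℤ) ^ Fintype.card V), mul_assoc,
    QL_pottsZ N hN L, Finset.mul_sum]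
  refine Finset.sum_congr rfl fun σ _ => ?_
  rw [List.map_cons, List.prod_cons, wz, if_pos rfl]
  simp

theorem QL_nil {V : Type} [Fintype V] [DecidableEq V] : QL ([] : List (V × V)) = 1 := by
  apply poly_eq_of_nat
  intro N hN
  have hN0 : (N : ℤ) ^ Fintype.card V ≠ 0 := by
    apply pow_ne_zero
    exact_mod_cast (by omega : N ≠ 0)
  apply mul_left_cancel₀ hN0
  rw [QL_pottsZ N hN]
  simp

section series

variable {V : Type} [Fintype V] [DecidableEq V]

/-- the edges seen in the graph with one more vertex -/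
def up (L : List (V × V)) : List (Option V × Option V) := L.map (Prod.map some some)

theorem sum_option (N : ℕ) (G : Fin N → (V → Fin N) → ℤ) :
    ∑ σ : Option V → Fin N, G (σ none) (fun w => σ (some w))
      = ∑ τ : V → Fin N, ∑ c : Fin N, G c τ := by
  rw [Finset.sum_comm, ← Fintype.sum_prod_type' (f := fun (c : Fin N) (τ : V → Fin N) => G c τ)]
  exact Fintype.sum_equiv (Equiv.piOptionEquivProd (β := fun _ : Option V => Fin N)) _ _
    (fun σ => rfl)

omit [Fintype V] [DecidableEq V] in
theorem up_prod (N : ℕ) (σ : Option V → Fin N) (L : List (V × V)) :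
    ((up L).map (wz N σ)).prod = (L.map (wz N (fun w => σ (some w)))).prod := by
  rw [up, List.map_map]
  rfl

theorem inner0 (N : ℕ) (a : Fin N) (k : ℕ) :
    ∑ c : Fin N, ((if c = a then (N : ℤ) else 0) - 1) ^ k
      = N * (-1) ^ k + (((N : ℤ) - 1) ^ k - (-1) ^ k) := by
  have h : ∀ c : Fin N, ((if c = a then (N : ℤ) else 0) - 1) ^ k
      = (-1) ^ k + if c = a then (((N : ℤ) - 1) ^ k - (-1) ^ k) else 0 := by
    intro c
    split_ifs <;> simp
  simp only [h, Finset.sum_add_distrib, Finset.sum_ite_eq', Finset.mem_univ, if_true,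
    Finset.sum_const, Finset.card_univ, Fintype.card_fin, nsmul_eq_mul]

theorem inner1 (N : ℕ) (a b : Fin N) (k : ℕ) :
    ∑ c : Fin N, ((if c = b then (N : ℤ) else 0) - 1) * ((if c = a then (N : ℤ) else 0) - 1) ^ k
      = (((N : ℤ) - 1) ^ k - (-1) ^ k) * ((if a = b then (N : ℤ) else 0) - 1) := by
  have h : ∀ c : Fin N, ((if c = b then (N : ℤ) else 0) - 1) * ((if c = a then (N : ℤ) else 0) - 1) ^ k
      = (if c = b then (N : ℤ) * (-1) ^ k else 0) - (-1) ^ k
        + if c = a then (((N : ℤ) - 1) ^ k - (-1) ^ k) * ((if a = b then (N : ℤ) else 0) - 1) else 0 := by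
    intro c
    by_cases h1 : c = a
    · subst h1
      by_cases h2 : c = b
      · rw [if_pos h2, if_pos h2, if_pos rfl, if_pos rfl]; ring
      · rw [if_neg h2, if_neg h2, if_pos rfl, if_pos rfl]; ring
    · by_cases h2 : c = b
      · rw [if_pos h2, if_pos h2, if_neg h1, if_neg h1]; ring
      · rw [if_neg h2, if_neg h2, if_neg h1, if_neg h1]; ring
  simp only [h, Finset.sum_add_distrib, Finset.sum_sub_distrib, Finset.sum_ite_eq', Finset.mem_univ,
    if_true, Finset.sum_const, Finset.card_univ, Fintype.card_fin, nsmul_eq_mul]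
  ring

/-- `k` parallel edges from the new vertex to `u` -/
def par (k : ℕ) (u : V) (L : List (V × V)) : List (Option V × Option V) :=
  List.replicate k (none, some u) ++ up L

theorem par_sum (k : ℕ) (u : V) (L : List (V × V)) (N : ℕ) :
    ∑ σ : Option V → Fin N, ((par k u L).map (wz N σ)).prod
      = (N * (-1) ^ k + (((N : ℤ) - 1) ^ k - (-1) ^ k)) * ∑ τ : V → Fin N, (L.map (wz N τ)).prod := by
  rw [Finset.mul_sum]
  have h := sum_option N (fun (c : Fin N) (τ : V → Fin N) =>
    ((if c = τ u then (N : ℤ) else 0) - 1) ^ k * (L.map (wz N τ)).prod)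
  calc ∑ σ : Option V → Fin N, ((par k u L).map (wz N σ)).prod
      = ∑ σ : Option V → Fin N, ((if σ none = σ (some u) then (N : ℤ) else 0) - 1) ^ k *
        (L.map (wz N (fun w => σ (some w)))).prod := by
        refine Finset.sum_congr rfl fun σ _ => ?_
        rw [par, List.map_append, List.prod_append, up_prod, List.map_replicate,
          List.prod_replicate, wz]
    _ = _ := by
        rw [h]
        refine Finset.sum_congr rfl fun τ _ => ?_
        rw [← Finset.sum_mul, inner0]

theorem par_sum1 (k : ℕ) (u v : V) (L : List (V × V)) (N : ℕ) :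
    ∑ σ : Option V → Fin N, (((none, some v) :: par k u L).map (wz N σ)).prod
      = (((N : ℤ) - 1) ^ k - (-1) ^ k) * ∑ τ : V → Fin N, (((u, v) :: L).map (wz N τ)).prod := by
  rw [Finset.mul_sum]
  have h := sum_option N (fun (c : Fin N) (τ : V → Fin N) =>
    (((if c = τ v then (N : ℤ) else 0) - 1) *
    ((if c = τ u then (N : ℤ) else 0) - 1) ^ k) * (L.map (wz N τ)).prod)
  calc ∑ σ : Option V → Fin N, (((none, some v) :: par k u L).map (wz N σ)).prod
      = ∑ σ : Option V → Fin N, (((if σ none = σ (some v) then (N : ℤ) else 0) - 1) *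
        ((if σ none = σ (some u) then (N : ℤ) else 0) - 1) ^ k) *
        (L.map (wz N (fun w => σ (some w)))).prod := by
        refine Finset.sum_congr rfl fun σ _ => ?_
        rw [List.map_cons, List.prod_cons, par, List.map_append, List.prod_append, up_prod,
          List.map_replicate, List.prod_replicate, wz, wz, mul_assoc]
    _ = _ := by
        rw [h]
        refine Finset.sum_congr rfl fun τ _ => ?_
        rw [← Finset.sum_mul, inner1, List.map_cons, List.prod_cons, wz, mul_assoc]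

theorem QL_par (k : ℕ) (u : V) (L : List (V × V)) (P : ℤ[X])
    (hP : ∀ N : ℕ, 1 ≤ N → (N : ℤ) * P.eval (N : ℤ) = N * (-1) ^ k + (((N : ℤ) - 1) ^ k - (-1) ^ k)) :
    QL (par k u L) = P * QL L := by
  apply poly_eq_of_nat
  intro N hN
  have hN0 : (N : ℤ) ^ Fintype.card (Option V) ≠ 0 := by
    apply pow_ne_zero
    exact_mod_cast (by omega : N ≠ 0)
  apply mul_left_cancel₀ hN0
  rw [QL_pottsZ N hN, par_sum, ← QL_pottsZ N hN, Fintype.card_option, eval_mul, pow_succ,
    ← hP N hN]
  ring

theorem QL_par1 (k : ℕ) (u v : V) (L : List (V × V)) (P : ℤ[X])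
    (hP : ∀ N : ℕ, 1 ≤ N → (N : ℤ) * P.eval (N : ℤ) = (((N : ℤ) - 1) ^ k - (-1) ^ k)) :
    QL ((none, some v) :: par k u L) = P * QL ((u, v) :: L) := by
  apply poly_eq_of_nat
  intro N hN
  have hN0 : (N : ℤ) ^ Fintype.card (Option V) ≠ 0 := by
    apply pow_ne_zero
    exact_mod_cast (by omega : N ≠ 0)
  apply mul_left_cancel₀ hN0
  rw [QL_pottsZ N hN, par_sum1, ← QL_pottsZ N hN, Fintype.card_option, eval_mul, pow_succ,
    ← hP N hN]
  ring

end series

/-- insertion of `b` double and `c` triple edges in series. -/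
theorem chain {V : Type} [Fintype V] [DecidableEq V] (L : List (V × V)) (u v : V) (huv : u ≠ v)
    (b c : ℕ) : ∃ (V' : Type) (_ : Fintype V') (_ : DecidableEq V') (L' : List (V' × V'))
      (u' v' : V'), u' ≠ v' ∧
      QL ((u', v') :: L') = (X - 2) ^ b * (X ^ 2 - 3 * X + 3) ^ c * QL ((u, v) :: L) ∧
      QL L' = (X - 1) ^ b * ((X - 1) * (X - 2)) ^ c * QL L := by
  induction c with
  | zero =>
    induction b with
    | zero => exact ⟨V, inferInstance, inferInstance, L, u, v, huv, by simp, by simp⟩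
    | succ b ih =>
      obtain ⟨V', i1, i2, L', u', v', hne, h1, h2⟩ := ih
      refine ⟨Option V', inferInstance, inferInstance, par 2 u' L', none, some v', by simp, ?_, ?_⟩
      · rw [QL_par1 2 u' v' L' (X - 2) (by
          intro N _
          simp only [eval_sub, eval_X, eval_ofNat]
          ring), h1]
        ring
      · rw [QL_par 2 u' L' (X - 1) (by
          intro N _
          simp only [eval_sub, eval_X, eval_one]
          ring), h2]
        ring
  | succ c ih =>
    obtain ⟨V', i1, i2, L', u', v', hne, h1, h2⟩ := ih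
    refine ⟨Option V', inferInstance, inferInstance, par 3 u' L', none, some v', by simp, ?_, ?_⟩
    · rw [QL_par1 3 u' v' L' (X ^ 2 - 3 * X + 3) (by
        intro N _
        simp only [eval_sub, eval_add, eval_mul, eval_pow, eval_X, eval_ofNat]
        ring), h1]
      ring
    · rw [QL_par 3 u' L' ((X - 1) * (X - 2)) (by
        intro N _
        simp only [eval_sub, eval_mul, eval_X, eval_one, eval_ofNat]
        ring), h2]
      ring

theorem exists_chain {V : Type} [Fintype V] [DecidableEq V] (L : List (V × V)) (u v : V)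
    (huv : u ≠ v) (b c : ℕ) : ∃ (V' : Type) (_ : Fintype V') (_ : DecidableEq V')
      (L' : List (V' × V')), QL L' = (X - 2) ^ b * (X ^ 2 - 3 * X + 3) ^ c * QL ((u, v) :: L) +
        (X - 1) ^ b * ((X - 1) * (X - 2)) ^ c * QL L := by
  obtain ⟨V', i1, i2, L', u', v', hne, h1, h2⟩ := chain L u v huv b c
  refine ⟨{w : V' // w ≠ v'}, inferInstance, inferInstance, cn u' v' hne L', ?_⟩
  have h3 := QL_contr u' v' hne L'
  rw [← h1, ← h2, h3]
  ring

/-! ### the ratio of the logarithms -/

/-- `log((q²-3q+3)/((q-1)(q-2))) / log((q-1)/(q-2))`, with `q = t + 2`. -/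
noncomputable def ratF (t : ℝ) : ℝ :=
  (Real.log (t ^ 2 + t + 1) - Real.log (t ^ 2 + t)) / (Real.log (t + 1) - Real.log t)

theorem log_two_bound {a : ℝ} (ha : 0 < a) :
    2 / (2 * a + 1) < Real.log (a + 1) - Real.log a := by
  have h := Real.hasSum_log_sub_log_of_abs_lt_one (x := 1 / (2 * a + 1)) (by
    rw [abs_of_pos (by positivity), div_lt_one (by positivity)]
    linarith)
  have h1 : Real.log (1 + 1 / (2 * a + 1)) - Real.log (1 - 1 / (2 * a + 1))
      = Real.log (a + 1) - Real.log a := by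
    have e1 : 1 + 1 / (2 * a + 1) = (2 / (2 * a + 1)) * (a + 1) := by field_simp; ring
    have e2 : 1 - 1 / (2 * a + 1) = (2 / (2 * a + 1)) * a := by field_simp; ring
    rw [e1, e2, Real.log_mul (by positivity) (by positivity),
      Real.log_mul (by positivity) (by positivity)]
    ring
  rw [h1] at h
  have hpos : ∀ k : ℕ, 0 ≤ 2 * (1 / (2 * (k : ℝ) + 1)) * (1 / (2 * a + 1)) ^ (2 * k + 1) := by
    intro k; positivity
  have h2 := sum_le_hasSum (range 2) (fun k _ => hpos k) h
  rw [Finset.sum_range_succ, Finset.sum_range_one] at h2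
  have h3 : (0 : ℝ) < 2 * (1 / (2 * ((1 : ℕ) : ℝ) + 1)) * (1 / (2 * a + 1)) ^ (2 * 1 + 1) := by
    positivity
  have h4 : 2 * (1 / (2 * ((0 : ℕ) : ℝ) + 1)) * (1 / (2 * a + 1)) ^ (2 * 0 + 1) = 2 / (2 * a + 1) := by
    simp
    ring
  rw [h4] at h2
  linarith

theorem log_one_bound {t : ℝ} (ht : 0 < t) : Real.log (t + 1) - Real.log t ≤ 1 / t := by
  have h := Real.log_le_sub_one_of_pos (x := (t + 1) / t) (by positivity)
  rw [Real.log_div (by positivity) (by positivity)] at h
  have : (t + 1) / t - 1 = 1 / t := by field_simp; ring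
  linarith

theorem ratF_strictAnti : StrictAntiOn ratF (Set.Ioi 1) := by
  have hder : ∀ t : ℝ, 1 < t → HasDerivAt ratF
      ((((2 * t + 1) / (t ^ 2 + t + 1) - (2 * t + 1) / (t ^ 2 + t)) *
        (Real.log (t + 1) - Real.log t) -
        (Real.log (t ^ 2 + t + 1) - Real.log (t ^ 2 + t)) * (1 / (t + 1) - 1 / t)) /
        (Real.log (t + 1) - Real.log t) ^ 2) t := by
    intro t ht
    have h0 : 0 < t := by linarith
    have d2 : HasDerivAt (fun t : ℝ => t ^ 2 + t) (2 * t + 1) t := by
      have := (hasDerivAt_pow 2 t).add (hasDerivAt_id t)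
      exact this.congr_deriv (by simp)
    have d1 : HasDerivAt (fun t : ℝ => t ^ 2 + t + 1) (2 * t + 1) t := d2.add_const (1 : ℝ)
    have d3 : HasDerivAt (fun t : ℝ => t + 1) 1 t := (hasDerivAt_id t).add_const (1 : ℝ)
    have l1 := d1.log (by positivity)
    have l2 := d2.log (by positivity)
    have l3 := d3.log (by positivity)
    have l4 := Real.hasDerivAt_log h0.ne'
    have hne : Real.log (t + 1) - Real.log t ≠ 0 := by
      have := log_two_bound h0
      have : 0 < 2 / (2 * t + 1) := by positivity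
      linarith
    have := (l1.sub l2).div (l3.sub l4) hne
    refine HasDerivAt.congr_deriv (f := ratF) this ?_
    rw [one_div, one_div]
    rfl
  apply strictAntiOn_of_deriv_neg (convex_Ioi 1)
  · intro t ht
    exact (hder t ht).continuousAt.continuousWithinAt
  · intro t ht
    rw [interior_Ioi] at ht
    have ht1 : 1 < t := ht
    have h0 : 0 < t := by linarith
    rw [(hder t ht1).deriv]
    have hb := log_two_bound h0
    have hb0 : 0 < 2 / (2 * t + 1) := by positivity
    have hpos : 0 < Real.log (t + 1) - Real.log t := by linarith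
    apply div_neg_of_neg_of_pos _ (by positivity)
    have hc := log_one_bound (t := t ^ 2 + t) (by positivity)
    have e1 : (2 * t + 1) / (t ^ 2 + t + 1) - (2 * t + 1) / (t ^ 2 + t)
        = -((2 * t + 1) / ((t ^ 2 + t + 1) * (t ^ 2 + t))) := by
      field_simp
      ring
    have e2 : 1 / (t + 1) - 1 / t = -(1 / (t ^ 2 + t)) := by
      field_simp
      ring
    rw [e1, e2]
    have h1 : (2 * t + 1) / ((t ^ 2 + t + 1) * (t ^ 2 + t)) * (2 / (2 * t + 1)) <
        (2 * t + 1) / ((t ^ 2 + t + 1) * (t ^ 2 + t)) * (Real.log (t + 1) - Real.log t) :=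
      mul_lt_mul_of_pos_left hb (by positivity)
    have h2 : (Real.log (t ^ 2 + t + 1) - Real.log (t ^ 2 + t)) * (1 / (t ^ 2 + t)) ≤
        1 / (t ^ 2 + t) * (1 / (t ^ 2 + t)) := mul_le_mul_of_nonneg_right hc (by positivity)
    have h3 : (2 * t + 1) / ((t ^ 2 + t + 1) * (t ^ 2 + t)) * (2 / (2 * t + 1))
        = 2 / ((t ^ 2 + t + 1) * (t ^ 2 + t)) := by
      field_simp
    have h4 : 1 / (t ^ 2 + t) * (1 / (t ^ 2 + t)) < 2 / ((t ^ 2 + t + 1) * (t ^ 2 + t)) := by
      rw [one_div_mul_one_div, div_lt_div_iff₀ (by positivity) (by positivity)]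
      nlinarith [mul_pos h0 h0]
    linarith

theorem exists_exponents {q₁ q₂ : ℝ} (h1 : 3 < q₁) (h12 : q₁ < q₂) : ∃ b c : ℕ,
    (q₁ - 1) ^ b * ((q₁ - 1) * (q₁ - 2)) ^ c < (q₁ - 2) ^ b * (q₁ ^ 2 - 3 * q₁ + 3) ^ c ∧
    (q₂ - 2) ^ b * (q₂ ^ 2 - 3 * q₂ + 3) ^ c < (q₂ - 1) ^ b * ((q₂ - 1) * (q₂ - 2)) ^ c := by
  have hR : ratF (q₂ - 2) < ratF (q₁ - 2) :=
    ratF_strictAnti (by simp; linarith) (by simp; linarith) (by linarith)
  have key : ∀ q : ℝ, 3 < q → 0 < Real.log (q - 1) - Real.log (q - 2) ∧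
      ratF (q - 2) * (Real.log (q - 1) - Real.log (q - 2)) =
        Real.log (q ^ 2 - 3 * q + 3) - Real.log ((q - 1) * (q - 2)) ∧
      0 < Real.log (q ^ 2 - 3 * q + 3) - Real.log ((q - 1) * (q - 2)) := by
    intro q hq
    have ha : 0 < Real.log (q - 1) - Real.log (q - 2) := by
      have := log_two_bound (a := q - 2) (by linarith)
      have h0 : 0 < 2 / (2 * (q - 2) + 1) := by
        apply div_pos (by norm_num); linarith
      have e : q - 2 + 1 = q - 1 := by ring
      rw [e] at this
      linarith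
    refine ⟨ha, ?_, ?_⟩
    · rw [ratF]
      have e1 : (q - 2) ^ 2 + (q - 2) + 1 = q ^ 2 - 3 * q + 3 := by ring
      have e2 : (q - 2) ^ 2 + (q - 2) = (q - 1) * (q - 2) := by ring
      have e3 : q - 2 + 1 = q - 1 := by ring
      rw [e1, e2, e3]
      field_simp
    · rw [sub_pos]
      apply Real.log_lt_log
      · apply mul_pos <;> linarith
      · nlinarith
  obtain ⟨a1, k1, g1⟩ := key q₁ h1
  obtain ⟨a2, k2, g2⟩ := key q₂ (by linarith)
  have hR2 : 0 < ratF (q₂ - 2) := by
    by_contra hcon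
    push Not at hcon
    have := mul_nonpos_of_nonpos_of_nonneg hcon a2.le
    linarith
  obtain ⟨r, hr1, hr2⟩ := exists_rat_btwn hR
  have hr0 : (0 : ℝ) < r := by linarith
  have hr0' : 0 < r := by exact_mod_cast hr0
  obtain ⟨b, hb⟩ : ∃ b : ℕ, r.num = b := Int.eq_ofNat_of_zero_le (Rat.num_pos.2 hr0').le
  have hden : (0 : ℝ) < (r.den : ℝ) := by exact_mod_cast r.den_pos
  have hrbc : (r : ℝ) * (r.den : ℝ) = (b : ℝ) := by
    have h := Rat.mul_den_eq_num r
    rw [hb] at h
    have h' : ((r * (r.den : ℚ) : ℚ) : ℝ) = (((b : ℤ) : ℚ) : ℝ) := by rw [h]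
    push_cast at h'
    exact h'
  refine ⟨b, r.den, ?_, ?_⟩
  · have p1 : 0 < q₁ - 1 := by linarith
    have p2 : 0 < q₁ - 2 := by linarith
    have p3 : 0 < (q₁ - 1) * (q₁ - 2) := mul_pos p1 p2
    have p4 : 0 < q₁ ^ 2 - 3 * q₁ + 3 := by nlinarith
    rw [← Real.log_lt_log_iff (by positivity) (by positivity),
      Real.log_mul (by positivity) (by positivity), Real.log_mul (by positivity) (by positivity),
      Real.log_pow, Real.log_pow, Real.log_pow, Real.log_pow, ← hrbc]
    have : (r : ℝ) * (r.den : ℝ) * (Real.log (q₁ - 1) - Real.log (q₁ - 2)) <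
        (r.den : ℝ) * (ratF (q₁ - 2) * (Real.log (q₁ - 1) - Real.log (q₁ - 2))) := by
      have : (r : ℝ) * ((r.den : ℝ) * (Real.log (q₁ - 1) - Real.log (q₁ - 2))) <
        ratF (q₁ - 2) * ((r.den : ℝ) * (Real.log (q₁ - 1) - Real.log (q₁ - 2))) :=
        mul_lt_mul_of_pos_right hr2 (mul_pos hden a1)
      linarith
    rw [k1] at this
    linarith
  · have p1 : 0 < q₂ - 1 := by linarith
    have p2 : 0 < q₂ - 2 := by linarith
    have p3 : 0 < (q₂ - 1) * (q₂ - 2) := mul_pos p1 p2
    have p4 : 0 < q₂ ^ 2 - 3 * q₂ + 3 := by nlinarith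
    rw [← Real.log_lt_log_iff (by positivity) (by positivity),
      Real.log_mul (by positivity) (by positivity), Real.log_mul (by positivity) (by positivity),
      Real.log_pow, Real.log_pow, Real.log_pow, Real.log_pow, ← hrbc]
    have : (r.den : ℝ) * (ratF (q₂ - 2) * (Real.log (q₂ - 1) - Real.log (q₂ - 2))) <
        (r : ℝ) * (r.den : ℝ) * (Real.log (q₂ - 1) - Real.log (q₂ - 2)) := by
      have : ratF (q₂ - 2) * ((r.den : ℝ) * (Real.log (q₂ - 1) - Real.log (q₂ - 2))) <
        (r : ℝ) * ((r.den : ℝ) * (Real.log (q₂ - 1) - Real.log (q₂ - 2))) :=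
        mul_lt_mul_of_pos_right hr1 (mul_pos hden a2)
      linarith
    rw [k2] at this
    linarith

end Pool.Agent.H140R2.FR
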