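import Mathlib

/-!
# Definitions for the flow-root project

Everything that the modules of the project share.  `𝒜(p) = ∫ exp(-p y² + i y³/3) dy` for `Re p > 0`,
`BB p = √(p/π) 𝒜(p)`, `Ai` is the Airy function, `Ai (p²) = (1/2π) e^{-2p³/3} 𝒜(p)`.
-/

set_option autoImplicit false

open Complex MeasureTheory Set Filter Topology

namespace Pool.Agent.H140R2.FR

/-- `𝒜(p) = ∫ exp(-p y² + i y³/3) dy` (absolutely convergent for `Re p > 0`). -/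
noncomputable def cA (p : ℂ) : ℂ := ∫ y : ℝ, cexp (-p * (y : ℂ) ^ 2 + I * (y : ℂ) ^ 3 / 3)

/-- `B(p) = √(p/π) 𝒜(p)`, principal square root. -/
noncomputable def BB (p : ℂ) : ℂ := (p / (Real.pi : ℂ)) ^ ((1 : ℂ) / 2) * cA p

/-- the Airy function, by its integral over the line `Im = 1`. -/
noncomputable def Ai (z : ℂ) : ℂ :=
  ((1 / (2 * Real.pi) : ℝ) : ℂ) *
    ∫ s : ℝ, cexp (I * (((s : ℂ) + I) ^ 3 / 3 + z * ((s : ℂ) + I)))

/-- the coefficients of the expansion `B(p) ~ ∑ (-1)^j b_j / 576^j p^{-3j}`. -/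
noncomputable def bR (k : ℕ) : ℝ :=
  ((6 * k).factorial : ℝ) / (((3 * k).factorial : ℝ) * ((2 * k).factorial : ℝ))

/-- the coefficients of the `q`-th power of `∑ b_k x^k` (Miller's recurrence; it is the evaluation
at the real number `q` of `Pool.Agent.Helper96.Flow.dP k`). -/
noncomputable def dR (q : ℝ) : ℕ → ℝ
  | 0 => 1
  | k + 1 => ((k : ℝ) + 1)⁻¹ * ∑ j : Fin (k + 1),
      ((((j : ℕ) : ℝ) + 1) * q - ((k : ℝ) - ((j : ℕ) : ℝ))) * bR ((j : ℕ) + 1) * dR q (k - (j : ℕ))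
termination_by k => k
decreasing_by omega

/-- the inner sums. -/
noncomputable def rhoR (q : ℝ) (j k : ℕ) : ℝ :=
  ∑ i ∈ Finset.range (2 * j + 1),
    12 ^ i * 2 ^ (2 * j - i) * (∏ s ∈ Finset.range i, (3 * (k : ℝ) - 1 + q / 2 + s)) / (i.factorial : ℝ)
      * ((6 * j - 2 * i).factorial : ℝ) / (((2 * j - i).factorial : ℝ) * ((3 * j - i).factorial : ℝ))

/-- the coefficients of the asymptotic expansion of `Psi`. -/
noncomputable def bcoef (q : ℝ) (m : ℕ) : ℝ :=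
  (q ^ 2 / 576) ^ m * ∑ k ∈ Finset.range (m + 1), (-1) ^ k * q ^ k * dR q k * rhoR q (m - k) k

/-- `β` is a holomorphic logarithm of `BB` on the right half-plane, real on the real axis. -/
structure IsLogB (β : ℂ → ℂ) : Prop where
  diff : DifferentiableOn ℂ β {p | 0 < p.re}
  exp_eq : ∀ p : ℂ, 0 < p.re → cexp (β p) = BB p
  real : ∀ x : ℝ, 0 < x → (β x).im = 0

/-- the integrand `e^{λp² - (2/3)qp³} B(p)^q p^{1-q/2}`. -/
noncomputable def FF (β : ℂ → ℂ) (q : ℝ) (lam p : ℂ) : ℂ :=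
  cexp (lam * p ^ 2 - (2 / 3) * (q : ℂ) * p ^ 3 + (q : ℂ) * β p) * p ^ ((1 : ℂ) - (q : ℂ) / 2)

/-- the integral of `FF` over the contour from `1 + i∞` down to `1` and then to `+∞`. -/
noncomputable def JJ (β : ℂ → ℂ) (q : ℝ) (lam : ℂ) : ℂ :=
  (∫ x in Ioi (1 : ℝ), FF β q lam (x : ℂ)) - I * ∫ y in Ioi (0 : ℝ), FF β q lam (1 + (y : ℂ) * I)

/-- the normalised integral, `Psi = 1 + O(λ^{-3})`. -/
noncomputable def Psi (β : ℂ → ℂ) (q : ℝ) (lam : ℂ) : ℂ :=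
  ((q ^ (1 - q / 2) * Real.pi ^ (-(1 / 2 : ℝ)) : ℝ) : ℂ) * JJ β q lam *
    cexp (-(lam ^ 3) / (3 * (q : ℂ) ^ 2)) * lam ^ (((q : ℂ) - 1) / 2)

/-- the sector `0 ≤ arg lam ≤ π/3`; there `‖lam‖ ≤ 2 lam.re`. -/
def Sec (lam : ℂ) : Prop := 0 ≤ lam.im ∧ lam.im ≤ Real.sqrt 3 * lam.re

/-- `FF` centred at the saddle point `lam/q`:
`FF β q lam (lam/q + t) = e^{lam³/(3q²)} (lam/q)^{1-q/2} KK β q lam t`. -/
noncomputable def KK (β : ℂ → ℂ) (q : ℝ) (lam : ℂ) (t : ℝ) : ℂ :=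
  cexp (-lam * (t : ℂ) ^ 2 - (2 / 3) * (q : ℂ) * (t : ℂ) ^ 3 + (q : ℂ) * β (lam / (q : ℂ) + (t : ℂ))) *
    (1 + (q : ℂ) * (t : ℂ) / lam) ^ ((1 : ℂ) - (q : ℂ) / 2)

/-- coefficient of `lam^{-(3k+i)} t^{i+3l}` in the expansion of `e^{lam t²} KK β q lam t`:
`B^q ~ ∑_k (-1)^k d_k/576^k p^{-3k}`, `p = (lam/q)(1 + qt/lam)`,
`(1+x)^{1-q/2-3k} = ∑_i (-1)^i ∏_{s<i}(3k-1+q/2+s)/i! x^i`, `e^{-(2/3)q t³} = ∑_l (-(2/3)q)^l/l! t^{3l}`. -/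
noncomputable def cf (q : ℝ) (k i l : ℕ) : ℝ :=
  ((-1) ^ k * dR q k / 576 ^ k * q ^ (3 * k)) *
    ((-1) ^ i * (∏ s ∈ Finset.range i, (3 * (k : ℝ) - 1 + q / 2 + s)) / (i.factorial : ℝ) * q ^ i) *
    ((-(2 / 3 * q)) ^ l / (l.factorial : ℝ))

/-- `ζ = e^{iπ/3}`. -/
noncomputable def ze : ℂ := cexp (I * (Real.pi : ℂ) / 3)

end Pool.Agent.H140R2.FR
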