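import Mathlib
import Pool.Agent.Helper96.FlowAssemble
import Pool.Agent.H140R2.FR.Defs

/-!
# The sum of flow polynomials over cubic pairings at a real number (C1)
-/

set_option autoImplicit false

open Finset Polynomial

namespace Pool.Agent.H140R2.FR

open Pool.Agent.Helper96.Flow

theorem bR_eq (k : ℕ) : bR k = ((bb k : ℚ) : ℝ) := by
  rw [bR, bb]
  push_cast
  ring

theorem dR_zero (q : ℝ) : dR q 0 = 1 := by rw [dR]

theorem dR_succ (q : ℝ) (k : ℕ) : dR q (k + 1) = ((k : ℝ) + 1)⁻¹ * ∑ j ∈ range (k + 1),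
      (((j : ℝ) + 1) * q - ((k : ℝ) - (j : ℝ))) * bR (j + 1) * dR q (k - j) := by
  rw [dR, Finset.sum_range]

theorem dP_succ (k : ℕ) : dP (k + 1) = C (((k : ℚ) + 1)⁻¹) * ∑ j ∈ range (k + 1),
      (C ((j : ℚ) + 1) * X - C ((k : ℚ) - (j : ℚ))) * C (bb (j + 1)) * dP (k - j) := by
  rw [dP, Finset.sum_range]

theorem dR_eq (q : ℝ) (k : ℕ) : dR q k = aeval q (dP k) := by
  induction k using Nat.strong_induction_on with
  | _ k ih =>
    rcases k with _ | k
    · rw [dR_zero, dP_zero, map_one]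
    · rw [dR_succ, dP_succ]
      simp only [map_mul, map_sum, map_sub, aeval_C, aeval_X]
      congr 1
      · simp
      · refine Finset.sum_congr rfl fun j hj => ?_
        rw [ih (k - j) (by omega), bR_eq]
        simp

theorem rhoR_eq (q : ℝ) (j k : ℕ) : rhoR q j k = aeval q (rhoP j k) := by
  rw [rhoR, rhoP, map_sum]
  refine Finset.sum_congr rfl fun i _ => ?_
  rw [map_mul, map_mul, aeval_C, aeval_C, map_prod]
  have : ∏ s ∈ range i, aeval q (C (3 * (k : ℚ) - 1) + C (1 / 2) * X + C (s : ℚ))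
      = ∏ s ∈ range i, (3 * (k : ℝ) - 1 + q / 2 + s) := by
    apply Finset.prod_congr rfl
    intro s _
    simp only [map_add, map_mul, aeval_C, aeval_X]
    simp
    ring
  rw [this]
  simp only [eq_ratCast]
  push_cast
  ring

theorem aeval_map_int (q : ℝ) (Q : ℤ[X]) :
    aeval q (Q.map (Int.castRingHom ℚ)) = aeval q Q := by
  rw [Polynomial.aeval_def, Polynomial.eval₂_map, Polynomial.aeval_def]
  congr 1

theorem aeval_list_sum (q : ℝ) (l : List ℚ[X]) : aeval q l.sum = (l.map (fun p => aeval q p)).sum := by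
  induction l with
  | nil => simp
  | cons x xs ih => simp [ih]

/-- the identity for the sum of the flow polynomials over all cubic pairings, at a real number. -/
theorem poly_identity_real (m : ℕ) (hm : 1 ≤ m) (q : ℝ) :
    ((pairings (3 * m) (hlist (2 * m))).map (fun L => aeval q (QL L))).sum
      = ((2 * m).factorial : ℝ) / 8 ^ m *
        ∑ k ∈ range (m + 1), (-1) ^ (m - k) * q ^ k * dR q k * rhoR q (m - k) k := by
  have hP : ((pairings (3 * m) (hlist (2 * m))).map (fun L => (QL L).map (Int.castRingHom ℚ))).sum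
      = C (((2 * m).factorial : ℚ) / 8 ^ m) *
        ∑ k ∈ range (m + 1), C ((-1 : ℚ) ^ (m - k)) * X ^ k * dP k * rhoP (m - k) k := by
    apply Polynomial.funext
    intro r
    rw [sum_eval (2 * m), poly_identity m hm r, eval_mul, eval_C, eval_finsetSum]
    congr 1
    refine Finset.sum_congr rfl fun k _ => ?_
    rw [eval_mul, eval_mul, eval_mul, eval_C, eval_pow, eval_X, rhoP_eval]
  have h := congrArg (fun p : ℚ[X] => aeval q p) hP
  rw [aeval_list_sum, List.map_map] at h
  have h1 : ((pairings (3 * m) (hlist (2 * m))).map (fun L => aeval q (QL L)))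
      = (pairings (3 * m) (hlist (2 * m))).map ((fun p => aeval q p) ∘ fun L =>
        (QL L).map (Int.castRingHom ℚ)) := by
    apply List.map_congr_left
    intro L _
    rw [Function.comp_apply, aeval_map_int]
  rw [h1, h, map_mul, map_sum, aeval_C]
  congr 1
  · simp
  · refine Finset.sum_congr rfl fun k _ => ?_
    simp only [map_mul, map_pow, aeval_C, aeval_X, dR_eq, rhoR_eq]
    simp

theorem exists_neg_real (l : List ℝ) (h : l.sum < 0) : ∃ x ∈ l, x < 0 := by
  by_contra hcon
  have hcon' : ∀ x ∈ l, 0 ≤ x := by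
    intro x hx
    by_contra hx'
    exact hcon ⟨x, hx, not_le.mp hx'⟩
  exact absurd (List.sum_nonneg hcon') (not_le.mpr h)

theorem exists_neg_pairing (m : ℕ) (hm : 1 ≤ m) (q : ℝ) (hq : 0 < q)
    (h : (-1) ^ m * bcoef q m < 0) :
    ∃ L ∈ pairings (3 * m) (hlist (2 * m)), aeval q (QL L) < 0 := by
  have h2 := poly_identity_real m hm q
  have h3 : ((pairings (3 * m) (hlist (2 * m))).map (fun L => aeval q (QL L))).sum < 0 := by
    rw [h2]
    apply mul_neg_of_pos_of_neg (by positivity)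
    have e : ∑ k ∈ range (m + 1), (-1) ^ (m - k) * q ^ k * dR q k * rhoR q (m - k) k
        = (-1) ^ m * ∑ k ∈ range (m + 1), (-1) ^ k * q ^ k * dR q k * rhoR q (m - k) k := by
      rw [Finset.mul_sum]
      refine Finset.sum_congr rfl fun k hk => ?_
      have hk' : k ≤ m := by have := Finset.mem_range.1 hk; omega
      obtain ⟨j, rfl⟩ : ∃ j, m = k + j := ⟨m - k, by omega⟩
      have e1 : k + j - k = j := by omega
      rw [e1, pow_add]
      have e2 : ((-1 : ℝ)) ^ k * (-1) ^ k = 1 := by rw [← mul_pow]; simp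
      linear_combination -((-1) ^ j * q ^ k * dR q k * rhoR q j k) * e2
    rw [e]
    rw [bcoef] at h
    have hpos : 0 < (q ^ 2 / 576) ^ m := by positivity
    have h4 : (-1) ^ m * ((q ^ 2 / 576) ^ m *
        ∑ k ∈ range (m + 1), (-1) ^ k * q ^ k * dR q k * rhoR q (m - k) k)
        = (q ^ 2 / 576) ^ m * ((-1) ^ m *
        ∑ k ∈ range (m + 1), (-1) ^ k * q ^ k * dR q k * rhoR q (m - k) k) := by ring
    rw [h4] at h
    exact (pos_iff_neg_of_mul_neg h).1 hpos
  obtain ⟨y, hy, hy0⟩ := exists_neg_real _ h3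
  rw [List.mem_map] at hy
  obtain ⟨L, hL, rfl⟩ := hy
  exact ⟨L, hL, hy0⟩

/-- if the coefficients have constant sign for large `m`, then some cubic pairing has a negative
value of its flow polynomial. -/
theorem exists_neg_of_sign (q : ℝ) (hq : 0 < q)
    (h : ∃ σ : ℝ, (σ = 1 ∨ σ = -1) ∧ ∃ m₀ : ℕ, ∀ m : ℕ, m₀ ≤ m → σ * bcoef q m < 0) :
    ∃ m : ℕ, 1 ≤ m ∧ ∃ L ∈ pairings (3 * m) (hlist (2 * m)), aeval q (QL L) < 0 := by
  obtain ⟨σ, hσ, m₀, hm⟩ := h
  rcases hσ with rfl | rfl
  · refine ⟨2 * (m₀ + 1), by omega, exists_neg_pairing _ (by omega) q hq ?_⟩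
    rw [pow_mul]
    have := hm (2 * (m₀ + 1)) (by omega)
    simpa using this
  · refine ⟨2 * m₀ + 1, by omega, exists_neg_pairing _ (by omega) q hq ?_⟩
    rw [pow_add, pow_mul]
    have := hm (2 * m₀ + 1) (by omega)
    simpa using this

end Pool.Agent.H140R2.FR
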