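import Mathlib
import Pool.Agent.H140R2.FR.CombDensity
import Pool.Agent.H140R2.FR.CombReal

/-!
# A negative value gives flow roots in every neighbourhood (C3, end)
-/

set_option autoImplicit false

open Finset Polynomial Filter Topology

namespace Pool.Agent.H140R2.FR

open Pool.Agent.Helper96.Flow

/-- analytic part: suitable powers change sign. -/
theorem exists_powers {q₁ q₂ : ℝ} (h1 : 3 < q₁) (h12 : q₁ < q₂) (f₁ f₀ : ℝ → ℝ)
    (hf1 : f₁ q₁ < 0) (hf0 : 0 < f₀ q₂) : ∃ b c : ℕ,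
    (q₁ - 2) ^ b * (q₁ ^ 2 - 3 * q₁ + 3) ^ c * f₁ q₁ +
      (q₁ - 1) ^ b * ((q₁ - 1) * (q₁ - 2)) ^ c * f₀ q₁ < 0 ∧
    0 < (q₂ - 2) ^ b * (q₂ ^ 2 - 3 * q₂ + 3) ^ c * f₁ q₂ +
      (q₂ - 1) ^ b * ((q₂ - 1) * (q₂ - 2)) ^ c * f₀ q₂ := by
  obtain ⟨b, c, hb1, hb2⟩ := exists_exponents h1 h12
  have p1 : 0 < q₁ - 1 := by linarith
  have p2 : 0 < q₁ - 2 := by linarith
  have p3 : 0 < (q₁ - 1) * (q₁ - 2) := mul_pos p1 p2
  have p4 : 0 < q₁ ^ 2 - 3 * q₁ + 3 := by nlinarith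
  have r1 : 0 < q₂ - 1 := by linarith
  have r2 : 0 < q₂ - 2 := by linarith
  have r3 : 0 < (q₂ - 1) * (q₂ - 2) := mul_pos r1 r2
  have r4 : 0 < q₂ ^ 2 - 3 * q₂ + 3 := by nlinarith
  set D₁ := (q₁ - 2) ^ b * (q₁ ^ 2 - 3 * q₁ + 3) ^ c with hD1
  set N₁ := (q₁ - 1) ^ b * ((q₁ - 1) * (q₁ - 2)) ^ c with hN1
  set D₂ := (q₂ - 2) ^ b * (q₂ ^ 2 - 3 * q₂ + 3) ^ c with hD2
  set N₂ := (q₂ - 1) ^ b * ((q₂ - 1) * (q₂ - 2)) ^ c with hN2
  have hD1p : 0 < D₁ := by positivity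
  have hN1p : 0 < N₁ := by positivity
  have hD2p : 0 < D₂ := by positivity
  have hN2p : 0 < N₂ := by positivity
  have t1 : Tendsto (fun k : ℕ => f₁ q₁ + (N₁ / D₁) ^ k * f₀ q₁) atTop (𝓝 (f₁ q₁ + 0 * f₀ q₁)) :=
    tendsto_const_nhds.add ((tendsto_pow_atTop_nhds_zero_of_lt_one (by positivity)
      ((div_lt_one hD1p).2 hb1)).mul_const _)
  have e1 : ∀ᶠ k : ℕ in atTop, f₁ q₁ + (N₁ / D₁) ^ k * f₀ q₁ < 0 := by
    apply t1.eventually_lt_const
    simpa using hf1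
  have t2 : Tendsto (fun k : ℕ => (D₂ / N₂) ^ k * f₁ q₂ + f₀ q₂) atTop (𝓝 (0 * f₁ q₂ + f₀ q₂)) :=
    ((tendsto_pow_atTop_nhds_zero_of_lt_one (by positivity)
      ((div_lt_one hN2p).2 hb2)).mul_const _).add tendsto_const_nhds
  have e2 : ∀ᶠ k : ℕ in atTop, 0 < (D₂ / N₂) ^ k * f₁ q₂ + f₀ q₂ := by
    apply t2.eventually_const_lt
    simpa using hf0
  obtain ⟨k, hk1, hk2⟩ := (e1.and e2).exists
  refine ⟨b * k, c * k, ?_, ?_⟩
  · rw [pow_mul, pow_mul, pow_mul, pow_mul, ← mul_pow, ← mul_pow, ← hD1, ← hN1]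
    have : D₁ ^ k * f₁ q₁ + N₁ ^ k * f₀ q₁ = D₁ ^ k * (f₁ q₁ + (N₁ / D₁) ^ k * f₀ q₁) := by
      rw [div_pow]
      field_simp
    rw [this]
    exact mul_neg_of_pos_of_neg (by positivity) hk1
  · rw [pow_mul, pow_mul, pow_mul, pow_mul, ← mul_pow, ← mul_pow, ← hD2, ← hN2]
    have : D₂ ^ k * f₁ q₂ + N₂ ^ k * f₀ q₂ = N₂ ^ k * ((D₂ / N₂) ^ k * f₁ q₂ + f₀ q₂) := by
      rw [div_pow]
      field_simp
    rw [this]
    exact mul_pos (by positivity) hk2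

theorem root_step {V : Type} [Fintype V] [DecidableEq V] (L : List (V × V)) (u v : V)
    (huv : u ≠ v) (q₀ a b : ℝ) (ha3 : 3 ≤ a) (ha : a < q₀) (hb : q₀ < b)
    (h1 : aeval q₀ (QL ((u, v) :: L)) < 0) (h0 : 0 < aeval q₀ (QL L)) :
    ∃ (V' : Type) (_ : Fintype V') (_ : DecidableEq V') (L' : List (V' × V')),
      QL L' ≠ 0 ∧ ∃ q : ℝ, a < q ∧ q < b ∧ aeval q (QL L') = 0 := by
  have c1 : Continuous (fun q : ℝ => aeval q (QL ((u, v) :: L))) := Polynomial.continuous_aeval _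
  have c0 : Continuous (fun q : ℝ => aeval q (QL L)) := Polynomial.continuous_aeval _
  have n1 : ∀ᶠ q in 𝓝 q₀, aeval q (QL ((u, v) :: L)) < 0 :=
    c1.continuousAt.eventually_lt_const h1
  have n0 : ∀ᶠ q in 𝓝 q₀, 0 < aeval q (QL L) := c0.continuousAt.eventually_const_lt h0
  obtain ⟨q₁, hq1, hq1a, hq1b⟩ : ∃ q₁, aeval q₁ (QL ((u, v) :: L)) < 0 ∧ a < q₁ ∧ q₁ < q₀ := by
    have : ∀ᶠ q in 𝓝[<] q₀, aeval q (QL ((u, v) :: L)) < 0 := nhdsWithin_le_nhds n1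
    have h2 : ∀ᶠ q in 𝓝[<] q₀, q ∈ Set.Ioo a q₀ := Ioo_mem_nhdsLT ha
    obtain ⟨q, hq, hq'⟩ := (this.and h2).exists
    exact ⟨q, hq, hq'.1, hq'.2⟩
  obtain ⟨q₂, hq2, hq2a, hq2b⟩ : ∃ q₂, 0 < aeval q₂ (QL L) ∧ q₀ < q₂ ∧ q₂ < b := by
    have : ∀ᶠ q in 𝓝[>] q₀, 0 < aeval q (QL L) := nhdsWithin_le_nhds n0
    have h2 : ∀ᶠ q in 𝓝[>] q₀, q ∈ Set.Ioo q₀ b := Ioo_mem_nhdsGT hb
    obtain ⟨q, hq, hq'⟩ := (this.and h2).exists
    exact ⟨q, hq, hq'.1, hq'.2⟩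
  obtain ⟨m, n, hm, hn⟩ := exists_powers (q₁ := q₁) (q₂ := q₂) (by linarith) (by linarith)
    (fun q => aeval q (QL ((u, v) :: L))) (fun q => aeval q (QL L)) hq1 hq2
  obtain ⟨V', i1, i2, L', hL'⟩ := exists_chain L u v huv m n
  have hval : ∀ q : ℝ, aeval q (QL L') = (q - 2) ^ m * (q ^ 2 - 3 * q + 3) ^ n *
      aeval q (QL ((u, v) :: L)) + (q - 1) ^ m * ((q - 1) * (q - 2)) ^ n * aeval q (QL L) := by
    intro q
    rw [hL']
    simp only [map_add, map_mul, map_pow, map_sub, aeval_X, map_ofNat, map_one]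
  have hneg : aeval q₁ (QL L') < 0 := by rw [hval]; exact hm
  have hpos : 0 < aeval q₂ (QL L') := by rw [hval]; exact hn
  refine ⟨V', i1, i2, L', ?_, ?_⟩
  · intro h
    rw [h] at hneg
    simp at hneg
  · have hcont : ContinuousOn (fun x : ℝ => aeval x (QL L')) (Set.Icc q₁ q₂) :=
      (Polynomial.continuous_aeval (QL L')).continuousOn
    obtain ⟨x, hx, hx0⟩ := intermediate_value_Icc (by linarith) hcont
      (show (0 : ℝ) ∈ Set.Icc _ _ from ⟨hneg.le, hpos.le⟩)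
    exact ⟨x, by linarith [hx.1], by linarith [hx.2], hx0⟩

theorem root_near_aux (q₀ a b : ℝ) (ha3 : 3 ≤ a) (ha : a < q₀) (hb : q₀ < b) (n : ℕ) :
    ∀ (V : Type) [Fintype V] [DecidableEq V] (L : List (V × V)), L.length = n →
      aeval q₀ (QL L) < 0 →
      ∃ (V' : Type) (_ : Fintype V') (_ : DecidableEq V') (L' : List (V' × V')),
        QL L' ≠ 0 ∧ ∃ q : ℝ, a < q ∧ q < b ∧ aeval q (QL L') = 0 := by
  induction n with
  | zero =>
    intro V _ _ L hL hneg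
    rw [List.length_eq_zero_iff] at hL
    subst hL
    rw [QL_nil] at hneg
    simp at hneg
    linarith
  | succ n ih =>
    intro V _ _ L hL hneg
    obtain ⟨⟨u, v⟩, L, rfl⟩ := List.exists_cons_of_length_eq_add_one hL
    have hL' : L.length = n := by simpa using hL
    by_cases huv : u = v
    · subst huv
      rw [QL_loop] at hneg
      have hneg' : (q₀ - 1) * aeval q₀ (QL L) < 0 := by simpa using hneg
      exact ih V L hL' ((pos_iff_neg_of_mul_neg hneg').1 (by linarith))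
    · by_cases h0 : aeval q₀ (QL L) < 0
      · exact ih V L hL' h0
      · by_cases hc : aeval q₀ (QL (cn u v huv L)) < 0
        · exact ih _ (cn u v huv L) (by rw [cn, List.length_map]; exact hL') hc
        · have hcontr := QL_contr u v huv L
          have h2 : aeval q₀ (QL ((u, v) :: L)) =
              aeval q₀ (QL (cn u v huv L)) - aeval q₀ (QL L) := by rw [hcontr, map_sub]
          push Not at h0 hc
          exact root_step L u v huv q₀ a b ha3 ha hb hneg (by linarith)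

/-- **Density theorem.**  If the flow polynomial of some multigraph is negative at `q₀`, then every
interval `(a, b) ∋ q₀`, `a ≥ 3`, contains a root of the flow polynomial of a bridgeless multigraph. -/
theorem root_near (q₀ a b : ℝ) (ha3 : 3 ≤ a) (ha : a < q₀) (hb : q₀ < b)
    {V : Type} [Fintype V] [DecidableEq V] (L : List (V × V)) (hneg : aeval q₀ (QL L) < 0) :
    ∃ (V' : Type) (_ : Fintype V') (E' : Type) (_ : Fintype E') (ends : E' → Sym2 V'),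
      Bridgeless ends ∧ ∃ q : ℝ, a < q ∧ q < b ∧ aeval q (flowPoly ends) = 0 := by
  obtain ⟨V', i1, i2, L', hne, q, h1, h2, h3⟩ :=
    root_near_aux q₀ a b ha3 ha hb L.length V L rfl hneg
  refine ⟨V', i1, Fin L'.length, inferInstance, lends L', ?_, q, h1, h2, ?_⟩
  · apply bridgeless_of_ne_zero
    rw [flowPoly_lends]
    exact hne
  · rw [flowPoly_lends]
    exact h3

end Pool.Agent.H140R2.FR
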