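import Mathlib
import Pool.Agent.H140R2.FR.CombDensity

/-!
# The dichromatic polynomial and series-parallel substitutions (C4, algebra)
-/

set_option autoImplicit false

open Finset Polynomial

namespace Pool.Agent.H140R2.FR

open Pool.Agent.Helper96.Flow

/-- `∑_{S ⊆ E} ∏_{e ∈ S} A e ∏_{e ∉ S} B e q^{k(S)}` -/
noncomputable def ZR {V E : Type} [Fintype E] {R : Type} [CommRing R] (ends : E → Sym2 V)
    (A B : E → R) (q : R) : R := by
  classical
  exact ∑ S : Finset E, (∏ e ∈ S, A e) * (∏ e ∈ Sᶜ, B e) * q ^ kc ends (S : Set E)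

/-- the dichromatic polynomial `Z(G; q, v) = ∑_{A ⊆ E} q^{k(A)} v^{|A|}`. -/
noncomputable def dichr {V E : Type} [Fintype E] (ends : E → Sym2 V) (q v : ℝ) : ℝ :=
  ∑ A : Finset E, q ^ kc ends (A : Set E) * v ^ A.card

theorem ZR_const {V E : Type} [Fintype E] (ends : E → Sym2 V) (q v : ℝ) :
    ZR ends (fun _ => v) (fun _ => 1) q = dichr ends q v := by
  classical
  rw [ZR, dichr]
  refine Finset.sum_congr rfl fun S _ => ?_
  rw [Finset.prod_const, Finset.prod_const_one]
  ring

theorem ZR_map {V E : Type} [Fintype E] {R S : Type} [CommRing R] [CommRing S] (f : R →+* S)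
    (ends : E → Sym2 V) (A B : E → R) (q : R) :
    f (ZR ends A B q) = ZR ends (fun e => f (A e)) (fun e => f (B e)) (f q) := by
  classical
  rw [ZR, ZR, map_sum]
  refine Finset.sum_congr rfl fun S _ => ?_
  rw [map_mul, map_mul, map_prod, map_prod, map_pow]

theorem ZR_scale {V E : Type} [Fintype E] {R : Type} [CommRing R] (ends : E → Sym2 V)
    (A B c : E → R) (q : R) :
    ZR ends (fun e => c e * A e) (fun e => c e * B e) q = (∏ e, c e) * ZR ends A B q := by
  classical
  rw [ZR, ZR, Finset.mul_sum]
  refine Finset.sum_congr rfl fun S _ => ?_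
  rw [Finset.prod_mul_distrib, Finset.prod_mul_distrib, ← Finset.prod_mul_prod_compl S c]
  ring

theorem card_Cst {V E : Type} [Fintype V] [DecidableEq V] (src tgt : E → V) (S : Finset E) (N : ℕ) :
    ((univ.filter (fun σ : V → Fin N => ∀ e ∈ S, σ (src e) = σ (tgt e))).card)
      = N ^ kc (fun e => s(src e, tgt e)) (S : Set E) := by
  classical
  have h := count_cc (fun e => s(src e, tgt e)) (S : Set E) (Fin N)
  rw [Nat.card_fin] at h
  rw [← h, Nat.card_eq_fintype_card, Fintype.card_subtype]
  congr 1
  apply Finset.filter_congr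
  intro σ _
  constructor
  · intro h e he a b hab
    rw [Sym2.eq_iff] at hab
    have := h e (by exact_mod_cast he)
    rcases hab with ⟨rfl, rfl⟩ | ⟨rfl, rfl⟩
    · exact this
    · exact this.symm
  · intro h e he
    exact h e (by exact_mod_cast he) _ _ rfl

/-- Potts formula -/
theorem ZR_potts {V E : Type} [Fintype V] [DecidableEq V] [Fintype E] {R : Type} [CommRing R]
    (src tgt : E → V) (A B : E → R) (N : ℕ) :
    ZR (fun e => s(src e, tgt e)) A B (N : R)
      = ∑ σ : V → Fin N, ∏ e : E, ((if σ (src e) = σ (tgt e) then A e else 0) + B e) := by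
  classical
  have h1 : ∀ σ : V → Fin N, ∏ e : E, ((if σ (src e) = σ (tgt e) then A e else 0) + B e) =
      ∑ S ∈ (univ : Finset E).powerset, (if ∀ e ∈ S, σ (src e) = σ (tgt e) then
        (∏ e ∈ S, A e) * (∏ e ∈ Sᶜ, B e) else 0) := by
    intro σ
    rw [Finset.prod_add]
    refine Finset.sum_congr rfl fun S _ => ?_
    rw [← Finset.compl_eq_univ_sdiff]
    split_ifs with h
    · rw [Finset.prod_congr rfl (fun e he => by rw [if_pos (h e he)])]
    · push Not at h
      obtain ⟨e, he, hne⟩ := h
      rw [Finset.prod_eq_zero he (by rw [if_neg hne]), zero_mul]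
  simp only [h1]
  rw [Finset.sum_comm, ZR, Finset.powerset_univ]
  refine Finset.sum_congr rfl fun S _ => ?_
  have hc : ((univ.filter (fun σ : V → Fin N => ∀ e ∈ S, σ (src e) = σ (tgt e))).card)
      = N ^ kc (fun e => s(src e, tgt e)) (S : Set E) := by
    convert card_Cst src tgt S N
  rw [Finset.sum_ite, Finset.sum_const_zero, add_zero, Finset.sum_const, nsmul_eq_mul, hc]
  push_cast
  ring

/-- the sum for a list of weighted edges. -/
noncomputable def ZL {V R : Type} [CommRing R] (M : List (V × V × R × R)) (q : R) : R :=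
  ZR (fun i : Fin M.length => s((M.get i).1, (M.get i).2.1)) (fun i => (M.get i).2.2.1)
    (fun i => (M.get i).2.2.2) q

/-- Potts weight -/
def wk {V R : Type} [CommRing R] (N : ℕ) (σ : V → Fin N) (p : V × V × R × R) : R :=
  (if σ p.1 = σ p.2.1 then p.2.2.1 else 0) + p.2.2.2

theorem ZL_potts {V R : Type} [Fintype V] [DecidableEq V] [CommRing R] (M : List (V × V × R × R))
    (N : ℕ) : ZL M (N : R) = ∑ σ : V → Fin N, (M.map (wk N σ)).prod := by
  rw [ZL, ZR_potts]
  refine Finset.sum_congr rfl fun σ _ => ?_
  rw [← Fin.prod_univ_fun_getElem]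
  apply Finset.prod_congr rfl
  intro e _
  rfl

theorem ZR_equiv {V E E' : Type} [Fintype V] [DecidableEq V] [Fintype E] [Fintype E'] {R : Type} [CommRing R]
    (φ : E ≃ E') (ends : E' → Sym2 V) (A B : E' → R) (q : R) :
    ZR (fun e => ends (φ e)) (fun e => A (φ e)) (fun e => B (φ e)) q = ZR ends A B q := by
  classical
  rw [ZR, ZR]
  refine Fintype.sum_equiv (Equiv.finsetCongr φ) _ _ ?_
  intro S
  have h1 : (∏ e ∈ (Equiv.finsetCongr φ) S, A e) = ∏ e ∈ S, A (φ e) := by
    simp [Equiv.finsetCongr]
  have h2 : (∏ e ∈ ((Equiv.finsetCongr φ) S)ᶜ, B e) = ∏ e ∈ Sᶜ, B (φ e) := by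
    have : ((Equiv.finsetCongr φ) S)ᶜ = (Sᶜ).map φ.toEmbedding := by
      ext x
      simp [Equiv.finsetCongr]
    rw [this, Finset.prod_map]
    rfl
  have h3 : kc ends (((Equiv.finsetCongr φ) S : Finset E') : Set E')
      = kc (fun e => ends (φ e)) (S : Set E) := by
    rw [kc, kc]
    have : ends '' (((Equiv.finsetCongr φ) S : Finset E') : Set E')
        = (fun e => ends (φ e)) '' (S : Set E) := by
      ext x
      simp only [Equiv.finsetCongr, Equiv.coe_fn_mk, Finset.coe_map, Set.mem_image,
        Finset.mem_coe, Equiv.coe_toEmbedding]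
      constructor
      · rintro ⟨y, ⟨z, hz, rfl⟩, rfl⟩
        exact ⟨z, hz, rfl⟩
      · rintro ⟨z, hz, rfl⟩
        exact ⟨φ z, ⟨z, hz, rfl⟩, rfl⟩
    rw [this]
  rw [h1, h2, h3]

theorem ZL_map {V R S : Type} [Fintype V] [DecidableEq V] [CommRing R] [CommRing S] (f : R →+* S)
    (M : List (V × V × R × R)) (q : R) :
    f (ZL M q) = ZL (M.map (fun p => (p.1, p.2.1, f p.2.2.1, f p.2.2.2))) (f q) := by
  rw [ZL, ZR_map, ZL]
  symm
  rw [← ZR_equiv (finCongr (by simp : M.length =
    (M.map (fun p => (p.1, p.2.1, f p.2.2.1, f p.2.2.2))).length))]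
  simp

theorem poly_eq_of_nat' (P Q : ℝ[X]) (h : ∀ k : ℕ, 1 ≤ k → P.eval (k : ℝ) = Q.eval (k : ℝ)) :
    P = Q := by
  apply Polynomial.eq_of_infinite_eval_eq
  apply Set.infinite_of_injective_forall_mem (f := fun M : ℕ => ((M + 1 : ℕ) : ℝ))
  · intro a b hab
    have hab' : ((a + 1 : ℕ) : ℝ) = ((b + 1 : ℕ) : ℝ) := hab
    have : a + 1 = b + 1 := by exact_mod_cast hab'
    omega
  · intro M
    rw [Set.mem_ofPred_eq]
    exact h (M + 1) (by omega)

/-! ### series-parallel networks -/

/-- series-parallel two-terminal networks -/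
inductive SP : Type
  | edge : SP
  | ser : SP → SP → SP
  | par : SP → SP → SP

/-- the size -/
def SP.size : SP → ℕ
  | SP.edge => 1
  | SP.ser a b => SP.size a + SP.size b + 1
  | SP.par a b => SP.size a + SP.size b + 1

/-- the kernel `A δ + B` of a network all of whose edges have the kernel `v δ + 1`. -/
def SP.ab {R : Type} [CommRing R] (v q : R) : SP → R × R
  | SP.edge => (v, 1)
  | SP.ser a b => ((SP.ab v q a).1 * (SP.ab v q b).1,
      (SP.ab v q a).1 * (SP.ab v q b).2 + (SP.ab v q a).2 * (SP.ab v q b).1
        + q * (SP.ab v q a).2 * (SP.ab v q b).2)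
  | SP.par a b => ((SP.ab v q a).1 * (SP.ab v q b).1 + (SP.ab v q a).1 * (SP.ab v q b).2
        + (SP.ab v q a).2 * (SP.ab v q b).1, (SP.ab v q a).2 * (SP.ab v q b).2)

theorem SP.ab_map {R S : Type} [CommRing R] [CommRing S] (f : R →+* S) (v q : R) (κ : SP) :
    SP.ab (f v) (f q) κ = (f (SP.ab v q κ).1, f (SP.ab v q κ).2) := by
  induction κ with
  | edge => simp [SP.ab]
  | ser a b iha ihb => simp [SP.ab, iha, ihb]
  | par a b iha ihb => simp [SP.ab, iha, ihb]

/-- an edge labelled by a network as a weighted edge -/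
def lab {V R : Type} [CommRing R] (v q : R) (p : V × V × SP) : V × V × R × R :=
  (p.1, p.2.1, (SP.ab v q p.2.2).1, (SP.ab v q p.2.2).2)

/-- plain edges -/
def pl {V R : Type} [CommRing R] (v : R) (p : V × V) : V × V × R × R := (p.1, p.2, v, 1)

/-- expansion: every multigraph whose edges are labelled by networks is realised by a plain one. -/
theorem expand_aux (n : ℕ) : ∀ (V : Type) [Fintype V] [DecidableEq V] (L : List (V × V))
    (M : List (V × V × SP)), (M.map (fun p => SP.size p.2.2)).sum ≤ n →
    ∃ (V' : Type) (_ : Fintype V') (_ : DecidableEq V') (L' : List (V' × V')),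
      ∀ (v : ℝ) (N : ℕ), (∑ σ : V' → Fin N, ((L'.map (pl v)).map (wk N σ)).prod) =
        ∑ σ : V → Fin N, ((L.map (pl v)).map (wk N σ)).prod *
          ((M.map (lab v (N : ℝ))).map (wk N σ)).prod := by
  induction n with
  | zero =>
    intro V _ _ L M hM
    rcases M with _ | ⟨⟨a, b, κ⟩, M⟩
    · exact ⟨V, inferInstance, inferInstance, L, fun v N => by simp⟩
    · exfalso
      have : 1 ≤ SP.size κ := by cases κ <;> simp [SP.size]
      simp at hM
      omega
  | succ n ih =>
    intro V _ _ L M hM
    rcases M with _ | ⟨⟨a, b, κ⟩, M⟩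
    · exact ⟨V, inferInstance, inferInstance, L, fun v N => by simp⟩
    · rw [List.map_cons, List.sum_cons] at hM
      cases κ with
      | edge =>
        obtain ⟨V', i1, i2, L', h⟩ := ih V ((a, b) :: L) M (by simp [SP.size] at hM; omega)
        refine ⟨V', i1, i2, L', fun v N => ?_⟩
        rw [h v N]
        refine Finset.sum_congr rfl fun σ _ => ?_
        simp only [List.map_cons, List.prod_cons, pl, lab, SP.ab]
        ring
      | par s t =>
        obtain ⟨V', i1, i2, L', h⟩ := ih V L ((a, b, s) :: (a, b, t) :: M) (by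
          simp only [SP.size] at hM
          simp only [List.map_cons, List.sum_cons]
          omega)
        refine ⟨V', i1, i2, L', fun v N => ?_⟩
        rw [h v N]
        refine Finset.sum_congr rfl fun σ _ => ?_
        simp only [List.map_cons, List.prod_cons, lab, SP.ab, wk]
        split_ifs <;> ring
      | ser s t =>
        obtain ⟨V', i1, i2, L', h⟩ := ih (Option V) (up L)
          ((some a, none, s) :: (none, some b, t) :: M.map (fun p => (some p.1, some p.2.1, p.2.2))) (by
          simp only [SP.size] at hM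
          simp only [List.map_cons, List.sum_cons, List.map_map]
          have : (M.map ((fun p : Option V × Option V × SP => SP.size p.2.2) ∘
            (fun p : V × V × SP => (some p.1, some p.2.1, p.2.2)))) =
            M.map (fun p => SP.size p.2.2) := rfl
          rw [this]
          omega)
        refine ⟨V', i1, i2, L', fun v N => ?_⟩
        rw [h v N]
        have hs : ∀ G : Fin N → (V → Fin N) → ℝ,
            ∑ σ : Option V → Fin N, G (σ none) (fun w => σ (some w))
              = ∑ τ : V → Fin N, ∑ c : Fin N, G c τ := by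
          intro G
          rw [Finset.sum_comm, ← Fintype.sum_prod_type' (f := fun (c : Fin N) (τ : V → Fin N) => G c τ)]
          exact Fintype.sum_equiv (Equiv.piOptionEquivProd (β := fun _ : Option V => Fin N)) _ _
            (fun σ => rfl)
        have h2 := hs (fun c τ => ((L.map (pl v)).map (wk N τ)).prod *
          (((if τ a = c then (SP.ab v (N : ℝ) s).1 else 0) + (SP.ab v (N : ℝ) s).2) *
          (((if c = τ b then (SP.ab v (N : ℝ) t).1 else 0) + (SP.ab v (N : ℝ) t).2) *
          ((M.map (lab v (N : ℝ))).map (wk N τ)).prod)))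
        calc ∑ σ : Option V → Fin N, (((up L).map (pl v)).map (wk N σ)).prod *
              ((((some a, none, s) :: (none, some b, t) ::
                M.map (fun p => (some p.1, some p.2.1, p.2.2))).map (lab v (N : ℝ))).map (wk N σ)).prod
            = ∑ σ : Option V → Fin N,
              ((L.map (pl v)).map (wk N (fun w => σ (some w)))).prod *
              (((if σ (some a) = σ none then (SP.ab v (N : ℝ) s).1 else 0) + (SP.ab v (N : ℝ) s).2) *
              (((if σ none = σ (some b) then (SP.ab v (N : ℝ) t).1 else 0) + (SP.ab v (N : ℝ) t).2) *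
              ((M.map (lab v (N : ℝ))).map (wk N (fun w => σ (some w)))).prod)) := by
              refine Finset.sum_congr rfl fun σ _ => ?_
              rw [List.map_cons, List.map_cons, List.map_cons, List.map_cons, List.prod_cons,
                List.prod_cons]
              simp only [up, List.map_map]
              rfl
          _ = _ := by
              rw [h2]
              refine Finset.sum_congr rfl fun τ _ => ?_
              rw [List.map_cons, List.map_cons, List.prod_cons]
              rw [← Finset.mul_sum]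
              congr 1
              have key : ∑ c : Fin N, ((if τ a = c then (SP.ab v (N : ℝ) s).1 else 0) + (SP.ab v (N : ℝ) s).2) *
                  ((if c = τ b then (SP.ab v (N : ℝ) t).1 else 0) + (SP.ab v (N : ℝ) t).2)
                  = (if τ a = τ b then (SP.ab v (N : ℝ) s).1 * (SP.ab v (N : ℝ) t).1 else 0) +
                    ((SP.ab v (N : ℝ) s).1 * (SP.ab v (N : ℝ) t).2 +
                    (SP.ab v (N : ℝ) s).2 * (SP.ab v (N : ℝ) t).1
                    + (N : ℝ) * (SP.ab v (N : ℝ) s).2 * (SP.ab v (N : ℝ) t).2) := by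
                have e : ∀ c : Fin N, ((if τ a = c then (SP.ab v (N : ℝ) s).1 else 0) + (SP.ab v (N : ℝ) s).2) *
                  ((if c = τ b then (SP.ab v (N : ℝ) t).1 else 0) + (SP.ab v (N : ℝ) t).2)
                  = (if τ a = c then (if τ a = τ b then (SP.ab v (N : ℝ) s).1 * (SP.ab v (N : ℝ) t).1 else 0)
                      + (SP.ab v (N : ℝ) s).1 * (SP.ab v (N : ℝ) t).2 else 0)
                    + (if c = τ b then (SP.ab v (N : ℝ) s).2 * (SP.ab v (N : ℝ) t).1 else 0)
                    + (SP.ab v (N : ℝ) s).2 * (SP.ab v (N : ℝ) t).2 := by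
                  intro c
                  by_cases h1 : τ a = c
                  · subst h1
                    split_ifs <;> ring
                  · rw [if_neg h1, if_neg h1]
                    split_ifs <;> ring
                simp only [e, Finset.sum_add_distrib, Finset.sum_ite_eq, Finset.sum_ite_eq',
                  Finset.mem_univ, if_true, Finset.sum_const, Finset.card_univ, Fintype.card_fin,
                  nsmul_eq_mul]
                ring
              have : ∀ c : Fin N, ((if τ a = c then (SP.ab v (N : ℝ) s).1 else 0) + (SP.ab v (N : ℝ) s).2) *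
                  (((if c = τ b then (SP.ab v (N : ℝ) t).1 else 0) + (SP.ab v (N : ℝ) t).2) *
                  ((M.map (lab v (N : ℝ))).map (wk N τ)).prod)
                  = (((if τ a = c then (SP.ab v (N : ℝ) s).1 else 0) + (SP.ab v (N : ℝ) s).2) *
                  ((if c = τ b then (SP.ab v (N : ℝ) t).1 else 0) + (SP.ab v (N : ℝ) t).2)) *
                  ((M.map (lab v (N : ℝ))).map (wk N τ)).prod := by
                intro c; ring
              simp only [this]
              rw [← Finset.sum_mul, key]
              rfl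

/-- a labelled multigraph is realised by a plain one, for every real `q` and `v`. -/
theorem expand {V : Type} [Fintype V] [DecidableEq V] (M : List (V × V × SP)) :
    ∃ (V' : Type) (_ : Fintype V') (_ : DecidableEq V') (L' : List (V' × V')),
      ∀ v q : ℝ, dichr (lends L') q v = ZL (M.map (lab v q)) q := by
  obtain ⟨V', i1, i2, L', h⟩ := expand_aux _ V [] M le_rfl
  refine ⟨V', i1, i2, L', fun v q => ?_⟩
  have hP : ZL (L'.map (pl (C v : ℝ[X]))) X = ZL (M.map (lab (C v : ℝ[X]) X)) X := by
    apply poly_eq_of_nat'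
    intro N _
    have e1 : ((ZL (L'.map (pl (C v : ℝ[X]))) X).eval (N : ℝ)) = ZL (L'.map (pl v)) (N : ℝ) := by
      have := ZL_map (evalRingHom (N : ℝ)) (L'.map (pl (C v : ℝ[X]))) X
      rw [coe_evalRingHom, List.map_map, eval_X] at this
      rw [this]
      congr 2
      funext p
      simp [pl]
    have e2 : ((ZL (M.map (lab (C v : ℝ[X]) X)) X).eval (N : ℝ)) = ZL (M.map (lab v (N : ℝ))) (N : ℝ) := by
      have := ZL_map (evalRingHom (N : ℝ)) (M.map (lab (C v : ℝ[X]) X)) X
      rw [coe_evalRingHom, List.map_map, eval_X] at this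
      rw [this]
      congr 2
      funext p
      have h3 := SP.ab_map (evalRingHom (N : ℝ)) (C v : ℝ[X]) X p.2.2
      rw [coe_evalRingHom, eval_X, eval_C] at h3
      simp only [Function.comp_apply, lab, h3]
    rw [e1, e2, ZL_potts, ZL_potts, h v N]
    simp
  have e1 : ((ZL (L'.map (pl (C v : ℝ[X]))) X).eval q) = ZL (L'.map (pl v)) q := by
    have := ZL_map (evalRingHom q) (L'.map (pl (C v : ℝ[X]))) X
    rw [coe_evalRingHom, List.map_map, eval_X] at this
    rw [this]
    congr 2
    funext p
    simp [pl]
  have e2 : ((ZL (M.map (lab (C v : ℝ[X]) X)) X).eval q) = ZL (M.map (lab v q)) q := by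
    have := ZL_map (evalRingHom q) (M.map (lab (C v : ℝ[X]) X)) X
    rw [coe_evalRingHom, List.map_map, eval_X] at this
    rw [this]
    congr 2
    funext p
    have h3 := SP.ab_map (evalRingHom q) (C v : ℝ[X]) X p.2.2
    rw [coe_evalRingHom, eval_X, eval_C] at h3
    simp only [Function.comp_apply, lab, h3]
  have e3 : ZL (L'.map (pl v)) q = dichr (lends L') q v := by
    rw [ZL, ← ZR_const]
    rw [← ZR_equiv (finCongr (by simp : L'.length = (L'.map (pl v)).length))]
    simp [pl]
    rfl
  rw [← e3, ← e1, ← e2, hP]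

end Pool.Agent.H140R2.FR
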