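import Mathlib
import Pool.Agent.H140R2.FR.CombZ
import Pool.Agent.H140R2.FR.CombMain

/-!
# Zeros of the dichromatic polynomial below the line `v = -q` (C4)
-/

set_option autoImplicit false

open Finset Polynomial Filter Topology

namespace Pool.Agent.H140R2.FR

open Pool.Agent.Helper96.Flow

section algebra

variable {V : Type} [Fintype V] [DecidableEq V]

theorem ZL_ext3 (M M' M'' : List (V × V × ℝ × ℝ)) (c d : ℝ)
    (h : ∀ N : ℕ, 1 ≤ N → ZL M (N : ℝ) = c * ZL M' (N : ℝ) + d * ZL M'' (N : ℝ)) (q : ℝ) :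
    ZL M q = c * ZL M' q + d * ZL M'' q := by
  have hev : ∀ (M : List (V × V × ℝ × ℝ)) (x : ℝ),
      (ZL (M.map (fun p => (p.1, p.2.1, (C p.2.2.1 : ℝ[X]), (C p.2.2.2 : ℝ[X])))) X).eval x = ZL M x := by
    intro M x
    have := ZL_map (evalRingHom x)
      (M.map (fun p => (p.1, p.2.1, (C p.2.2.1 : ℝ[X]), (C p.2.2.2 : ℝ[X])))) X
    rw [coe_evalRingHom, List.map_map, eval_X] at this
    rw [this]
    congr 1
    conv_rhs => rw [← List.map_id M]
    congr 1
    funext p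
    simp
  have hP : ZL (M.map (fun p => (p.1, p.2.1, (C p.2.2.1 : ℝ[X]), (C p.2.2.2 : ℝ[X])))) X =
      C c * ZL (M'.map (fun p => (p.1, p.2.1, (C p.2.2.1 : ℝ[X]), (C p.2.2.2 : ℝ[X])))) X +
      C d * ZL (M''.map (fun p => (p.1, p.2.1, (C p.2.2.1 : ℝ[X]), (C p.2.2.2 : ℝ[X])))) X := by
    apply poly_eq_of_nat'
    intro N hN
    rw [hev, eval_add, eval_mul, eval_mul, eval_C, eval_C, hev, hev]
    exact h N hN
  have := congrArg (fun P : ℝ[X] => P.eval q) hP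
  simp only [eval_add, eval_mul, eval_C, hev] at this
  exact this

/-- the flow weights -/
def fw {R : Type} [CommRing R] (q y : R) (p : V × V) : V × V × R × R := (p.1, p.2, q, -1 + y)

theorem ZL_flow (L : List (V × V)) (q : ℝ) :
    ZL (L.map (fw q 0)) q = q ^ Fintype.card V * aeval q (QL L) := by
  have hP : ZL (L.map (fw (X : ℝ[X]) 0)) X = X ^ Fintype.card V * (QL L).map (Int.castRingHom ℝ) := by
    apply poly_eq_of_nat'
    intro N hN
    have h1 := ZL_map (evalRingHom (N : ℝ)) (L.map (fw (X : ℝ[X]) 0)) X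
    rw [coe_evalRingHom, List.map_map, eval_X] at h1
    rw [h1, ZL_potts, eval_mul, eval_pow, eval_X]
    have h2 : ((QL L).map (Int.castRingHom ℝ)).eval (N : ℝ) = (((QL L).eval (N : ℤ) : ℤ) : ℝ) := by
      rw [show (N : ℝ) = (Int.castRingHom ℝ) (N : ℤ) by simp, Polynomial.eval_map,
        Polynomial.eval₂_at_apply]
      simp
    rw [h2]
    have h3 := congrArg (fun z : ℤ => (z : ℝ)) (QL_pottsZ N hN L)
    push_cast at h3
    rw [h3]
    refine Finset.sum_congr rfl fun σ _ => ?_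
    rw [List.map_map, List.map_map]
    congr 1
    apply List.map_congr_left
    intro p _
    simp only [Function.comp_apply, wk, fw, wz]
    split_ifs <;> simp [sub_eq_add_neg]
  have h1 := ZL_map (evalRingHom q) (L.map (fw (X : ℝ[X]) 0)) X
  rw [coe_evalRingHom, List.map_map, eval_X, hP] at h1
  have h2 : (fun p : V × V × ℝ[X] × ℝ[X] => (p.1, p.2.1, eval q p.2.2.1, eval q p.2.2.2)) ∘
      fw (X : ℝ[X]) 0 = fw q 0 := by
    funext p
    simp [fw]
  rw [h2] at h1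
  rw [← h1, eval_mul, eval_pow, eval_X, Polynomial.eval_map, Polynomial.aeval_def]
  rfl

theorem wk_scale (N : ℕ) (σ : V → Fin N) (u v : V) (t a b : ℝ) :
    wk N σ (u, v, t * a, t * b) = t * wk N σ (u, v, a, b) := by
  simp only [wk]
  split_ifs <;> ring

theorem prod_scale (N : ℕ) (σ : V → Fin N) (t a b : ℝ) (L : List (V × V)) :
    ((L.map (fun p => (p.1, p.2, t * a, t * b))).map (wk N σ)).prod
      = t ^ L.length * ((L.map (fun p => (p.1, p.2, a, b))).map (wk N σ)).prod := by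
  induction L with
  | nil => simp
  | cons p L ih =>
    simp only [List.map_cons, List.prod_cons, List.length_cons]
    rw [ih, wk_scale]
    ring

/-- the factorisation used below -/
theorem ZL_factor (u v : V) (s y0 t y q : ℝ) (L : List (V × V)) :
    ZL ((u, v, s * q, s * (-1 + y0)) :: L.map (fun p => (p.1, p.2, t * q, t * (-1 + y)))) q
      = s * t ^ L.length * (ZL ((u, v, q, -1) :: L.map (fw q y)) q + y0 * ZL (L.map (fw q y)) q) := by
  have h := ZL_ext3 ((u, v, s * q, s * (-1 + y0)) :: L.map (fun p => (p.1, p.2, t * q, t * (-1 + y))))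
    ((u, v, q, -1) :: L.map (fw q y)) (L.map (fw q y)) (s * t ^ L.length) (s * t ^ L.length * y0) (by
      intro N _
      rw [ZL_potts, ZL_potts, ZL_potts, Finset.mul_sum, Finset.mul_sum, ← Finset.sum_add_distrib]
      refine Finset.sum_congr rfl fun σ _ => ?_
      simp only [List.map_cons, List.prod_cons]
      rw [prod_scale]
      have : (L.map (fw q y)) = L.map (fun p => (p.1, p.2, q, -1 + y)) := rfl
      rw [this]
      simp only [wk]
      split_ifs <;> ring) q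
  rw [h]
  ring

/-- dependence on `y` is polynomial -/
theorem cont_tail (q : ℝ) (L : List (V × V)) : Continuous (fun y : ℝ => ZL (L.map (fw q y)) q) := by
  have h : ∀ y : ℝ, ZL (L.map (fw q y)) q = (ZL (L.map (fw (C q : ℝ[X]) X)) (C q)).eval y := by
    intro y
    have := ZL_map (evalRingHom y) (L.map (fw (C q : ℝ[X]) X)) (C q)
    rw [coe_evalRingHom, List.map_map, eval_C] at this
    rw [this]
    congr 2
    funext p
    simp [fw]
  simp only [h]
  exact Polynomial.continuous _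

theorem cont_head (u v : V) (q : ℝ) (L : List (V × V)) :
    Continuous (fun y : ℝ => ZL ((u, v, q, -1) :: L.map (fw q y)) q) := by
  have h : ∀ y : ℝ, ZL ((u, v, q, -1) :: L.map (fw q y)) q
      = (ZL ((u, v, (C q : ℝ[X]), -1) :: L.map (fw (C q : ℝ[X]) X)) (C q)).eval y := by
    intro y
    have := ZL_map (evalRingHom y) ((u, v, (C q : ℝ[X]), -1) :: L.map (fw (C q : ℝ[X]) X)) (C q)
    rw [coe_evalRingHom, List.map_cons, List.map_map, eval_C] at this
    rw [this]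
    congr 2
    · simp
    · congr 1
      funext p
      simp [fw]
  simp only [h]
  exact Polynomial.continuous _

end algebra

/-! ### networks -/

/-- path with `n + 1` edges -/
def SP.path : ℕ → SP
  | 0 => SP.edge
  | n + 1 => SP.ser SP.edge (SP.path n)

/-- `k + 1` copies in series -/
def SP.rep (κ : SP) : ℕ → SP
  | 0 => κ
  | k + 1 => SP.ser κ (SP.rep κ k)

/-- `a + q b` -/
noncomputable def SP.cc (v q : ℝ) (κ : SP) : ℝ := (SP.ab v q κ).1 + q * (SP.ab v q κ).2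

theorem SP.ser_a (v q : ℝ) (s t : SP) :
    (SP.ab v q (SP.ser s t)).1 = (SP.ab v q s).1 * (SP.ab v q t).1 := rfl

theorem SP.ser_c (v q : ℝ) (s t : SP) :
    SP.cc v q (SP.ser s t) = SP.cc v q s * SP.cc v q t := by
  simp only [SP.cc, SP.ab]
  ring

theorem SP.path_a (v q : ℝ) (n : ℕ) : (SP.ab v q (SP.path n)).1 = v ^ (n + 1) := by
  induction n with
  | zero => simp [SP.path, SP.ab]
  | succ n ih => rw [SP.path, SP.ser_a, ih]; simp [SP.ab]; ring

theorem SP.path_c (v q : ℝ) (n : ℕ) : SP.cc v q (SP.path n) = (v + q) ^ (n + 1) := by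
  induction n with
  | zero => simp [SP.path, SP.ab, SP.cc]
  | succ n ih => rw [SP.path, SP.ser_c, ih]; simp [SP.ab, SP.cc]; ring

theorem SP.rep_a (v q : ℝ) (κ : SP) (k : ℕ) :
    (SP.ab v q (SP.rep κ k)).1 = (SP.ab v q κ).1 ^ (k + 1) := by
  induction k with
  | zero => simp [SP.rep]
  | succ n ih => rw [SP.rep, SP.ser_a, ih]; ring

theorem SP.rep_c (v q : ℝ) (κ : SP) (k : ℕ) :
    SP.cc v q (SP.rep κ k) = SP.cc v q κ ^ (k + 1) := by
  induction k with
  | zero => simp [SP.rep]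
  | succ n ih => rw [SP.rep, SP.ser_c, ih]; ring

/-- double edge of paths with `m + 1` edges -/
def SP.dbl (m : ℕ) : SP := SP.par (SP.path m) (SP.path m)

theorem SP.dbl_a (v q : ℝ) (hq : q ≠ 0) (hv : v ≠ 0) (m : ℕ) :
    (SP.ab v q (SP.dbl m)).1 = (v ^ (m + 1)) ^ 2 * (q - 2 + 2 * ((v + q) / v) ^ (m + 1)) / q := by
  have h1 := SP.path_a v q m
  have h2 := SP.path_c v q m
  rw [SP.cc, h1] at h2
  have hb : (SP.ab v q (SP.path m)).2 = ((v + q) ^ (m + 1) - v ^ (m + 1)) / q := by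
    field_simp
    linarith
  simp only [SP.dbl, SP.ab]
  rw [h1, hb, div_pow]
  have : v ^ (m + 1) ≠ 0 := pow_ne_zero _ hv
  field_simp
  ring

theorem SP.dbl_c (v q : ℝ) (hq : q ≠ 0) (hv : v ≠ 0) (m : ℕ) :
    SP.cc v q (SP.dbl m) = (v ^ (m + 1)) ^ 2 * (q - 1 + (((v + q) / v) ^ (m + 1)) ^ 2) / q := by
  have h1 := SP.path_a v q m
  have h2 := SP.path_c v q m
  rw [SP.cc, h1] at h2
  have hb : (SP.ab v q (SP.path m)).2 = ((v + q) ^ (m + 1) - v ^ (m + 1)) / q := by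
    field_simp
    linarith
  simp only [SP.cc, SP.dbl, SP.ab]
  rw [h1, hb, div_pow]
  have : v ^ (m + 1) ≠ 0 := pow_ne_zero _ hv
  field_simp
  ring

/-- the network on the special edge -/
def SP.net (m b c : ℕ) : SP := SP.ser (SP.rep (SP.dbl m) b) (SP.rep SP.edge c)

/-- the transmissivity of the network -/
noncomputable def yy (q : ℝ) (m b c : ℕ) (x : ℝ) : ℝ :=
  ((q - 1 + (x ^ (m + 1)) ^ 2) / (q - 2 + 2 * x ^ (m + 1))) ^ (b + 1) * x ^ (c + 1)

theorem SP.net_a (v q : ℝ) (hq : 2 < q) (hv : v < -q) (m b c : ℕ) :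
    (SP.ab v q (SP.net m b c)).1 ≠ 0 := by
  have hv0 : v ≠ 0 := by linarith
  have hx : 0 < (v + q) / v := div_pos_of_neg_of_neg (by linarith) (by linarith)
  have hxm : 0 < ((v + q) / v) ^ (m + 1) := by positivity
  rw [SP.net, SP.ser_a, SP.rep_a, SP.rep_a, SP.dbl_a v q (by linarith) hv0]
  have h1 : 0 < q - 2 + 2 * ((v + q) / v) ^ (m + 1) := by linarith
  have h2 : (SP.ab v q SP.edge).1 = v := rfl
  rw [h2]
  have h3 : (v ^ (m + 1)) ^ 2 ≠ 0 := pow_ne_zero _ (pow_ne_zero _ hv0)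
  have h4 : q ≠ 0 := by linarith
  exact mul_ne_zero (pow_ne_zero _ (div_ne_zero (mul_ne_zero h3 h1.ne') h4)) (pow_ne_zero _ hv0)

theorem SP.net_y (v q : ℝ) (hq : 2 < q) (hv : v < -q) (m b c : ℕ) :
    SP.cc v q (SP.net m b c) = (SP.ab v q (SP.net m b c)).1 * yy q m b c ((v + q) / v) := by
  have hv0 : v ≠ 0 := by linarith
  have hx : 0 < (v + q) / v := div_pos_of_neg_of_neg (by linarith) (by linarith)
  have hxm : 0 < ((v + q) / v) ^ (m + 1) := by positivity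
  have h4 : q ≠ 0 := by linarith
  rw [SP.net, SP.ser_a, SP.rep_a, SP.rep_a, SP.ser_c, SP.rep_c, SP.rep_c,
    SP.dbl_a v q h4 hv0, SP.dbl_c v q h4 hv0, yy]
  have h1 : 0 < q - 2 + 2 * ((v + q) / v) ^ (m + 1) := by linarith
  have h2 : (SP.ab v q SP.edge).1 = v := rfl
  have h3 : SP.cc v q SP.edge = v + q := by simp [SP.cc, SP.ab]
  rw [h2, h3]
  generalize ((v + q) / v) ^ (m + 1) = z at *
  have e1 : (v ^ (m + 1)) ^ 2 * (q - 1 + z ^ 2) / q
      = (v ^ (m + 1)) ^ 2 * (q - 2 + 2 * z) / q * ((q - 1 + z ^ 2) / (q - 2 + 2 * z)) := by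
    rw [div_mul_div_comm, div_eq_div_iff h4 (mul_ne_zero h4 h1.ne')]
    ring
  have e2 : (v + q) ^ (c + 1) = v ^ (c + 1) * ((v + q) / v) ^ (c + 1) := by
    rw [← mul_pow]
    congr 1
    field_simp
  rw [e1, e2, mul_pow]
  ring

/-- the value of the dichromatic polynomial of the composed graph -/
theorem dichr_compose {V : Type} [Fintype V] [DecidableEq V] (L : List (V × V)) (u w : V) (q : ℝ)
    (hq : 2 < q) (n m b c : ℕ) :
    ∃ (V' : Type) (_ : Fintype V') (_ : DecidableEq V') (L' : List (V' × V')),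
      ∀ v : ℝ, v < -q → ∃ K : ℝ, dichr (lends L') q v = K *
        (ZL ((u, w, q, -1) :: L.map (fw q (((v + q) / v) ^ (n + 1)))) q +
          yy q m b c ((v + q) / v) * ZL (L.map (fw q (((v + q) / v) ^ (n + 1)))) q) := by
  obtain ⟨V', i1, i2, L', h⟩ := expand ((u, w, SP.net m b c) :: L.map (fun p => (p.1, p.2, SP.path n)))
  refine ⟨V', i1, i2, L', fun v hv => ?_⟩
  have hv0 : v ≠ 0 := by linarith
  have hq0 : q ≠ 0 := by linarith
  rw [h v q]
  have ha := SP.net_a v q hq hv m b c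
  have hy := SP.net_y v q hq hv m b c
  set a := (SP.ab v q (SP.net m b c)).1 with haa
  have hb : (SP.ab v q (SP.net m b c)).2 = a / q * (-1 + yy q m b c ((v + q) / v)) := by
    rw [SP.cc, ← haa] at hy
    field_simp
    linarith
  have hpa := SP.path_a v q n
  have hpc := SP.path_c v q n
  have hpb : (SP.ab v q (SP.path n)).2 = v ^ (n + 1) / q * (-1 + ((v + q) / v) ^ (n + 1)) := by
    rw [SP.cc, hpa] at hpc
    rw [div_pow]
    have : v ^ (n + 1) ≠ 0 := pow_ne_zero _ hv0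
    field_simp
    linarith
  have e1 : ((u, w, SP.net m b c) :: L.map (fun p => (p.1, p.2, SP.path n))).map (lab v q)
      = (u, w, a / q * q, a / q * (-1 + yy q m b c ((v + q) / v))) ::
        L.map (fun p => (p.1, p.2, v ^ (n + 1) / q * q, v ^ (n + 1) / q * (-1 + ((v + q) / v) ^ (n + 1)))) := by
    rw [List.map_cons, List.map_map]
    congr 1
    · simp only [lab]
      rw [← haa, hb]
      congr 3
      field_simp
    · apply List.map_congr_left
      intro p _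
      simp only [Function.comp_apply, lab]
      rw [hpa, hpb]
      congr 3
      field_simp
  rw [e1, ZL_factor]
  exact ⟨_, rfl⟩

/-! ### the sign change -/

theorem exists_minimal (q₀ : ℝ) (hq : 1 < q₀) (n : ℕ) :
    ∀ (V : Type) [Fintype V] [DecidableEq V] (L : List (V × V)), L.length = n →
      aeval q₀ (QL L) < 0 →
      ∃ (V' : Type) (_ : Fintype V') (_ : DecidableEq V') (L' : List (V' × V')) (u v : V'),
        aeval q₀ (QL ((u, v) :: L')) < 0 ∧ 0 < aeval q₀ (QL L') := by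
  induction n with
  | zero =>
    intro V _ _ L hL hneg
    rw [List.length_eq_zero_iff] at hL
    subst hL
    rw [QL_nil] at hneg
    simp at hneg
    linarith
  | succ n ih =>
    intro V _ _ L hL hneg
    obtain ⟨⟨u, v⟩, L, rfl⟩ := List.exists_cons_of_length_eq_add_one hL
    have hL' : L.length = n := by simpa using hL
    by_cases huv : u = v
    · subst huv
      rw [QL_loop] at hneg
      have hneg' : (q₀ - 1) * aeval q₀ (QL L) < 0 := by simpa using hneg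
      exact ih V L hL' ((pos_iff_neg_of_mul_neg hneg').1 (by linarith))
    · by_cases h0 : aeval q₀ (QL L) < 0
      · exact ih V L hL' h0
      · by_cases hc : aeval q₀ (QL (cn u v huv L)) < 0
        · exact ih _ (cn u v huv L) (by rw [cn, List.length_map]; exact hL') hc
        · have hcontr := QL_contr u v huv L
          have h2 : aeval q₀ (QL ((u, v) :: L)) =
              aeval q₀ (QL (cn u v huv L)) - aeval q₀ (QL L) := by rw [hcontr, map_sub]
          push Not at h0 hc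
          exact ⟨V, inferInstance, inferInstance, L, u, v, hneg, by linarith⟩

/-- exponents separating two points of `(0,1)` -/
theorem exists_exponents' {κ x₁ x₂ : ℝ} (hκ : 1 < κ) (h1 : 0 < x₁) (h12 : x₁ < x₂) (h2 : x₂ < 1) :
    ∃ b c : ℕ, κ ^ (b + 1) * x₁ ^ (c + 1) < 1 ∧ 1 < κ ^ (b + 1) * x₂ ^ (c + 1) := by
  have hl : 0 < Real.log κ := Real.log_pos hκ
  have l1 : Real.log x₁ < 0 := Real.log_neg h1 (by linarith)
  have l2 : Real.log x₂ < 0 := Real.log_neg (by linarith) h2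
  have l12 : Real.log x₁ < Real.log x₂ := Real.log_lt_log h1 h12
  have hR : -Real.log x₂ / Real.log κ < -Real.log x₁ / Real.log κ := by
    apply div_lt_div_of_pos_right _ hl
    linarith
  obtain ⟨r, hr1, hr2⟩ := exists_rat_btwn hR
  have hr0 : (0 : ℝ) < r := lt_trans (div_pos (by linarith) hl) hr1
  have hr0' : 0 < r := by exact_mod_cast hr0
  obtain ⟨b, hb⟩ : ∃ b : ℕ, r.num = (b + 1 : ℕ) := by
    have h3 := Rat.num_pos.2 hr0'
    refine ⟨r.num.toNat - 1, ?_⟩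
    omega
  obtain ⟨c, hc⟩ : ∃ c : ℕ, r.den = c + 1 := ⟨r.den - 1, by have := r.den_pos; omega⟩
  have hrbc : (r : ℝ) * ((c + 1 : ℕ) : ℝ) = ((b + 1 : ℕ) : ℝ) := by
    have h := Rat.mul_den_eq_num r
    rw [hb, hc] at h
    have h' : ((r * ((c + 1 : ℕ) : ℚ) : ℚ) : ℝ) = ((((b + 1 : ℕ) : ℤ) : ℚ) : ℝ) := by rw [h]
    push_cast at h' ⊢
    exact h'
  have hc0 : (0 : ℝ) < ((c + 1 : ℕ) : ℝ) := by positivity
  rw [div_lt_iff₀ hl] at hr1
  rw [lt_div_iff₀ hl] at hr2
  have hx2 : 0 < x₂ := by linarith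
  have hκ0 : 0 < κ := by linarith
  -- here `b` copies for `κ` need `r = (b+1)/(c+1)`, with `r log κ` between the logarithms
  refine ⟨b, c, ?_, ?_⟩
  · rw [← Real.log_lt_log_iff (by positivity) one_pos, Real.log_one,
      Real.log_mul (by positivity) (by positivity), Real.log_pow, Real.log_pow, ← hrbc]
    have := mul_lt_mul_of_pos_left hr2 hc0
    linarith
  · rw [← Real.log_lt_log_iff one_pos (by positivity), Real.log_one,
      Real.log_mul (by positivity) (by positivity), Real.log_pow, Real.log_pow, ← hrbc]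
    have := mul_lt_mul_of_pos_left hr1 hc0
    linarith

theorem tendsto_ratio (q x : ℝ) (hq : 2 < q) (h0 : 0 < x) (h1 : x < 1) :
    Tendsto (fun m : ℕ => (q - 1 + (x ^ (m + 1)) ^ 2) / (q - 2 + 2 * x ^ (m + 1))) atTop
      (𝓝 ((q - 1) / (q - 2))) := by
  have h2 : Tendsto (fun m : ℕ => x ^ (m + 1)) atTop (𝓝 0) :=
    (tendsto_pow_atTop_nhds_zero_of_lt_one h0.le h1).comp (tendsto_add_atTop_nat 1)
  have h3 : Tendsto (fun m : ℕ => q - 1 + (x ^ (m + 1)) ^ 2) atTop (𝓝 (q - 1 + 0 ^ 2)) :=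
    tendsto_const_nhds.add (h2.pow 2)
  have h4 : Tendsto (fun m : ℕ => q - 2 + 2 * x ^ (m + 1)) atTop (𝓝 (q - 2 + 2 * 0)) :=
    tendsto_const_nhds.add (h2.const_mul 2)
  have h5 := h3.div h4 (by linarith)
  have e : (q - 1 + (0 : ℝ) ^ 2) / (q - 2 + 2 * 0) = (q - 1) / (q - 2) := by simp
  rw [e] at h5
  exact h5

theorem sign_change (q x₁ x₂ : ℝ) (hq : 2 < q) (h1 : 0 < x₁) (h12 : x₁ < x₂) (h2 : x₂ < 1)
    (g₁ g₀ : ℝ → ℝ) (c1 : Continuous g₁) (c0 : Continuous g₀) (hg1 : g₁ 0 < 0) (hg0 : 0 < g₀ 0) :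
    ∃ n m b c : ℕ, g₁ (x₁ ^ (n + 1)) + yy q m b c x₁ * g₀ (x₁ ^ (n + 1)) < 0 ∧
      0 < g₁ (x₂ ^ (n + 1)) + yy q m b c x₂ * g₀ (x₂ ^ (n + 1)) := by
  have hκ : 1 < (q - 1) / (q - 2) := by
    rw [one_lt_div (by linarith)]
    linarith
  obtain ⟨b, c, hb1, hb2⟩ := exists_exponents' hκ h1 h12 h2
  have hx2 : 0 < x₂ := by linarith
  have hx1' : x₁ < 1 := by linarith
  have t1 : Tendsto (fun m : ℕ => ((q - 1 + (x₁ ^ (m + 1)) ^ 2) / (q - 2 + 2 * x₁ ^ (m + 1))) ^ (b + 1)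
      * x₁ ^ (c + 1)) atTop (𝓝 (((q - 1) / (q - 2)) ^ (b + 1) * x₁ ^ (c + 1))) :=
    ((tendsto_ratio q x₁ hq h1 hx1').pow _).mul_const _
  have t2 : Tendsto (fun m : ℕ => ((q - 1 + (x₂ ^ (m + 1)) ^ 2) / (q - 2 + 2 * x₂ ^ (m + 1))) ^ (b + 1)
      * x₂ ^ (c + 1)) atTop (𝓝 (((q - 1) / (q - 2)) ^ (b + 1) * x₂ ^ (c + 1))) :=
    ((tendsto_ratio q x₂ hq hx2 h2).pow _).mul_const _
  obtain ⟨m, hm1, hm2⟩ := ((t1.eventually_lt_const hb1).and (t2.eventually_const_lt hb2)).exists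
  set T₁ := ((q - 1 + (x₁ ^ (m + 1)) ^ 2) / (q - 2 + 2 * x₁ ^ (m + 1))) ^ (b + 1)
      * x₁ ^ (c + 1) with hT1
  set T₂ := ((q - 1 + (x₂ ^ (m + 1)) ^ 2) / (q - 2 + 2 * x₂ ^ (m + 1))) ^ (b + 1)
      * x₂ ^ (c + 1) with hT2
  have hxm1 : 0 < x₁ ^ (m + 1) := by positivity
  have hxm2 : 0 < x₂ ^ (m + 1) := by positivity
  have d1 : 0 < q - 2 + 2 * x₁ ^ (m + 1) := by linarith
  have d2 : 0 < q - 2 + 2 * x₂ ^ (m + 1) := by linarith
  have n1 : 0 < q - 1 + (x₁ ^ (m + 1)) ^ 2 := by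
    have : 0 < (x₁ ^ (m + 1)) ^ 2 := by positivity
    linarith
  have n2 : 0 < q - 1 + (x₂ ^ (m + 1)) ^ 2 := by
    have : 0 < (x₂ ^ (m + 1)) ^ 2 := by positivity
    linarith
  have hT1p : 0 < T₁ := by rw [hT1]; positivity
  have hT2p : 0 < T₂ := by rw [hT2]; positivity
  have hpow : ∀ x : ℝ, 0 < x → x < 1 → Tendsto (fun k : ℕ => x ^ (k + 1)) atTop (𝓝 0) :=
    fun x h0 h1 => (tendsto_pow_atTop_nhds_zero_of_lt_one h0.le h1).comp (tendsto_add_atTop_nat 1)
  have u1 : Tendsto (fun k : ℕ => g₁ (x₁ ^ (k + 1)) + T₁ ^ (k + 1) * g₀ (x₁ ^ (k + 1))) atTop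
      (𝓝 (g₁ 0 + 0 * g₀ 0)) :=
    ((c1.tendsto 0).comp (hpow x₁ h1 hx1')).add
      ((hpow T₁ hT1p hm1).mul ((c0.tendsto 0).comp (hpow x₁ h1 hx1')))
  have u2 : Tendsto (fun k : ℕ => T₂⁻¹ ^ (k + 1) * g₁ (x₂ ^ (k + 1)) + g₀ (x₂ ^ (k + 1))) atTop
      (𝓝 (0 * g₁ 0 + g₀ 0)) :=
    ((hpow T₂⁻¹ (by positivity) (inv_lt_one_of_one_lt₀ hm2)).mul
      ((c1.tendsto 0).comp (hpow x₂ hx2 h2))).add ((c0.tendsto 0).comp (hpow x₂ hx2 h2))
  obtain ⟨k, hk1, hk2⟩ := ((u1.eventually_lt_const (by simpa using hg1)).and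
    (u2.eventually_const_lt (by simpa using hg0))).exists
  obtain ⟨b', hb'⟩ : ∃ b', (b + 1) * (k + 1) = b' + 1 :=
    ⟨(b + 1) * (k + 1) - 1, by have : 0 < (b + 1) * (k + 1) := by positivity
                               omega⟩
  obtain ⟨c', hc'⟩ : ∃ c', (c + 1) * (k + 1) = c' + 1 :=
    ⟨(c + 1) * (k + 1) - 1, by have : 0 < (c + 1) * (k + 1) := by positivity
                               omega⟩
  have hy1 : yy q m b' c' x₁ = T₁ ^ (k + 1) := by
    rw [yy, ← hb', ← hc', pow_mul, pow_mul, ← mul_pow, ← hT1]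
  have hy2 : yy q m b' c' x₂ = T₂ ^ (k + 1) := by
    rw [yy, ← hb', ← hc', pow_mul, pow_mul, ← mul_pow, ← hT2]
  refine ⟨k, m, b', c', ?_, ?_⟩
  · rw [hy1]; exact hk1
  · rw [hy2]
    have e : g₁ (x₂ ^ (k + 1)) + T₂ ^ (k + 1) * g₀ (x₂ ^ (k + 1))
        = T₂ ^ (k + 1) * (T₂⁻¹ ^ (k + 1) * g₁ (x₂ ^ (k + 1)) + g₀ (x₂ ^ (k + 1))) := by
      rw [inv_pow]
      field_simp
    rw [e]
    positivity

theorem yy_cont (q : ℝ) (hq : 2 < q) (m b c : ℕ) (x₁ x₂ : ℝ) (h1 : 0 < x₁) :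
    ContinuousOn (yy q m b c) (Set.Icc x₁ x₂) := by
  unfold yy
  apply ContinuousOn.mul _ (by fun_prop)
  apply ContinuousOn.pow
  apply ContinuousOn.div (by fun_prop) (by fun_prop)
  intro x hx
  have : 0 < x := lt_of_lt_of_le h1 hx.1
  have : 0 < x ^ (m + 1) := by positivity
  linarith

/-- **C4.**  If the flow polynomial of some multigraph is negative at `q₀ > 2`, then near every
`v₀ < -q₀` there is a zero of the dichromatic polynomial `Z(G; q₀, v)` of some graph. -/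
theorem zero_near (q₀ : ℝ) (hq : 2 < q₀) {V : Type} [Fintype V] [DecidableEq V] (L : List (V × V))
    (hneg : aeval q₀ (QL L) < 0) (v₀ ε : ℝ) (hv : v₀ < -q₀) (hε : 0 < ε) :
    ∃ (V' : Type) (_ : Fintype V') (E' : Type) (_ : Fintype E') (ends : E' → Sym2 V') (v : ℝ),
      |v - v₀| < ε ∧ v < -q₀ ∧ dichr ends q₀ v = 0 := by
  obtain ⟨W, i1, i2, L₁, u, w, hn, hp⟩ := exists_minimal q₀ (by linarith) _ V L rfl hneg
  have hv0 : v₀ < 0 := by linarith
  set x₀ : ℝ := (v₀ + q₀) / v₀ with hx0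
  have hx0p : 0 < x₀ := div_pos_of_neg_of_neg (by linarith) hv0
  have hx01 : x₀ < 1 := by
    rw [hx0, div_lt_one_of_neg hv0]
    linarith
  have hval : q₀ / (x₀ - 1) = v₀ := by
    have : x₀ - 1 = q₀ / v₀ := by rw [hx0, add_div, div_self hv0.ne]; ring
    rw [this]
    field_simp
  have hc : ContinuousAt (fun x : ℝ => q₀ / (x - 1)) x₀ := by
    apply ContinuousAt.div continuousAt_const (by fun_prop)
    linarith
  have hev : ∀ᶠ x in 𝓝 x₀, |q₀ / (x - 1) - v₀| < ε ∧ 0 < x ∧ x < 1 := by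
    have e1 : ∀ᶠ x in 𝓝 x₀, |q₀ / (x - 1) - v₀| < ε := by
      have := Metric.tendsto_nhds.1 hc ε hε
      simp only [hval, Real.dist_eq] at this
      exact this
    exact e1.and ((eventually_gt_nhds hx0p).and (eventually_lt_nhds hx01))
  obtain ⟨δ, hδ, hδ'⟩ := Metric.eventually_nhds_iff.1 hev
  set x₁ := x₀ - δ / 2 with hx1
  set x₂ := x₀ + δ / 2 with hx2
  have h12 : x₁ < x₂ := by rw [hx1, hx2]; linarith
  have hin : ∀ x, x₁ ≤ x → x ≤ x₂ → |q₀ / (x - 1) - v₀| < ε ∧ 0 < x ∧ x < 1 := by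
    intro x ha hb
    apply hδ'
    rw [Real.dist_eq, abs_lt]
    rw [hx1] at ha
    rw [hx2] at hb
    constructor <;> linarith
  have hx1p := (hin x₁ le_rfl h12.le).2.1
  have hx2p := (hin x₂ h12.le le_rfl).2.2
  have hg1 : ZL ((u, w, q₀, -1) :: L₁.map (fw q₀ 0)) q₀ < 0 := by
    have := ZL_flow ((u, w) :: L₁) q₀
    rw [List.map_cons] at this
    have e : fw q₀ 0 (u, w) = (u, w, q₀, (-1 : ℝ)) := by simp [fw]
    rw [e] at this
    rw [this]
    exact mul_neg_of_pos_of_neg (pow_pos (by linarith) _) hn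
  have hg0 : 0 < ZL (L₁.map (fw q₀ 0)) q₀ := by
    rw [ZL_flow]
    exact mul_pos (pow_pos (by linarith) _) hp
  obtain ⟨n, m, b, c, hs1, hs2⟩ := sign_change q₀ x₁ x₂ hq hx1p h12 hx2p _ _
    (cont_head u w q₀ L₁) (cont_tail q₀ L₁) hg1 hg0
  obtain ⟨V', j1, j2, L', hcomp⟩ := dichr_compose L₁ u w q₀ hq n m b c
  have hcont : ContinuousOn (fun x : ℝ => ZL ((u, w, q₀, -1) :: L₁.map (fw q₀ (x ^ (n + 1)))) q₀ +
      yy q₀ m b c x * ZL (L₁.map (fw q₀ (x ^ (n + 1)))) q₀) (Set.Icc x₁ x₂) := by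
    have k1 := (cont_head u w q₀ L₁).comp (continuous_pow (M := ℝ) (n + 1))
    have k0 := (cont_tail q₀ L₁).comp (continuous_pow (M := ℝ) (n + 1))
    exact k1.continuousOn.add ((yy_cont q₀ hq m b c x₁ x₂ hx1p).mul k0.continuousOn)
  obtain ⟨x, hx, hx0'⟩ := intermediate_value_Icc h12.le hcont
    (show (0 : ℝ) ∈ Set.Icc _ _ from ⟨hs1.le, hs2.le⟩)
  obtain ⟨ha, hb', hc'⟩ := hin x hx.1 hx.2
  have hvx : (q₀ / (x - 1) + q₀) / (q₀ / (x - 1)) = x := by
    have h1 : x - 1 ≠ 0 := by linarith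
    have h2 : q₀ ≠ 0 := by linarith
    field_simp
    ring
  have hlt : q₀ / (x - 1) < -q₀ := by
    rw [div_lt_iff_of_neg (by linarith)]
    nlinarith
  refine ⟨V', j1, Fin L'.length, inferInstance, lends L', q₀ / (x - 1), ha, hlt, ?_⟩
  obtain ⟨K, hK⟩ := hcomp (q₀ / (x - 1)) hlt
  rw [hK, hvx]
  have : ZL ((u, w, q₀, -1) :: L₁.map (fw q₀ (x ^ (n + 1)))) q₀ +
      yy q₀ m b c x * ZL (L₁.map (fw q₀ (x ^ (n + 1)))) q₀ = 0 := hx0'
  rw [this, mul_zero]

end Pool.Agent.H140R2.FR
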