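import Pool.Agent.H140R2.FR.T07Ends

/-!
T09b.  The integral of `KK` outside `|t| ≤ ‖lam‖/(8q)` is exponentially small; truncated Gaussian moments.

Sketch.  For `t > 1 - Re p₀` (`p₀ = lam/q`, `p = p₀ + t`, `Re p ≥ 1`): `Re lam t² + (2/3) q t³ ≥ (1/3) Re lam t²
≥ ‖lam‖ t²/6` since `t ≥ -Re lam/q`; `‖exp(qβ p)‖ ≤ (‖p‖/Re p)^{q/2} ≤ ‖p‖^{q/2}` and
`‖(p/p₀)^{1-q/2}‖ = ‖p/p₀‖^{1-q/2}` are polynomially bounded in `‖lam‖, t` (`‖p‖ ≥ 1`).
-/

set_option autoImplicit false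

open Complex MeasureTheory Set Filter Topology

namespace Pool.Agent.H140R2.FR

namespace T09b

theorem poly_le_exp (A : ℕ) (ε : ℝ) (hε : 0 < ε) :
    ∃ C : ℝ, 0 < C ∧ ∀ x : ℝ, 0 ≤ x → (1 + x) ^ A ≤ C * Real.exp (ε * x) := by
  refine ⟨(A.factorial : ℝ) / ε ^ A * Real.exp ε, by positivity, fun x hx => ?_⟩
  have h := Real.pow_div_factorial_le_exp (ε * (1 + x)) (by positivity) A
  rw [mul_pow, div_le_iff₀ (by positivity)] at h
  have h2 : Real.exp (ε * (1 + x)) = Real.exp ε * Real.exp (ε * x) := by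
    rw [← Real.exp_add]; ring_nf
  rw [h2] at h
  have hεA : 0 < ε ^ A := by positivity
  calc (1 + x) ^ A = (ε ^ A * (1 + x) ^ A) / ε ^ A := by field_simp
    _ ≤ (Real.exp ε * Real.exp (ε * x) * A.factorial) / ε ^ A := by gcongr
    _ = _ := by ring

theorem poly_le_exp_sq (A : ℕ) :
    ∃ C : ℝ, 0 < C ∧ ∀ t : ℝ, (1 + |t|) ^ A ≤ C * Real.exp (t ^ 2 / 24) := by
  obtain ⟨C, hC, h⟩ := poly_le_exp A (1 / 24) (by norm_num)
  refine ⟨C * Real.exp (1 / 24), by positivity, fun t => ?_⟩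
  refine (h |t| (abs_nonneg t)).trans ?_
  rw [mul_assoc, ← Real.exp_add]
  apply mul_le_mul_of_nonneg_left _ hC.le
  apply Real.exp_le_exp.2
  have h1 : t ^ 2 = |t| ^ 2 := (sq_abs t).symm
  rw [h1]
  nlinarith [sq_nonneg (|t| - 1), abs_nonneg t]

theorem sec_norm_le {lam : ℂ} (h : Sec lam) : ‖lam‖ ≤ 2 * lam.re := by
  obtain ⟨h1, h2⟩ := h
  have h3 : 0 < Real.sqrt 3 := Real.sqrt_pos.2 (by norm_num)
  have h4 : 0 ≤ lam.re := by
    by_contra hc
    rw [not_le] at hc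
    nlinarith
  have h5 : Real.sqrt 3 ^ 2 = 3 := Real.sq_sqrt (by norm_num)
  have h6 : ‖lam‖ ^ 2 = lam.re * lam.re + lam.im * lam.im := by
    rw [Complex.sq_norm, Complex.normSq_apply]
  refine (abs_le_of_sq_le_sq' ?_ (by linarith)).2
  have h7 : lam.im * lam.im ≤ (Real.sqrt 3 * lam.re) * (Real.sqrt 3 * lam.re) :=
    mul_le_mul h2 h2 h1 (by positivity)
  have h8 : (Real.sqrt 3 * lam.re) * (Real.sqrt 3 * lam.re) = 3 * (lam.re * lam.re) := by
    linear_combination (lam.re * lam.re) * h5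
  rw [h6]
  nlinarith

theorem rpow_bound {x Y a : ℝ} (hx : 0 < x) (hY : x ≤ Y) (hY' : x⁻¹ ≤ Y) :
    x ^ a ≤ Y ^ |a| := by
  rcases le_total 0 a with h | h
  · rw [abs_of_nonneg h]
    exact Real.rpow_le_rpow hx.le hY h
  · rw [abs_of_nonpos h]
    have h1 : x ^ a = (x⁻¹) ^ (-a) := by
      rw [Real.inv_rpow hx.le, Real.rpow_neg hx.le, inv_inv]
    rw [h1]
    exact Real.rpow_le_rpow (inv_pos.2 hx).le hY' (by linarith)

theorem KK_norm_le {β : ℂ → ℂ} (hβ : IsLogB β) (q : ℝ) (hq : 0 < q) :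
    ∃ (C : ℝ) (A : ℕ), 0 < C ∧ ∀ lam : ℂ, Sec lam → 1 ≤ ‖lam‖ → ∀ t : ℝ, 1 - lam.re / q < t →
      ‖KK β q lam t‖ ≤ C * (1 + ‖lam‖) ^ A * Real.exp (-(‖lam‖ / 8) * t ^ 2) := by
  obtain ⟨A, hA⟩ := exists_nat_ge (q / 2 + |1 - q / 2|)
  obtain ⟨C1, hC1, h1⟩ := poly_le_exp_sq A
  obtain ⟨κ, hκ⟩ : ∃ κ : ℝ, κ = 1 + q + 1 / q := ⟨_, rfl⟩
  have hκ1 : 1 ≤ κ := by
    rw [hκ]
    have : 0 < 1 / q := by positivity
    linarith
  have hκq : q ≤ κ := by
    rw [hκ]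
    have : 0 < 1 / q := by positivity
    linarith
  have hκq' : 1 / q ≤ κ := by
    rw [hκ]
    linarith
  refine ⟨(κ ^ 2) ^ A * C1, A, by positivity, fun lam hS hr t ht => ?_⟩
  have hre := sec_norm_le hS
  obtain ⟨r, hrdef⟩ : ∃ r, r = ‖lam‖ := ⟨_, rfl⟩
  rw [← hrdef] at hr hre ⊢
  have hlam0 : lam ≠ 0 := by
    intro h
    rw [h, norm_zero] at hrdef
    linarith
  obtain ⟨p, hp⟩ : ∃ p : ℂ, p = lam / (q : ℂ) + (t : ℂ) := ⟨_, rfl⟩
  have hpre : p.re = lam.re / q + t := by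
    rw [hp, Complex.add_re, Complex.div_ofReal_re, Complex.ofReal_re]
  have hp1 : 1 < p.re := by rw [hpre]; linarith
  have hpn : 1 < ‖p‖ := hp1.trans_le (Complex.re_le_norm p)
  have hqC : (q : ℂ) ≠ 0 := by exact_mod_cast hq.ne'
  have hw : 1 + (q : ℂ) * (t : ℂ) / lam = (q : ℂ) * p / lam := by
    rw [hp]
    field_simp
  have hexp : ((1 : ℂ) - (q : ℂ) / 2) = ((1 - q / 2 : ℝ) : ℂ) := by push_cast; ring
  have hE : cexp (-lam * (t : ℂ) ^ 2 - (2 / 3) * (q : ℂ) * (t : ℂ) ^ 3 +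
      (q : ℂ) * β (lam / (q : ℂ) + (t : ℂ))) =
      cexp (-lam * ((t ^ 2 : ℝ) : ℂ) - ((2 / 3 * q * t ^ 3 : ℝ) : ℂ)) * cexp ((q : ℂ) * β p) := by
    rw [← Complex.exp_add, ← hp]
    congr 1
    push_cast
    ring
  have hnE : ‖cexp (-lam * ((t ^ 2 : ℝ) : ℂ) - ((2 / 3 * q * t ^ 3 : ℝ) : ℂ))‖ =
      Real.exp (-lam.re * t ^ 2 - 2 / 3 * q * t ^ 3) := by
    rw [Complex.norm_exp]
    congr 1
    rw [Complex.sub_re, Complex.mul_re, Complex.ofReal_re, Complex.ofReal_im, Complex.ofReal_re,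
      Complex.neg_re, mul_zero, sub_zero]
  have hEle : -lam.re * t ^ 2 - 2 / 3 * q * t ^ 3 ≤ -(r / 6) * t ^ 2 := by
    have h2 : 0 ≤ lam.re + q * t := by
      have h3 : 1 - lam.re / q < t := ht
      have h4 : lam.re / q * q = lam.re := by field_simp
      nlinarith
    have h5 : 0 ≤ t ^ 2 * (lam.re + q * t) := mul_nonneg (sq_nonneg t) h2
    have h6 : 0 ≤ t ^ 2 * (2 * lam.re - r) := mul_nonneg (sq_nonneg t) (by linarith)
    nlinarith
  have hB : ‖cexp ((q : ℂ) * β p)‖ ≤ ‖p‖ ^ (q / 2) := by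
    refine (hβ.norm_exp q hq.le p (by linarith)).trans ?_
    apply Real.rpow_le_rpow (by positivity) _ (by positivity)
    rw [div_le_iff₀ (by linarith)]
    nlinarith [norm_nonneg p]
  -- the common bound
  obtain ⟨Y, hY⟩ : ∃ Y : ℝ, Y = κ ^ 2 * (1 + r) * (1 + |t|) := ⟨_, rfl⟩
  have hu : 1 ≤ (1 + r) * (1 + |t|) := by
    have := abs_nonneg t
    nlinarith
  have hpY' : ‖p‖ ≤ κ * ((1 + r) * (1 + |t|)) := by
    have h2 : ‖p‖ ≤ r / q + |t| := by
      rw [hp]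
      refine (norm_add_le _ _).trans ?_
      rw [norm_div, Complex.norm_real, Complex.norm_real, Real.norm_eq_abs, Real.norm_eq_abs,
        abs_of_pos hq, ← hrdef]
    refine h2.trans ?_
    have h3 : r / q ≤ κ * r := by
      rw [div_eq_mul_one_div, mul_comm]
      exact mul_le_mul_of_nonneg_right hκq' (by linarith)
    have h4 := abs_nonneg t
    have h5 : |t| ≤ κ * |t| := by nlinarith
    have h6 : 0 ≤ κ * (1 + r * |t|) := by positivity
    nlinarith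
  have hκκ : κ ≤ κ ^ 2 := by nlinarith
  have hpY : ‖p‖ ≤ Y := by
    refine hpY'.trans ?_
    rw [hY, mul_assoc]
    exact mul_le_mul_of_nonneg_right hκκ (by linarith)
  have hY1 : 1 ≤ Y := (hpn.le).trans hpY
  have hpow1 : ‖p‖ ^ (q / 2) ≤ Y ^ (q / 2) :=
    Real.rpow_le_rpow (by linarith) hpY (by positivity)
  have hw2 : ‖(1 + (q : ℂ) * (t : ℂ) / lam) ^ ((1 : ℂ) - (q : ℂ) / 2)‖ ≤ Y ^ |1 - q / 2| := by
    rw [hw, hexp, Complex.norm_cpow_real, norm_div, norm_mul, Complex.norm_real, Real.norm_eq_abs,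
      abs_of_pos hq, ← hrdef]
    apply rpow_bound
    · have : 0 < q * ‖p‖ := by positivity
      positivity
    · rw [div_le_iff₀ (by linarith)]
      have h2 : q * ‖p‖ ≤ κ * (κ * ((1 + r) * (1 + |t|))) :=
        mul_le_mul hκq hpY' (by linarith) (by linarith)
      have h3 : κ * (κ * ((1 + r) * (1 + |t|))) = Y := by rw [hY]; ring
      rw [h3] at h2
      nlinarith
    · rw [inv_div, div_le_iff₀ (by positivity)]
      have h2 : r ≤ Y * q := by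
        have h3 : 1 ≤ κ * q := by
          have h4 : 1 / q * q = 1 := by field_simp
          nlinarith
        have h5 : Y * q = (κ * q) * (κ * ((1 + r) * (1 + |t|))) := by rw [hY]; ring
        rw [h5]
        have h6 : r ≤ κ * ((1 + r) * (1 + |t|)) := by
          have := abs_nonneg t
          have h7 : r ≤ (1 + r) * (1 + |t|) := by nlinarith
          nlinarith
        have h8 : 0 ≤ κ * ((1 + r) * (1 + |t|)) := by linarith
        nlinarith
      have h9 : Y * (q * ‖p‖) = (Y * q) * ‖p‖ := by ring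
      rw [h9]
      have h10 : 0 ≤ Y * q := by positivity
      nlinarith
  have hYY : Y ^ (q / 2) * Y ^ |1 - q / 2| ≤ Y ^ A := by
    rw [← Real.rpow_add (by linarith), ← Real.rpow_natCast]
    exact Real.rpow_le_rpow_of_exponent_le hY1 hA
  have hYA : Y ^ A ≤ (κ ^ 2) ^ A * (1 + r) ^ A * (C1 * Real.exp (t ^ 2 / 24)) := by
    rw [hY, mul_pow, mul_pow]
    exact mul_le_mul_of_nonneg_left (h1 t) (by positivity)
  unfold KK
  rw [norm_mul, hE, norm_mul, hnE]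
  calc Real.exp (-lam.re * t ^ 2 - 2 / 3 * q * t ^ 3) * ‖cexp ((q : ℂ) * β p)‖ *
        ‖(1 + (q : ℂ) * (t : ℂ) / lam) ^ ((1 : ℂ) - (q : ℂ) / 2)‖
      ≤ Real.exp (-(r / 6) * t ^ 2) * Y ^ (q / 2) * Y ^ |1 - q / 2| := by
        gcongr
        exact hB.trans hpow1
    _ = Real.exp (-(r / 6) * t ^ 2) * (Y ^ (q / 2) * Y ^ |1 - q / 2|) := by ring
    _ ≤ Real.exp (-(r / 6) * t ^ 2) *
        ((κ ^ 2) ^ A * (1 + r) ^ A * (C1 * Real.exp (t ^ 2 / 24))) :=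
        mul_le_mul_of_nonneg_left (hYY.trans hYA) (Real.exp_pos _).le
    _ = (κ ^ 2) ^ A * C1 * (1 + r) ^ A *
        (Real.exp (-(r / 6) * t ^ 2) * Real.exp (t ^ 2 / 24)) := by ring
    _ ≤ (κ ^ 2) ^ A * C1 * (1 + r) ^ A * Real.exp (-(r / 8) * t ^ 2) := by
        rw [← Real.exp_add]
        gcongr
        nlinarith [sq_nonneg t]

theorem KK_aesm {β : ℂ → ℂ} (hβ : IsLogB β) (q : ℝ) (lam : ℂ) (a : ℝ)
    (ha : -(lam.re / q) ≤ a) :
    AEStronglyMeasurable (KK β q lam) (volume.restrict (Ioi a)) := by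
  unfold KK
  apply AEStronglyMeasurable.mul
  · apply ContinuousOn.aestronglyMeasurable _ measurableSet_Ioi
    apply ContinuousOn.cexp
    apply ContinuousOn.add
    · fun_prop
    · apply ContinuousOn.mul continuousOn_const
      apply hβ.diff.continuousOn.comp (by fun_prop)
      intro t ht
      show 0 < (lam / (q : ℂ) + (t : ℂ)).re
      rw [Complex.add_re, Complex.div_ofReal_re, Complex.ofReal_re]
      have : a < t := ht
      linarith
  · apply Measurable.aestronglyMeasurable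
    apply Measurable.pow_const
    fun_prop

theorem gauss_int (b : ℝ) (hb : 0 < b) : Integrable (fun t : ℝ => Real.exp (-b * t ^ 2)) :=
  integrable_exp_neg_mul_sq hb

theorem tail_bound (q : ℝ) (hq : 0 < q) (r : ℝ) (hr : 1 ≤ r) (f : ℝ → ℂ) (s : Set ℝ)
    (hs : MeasurableSet s) (B : ℝ) (hB : 0 ≤ B) (hf : IntegrableOn f s)
    (hsub : Ioc (-(r / (8 * q))) (r / (8 * q)) ⊆ s)
    (hb : ∀ t ∈ s, ‖f t‖ ≤ B * Real.exp (-(r / 8) * t ^ 2)) :
    ‖(∫ t in s, f t) - ∫ t in (-(r / (8 * q)))..(r / (8 * q)), f t‖ ≤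
      B * Real.sqrt (16 * Real.pi) * Real.exp (-(1 / (1024 * q ^ 2)) * r ^ 3) := by
  have hδ : 0 < r / (8 * q) := by positivity
  rw [intervalIntegral.integral_of_le (by linarith),
    ← setIntegral_sdiff measurableSet_Ioc hf hsub]
  have hg : Integrable (fun t : ℝ => B * Real.exp (-(1 / (1024 * q ^ 2)) * r ^ 3) *
      Real.exp (-(r / 16) * t ^ 2)) := (gauss_int (r / 16) (by positivity)).const_mul _
  have h1 : ‖∫ t in s \ Ioc (-(r / (8 * q))) (r / (8 * q)), f t‖ ≤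
      ∫ t in s \ Ioc (-(r / (8 * q))) (r / (8 * q)),
        B * Real.exp (-(1 / (1024 * q ^ 2)) * r ^ 3) * Real.exp (-(r / 16) * t ^ 2) := by
    apply norm_integral_le_of_norm_le hg.integrableOn
    rw [ae_restrict_iff' (hs.diff measurableSet_Ioc)]
    refine Eventually.of_forall fun t ht => ?_
    refine (hb t ht.1).trans ?_
    rw [mul_assoc, ← Real.exp_add]
    apply mul_le_mul_of_nonneg_left _ hB
    apply Real.exp_le_exp.2
    have h2 : (r / (8 * q)) ^ 2 ≤ t ^ 2 := by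
      have h3 : ¬ (-(r / (8 * q)) < t ∧ t ≤ r / (8 * q)) := ht.2
      by_cases h4 : -(r / (8 * q)) < t
      · have h5 : r / (8 * q) < t := by
          by_contra h6
          exact h3 ⟨h4, not_lt.1 h6⟩
        nlinarith
      · rw [not_lt] at h4
        nlinarith
    have h3 : (r / (8 * q)) ^ 2 = r ^ 2 / (64 * q ^ 2) := by
      rw [div_pow, mul_pow]; norm_num
    rw [h3] at h2
    have h4 : r / 16 * (r ^ 2 / (64 * q ^ 2)) = 1 / (1024 * q ^ 2) * r ^ 3 := by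
      field_simp
      ring
    have h5 : r / 16 * (r ^ 2 / (64 * q ^ 2)) ≤ r / 16 * t ^ 2 :=
      mul_le_mul_of_nonneg_left h2 (by positivity)
    nlinarith
  refine h1.trans ?_
  have h2 : ∫ t in s \ Ioc (-(r / (8 * q))) (r / (8 * q)),
        B * Real.exp (-(1 / (1024 * q ^ 2)) * r ^ 3) * Real.exp (-(r / 16) * t ^ 2) ≤
      ∫ t : ℝ, B * Real.exp (-(1 / (1024 * q ^ 2)) * r ^ 3) * Real.exp (-(r / 16) * t ^ 2) := by
    apply setIntegral_le_integral hg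
    refine Eventually.of_forall fun t => ?_
    positivity
  refine h2.trans ?_
  rw [integral_const_mul, integral_gaussian]
  have h3 : Real.sqrt (Real.pi / (r / 16)) ≤ Real.sqrt (16 * Real.pi) := by
    apply Real.sqrt_le_sqrt
    rw [div_le_iff₀ (by positivity)]
    nlinarith [Real.pi_pos]
  calc B * Real.exp (-(1 / (1024 * q ^ 2)) * r ^ 3) * Real.sqrt (Real.pi / (r / 16))
      ≤ B * Real.exp (-(1 / (1024 * q ^ 2)) * r ^ 3) * Real.sqrt (16 * Real.pi) := by gcongr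
    _ = _ := by ring

end T09b

theorem KK_integrableOn {β : ℂ → ℂ} (hβ : IsLogB β) (q : ℝ) (hq : 0 < q) :
    ∃ R : ℝ, 0 < R ∧ ∀ lam : ℂ, Sec lam → R ≤ ‖lam‖ →
      IntegrableOn (KK β q lam) (Ioi (1 - lam.re / q)) := by
  obtain ⟨C, A, hC, h⟩ := T09b.KK_norm_le hβ q hq
  refine ⟨1, one_pos, fun lam hS hr => ?_⟩
  have hg : Integrable (fun t : ℝ => C * (1 + ‖lam‖) ^ A * Real.exp (-(‖lam‖ / 8) * t ^ 2)) :=
    (T09b.gauss_int (‖lam‖ / 8) (by positivity)).const_mul _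
  refine Integrable.mono' hg.integrableOn (T09b.KK_aesm hβ q lam _ (by linarith)) ?_
  rw [ae_restrict_iff' measurableSet_Ioi]
  exact Eventually.of_forall fun t ht => h lam hS hr t ht

theorem KK_tail {β : ℂ → ℂ} (hβ : IsLogB β) (q : ℝ) (hq : 0 < q) :
    ∃ C c R : ℝ, 0 < c ∧ 0 < R ∧ ∀ lam : ℂ, Sec lam → R ≤ ‖lam‖ →
      ‖(∫ t in Ioi (1 - lam.re / q), KK β q lam t) -
          ∫ t in (-(‖lam‖ / (8 * q)))..(‖lam‖ / (8 * q)), KK β q lam t‖
        ≤ C * Real.exp (-c * ‖lam‖ ^ 3) := by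
  obtain ⟨C, A, hC, h⟩ := T09b.KK_norm_le hβ q hq
  obtain ⟨R, hR, hint⟩ := KK_integrableOn hβ q hq
  obtain ⟨C2, hC2, h2⟩ := T09b.poly_le_exp A (1 / (2048 * q ^ 2)) (by positivity)
  refine ⟨C * C2 * Real.sqrt (16 * Real.pi), 1 / (2048 * q ^ 2), max R (max 1 (4 * q)),
    by positivity, lt_max_of_lt_left hR, fun lam hS hr => ?_⟩
  have hr1 : R ≤ ‖lam‖ := (le_max_left _ _).trans hr
  have hr2 : 1 ≤ ‖lam‖ := ((le_max_left _ _).trans (le_max_right _ _)).trans hr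
  have hr3 : 4 * q ≤ ‖lam‖ := ((le_max_right _ _).trans (le_max_right _ _)).trans hr
  have hre := T09b.sec_norm_le hS
  have hsub : Ioc (-(‖lam‖ / (8 * q))) (‖lam‖ / (8 * q)) ⊆ Ioi (1 - lam.re / q) := by
    intro t ht
    show 1 - lam.re / q < t
    refine lt_of_le_of_lt ?_ ht.1
    have e1 : ‖lam‖ / (8 * q) = (‖lam‖ / 8) / q := by field_simp
    have e2 : (1 : ℝ) = q / q := by field_simp
    rw [e1, e2, ← sub_div, ← neg_div]
    apply div_le_div_of_nonneg_right _ hq.le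
    linarith
  have h3 := T09b.tail_bound q hq ‖lam‖ hr2 (KK β q lam) (Ioi (1 - lam.re / q)) measurableSet_Ioi
    (C * (1 + ‖lam‖) ^ A) (by positivity) (hint lam hS hr1) hsub
    (fun t ht => h lam hS hr2 t ht)
  refine h3.trans ?_
  have h4 : (1 + ‖lam‖) ^ A ≤ C2 * Real.exp (1 / (2048 * q ^ 2) * ‖lam‖ ^ 3) := by
    refine (h2 ‖lam‖ (norm_nonneg _)).trans ?_
    apply mul_le_mul_of_nonneg_left _ hC2.le
    apply Real.exp_le_exp.2
    apply mul_le_mul_of_nonneg_left _ (by positivity)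
    nlinarith [sq_nonneg ‖lam‖, mul_nonneg (sub_nonneg.2 hr2) (norm_nonneg lam)]
  have h5 : -(1 / (1024 * q ^ 2)) * ‖lam‖ ^ 3 =
      -(1 / (2048 * q ^ 2)) * ‖lam‖ ^ 3 + -(1 / (2048 * q ^ 2) * ‖lam‖ ^ 3) := by
    field_simp
    ring
  rw [h5, Real.exp_add]
  have h6 : C2 * Real.exp (1 / (2048 * q ^ 2) * ‖lam‖ ^ 3) *
      Real.exp (-(1 / (2048 * q ^ 2) * ‖lam‖ ^ 3)) = C2 := by
    rw [mul_assoc, ← Real.exp_add, add_neg_cancel, Real.exp_zero, mul_one]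
  calc C * (1 + ‖lam‖) ^ A * Real.sqrt (16 * Real.pi) *
        (Real.exp (-(1 / (2048 * q ^ 2)) * ‖lam‖ ^ 3) *
          Real.exp (-(1 / (2048 * q ^ 2) * ‖lam‖ ^ 3)))
      ≤ C * (C2 * Real.exp (1 / (2048 * q ^ 2) * ‖lam‖ ^ 3)) * Real.sqrt (16 * Real.pi) *
        (Real.exp (-(1 / (2048 * q ^ 2)) * ‖lam‖ ^ 3) *
          Real.exp (-(1 / (2048 * q ^ 2) * ‖lam‖ ^ 3))) := by gcongr
    _ = C * (C2 * Real.exp (1 / (2048 * q ^ 2) * ‖lam‖ ^ 3) *
          Real.exp (-(1 / (2048 * q ^ 2) * ‖lam‖ ^ 3))) * Real.sqrt (16 * Real.pi) *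
        Real.exp (-(1 / (2048 * q ^ 2)) * ‖lam‖ ^ 3) := by ring
    _ = _ := by rw [h6]

theorem moment_trunc (q : ℝ) (hq : 0 < q) (n : ℕ) :
    ∃ C c : ℝ, 0 < c ∧ ∀ lam : ℂ, Sec lam → 1 ≤ ‖lam‖ →
      ‖(∫ t in (-(‖lam‖ / (8 * q)))..(‖lam‖ / (8 * q)), (t : ℂ) ^ n * cexp (-lam * (t : ℂ) ^ 2)) -
          ∫ t : ℝ, (t : ℂ) ^ n * cexp (-lam * (t : ℂ) ^ 2)‖
        ≤ C * Real.exp (-c * ‖lam‖ ^ 3) := by
  obtain ⟨C, hC, h⟩ := T09b.poly_le_exp_sq n
  refine ⟨C * Real.sqrt (16 * Real.pi), 1 / (1024 * q ^ 2), by positivity, fun lam hS hr => ?_⟩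
  have hre := T09b.sec_norm_le hS
  have hb : ∀ t ∈ (univ : Set ℝ), ‖(t : ℂ) ^ n * cexp (-lam * (t : ℂ) ^ 2)‖ ≤
      C * Real.exp (-(‖lam‖ / 8) * t ^ 2) := by
    intro t _
    have h1 : ‖cexp (-lam * (t : ℂ) ^ 2)‖ = Real.exp (-lam.re * t ^ 2) := by
      rw [Complex.norm_exp]
      congr 1
      have e : ((t : ℂ) ^ 2) = ((t ^ 2 : ℝ) : ℂ) := by push_cast; ring
      rw [e, Complex.mul_re, Complex.ofReal_re, Complex.ofReal_im, Complex.neg_re, mul_zero,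
        sub_zero]
    rw [norm_mul, norm_pow, Complex.norm_real, Real.norm_eq_abs, h1]
    have h2 : |t| ^ n ≤ C * Real.exp (t ^ 2 / 24) :=
      (pow_le_pow_left₀ (abs_nonneg t) (by linarith) n).trans (h t)
    calc |t| ^ n * Real.exp (-lam.re * t ^ 2)
        ≤ (C * Real.exp (t ^ 2 / 24)) * Real.exp (-(‖lam‖ / 2) * t ^ 2) := by
          gcongr
          linarith
      _ = C * Real.exp (t ^ 2 / 24 + -(‖lam‖ / 2) * t ^ 2) := by
          rw [mul_assoc, ← Real.exp_add]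
      _ ≤ C * Real.exp (-(‖lam‖ / 8) * t ^ 2) := by
          gcongr
          nlinarith [sq_nonneg t]
  have hg : Integrable (fun t : ℝ => C * Real.exp (-(‖lam‖ / 8) * t ^ 2)) :=
    (T09b.gauss_int (‖lam‖ / 8) (by positivity)).const_mul _
  have hint : IntegrableOn (fun t : ℝ => (t : ℂ) ^ n * cexp (-lam * (t : ℂ) ^ 2)) univ := by
    rw [integrableOn_univ]
    refine Integrable.mono' hg (by fun_prop) ?_
    exact Eventually.of_forall fun t => hb t (mem_univ t)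
  have h3 := T09b.tail_bound q hq ‖lam‖ hr _ univ MeasurableSet.univ C hC.le hint
    (subset_univ _) hb
  rw [Measure.restrict_univ] at h3
  rw [norm_sub_rev]
  exact h3

end Pool.Agent.H140R2.FR
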