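import Pool.Agent.H140R2.FR.T05bPower

/-!
T09c.  The central part.

Sketch.  `|t| ≤ ‖lam‖/(8q)`, `p = lam/q + t`, `p₀ = lam/q`: `Re p ≥ (3/8)‖p₀‖`, `‖p‖ ≤ (9/8)‖p₀‖`, so `p` is in
the sector `c = 1/3` and `IsLogB.expansion` (with `N = M`) applies with error `O(‖lam‖^{-3M})`;
`p^{-3k} (1+t/p₀)^{1-q/2} = p₀^{-3k} (1+t/p₀)^{1-q/2-3k}`; binomial series to order `2M` with error
`O(|t/p₀|^{2M})` for `|t/p₀| ≤ 1/8`; exponential series of `-(2/3)q t³` to order `2M`, where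
`‖e^{-lam t²}‖ ‖e^{-(2/3)qt³} - ∑_{l<2M}‖ ≤ C |t|^{6M} e^{-‖lam‖t²/6}`.  All factors are bounded by
`e^{-‖lam‖t²/6}` times polynomials in `|t|^3` and `|t/p₀|`, `∫ |t|^n e^{-‖lam‖t²/6} dt = O(‖lam‖^{-(n+1)/2})`.
-/

set_option autoImplicit false

open Complex MeasureTheory Set Filter Topology

namespace Pool.Agent.H140R2.FR

/-- the binomial coefficient in product form. -/
theorem T09c_choose (q : ℝ) (k i : ℕ) :
    Ring.choose (((1 - q / 2 - 3 * k : ℝ)) : ℂ) i =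
      (((-1) ^ i * (∏ s ∈ Finset.range i, (3 * (k : ℝ) - 1 + q / 2 + s)) / (i.factorial : ℝ) : ℝ) : ℂ) := by
  rw [← Complex.ofReal_choose]
  congr 1
  rw [Ring.choose_eq_smul, Polynomial.descPochhammer_smeval_eq_ascPochhammer,
    Polynomial.ascPochhammer_smeval_cast, Polynomial.ascPochhammer_smeval_eq_eval,
    ← descPochhammer_eval_eq_ascPochhammer, descPochhammer_eval_eq_prod_range]
  have h : ∏ j ∈ Finset.range i, (1 - q / 2 - 3 * (k : ℝ) - (j : ℝ)) =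
      (-1) ^ i * ∏ s ∈ Finset.range i, (3 * (k : ℝ) - 1 + q / 2 + s) := by
    have := Finset.prod_mul_distrib (s := Finset.range i) (f := fun _ : ℕ => (-1 : ℝ))
      (g := fun s : ℕ => (3 * (k : ℝ) - 1 + q / 2 + s))
    rw [Finset.prod_const, Finset.card_range] at this
    rw [← this]
    refine Finset.prod_congr rfl (fun j _ => ?_)
    ring
  rw [h, smul_eq_mul]
  ring

/-- binomial expansion with remainder. -/
theorem T09c_binom (α : ℂ) (N : ℕ) : ∃ C : ℝ, 0 ≤ C ∧ ∀ z : ℂ, ‖z‖ ≤ 1 / 8 →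
    ‖(1 + z) ^ α - ∑ i ∈ Finset.range N, Ring.choose α i * z ^ i‖ ≤ C * ‖z‖ ^ N := by
  have hlt : ((1 / 2 : NNReal) : ENNReal) < 1 := by
    rw [← ENNReal.coe_one, ENNReal.coe_lt_coe]
    exact NNReal.half_lt_self one_ne_zero
  obtain ⟨a, ha, C, hC, h⟩ :=
    (Complex.one_add_cpow_hasFPowerSeriesOnBall_zero (a := α)).uniform_geometric_approx' hlt
  refine ⟨C * (2 * a) ^ N, by have := ha.1; positivity, fun z hz => ?_⟩
  have hz' : z ∈ Metric.ball (0 : ℂ) ((1 / 2 : NNReal) : ℝ) := by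
    rw [mem_ball_zero_iff]
    have : ((1 / 2 : NNReal) : ℝ) = 1 / 2 := by norm_num
    rw [this]
    linarith
  have h1 := h z hz' N
  rw [zero_add] at h1
  have h2 : (binomialSeries ℂ α).partialSum N z = ∑ i ∈ Finset.range N, Ring.choose α i * z ^ i := by
    rw [FormalMultilinearSeries.partialSum]
    refine Finset.sum_congr rfl (fun i _ => ?_)
    rw [binomialSeries_apply]
    simp
  rw [h2] at h1
  refine h1.trans (le_of_eq ?_)
  have : ((1 / 2 : NNReal) : ℝ) = 1 / 2 := by norm_num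
  rw [this]
  rw [mul_assoc C, ← mul_pow]
  congr 2
  ring

theorem T09c_sec {lam : ℂ} (h : Sec lam) : ‖lam‖ ≤ 2 * lam.re := by
  obtain ⟨h0, h1⟩ := h
  have h3 : (0 : ℝ) < Real.sqrt 3 := Real.sqrt_pos.2 (by norm_num)
  have hre : 0 ≤ lam.re := by
    by_contra hcon
    push Not at hcon
    have : Real.sqrt 3 * lam.re < 0 := mul_neg_of_pos_of_neg h3 hcon
    linarith
  have hsq : lam.im ^ 2 ≤ 3 * lam.re ^ 2 := by
    have := pow_le_pow_left₀ h0 h1 2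
    rw [mul_pow, Real.sq_sqrt (by norm_num : (0 : ℝ) ≤ 3)] at this
    exact this
  rw [← abs_of_nonneg (norm_nonneg lam), ← abs_of_nonneg (by linarith : (0 : ℝ) ≤ 2 * lam.re)]
  apply sq_le_sq.1
  rw [Complex.sq_norm, Complex.normSq_apply]
  nlinarith

/-- the triple sum factorises. -/
theorem T09c_factor (q : ℝ) (hq : 0 < q) (M : ℕ) (lam : ℂ) (hlam : lam ≠ 0) (t : ℝ) :
    ∑ k ∈ Finset.range M, ∑ i ∈ Finset.range (2 * M), ∑ l ∈ Finset.range (2 * M),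
        ((cf q k i l : ℝ) : ℂ) * (lam ^ (3 * k + i))⁻¹ *
          ((t : ℂ) ^ (i + 3 * l) * cexp (-lam * (t : ℂ) ^ 2)) =
    cexp (-lam * (t : ℂ) ^ 2) *
      (∑ l ∈ Finset.range (2 * M), (-(2 / 3) * (q : ℂ) * (t : ℂ) ^ 3) ^ l / (l.factorial : ℂ)) *
      ∑ k ∈ Finset.range M, (((-1) ^ k * dR q k / 576 ^ k : ℝ) : ℂ) * ((lam / (q : ℂ)) ^ (3 * k))⁻¹ *
         ∑ i ∈ Finset.range (2 * M), Ring.choose (((1 - q / 2 - 3 * k : ℝ)) : ℂ) i *
            ((q : ℂ) * (t : ℂ) / lam) ^ i := by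
  have hq' : (q : ℂ) ≠ 0 := by exact_mod_cast hq.ne'
  generalize hSD : ∑ l ∈ Finset.range (2 * M), (-(2 / 3) * (q : ℂ) * (t : ℂ) ^ 3) ^ l /
    (l.factorial : ℂ) = SD
  rw [Finset.mul_sum]
  refine Finset.sum_congr rfl (fun k _ => ?_)
  rw [Finset.mul_sum, Finset.mul_sum]
  refine Finset.sum_congr rfl (fun i _ => ?_)
  rw [← hSD, Finset.mul_sum, Finset.sum_mul]
  refine Finset.sum_congr rfl (fun l _ => ?_)
  rw [T09c_choose, cf]
  push_cast
  rw [div_pow, div_pow, pow_add, pow_add, mul_pow, mul_pow, pow_mul (t : ℂ) 3 l]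
  have h1 : (i.factorial : ℂ) ≠ 0 := by exact_mod_cast i.factorial_ne_zero
  have h2 : (l.factorial : ℂ) ≠ 0 := by exact_mod_cast l.factorial_ne_zero
  field_simp
  ring

theorem T09c_sum_bound (N : ℕ) (α : ℂ) (z : ℂ) (hz : ‖z‖ ≤ 1 / 8) :
    ‖∑ i ∈ Finset.range N, Ring.choose α i * z ^ i‖ ≤
      ∑ i ∈ Finset.range N, ‖Ring.choose α i‖ := by
  refine (norm_sum_le _ _).trans (Finset.sum_le_sum fun i _ => ?_)
  rw [norm_mul, norm_pow]
  exact mul_le_of_le_one_right (norm_nonneg _) (pow_le_one₀ (norm_nonneg _) (by linarith))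

theorem T09c_pow_exp (u : ℝ) (hu : 0 ≤ u) (n : ℕ) :
    u ^ n * Real.exp (-(u / 3)) ≤ 3 ^ n * (n.factorial : ℝ) := by
  have h := Real.pow_div_factorial_le_exp (u / 3) (by positivity) n
  have hn : (0 : ℝ) < (n.factorial : ℝ) := by exact_mod_cast n.factorial_pos
  rw [div_pow, div_div, div_le_iff₀ (by positivity)] at h
  rw [Real.exp_neg, ← div_eq_mul_inv, div_le_iff₀ (Real.exp_pos _)]
  calc u ^ n ≤ Real.exp (u / 3) * (3 ^ n * n.factorial) := h
    _ = 3 ^ n * (n.factorial : ℝ) * Real.exp (u / 3) := by ring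

/-- the final real inequality. -/
theorem T09c_real (L u g d e1 e2 e3 T K1 K2 K3 : ℝ) (M : ℕ) (hL : 0 < L) (hu : 0 ≤ u)
    (hg0 : 0 ≤ g) (hg : g ≤ Real.exp (-(u / 2))) (hd0 : 0 ≤ d) (hd : d ≤ Real.exp (u / 12))
    (he1 : e1 ≤ K1 / L ^ (3 * M)) (he2 : e2 ≤ K2 * (u ^ M / L ^ (3 * M)))
    (he12 : 0 ≤ e1 + e2)
    (he30 : 0 ≤ e3 * T) (he3 : e3 * T ≤ K3 * (u ^ (3 * M) / L ^ (3 * M)) * Real.exp (u / 12))
    (hK2 : 0 ≤ K2) (hK3 : 0 ≤ K3) (hK1 : 0 ≤ K1) :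
    g * d * (e1 + e2) + g * (e3 * T) ≤
      (K1 + K2 * (3 ^ M * (M.factorial : ℝ)) + K3 * (3 ^ (3 * M) * ((3 * M).factorial : ℝ))) /
        L ^ (3 * M) * Real.exp (-(u / 12)) := by
  have hLM : 0 < L ^ (3 * M) := by positivity
  have hE : Real.exp (-(u / 2)) * Real.exp (u / 12) = Real.exp (-(u / 12)) * Real.exp (-(u / 3)) := by
    rw [← Real.exp_add, ← Real.exp_add]
    congr 1
    ring
  have h3 : Real.exp (-(u / 3)) ≤ 1 := Real.exp_le_one_iff.2 (by linarith)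
  have hp1 := T09c_pow_exp u hu M
  have hp3 := T09c_pow_exp u hu (3 * M)
  have hA : g * d * (e1 + e2) ≤ Real.exp (-(u / 2)) * Real.exp (u / 12) *
      (K1 / L ^ (3 * M) + K2 * (u ^ M / L ^ (3 * M))) := by
    apply mul_le_mul _ (by linarith) he12 (by positivity)
    exact mul_le_mul hg hd hd0 (Real.exp_pos _).le
  have hB : g * (e3 * T) ≤ Real.exp (-(u / 2)) *
      (K3 * (u ^ (3 * M) / L ^ (3 * M)) * Real.exp (u / 12)) :=
    mul_le_mul hg he3 he30 (Real.exp_pos _).le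
  have hC : Real.exp (-(u / 2)) * (K3 * (u ^ (3 * M) / L ^ (3 * M)) * Real.exp (u / 12)) =
      (Real.exp (-(u / 2)) * Real.exp (u / 12)) * (K3 * (u ^ (3 * M) / L ^ (3 * M))) := by ring
  rw [hC, hE] at hB
  rw [hE] at hA
  have hD : Real.exp (-(u / 12)) * Real.exp (-(u / 3)) * (K1 / L ^ (3 * M) +
      K2 * (u ^ M / L ^ (3 * M))) + Real.exp (-(u / 12)) * Real.exp (-(u / 3)) *
        (K3 * (u ^ (3 * M) / L ^ (3 * M))) =
      Real.exp (-(u / 12)) / L ^ (3 * M) * (K1 * Real.exp (-(u / 3)) +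
        K2 * (u ^ M * Real.exp (-(u / 3))) + K3 * (u ^ (3 * M) * Real.exp (-(u / 3)))) := by
    field_simp
  have hF : Real.exp (-(u / 12)) / L ^ (3 * M) * (K1 * Real.exp (-(u / 3)) +
        K2 * (u ^ M * Real.exp (-(u / 3))) + K3 * (u ^ (3 * M) * Real.exp (-(u / 3)))) ≤
      Real.exp (-(u / 12)) / L ^ (3 * M) * (K1 * 1 + K2 * (3 ^ M * (M.factorial : ℝ)) +
        K3 * (3 ^ (3 * M) * ((3 * M).factorial : ℝ))) := by
    gcongr
  calc g * d * (e1 + e2) + g * (e3 * T) ≤ _ := add_le_add hA hB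
    _ = _ := hD
    _ ≤ _ := hF
    _ = _ := by
      field_simp

/-- the pointwise estimate. -/
theorem T09c_point {β : ℂ → ℂ} (hβ : IsLogB β) (q : ℝ) (hq : 0 < q) (M : ℕ) :
    ∃ C R : ℝ, 0 ≤ C ∧ 0 < R ∧ ∀ lam : ℂ, Sec lam → R ≤ ‖lam‖ → ∀ t : ℝ, |t| ≤ ‖lam‖ / (8 * q) →
      ‖KK β q lam t -
          ∑ k ∈ Finset.range M, ∑ i ∈ Finset.range (2 * M), ∑ l ∈ Finset.range (2 * M),
            ((cf q k i l : ℝ) : ℂ) * (lam ^ (3 * k + i))⁻¹ *
              ((t : ℂ) ^ (i + 3 * l) * cexp (-lam * (t : ℂ) ^ 2))‖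
        ≤ C / ‖lam‖ ^ (3 * M) * Real.exp (-(‖lam‖ * t ^ 2 / 12)) := by
  obtain ⟨CA, RA, hRA, hA⟩ := hβ.expansion q M (1 / 3) (by norm_num)
  obtain ⟨CP, hCP, hP⟩ := T09c_binom ((1 : ℂ) - (q : ℂ) / 2) 0
  have hB := fun k : ℕ => T09c_binom (((1 - q / 2 - 3 * k : ℝ)) : ℂ) (2 * M)
  choose CB hCB hB using hB
  set a : ℕ → ℂ := fun k => (((-1) ^ k * dR q k / 576 ^ k : ℝ) : ℂ) with ha
  set CS : ℕ → ℝ := fun k => ∑ i ∈ Finset.range (2 * M),
    ‖Ring.choose (((1 - q / 2 - 3 * k : ℝ)) : ℂ) i‖ with hCS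
  have hCS0 : ∀ k, 0 ≤ CS k := fun k => Finset.sum_nonneg fun i _ => norm_nonneg _
  refine ⟨|CA| * (2 * q) ^ (3 * M) * CP +
      ((∑ k ∈ Finset.range M, ‖a k‖ * CB k) * q ^ (2 * M)) * (3 ^ M * (M.factorial : ℝ)) +
      ((∑ k ∈ Finset.range M, ‖a k‖ * CS k) * (2 / 3 * q) ^ (2 * M)) *
        (3 ^ (3 * M) * ((3 * M).factorial : ℝ)),
    max (2 * q * RA) (max q 1), ?_, lt_of_lt_of_le one_pos ((le_max_right _ _).trans (le_max_right _ _)),
    ?_⟩
  · have : ∀ k ∈ Finset.range M, 0 ≤ ‖a k‖ * CB k := fun k _ => mul_nonneg (norm_nonneg _) (hCB k)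
    have h1 := Finset.sum_nonneg this
    have : ∀ k ∈ Finset.range M, 0 ≤ ‖a k‖ * CS k := fun k _ => mul_nonneg (norm_nonneg _) (hCS0 k)
    have h2 := Finset.sum_nonneg this
    positivity
  intro lam hlam hR t ht
  have hR1 : 2 * q * RA ≤ ‖lam‖ := (le_max_left _ _).trans hR
  have hR2 : q ≤ ‖lam‖ := ((le_max_left _ _).trans (le_max_right _ _)).trans hR
  have hR3 : 1 ≤ ‖lam‖ := ((le_max_right _ _).trans (le_max_right _ _)).trans hR
  have hL : 0 < ‖lam‖ := by linarith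
  have hlam0 : lam ≠ 0 := norm_pos_iff.1 hL
  have hre := T09c_sec hlam
  have hq' : (q : ℂ) ≠ 0 := by exact_mod_cast hq.ne'
  set L := ‖lam‖ with hLdef
  -- the point
  have hp0 : ‖lam / (q : ℂ)‖ = L / q := by
    rw [norm_div, Complex.norm_real, Real.norm_eq_abs, abs_of_pos hq]
  set p0 := lam / (q : ℂ) with hp0def
  set z := (q : ℂ) * (t : ℂ) / lam with hz
  have hznorm : ‖z‖ = q * |t| / L := by
    rw [hz, norm_div, norm_mul, Complex.norm_real, Complex.norm_real, Real.norm_eq_abs,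
      Real.norm_eq_abs, abs_of_pos hq]
  have hz8 : ‖z‖ ≤ 1 / 8 := by
    rw [hznorm, div_le_iff₀ hL]
    have := mul_le_mul_of_nonneg_left ht hq.le
    calc q * |t| ≤ q * (L / (8 * q)) := this
      _ = 1 / 8 * L := by field_simp
  have h1z : 1 + z ≠ 0 := by
    intro h
    have : z = -1 := by linear_combination h
    rw [this] at hz8
    norm_num at hz8
  have hp : p0 + (t : ℂ) = p0 * (1 + z) := by
    rw [hp0def, hz]
    field_simp
  have hpn1 : L / (2 * q) ≤ ‖p0 + (t : ℂ)‖ := by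
    have h1 : ‖p0‖ - ‖(t : ℂ)‖ ≤ ‖p0 + (t : ℂ)‖ := by
      have := norm_sub_le (p0 + (t : ℂ)) (t : ℂ)
      rw [add_sub_cancel_right] at this
      linarith
    rw [hp0, Complex.norm_real, Real.norm_eq_abs] at h1
    have h2 : L / q = 8 * (L / (8 * q)) := by field_simp
    have h3 : L / (2 * q) = 4 * (L / (8 * q)) := by field_simp; norm_num
    have h4 : 0 ≤ L / (8 * q) := by positivity
    linarith
  have hpn2 : ‖p0 + (t : ℂ)‖ ≤ 9 * (L / (8 * q)) := by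
    have h1 := norm_add_le p0 (t : ℂ)
    rw [hp0, Complex.norm_real, Real.norm_eq_abs] at h1
    have h2 : L / q = 8 * (L / (8 * q)) := by field_simp
    linarith
  have hpre : 3 * (L / (8 * q)) ≤ (p0 + (t : ℂ)).re := by
    have h1 : (p0 + (t : ℂ)).re = lam.re / q + t := by
      rw [Complex.add_re, hp0def, Complex.div_ofReal_re, Complex.ofReal_re]
    rw [h1]
    have h2 : L / (2 * q) ≤ lam.re / q := by
      rw [div_le_div_iff₀ (by positivity) hq]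
      nlinarith
    have h3 : L / (2 * q) = 4 * (L / (8 * q)) := by field_simp; norm_num
    have h4 := (abs_le.1 ht).1
    linarith
  have hRA' : RA ≤ ‖p0 + (t : ℂ)‖ := by
    refine le_trans ?_ hpn1
    rw [le_div_iff₀ (by positivity)]
    linarith
  have hsec : 1 / 3 * ‖p0 + (t : ℂ)‖ ≤ (p0 + (t : ℂ)).re := by linarith
  have hEA := hA _ hRA' hsec
  -- names
  set u := L * t ^ 2 with hu
  have hu0 : 0 ≤ u := by positivity
  set x : ℂ := -(2 / 3) * (q : ℂ) * (t : ℂ) ^ 3 with hx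
  set W := cexp ((q : ℂ) * β (p0 + (t : ℂ))) with hW
  set G := cexp (-lam * (t : ℂ) ^ 2) with hG
  set P := (1 + z) ^ ((1 : ℂ) - (q : ℂ) / 2) with hPdef
  set S : ℕ → ℂ := fun k => ∑ i ∈ Finset.range (2 * M),
    Ring.choose (((1 - q / 2 - 3 * k : ℝ)) : ℂ) i * z ^ i with hS
  set SD := ∑ l ∈ Finset.range (2 * M), x ^ l / (l.factorial : ℂ) with hSD
  have hKK : KK β q lam t = G * cexp x * (W * P) := by
    rw [KK, hG, hW, hPdef, hx, ← Complex.exp_add, ← mul_assoc, ← Complex.exp_add]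
    congr 2
    ring
  rw [hKK, T09c_factor q hq M lam hlam0 t]
  change ‖G * cexp x * (W * P) - G * SD * ∑ k ∈ Finset.range M, a k * (p0 ^ (3 * k))⁻¹ * S k‖ ≤ _
  set T := ∑ k ∈ Finset.range M, a k * (p0 ^ (3 * k))⁻¹ * S k with hT
  have hpow : ∀ k : ℕ, ((p0 + (t : ℂ)) ^ (3 * k))⁻¹ * P =
      (p0 ^ (3 * k))⁻¹ * (1 + z) ^ (((1 - q / 2 - 3 * k : ℝ)) : ℂ) := by
    intro k
    have e : (((1 - q / 2 - 3 * k : ℝ)) : ℂ) = ((1 : ℂ) - (q : ℂ) / 2) - ((3 * k : ℕ) : ℂ) := by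
      push_cast
      ring
    rw [e, Complex.cpow_sub _ _ h1z, Complex.cpow_natCast, hp, mul_pow, mul_inv, hPdef]
    ring
  have hsplit : W * P - T = (W - ∑ k ∈ Finset.range M, a k * ((p0 + (t : ℂ)) ^ (3 * k))⁻¹) * P +
      ∑ k ∈ Finset.range M, a k * (p0 ^ (3 * k))⁻¹ *
        ((1 + z) ^ (((1 - q / 2 - 3 * k : ℝ)) : ℂ) - S k) := by
    rw [sub_mul, Finset.sum_mul]
    have : ∑ k ∈ Finset.range M, a k * (p0 ^ (3 * k))⁻¹ *
        ((1 + z) ^ (((1 - q / 2 - 3 * k : ℝ)) : ℂ) - S k) =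
        ∑ k ∈ Finset.range M, a k * ((p0 + (t : ℂ)) ^ (3 * k))⁻¹ * P - T := by
      rw [hT, ← Finset.sum_sub_distrib]
      refine Finset.sum_congr rfl (fun k _ => ?_)
      rw [mul_assoc (a k) (((p0 + (t : ℂ)) ^ (3 * k))⁻¹) P, hpow k]
      ring
    rw [this]
    ring
  have hmain : G * cexp x * (W * P) - G * SD * T =
      G * cexp x * (W * P - T) + G * ((cexp x - SD) * T) := by ring
  -- the bounds
  have hp0inv : ∀ k : ℕ, ‖(p0 ^ (3 * k))⁻¹‖ ≤ 1 := by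
    intro k
    rw [norm_inv, norm_pow, hp0]
    apply inv_le_one_of_one_le₀
    apply one_le_pow₀
    rw [le_div_iff₀ hq]
    linarith
  have hPn : ‖P‖ ≤ CP := by
    have := hP z hz8
    simpa using this
  have hxn : ‖x‖ = 2 / 3 * q * |t| ^ 3 := by
    rw [hx, norm_mul, norm_mul, norm_pow, Complex.norm_real, Complex.norm_real, Real.norm_eq_abs,
      Real.norm_eq_abs, abs_of_pos hq, norm_neg]
    norm_num
  have hxle : ‖x‖ ≤ u / 12 := by
    rw [hxn, hu]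
    have h1 : |t| ^ 3 = |t| * t ^ 2 := by rw [pow_succ', sq_abs]
    rw [h1]
    have h2 := mul_le_mul_of_nonneg_right ht (by positivity : 0 ≤ 2 / 3 * q * t ^ 2)
    calc 2 / 3 * q * (|t| * t ^ 2) = |t| * (2 / 3 * q * t ^ 2) := by ring
      _ ≤ L / (8 * q) * (2 / 3 * q * t ^ 2) := h2
      _ = L * t ^ 2 / 12 := by field_simp; ring
  have hGn : ‖G‖ ≤ Real.exp (-(u / 2)) := by
    rw [hG, Complex.norm_exp]
    apply Real.exp_le_exp.2
    have : (-lam * (t : ℂ) ^ 2).re = -(lam.re * t ^ 2) := by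
      rw [← Complex.ofReal_pow, neg_mul, Complex.neg_re, Complex.re_mul_ofReal]
    rw [this, hu]
    have := mul_le_mul_of_nonneg_right hre (sq_nonneg t)
    nlinarith
  have hDn : ‖cexp x‖ ≤ Real.exp (u / 12) :=
    (Complex.norm_exp_le_exp_norm x).trans (Real.exp_le_exp.2 hxle)
  have hN1 : ‖(W - ∑ k ∈ Finset.range M, a k * ((p0 + (t : ℂ)) ^ (3 * k))⁻¹) * P‖ ≤
      |CA| * (2 * q) ^ (3 * M) * CP / L ^ (3 * M) := by
    rw [norm_mul]
    have h1 : ‖W - ∑ k ∈ Finset.range M, a k * ((p0 + (t : ℂ)) ^ (3 * k))⁻¹‖ ≤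
        |CA| * (2 * q) ^ (3 * M) / L ^ (3 * M) := by
      refine hEA.trans ?_
      have h2 : (L / (2 * q)) ^ (3 * M) ≤ ‖p0 + (t : ℂ)‖ ^ (3 * M) :=
        pow_le_pow_left₀ (by positivity) hpn1 _
      calc CA / ‖p0 + (t : ℂ)‖ ^ (3 * M) ≤ |CA| / ‖p0 + (t : ℂ)‖ ^ (3 * M) := by
            gcongr
            exact le_abs_self _
        _ ≤ |CA| / (L / (2 * q)) ^ (3 * M) := by
            gcongr
        _ = |CA| * (2 * q) ^ (3 * M) / L ^ (3 * M) := by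
            rw [div_pow, div_div_eq_mul_div]
    calc _ ≤ |CA| * (2 * q) ^ (3 * M) / L ^ (3 * M) * CP :=
          mul_le_mul h1 hPn (norm_nonneg _) (by positivity)
      _ = _ := by ring
  have hzpow : ‖z‖ ^ (2 * M) = q ^ (2 * M) * (u ^ M / L ^ (3 * M)) := by
    rw [hznorm, hu, div_pow, mul_pow, mul_pow, pow_mul |t| 2 M, sq_abs,
      show 3 * M = M + 2 * M by ring, pow_add L M (2 * M)]
    field_simp
  have hxpow : ‖x‖ ^ (2 * M) = (2 / 3 * q) ^ (2 * M) * (u ^ (3 * M) / L ^ (3 * M)) := by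
    rw [hxn, hu, mul_pow, mul_pow, ← pow_mul |t|, show 3 * (2 * M) = 2 * (3 * M) by ring,
      pow_mul |t| 2, sq_abs, mul_pow L]
    field_simp
  have hN2 : ‖∑ k ∈ Finset.range M, a k * (p0 ^ (3 * k))⁻¹ *
        ((1 + z) ^ (((1 - q / 2 - 3 * k : ℝ)) : ℂ) - S k)‖ ≤
      (∑ k ∈ Finset.range M, ‖a k‖ * CB k) * q ^ (2 * M) * (u ^ M / L ^ (3 * M)) := by
    rw [mul_assoc, ← hzpow, Finset.sum_mul]
    refine (norm_sum_le _ _).trans (Finset.sum_le_sum fun k _ => ?_)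
    rw [norm_mul, norm_mul]
    have h1 := hB k z hz8
    have h2 : ‖a k‖ * ‖(p0 ^ (3 * k))⁻¹‖ ≤ ‖a k‖ :=
      mul_le_of_le_one_right (norm_nonneg _) (hp0inv k)
    calc _ ≤ ‖a k‖ * (CB k * ‖z‖ ^ (2 * M)) :=
          mul_le_mul h2 h1 (norm_nonneg _) (norm_nonneg _)
      _ = _ := by ring
  have hN3 : ‖cexp x - SD‖ ≤ ‖x‖ ^ (2 * M) * Real.exp (u / 12) := by
    have := Complex.norm_exp_sub_sum_le_norm_mul_exp x (2 * M)
    refine this.trans ?_
    gcongr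
  have hN4 : ‖T‖ ≤ ∑ k ∈ Finset.range M, ‖a k‖ * CS k := by
    rw [hT]
    refine (norm_sum_le _ _).trans (Finset.sum_le_sum fun k _ => ?_)
    rw [norm_mul, norm_mul]
    have h2 : ‖a k‖ * ‖(p0 ^ (3 * k))⁻¹‖ ≤ ‖a k‖ :=
      mul_le_of_le_one_right (norm_nonneg _) (hp0inv k)
    exact mul_le_mul h2 (T09c_sum_bound _ _ _ hz8) (norm_nonneg _) (norm_nonneg _)
  have hK2 : 0 ≤ (∑ k ∈ Finset.range M, ‖a k‖ * CB k) * q ^ (2 * M) :=
    mul_nonneg (Finset.sum_nonneg fun k _ => mul_nonneg (norm_nonneg _) (hCB k)) (by positivity)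
  have hK3 : 0 ≤ (∑ k ∈ Finset.range M, ‖a k‖ * CS k) * (2 / 3 * q) ^ (2 * M) :=
    mul_nonneg (Finset.sum_nonneg fun k _ => mul_nonneg (norm_nonneg _) (hCS0 k)) (by positivity)
  have hfin := T09c_real L u ‖G‖ ‖cexp x‖
    ‖(W - ∑ k ∈ Finset.range M, a k * ((p0 + (t : ℂ)) ^ (3 * k))⁻¹) * P‖
    ‖∑ k ∈ Finset.range M, a k * (p0 ^ (3 * k))⁻¹ *
        ((1 + z) ^ (((1 - q / 2 - 3 * k : ℝ)) : ℂ) - S k)‖
    ‖cexp x - SD‖ ‖T‖ (|CA| * (2 * q) ^ (3 * M) * CP)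
    ((∑ k ∈ Finset.range M, ‖a k‖ * CB k) * q ^ (2 * M))
    ((∑ k ∈ Finset.range M, ‖a k‖ * CS k) * (2 / 3 * q) ^ (2 * M)) M hL hu0 (norm_nonneg _) hGn
    (norm_nonneg _) hDn hN1 hN2 (by positivity) (by positivity) (by
      calc ‖cexp x - SD‖ * ‖T‖ ≤ (‖x‖ ^ (2 * M) * Real.exp (u / 12)) *
            ∑ k ∈ Finset.range M, ‖a k‖ * CS k :=
            mul_le_mul hN3 hN4 (norm_nonneg _) (by positivity)
        _ = _ := by rw [hxpow]; ring) hK2 hK3 (by positivity)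
  rw [hmain]
  refine (norm_add_le _ _).trans (le_trans ?_ hfin)
  rw [norm_mul, norm_mul, norm_mul, norm_mul, hsplit]
  gcongr
  exact norm_add_le _ _

/-- `KK` is continuous on the central interval. -/
theorem T09c_cont {β : ℂ → ℂ} (hβ : IsLogB β) (q : ℝ) (hq : 0 < q) (lam : ℂ) (hlam : Sec lam)
    (hL : 0 < ‖lam‖) :
    ContinuousOn (KK β q lam) (Icc (-(‖lam‖ / (8 * q))) (‖lam‖ / (8 * q))) := by
  have hre := T09c_sec hlam
  have hlam0 : lam ≠ 0 := norm_pos_iff.1 hL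
  have hb : ContinuousOn (fun t : ℝ => β (lam / (q : ℂ) + (t : ℂ)))
      (Icc (-(‖lam‖ / (8 * q))) (‖lam‖ / (8 * q))) := by
    refine hβ.diff.continuousOn.comp (f := fun t : ℝ => lam / (q : ℂ) + (t : ℂ)) (by fun_prop) ?_
    intro t ht
    change 0 < (lam / (q : ℂ) + (t : ℂ)).re
    rw [Complex.add_re, Complex.div_ofReal_re, Complex.ofReal_re]
    have h2 : ‖lam‖ / (2 * q) ≤ lam.re / q := by
      rw [div_le_div_iff₀ (by positivity) hq]
      nlinarith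
    have h3 : ‖lam‖ / (2 * q) = 4 * (‖lam‖ / (8 * q)) := by field_simp; norm_num
    have h4 : 0 < ‖lam‖ / (8 * q) := by positivity
    have := ht.1
    linarith
  have hc : ContinuousOn (fun t : ℝ => (1 + (q : ℂ) * (t : ℂ) / lam) ^ ((1 : ℂ) - (q : ℂ) / 2))
      (Icc (-(‖lam‖ / (8 * q))) (‖lam‖ / (8 * q))) := by
    refine ContinuousOn.cpow (by fun_prop) continuousOn_const ?_
    intro t ht
    apply Complex.mem_slitPlane_of_norm_lt_one
    rw [norm_div, norm_mul, Complex.norm_real, Complex.norm_real, Real.norm_eq_abs,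
      Real.norm_eq_abs, abs_of_pos hq, div_lt_one hL]
    have h1 : |t| ≤ ‖lam‖ / (8 * q) := abs_le.2 ⟨ht.1, ht.2⟩
    calc q * |t| ≤ q * (‖lam‖ / (8 * q)) := mul_le_mul_of_nonneg_left h1 hq.le
      _ = ‖lam‖ / 8 := by field_simp
      _ < ‖lam‖ := by linarith
  have he : ContinuousOn (fun t : ℝ => cexp (-lam * (t : ℂ) ^ 2 - (2 / 3) * (q : ℂ) * (t : ℂ) ^ 3 +
      (q : ℂ) * β (lam / (q : ℂ) + (t : ℂ)))) (Icc (-(‖lam‖ / (8 * q))) (‖lam‖ / (8 * q))) := by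
    refine Complex.continuous_exp.comp_continuousOn ?_
    refine ContinuousOn.add (by fun_prop) (continuousOn_const.mul hb)
  exact he.mul hc

theorem KK_central {β : ℂ → ℂ} (hβ : IsLogB β) (q : ℝ) (hq : 0 < q) (M : ℕ) :
    ∃ C R : ℝ, 0 < R ∧ ∀ lam : ℂ, Sec lam → R ≤ ‖lam‖ →
      ‖(∫ t in (-(‖lam‖ / (8 * q)))..(‖lam‖ / (8 * q)), KK β q lam t) -
          ∑ k ∈ Finset.range M, ∑ i ∈ Finset.range (2 * M), ∑ l ∈ Finset.range (2 * M),
            ((cf q k i l : ℝ) : ℂ) * (lam ^ (3 * k + i))⁻¹ *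
              ∫ t in (-(‖lam‖ / (8 * q)))..(‖lam‖ / (8 * q)),
                (t : ℂ) ^ (i + 3 * l) * cexp (-lam * (t : ℂ) ^ 2)‖
        ≤ C / (‖lam‖ ^ (3 * M) * Real.sqrt ‖lam‖) := by
  obtain ⟨C, R, hC, hR, h⟩ := T09c_point hβ q hq M
  refine ⟨C * Real.sqrt (12 * Real.pi), R, hR, ?_⟩
  intro lam hlam hRl
  have hL : 0 < ‖lam‖ := lt_of_lt_of_le hR hRl
  have hcont := T09c_cont hβ q hq lam hlam hL
  have hpt := h lam hlam hRl
  have hA : 0 < ‖lam‖ / (8 * q) := by positivity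
  generalize ‖lam‖ / (8 * q) = A at hcont hpt hA ⊢
  have hint : IntervalIntegrable (KK β q lam) volume (-A) A := by
    apply ContinuousOn.intervalIntegrable
    rwa [uIcc_of_le (by linarith)]
  have e : (∑ k ∈ Finset.range M, ∑ i ∈ Finset.range (2 * M), ∑ l ∈ Finset.range (2 * M),
            ((cf q k i l : ℝ) : ℂ) * (lam ^ (3 * k + i))⁻¹ *
              ∫ t in (-A)..A, (t : ℂ) ^ (i + 3 * l) * cexp (-lam * (t : ℂ) ^ 2)) =
      ∫ t in (-A)..A, ∑ k ∈ Finset.range M, ∑ i ∈ Finset.range (2 * M),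
        ∑ l ∈ Finset.range (2 * M), ((cf q k i l : ℝ) : ℂ) * (lam ^ (3 * k + i))⁻¹ *
          ((t : ℂ) ^ (i + 3 * l) * cexp (-lam * (t : ℂ) ^ 2)) := by
    rw [intervalIntegral.integral_finset_sum
      (fun k _ => Continuous.intervalIntegrable (by fun_prop) _ _)]
    refine Finset.sum_congr rfl (fun k _ => ?_)
    rw [intervalIntegral.integral_finset_sum
      (fun k _ => Continuous.intervalIntegrable (by fun_prop) _ _)]
    refine Finset.sum_congr rfl (fun i _ => ?_)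
    rw [intervalIntegral.integral_finset_sum
      (fun k _ => Continuous.intervalIntegrable (by fun_prop) _ _)]
    refine Finset.sum_congr rfl (fun l _ => ?_)
    rw [intervalIntegral.integral_const_mul]
  rw [e, ← intervalIntegral.integral_sub hint (Continuous.intervalIntegrable (by fun_prop) _ _)]
  have hgint : Integrable (fun t : ℝ => C / ‖lam‖ ^ (3 * M) * Real.exp (-(‖lam‖ * t ^ 2 / 12))) := by
    have h1 := (integrable_exp_neg_mul_sq (b := ‖lam‖ / 12) (by positivity)).const_mul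
      (C / ‖lam‖ ^ (3 * M))
    refine h1.congr (ae_of_all _ fun t => ?_)
    dsimp only
    congr 2
    ring
  have hgval : ∫ t : ℝ, C / ‖lam‖ ^ (3 * M) * Real.exp (-(‖lam‖ * t ^ 2 / 12)) =
      C / ‖lam‖ ^ (3 * M) * Real.sqrt (Real.pi / (‖lam‖ / 12)) := by
    rw [integral_const_mul, ← integral_gaussian]
    congr 1
    refine integral_congr_ae (ae_of_all _ fun t => ?_)
    dsimp only
    congr 1
    ring
  have h1 : ‖∫ t in (-A)..A, (KK β q lam t - ∑ k ∈ Finset.range M, ∑ i ∈ Finset.range (2 * M),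
        ∑ l ∈ Finset.range (2 * M), ((cf q k i l : ℝ) : ℂ) * (lam ^ (3 * k + i))⁻¹ *
          ((t : ℂ) ^ (i + 3 * l) * cexp (-lam * (t : ℂ) ^ 2)))‖ ≤
      ∫ t in (-A)..A, C / ‖lam‖ ^ (3 * M) * Real.exp (-(‖lam‖ * t ^ 2 / 12)) := by
    refine intervalIntegral.norm_integral_le_of_norm_le (by linarith) (ae_of_all _ fun t ht => ?_)
      hgint.intervalIntegrable
    exact hpt t (abs_le.2 ⟨ht.1.le, ht.2⟩)
  refine h1.trans ?_
  rw [intervalIntegral.integral_of_le (by linarith)]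
  refine (setIntegral_le_integral hgint (ae_of_all _ fun t => by positivity)).trans ?_
  rw [hgval, show Real.pi / (‖lam‖ / 12) = 12 * Real.pi / ‖lam‖ by field_simp,
    Real.sqrt_div (by positivity)]
  apply le_of_eq
  field_simp

end Pool.Agent.H140R2.FR
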