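import Pool.Agent.H140R2.FR.T02Bbasic

/-!
T09e.  Summing the Gaussian moments gives `bcoef`.

Sketch.  `(lam/π)^{1/2} (π/lam)^{1/2} = 1` for `Re lam > 0`.  By `gauss_even/odd` the term `(k,i,l)` vanishes
unless `i + l = 2j` is even, and then (with `2n = i + 3l`, `n = 3j - i`, `l = 2j - i`) it is
`cf q k i l * (6j-2i)!/(4^{3j-i}(3j-i)!) * lam^{-3(k+j)}`; terms with `k + j ≥ M` are `O(‖lam‖^{-3M})`; for
`k + j = m < M`: `∑_{i ≤ 2j} cf q k i (2j-i) (6j-2i)!/(4^{3j-i}(3j-i)!)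
 = (-1)^k dR q k q^{3k+2j} / 576^{k+j} * rhoR q j k`, because
`(2/3)^{2j-i} 4^{i-3j} = 12^i 2^{2j-i} / 576^j`; sum over `k ≤ m` = `bcoef q m`.
-/

set_option autoImplicit false

open Complex MeasureTheory Set Filter Topology

namespace Pool.Agent.H140R2.FR

/-- the coefficient of the Gaussian moment of order `i + 3 l` (even). -/
noncomputable def gcR (i l : ℕ) : ℝ :=
  ((i + 3 * l).factorial : ℝ) / ((4 : ℝ) ^ ((i + 3 * l) / 2) * (((i + 3 * l) / 2).factorial : ℝ))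

open Classical in
/-- the coefficient of the term `(k, i, l)`. -/
noncomputable def ccR (q : ℝ) (s : ℕ × ℕ × ℕ) : ℝ :=
  if Even (s.2.1 + s.2.2) then cf q s.1 s.2.1 s.2.2 * gcR s.2.1 s.2.2 else 0

/-- the degree of the term. -/
def dgR (s : ℕ × ℕ × ℕ) : ℕ := s.1 + (s.2.1 + s.2.2) / 2

theorem sqrt_mul_inv_sqrt (lam : ℂ) (hlam : 0 < lam.re) :
    (lam / (Real.pi : ℂ)) ^ ((1 : ℂ) / 2) * ((Real.pi : ℂ) / lam) ^ ((1 : ℂ) / 2) = 1 := by
  have hpi : (Real.pi : ℂ) ≠ 0 := by exact_mod_cast Real.pi_ne_zero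
  have hl : lam ≠ 0 := by
    intro h
    rw [h] at hlam
    simp at hlam
  have h1 : (Real.pi : ℂ) / lam = (lam / (Real.pi : ℂ))⁻¹ := by
    rw [inv_div]
  have h2 : (lam / (Real.pi : ℂ)).arg ≠ Real.pi := by
    intro h
    rw [Complex.arg_eq_pi_iff] at h
    have h3 : (lam / (Real.pi : ℂ)).re = lam.re / Real.pi := by
      rw [Complex.div_ofReal_re]
    rw [h3] at h
    have h4 : 0 < lam.re / Real.pi := div_pos hlam Real.pi_pos
    linarith [h.1]
  rw [h1, Complex.inv_cpow _ _ h2]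
  apply mul_inv_cancel₀
  rw [Ne, Complex.cpow_eq_zero_iff]
  rintro ⟨h, -⟩
  exact (div_ne_zero hl hpi) h

theorem moment_term (q : ℝ) (lam : ℂ) (hlam : 0 < lam.re) (k i l : ℕ) :
    (lam / (Real.pi : ℂ)) ^ ((1 : ℂ) / 2) * (((cf q k i l : ℝ) : ℂ) * (lam ^ (3 * k + i))⁻¹ *
              ∫ t : ℝ, (t : ℂ) ^ (i + 3 * l) * cexp (-lam * (t : ℂ) ^ 2)) =
      ((ccR q (k, i, l) : ℝ) : ℂ) * (lam ^ (3 * dgR (k, i, l)))⁻¹ := by
  by_cases he : Even (i + l)
  · obtain ⟨j, hj⟩ := he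
    have h2 : i + 3 * l = 2 * (j + l) := by omega
    have h3 : (i + 3 * l) / 2 = j + l := by omega
    have h4 : (i + l) / 2 = j := by omega
    have hc : ccR q (k, i, l) = cf q k i l * gcR i l := by
      unfold ccR
      rw [if_pos ⟨j, hj⟩]
    have hd : dgR (k, i, l) = k + j := by
      unfold dgR
      show k + (i + l) / 2 = _
      rw [h4]
    rw [hc, hd]
    unfold gcR
    rw [h3, h2, gauss_even lam hlam]
    have h5 : (lam ^ (3 * (k + j)))⁻¹ = (lam ^ (3 * k + i))⁻¹ * (lam ^ (j + l))⁻¹ := by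
      rw [← mul_inv, ← pow_add]
      congr 2
      omega
    rw [h5]
    push_cast
    have h6 := sqrt_mul_inv_sqrt lam hlam
    linear_combination ((cf q k i l : ℂ) * (lam ^ (3 * k + i))⁻¹ *
      (((2 * (j + l)).factorial : ℂ) / ((4 : ℂ) ^ (j + l) * ((j + l).factorial : ℂ)) *
        (lam ^ (j + l))⁻¹)) * h6
  · have ho : ¬ Even (i + 3 * l) := by
      intro h
      apply he
      rw [Nat.even_iff] at h ⊢
      omega
    rw [Nat.not_even_iff_odd] at ho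
    obtain ⟨n, hn⟩ := ho
    have hc : ccR q (k, i, l) = 0 := by
      unfold ccR
      rw [if_neg he]
    rw [hc, hn, gauss_odd lam hlam]
    simp

theorem ccR_eq (q : ℝ) (k j i : ℕ) (hi : i ≤ 2 * j) :
    ccR q (k, i, 2 * j - i) = (q ^ 2 / 576) ^ (k + j) * ((-1) ^ k * q ^ k * dR q k *
      (12 ^ i * 2 ^ (2 * j - i) * (∏ s ∈ Finset.range i, (3 * (k : ℝ) - 1 + q / 2 + s)) /
        (i.factorial : ℝ) * ((6 * j - 2 * i).factorial : ℝ) /
          (((2 * j - i).factorial : ℝ) * ((3 * j - i).factorial : ℝ)))) := by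
  obtain ⟨a, ha⟩ : ∃ a, a = 2 * j - i := ⟨_, rfl⟩
  obtain ⟨n, hn⟩ : ∃ n, n = 3 * j - i := ⟨_, rfl⟩
  have h1 : Even (i + (2 * j - i)) := ⟨j, by omega⟩
  have h2 : i + 3 * (2 * j - i) = 6 * j - 2 * i := by omega
  have h3 : (i + 3 * (2 * j - i)) / 2 = 3 * j - i := by omega
  have hc : ccR q (k, i, 2 * j - i) = cf q k i (2 * j - i) * gcR i (2 * j - i) := by
    unfold ccR
    rw [if_pos h1]
  rw [hc]
  unfold gcR cf
  rw [h3, h2, ← ha, ← hn]
  have h4 : (576 : ℝ) ^ j = 3 ^ (a + i) * 4 ^ (n + i) := by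
    have e1 : a + i = 2 * j := by omega
    have e2 : n + i = 3 * j := by omega
    rw [e1, e2, pow_mul, pow_mul, ← mul_pow]
    norm_num
  have h5 : (q ^ 2 / 576) ^ (k + j) = q ^ (2 * k) * q ^ (a + i) / (576 ^ k * 576 ^ j) := by
    have e1 : a + i = 2 * j := by omega
    rw [div_pow, ← pow_mul, pow_add, e1, ← pow_add]
    congr 2
    ring
  rw [h5, h4]
  have h6 : (-(2 / 3 * q)) ^ a = (-1) ^ a * (2 ^ a / 3 ^ a * q ^ a) := by
    rw [neg_pow, mul_pow, div_pow]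
  rw [h6]
  have h7 : ((-1 : ℝ) ^ i) * (-1) ^ a = 1 := by
    rw [← pow_add]
    have : i + a = 2 * j := by omega
    rw [this, pow_mul]
    norm_num
  have h8 : (12 : ℝ) ^ i = 3 ^ i * 4 ^ i := by
    rw [← mul_pow]; norm_num
  rw [h8]
  have n1 : (i.factorial : ℝ) ≠ 0 := by exact_mod_cast i.factorial_ne_zero
  have n2 : (a.factorial : ℝ) ≠ 0 := by exact_mod_cast a.factorial_ne_zero
  have n3 : (n.factorial : ℝ) ≠ 0 := by exact_mod_cast n.factorial_ne_zero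
  have n4 : (3 : ℝ) ^ a ≠ 0 := by positivity
  have n5 : (3 : ℝ) ^ i ≠ 0 := by positivity
  have n6 : (4 : ℝ) ^ n ≠ 0 := by positivity
  have n7 : (4 : ℝ) ^ i ≠ 0 := by positivity
  have n8 : (576 : ℝ) ^ k ≠ 0 := by positivity
  rw [pow_add (3 : ℝ), pow_add (4 : ℝ), pow_add q]
  set P := ∏ s ∈ Finset.range i, (3 * (k : ℝ) - 1 + q / 2 + s) with hP
  have h9 : q ^ (3 * k) = q ^ (2 * k) * q ^ k := by
    rw [← pow_add]; congr 1; ring
  rw [h9]
  field_simp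
  linear_combination (dR q k * q ^ (k * 3) * q ^ i * q ^ a * P) * h7

theorem bcoef_eq_sum (q : ℝ) (M m : ℕ) (hm : m < M) :
    ∑ s ∈ (Finset.range M ×ˢ (Finset.range (2 * M) ×ˢ Finset.range (2 * M))) with dgR s = m,
      ccR q s = bcoef q m := by
  classical
  have h0 : ∑ s ∈ (Finset.range M ×ˢ (Finset.range (2 * M) ×ˢ Finset.range (2 * M)))
      with dgR s = m, ccR q s =
      ∑ s ∈ (Finset.range M ×ˢ (Finset.range (2 * M) ×ˢ Finset.range (2 * M)))
      with (dgR s = m ∧ Even (s.2.1 + s.2.2)), ccR q s := by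
    rw [← Finset.filter_filter, Finset.sum_filter (p := fun s : ℕ × ℕ × ℕ => Even (s.2.1 + s.2.2))]
    apply Finset.sum_congr rfl
    intro s _
    unfold ccR
    split_ifs <;> rfl
  rw [h0]
  have h1 : ∑ s ∈ (Finset.range M ×ˢ (Finset.range (2 * M) ×ˢ Finset.range (2 * M)))
      with (dgR s = m ∧ Even (s.2.1 + s.2.2)), ccR q s =
      ∑ x ∈ (Finset.range (m + 1)).sigma (fun k => Finset.range (2 * (m - k) + 1)),
        ccR q (x.1, x.2, 2 * (m - x.1) - x.2) := by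
    refine Finset.sum_bij' (fun s _ => (⟨s.1, s.2.1⟩ : (_ : ℕ) × ℕ))
      (fun x _ => (x.1, x.2, 2 * (m - x.1) - x.2)) ?_ ?_ ?_ ?_ ?_
    · rintro ⟨k, i, l⟩ hs
      simp only [Finset.mem_filter, Finset.mem_product, Finset.mem_range, dgR] at hs
      obtain ⟨⟨h1, h2, h3⟩, h4, ⟨j, hj⟩⟩ := hs
      simp only [Finset.mem_sigma, Finset.mem_range]
      omega
    · rintro ⟨k, i⟩ hx
      simp only [Finset.mem_sigma, Finset.mem_range] at hx
      simp only [Finset.mem_filter, Finset.mem_product, Finset.mem_range, dgR]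
      refine ⟨⟨by omega, by omega, by omega⟩, by omega, ⟨m - k, by omega⟩⟩
    · rintro ⟨k, i, l⟩ hs
      simp only [Finset.mem_filter, Finset.mem_product, Finset.mem_range, dgR] at hs
      obtain ⟨⟨h1, h2, h3⟩, h4, ⟨j, hj⟩⟩ := hs
      simp only [Prod.mk.injEq, true_and]
      omega
    · rintro ⟨k, i⟩ hx
      rfl
    · rintro ⟨k, i, l⟩ hs
      simp only [Finset.mem_filter, Finset.mem_product, Finset.mem_range, dgR] at hs
      obtain ⟨⟨h1, h2, h3⟩, h4, ⟨j, hj⟩⟩ := hs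
      have : l = 2 * (m - k) - i := by omega
      simp only
      rw [← this]
  rw [h1, Finset.sum_sigma]
  unfold bcoef
  rw [Finset.mul_sum]
  apply Finset.sum_congr rfl
  intro k hk
  rw [Finset.mem_range] at hk
  unfold rhoR
  rw [Finset.mul_sum, Finset.mul_sum]
  apply Finset.sum_congr rfl
  intro i hi
  rw [Finset.mem_range] at hi
  have h2 := ccR_eq q k (m - k) i (by omega)
  have h3 : k + (m - k) = m := by omega
  rw [h3] at h2
  exact h2

theorem moment_sum (q : ℝ) (hq : 0 < q) (M : ℕ) :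
    ∃ C : ℝ, ∀ lam : ℂ, 0 < lam.re → 1 ≤ ‖lam‖ →
      ‖(lam / (Real.pi : ℂ)) ^ ((1 : ℂ) / 2) *
          (∑ k ∈ Finset.range M, ∑ i ∈ Finset.range (2 * M), ∑ l ∈ Finset.range (2 * M),
            ((cf q k i l : ℝ) : ℂ) * (lam ^ (3 * k + i))⁻¹ *
              ∫ t : ℝ, (t : ℂ) ^ (i + 3 * l) * cexp (-lam * (t : ℂ) ^ 2)) -
        ∑ m ∈ Finset.range M, ((bcoef q m : ℝ) : ℂ) * (lam ^ (3 * m))⁻¹‖
        ≤ C / ‖lam‖ ^ (3 * M) := by
  classical
  refine ⟨∑ s ∈ Finset.range M ×ˢ (Finset.range (2 * M) ×ˢ Finset.range (2 * M)), |ccR q s|,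
    fun lam hlam h1 => ?_⟩
  obtain ⟨S, hS⟩ : ∃ S : Finset (ℕ × ℕ × ℕ),
    S = Finset.range M ×ˢ (Finset.range (2 * M) ×ˢ Finset.range (2 * M)) := ⟨_, rfl⟩
  have hsum : (lam / (Real.pi : ℂ)) ^ ((1 : ℂ) / 2) *
          ∑ k ∈ Finset.range M, ∑ i ∈ Finset.range (2 * M), ∑ l ∈ Finset.range (2 * M),
            ((cf q k i l : ℝ) : ℂ) * (lam ^ (3 * k + i))⁻¹ *
              ∫ t : ℝ, (t : ℂ) ^ (i + 3 * l) * cexp (-lam * (t : ℂ) ^ 2) =
      ∑ s ∈ S, ((ccR q s : ℝ) : ℂ) * (lam ^ (3 * dgR s))⁻¹ := by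
    rw [hS, Finset.sum_product, Finset.mul_sum]
    apply Finset.sum_congr rfl
    intro k _
    rw [Finset.sum_product, Finset.mul_sum]
    apply Finset.sum_congr rfl
    intro i _
    rw [Finset.mul_sum]
    apply Finset.sum_congr rfl
    intro l _
    exact moment_term q lam hlam k i l
  have hsplit : ∑ s ∈ S, ((ccR q s : ℝ) : ℂ) * (lam ^ (3 * dgR s))⁻¹ =
      ∑ s ∈ S with dgR s < M, ((ccR q s : ℝ) : ℂ) * (lam ^ (3 * dgR s))⁻¹ +
      ∑ s ∈ S with ¬ dgR s < M, ((ccR q s : ℝ) : ℂ) * (lam ^ (3 * dgR s))⁻¹ :=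
    (Finset.sum_filter_add_sum_filter_not S _ _).symm
  have hlow : ∑ s ∈ S with dgR s < M, ((ccR q s : ℝ) : ℂ) * (lam ^ (3 * dgR s))⁻¹ =
      ∑ m ∈ Finset.range M, ((bcoef q m : ℝ) : ℂ) * (lam ^ (3 * m))⁻¹ := by
    rw [← Finset.sum_fiberwise_of_maps_to (s := S.filter (fun s => dgR s < M))
      (t := Finset.range M) (g := dgR)
      (fun s hs => Finset.mem_range.2 (Finset.mem_filter.1 hs).2)]
    apply Finset.sum_congr rfl
    intro m hm
    rw [Finset.mem_range] at hm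
    rw [← bcoef_eq_sum q M m hm, ← hS]
    rw [Finset.filter_filter]
    push_cast
    rw [Finset.sum_mul]
    apply Finset.sum_congr
    · ext s
      simp only [Finset.mem_filter]
      constructor
      · rintro ⟨h1, h2, h3⟩; exact ⟨h1, h3⟩
      · rintro ⟨h1, h2⟩; exact ⟨h1, by omega, h2⟩
    · intro s hs
      rw [(Finset.mem_filter.1 hs).2]
  rw [hsum, hsplit, hlow, add_sub_cancel_left, Finset.sum_div, ← hS]
  refine (norm_sum_le _ _).trans ?_
  have h2 : ∀ s ∈ S.filter (fun s => ¬ dgR s < M),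
      ‖((ccR q s : ℝ) : ℂ) * (lam ^ (3 * dgR s))⁻¹‖ ≤ |ccR q s| / ‖lam‖ ^ (3 * M) := by
    intro s hs
    have h3 := (Finset.mem_filter.1 hs).2
    rw [norm_mul, norm_inv, norm_pow, Complex.norm_real, Real.norm_eq_abs, div_eq_mul_inv]
    apply mul_le_mul_of_nonneg_left _ (abs_nonneg _)
    apply inv_anti₀ (by positivity)
    exact pow_le_pow_right₀ h1 (by omega)
  refine (Finset.sum_le_sum h2).trans ?_
  apply Finset.sum_le_sum_of_subset_of_nonneg (Finset.filter_subset _ _)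
  intro s _ _
  positivity

end Pool.Agent.H140R2.FR
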