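import Pool.Agent.H140R2.FR.T09aRep
import Pool.Agent.H140R2.FR.T09bTail
import Pool.Agent.H140R2.FR.T09cCentral
import Pool.Agent.H140R2.FR.T09eAlg

/-! T09.  The asymptotic expansion of `Psi`, uniformly in the closed sector (assembly of T09a, b, c, e). -/

set_option autoImplicit false

open Complex MeasureTheory Set Filter Topology

namespace Pool.Agent.H140R2.FR

/-- an exponentially small term times `‖lam‖` is `≤ C / ‖lam‖^n`. -/
theorem T09_exp_small (c : ℝ) (hc : 0 < c) (n : ℕ) :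
    ∃ K : ℝ, 0 ≤ K ∧ ∀ x : ℝ, 1 ≤ x → Real.exp (-c * x ^ 3) ≤ K / x ^ n := by
  refine ⟨(n.factorial : ℝ) / c ^ n, by positivity, fun x hx => ?_⟩
  have hx0 : 0 < x := by linarith
  have h1 : (c * x ^ 3) ^ n / n.factorial ≤ Real.exp (c * x ^ 3) :=
    Real.pow_div_factorial_le_exp _ (by positivity) n
  rw [neg_mul, Real.exp_neg]
  have h2 : 0 < (c * x ^ 3) ^ n / n.factorial := by positivity
  calc (Real.exp (c * x ^ 3))⁻¹ ≤ ((c * x ^ 3) ^ n / n.factorial)⁻¹ := inv_anti₀ h2 h1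
    _ = (n.factorial : ℝ) / c ^ n * (1 / (x ^ 3) ^ n) := by
      rw [mul_pow]; field_simp
    _ ≤ (n.factorial : ℝ) / c ^ n * (1 / x ^ n) := by
      refine mul_le_mul_of_nonneg_left ?_ (by positivity)
      refine one_div_le_one_div_of_le (by positivity) ?_
      refine pow_le_pow_left₀ hx0.le ?_ n
      nlinarith [mul_self_nonneg x]
    _ = _ := by ring

theorem T09_norm_sqrt (lam : ℂ) : ‖(lam / (Real.pi : ℂ)) ^ ((1 : ℂ) / 2)‖ ≤ Real.sqrt ‖lam‖ := by
  have h : ((1 : ℂ) / 2) = ((1 / 2 : ℝ) : ℂ) := by push_cast; rfl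
  rw [h, Complex.norm_cpow_real, ← Real.sqrt_eq_rpow, norm_div, Complex.norm_real]
  apply Real.sqrt_le_sqrt
  rw [Real.norm_of_nonneg Real.pi_pos.le]
  exact div_le_self (norm_nonneg _) (by linarith [Real.pi_gt_three])

theorem Psi_expansion {β : ℂ → ℂ} (hβ : IsLogB β) (q : ℝ) (hq : 0 < q) (M : ℕ) :
    ∃ C R : ℝ, 0 < R ∧ ∀ lam : ℂ, Sec lam → R ≤ ‖lam‖ →
      ‖Psi β q lam - ∑ m ∈ Finset.range M, ((bcoef q m : ℝ) : ℂ) * (lam ^ (3 * m))⁻¹‖
        ≤ C / ‖lam‖ ^ (3 * M) := by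
  obtain ⟨C1, c1, R1, hc1, hR1, H1⟩ := Psi_eq_KK hβ q hq
  obtain ⟨C2, c2, R2, hc2, hR2, H2⟩ := KK_tail hβ q hq
  obtain ⟨C3, R3, hR3, H3⟩ := KK_central hβ q hq M
  obtain ⟨C5, H5⟩ := moment_sum q hq M
  have hmt := fun n => moment_trunc q hq n
  choose C4 c4 hc4 H4 using hmt
  obtain ⟨K1, hK1, E1⟩ := T09_exp_small c1 hc1 (3 * M)
  obtain ⟨K2, hK2, E2⟩ := T09_exp_small c2 hc2 (3 * M + 1)
  have hE4 := fun n => T09_exp_small (c4 n) (hc4 n) (3 * M + 1)
  choose K4 hK4 E4 using hE4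
  set CM : ℝ := ∑ k ∈ Finset.range M, ∑ i ∈ Finset.range (2 * M), ∑ l ∈ Finset.range (2 * M),
    |cf q k i l| * (|C4 (i + 3 * l)| * K4 (i + 3 * l)) with hCM
  refine ⟨|C1| * K1 + |C2| * K2 + |C3| + CM + |C5|, max 1 (max R1 (max R2 R3)), by positivity, ?_⟩
  intro lam hsec hlam
  have hl1 : 1 ≤ ‖lam‖ := (le_max_left _ _).trans hlam
  have hlR1 : R1 ≤ ‖lam‖ := ((le_max_left _ _).trans (le_max_right _ _)).trans hlam
  have hlR2 : R2 ≤ ‖lam‖ :=
    ((le_max_left _ _).trans ((le_max_right _ _).trans (le_max_right _ _))).trans hlam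
  have hlR3 : R3 ≤ ‖lam‖ :=
    ((le_max_right _ _).trans ((le_max_right _ _).trans (le_max_right _ _))).trans hlam
  have hl0 : 0 < ‖lam‖ := by linarith
  have hlne : lam ≠ 0 := norm_pos_iff.1 hl0
  have hre : 0 < lam.re := by
    by_contra hc
    have h3 : 0 < Real.sqrt 3 := Real.sqrt_pos.2 (by norm_num)
    have him : lam.im = 0 := by
      have := hsec.1
      have h2 := hsec.2
      nlinarith
    have h2 := hsec.2
    rw [him] at h2
    have hre0 : lam.re = 0 := by nlinarith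
    exact hlne (Complex.ext hre0 him)
  set X : ℝ := ‖lam‖ with hX
  set P : ℂ := (lam / (Real.pi : ℂ)) ^ ((1 : ℂ) / 2) with hP
  have hPn : ‖P‖ ≤ Real.sqrt X := T09_norm_sqrt lam
  have hsq : Real.sqrt X ≤ X := by
    rw [Real.sqrt_le_left hl0.le]; nlinarith
  have hsq0 : 0 < Real.sqrt X := Real.sqrt_pos.2 hl0
  have hPX : ‖P‖ ≤ X := hPn.trans hsq
  -- the pieces
  set A0 : ℂ := ∫ t in Ioi (1 - lam.re / q), KK β q lam t with hA0
  set A1 : ℂ := ∫ t in (-(X / (8 * q)))..(X / (8 * q)), KK β q lam t with hA1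
  set S1 : ℂ := ∑ k ∈ Finset.range M, ∑ i ∈ Finset.range (2 * M), ∑ l ∈ Finset.range (2 * M),
            ((cf q k i l : ℝ) : ℂ) * (lam ^ (3 * k + i))⁻¹ *
              ∫ t in (-(X / (8 * q)))..(X / (8 * q)),
                (t : ℂ) ^ (i + 3 * l) * cexp (-lam * (t : ℂ) ^ 2) with hS1
  set S2 : ℂ := ∑ k ∈ Finset.range M, ∑ i ∈ Finset.range (2 * M), ∑ l ∈ Finset.range (2 * M),
            ((cf q k i l : ℝ) : ℂ) * (lam ^ (3 * k + i))⁻¹ *
              ∫ t : ℝ, (t : ℂ) ^ (i + 3 * l) * cexp (-lam * (t : ℂ) ^ 2) with hS2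
  set S3 : ℂ := ∑ m ∈ Finset.range M, ((bcoef q m : ℝ) : ℂ) * (lam ^ (3 * m))⁻¹ with hS3
  have D1 : ‖Psi β q lam - P * A0‖ ≤ |C1| * K1 / X ^ (3 * M) := by
    refine (H1 lam hsec hlR1).trans ?_
    calc C1 * Real.exp (-c1 * X ^ 3) ≤ |C1| * Real.exp (-c1 * X ^ 3) :=
          mul_le_mul_of_nonneg_right (le_abs_self _) (Real.exp_pos _).le
      _ ≤ |C1| * (K1 / X ^ (3 * M)) := mul_le_mul_of_nonneg_left (E1 X hl1) (abs_nonneg _)
      _ = _ := by ring
  have D2 : ‖P * A0 - P * A1‖ ≤ |C2| * K2 / X ^ (3 * M) := by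
    rw [← mul_sub, norm_mul]
    have h := H2 lam hsec hlR2
    calc ‖P‖ * ‖A0 - A1‖ ≤ X * (|C2| * (K2 / X ^ (3 * M + 1))) := by
          refine mul_le_mul hPX ?_ (norm_nonneg _) hl0.le
          refine h.trans ?_
          calc C2 * Real.exp (-c2 * X ^ 3) ≤ |C2| * Real.exp (-c2 * X ^ 3) :=
                mul_le_mul_of_nonneg_right (le_abs_self _) (Real.exp_pos _).le
            _ ≤ _ := mul_le_mul_of_nonneg_left (E2 X hl1) (abs_nonneg _)
      _ = _ := by
        rw [pow_succ]; field_simp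
  have D3 : ‖P * A1 - P * S1‖ ≤ |C3| / X ^ (3 * M) := by
    rw [← mul_sub, norm_mul]
    have h := H3 lam hsec hlR3
    calc ‖P‖ * ‖A1 - S1‖ ≤ Real.sqrt X * (|C3| / (X ^ (3 * M) * Real.sqrt X)) := by
          refine mul_le_mul hPn ?_ (norm_nonneg _) hsq0.le
          refine h.trans ?_
          exact div_le_div_of_nonneg_right (le_abs_self _) (by positivity)
      _ = _ := by field_simp
  have D4 : ‖P * S1 - P * S2‖ ≤ CM / X ^ (3 * M) := by
    rw [← mul_sub, norm_mul]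
    have hdiff : ‖S1 - S2‖ ≤ CM / X ^ (3 * M + 1) := by
      rw [hS1, hS2, hCM, ← Finset.sum_sub_distrib, Finset.sum_div]
      refine (norm_sum_le _ _).trans (Finset.sum_le_sum fun k _ => ?_)
      rw [← Finset.sum_sub_distrib, Finset.sum_div]
      refine (norm_sum_le _ _).trans (Finset.sum_le_sum fun i _ => ?_)
      rw [← Finset.sum_sub_distrib, Finset.sum_div]
      refine (norm_sum_le _ _).trans (Finset.sum_le_sum fun l _ => ?_)
      rw [← mul_sub, norm_mul, norm_mul, Complex.norm_real, Real.norm_eq_abs, norm_inv, norm_pow]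
      have h := H4 (i + 3 * l) lam hsec hl1
      have h6 : (X ^ (3 * k + i))⁻¹ ≤ 1 := inv_le_one_of_one_le₀ (one_le_pow₀ hl1)
      calc |cf q k i l| * (X ^ (3 * k + i))⁻¹ * _ ≤ |cf q k i l| * 1 *
            (|C4 (i + 3 * l)| * (K4 (i + 3 * l) / X ^ (3 * M + 1))) := by
            refine mul_le_mul (mul_le_mul_of_nonneg_left h6 (abs_nonneg _)) ?_ (norm_nonneg _)
              (by positivity)
            refine h.trans ?_
            calc C4 (i + 3 * l) * Real.exp (-(c4 (i + 3 * l)) * X ^ 3)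
                ≤ |C4 (i + 3 * l)| * Real.exp (-(c4 (i + 3 * l)) * X ^ 3) :=
                  mul_le_mul_of_nonneg_right (le_abs_self _) (Real.exp_pos _).le
              _ ≤ _ := mul_le_mul_of_nonneg_left (E4 (i + 3 * l) X hl1) (abs_nonneg _)
        _ = _ := by ring
    calc ‖P‖ * ‖S1 - S2‖ ≤ X * (CM / X ^ (3 * M + 1)) :=
          mul_le_mul hPX hdiff (norm_nonneg _) hl0.le
      _ = _ := by rw [pow_succ]; field_simp
  have D5 : ‖P * S2 - S3‖ ≤ |C5| / X ^ (3 * M) := by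
    refine (H5 lam hre hl1).trans ?_
    exact div_le_div_of_nonneg_right (le_abs_self _) (by positivity)
  have hsum : Psi β q lam - S3 = (Psi β q lam - P * A0) + (P * A0 - P * A1) + (P * A1 - P * S1) +
      (P * S1 - P * S2) + (P * S2 - S3) := by ring
  rw [hsum]
  have htri := norm_add_le ((Psi β q lam - P * A0) + (P * A0 - P * A1) + (P * A1 - P * S1) +
      (P * S1 - P * S2)) (P * S2 - S3)
  have htri2 := norm_add_le ((Psi β q lam - P * A0) + (P * A0 - P * A1) + (P * A1 - P * S1))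
      (P * S1 - P * S2)
  have htri3 := norm_add_le ((Psi β q lam - P * A0) + (P * A0 - P * A1)) (P * A1 - P * S1)
  have htri4 := norm_add_le (Psi β q lam - P * A0) (P * A0 - P * A1)
  have hfin : (|C1| * K1 + |C2| * K2 + |C3| + CM + |C5|) / X ^ (3 * M) =
      |C1| * K1 / X ^ (3 * M) + |C2| * K2 / X ^ (3 * M) + |C3| / X ^ (3 * M) + CM / X ^ (3 * M) +
      |C5| / X ^ (3 * M) := by ring
  rw [hfin]
  linarith

end Pool.Agent.H140R2.FR
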