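import Pool.Agent.H140R2.FR.T10aLeft

/-!
T10.  Lower bound for `Im Psi` on the positive axis, for non-integral `q`.

Sketch.  `z₁ < 0` the first zero of `Ai`, `r` as in `exists_first_zero`, `x₁ = z₁ - r/2`.  In a ball `V` around
the segment `[x₁, 1]` (centre real, meeting `ℝ` inside `(z₁-r, ∞)`) `Ai η = (η - z₁) h(η)` with `h ≠ 0`
holomorphic (`Ai_ne_zero` off the real axis), `h > 0` on `V ∩ ℝ`; let `ℓ` be a holomorphic log of `h` on `V`, real
on `V ∩ ℝ` (`DifferentiableOn.isExactOn_ball`).  `f(η) = exp(q(log(η - z₁) + ℓ(η)))`, extended by `0` at `z₁`,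
is continuous on `V ∩ {Im ≥ 0}`, holomorphic in the interior, real for real `η > z₁`, and
`f(x) = |Ai x|^q e^{iπq}` for real `x < z₁`.
For `Im η > 0` (or `η ∉ (-∞,0]`), `η ∈ V`: `FF β q Λ (√η)/(2√η) = ½ (2√π)^q e^{Λη} f(η)` (both sides are `exp(q·)` of
logs of `Ai`; compare logs on a connected set).
With `ε` small, rectangle `[x₁,1/2] × [0,ε] ⊂ V`:
`JJ = L - U = (L - G(√(1/2))) + (G(√(1/2)) - G(√(x₁+iε))) + (G(√(x₁+iε)) - U)`: the first bracket is real, the last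
is `O(e^{Λx₁})` (`ghost_left`), the middle is, by Cauchy on the rectangle
(`Complex.integral_boundary_rect_eq_zero_of_continuousOn_of_differentiableOn`), the integral from
`x₁ + iε` down to `x₁` (`O(e^{Λx₁})`) and along `[x₁,1/2]`, whose imaginary part is
`½(2√π)^q sin(πq) ∫_{x₁}^{z₁} e^{Λx}|Ai x|^q dx`, in absolute value `≥ c e^{Λ(z₁ - r/4)}`.
Finally multiply by the real positive factor of `Psi`.
-/

set_option autoImplicit false

open Complex MeasureTheory Set Filter Topology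

namespace Pool.Agent.H140R2.FR

theorem eq_of_exp_eq {W : Set ℂ} (hW : IsOpen W) (hWc : IsPreconnected W) {F1 F2 : ℂ → ℂ}
    (h1 : DifferentiableOn ℂ F1 W) (h2 : DifferentiableOn ℂ F2 W)
    (he : ∀ z ∈ W, cexp (F1 z) = cexp (F2 z)) {z₀ : ℂ} (hz₀ : z₀ ∈ W) (h0 : F1 z₀ = F2 z₀) :
    ∀ z ∈ W, F1 z = F2 z := by
  have hD : DifferentiableOn ℂ (fun z => F1 z - F2 z) W := h1.sub h2
  have hderiv : EqOn (deriv (fun z => F1 z - F2 z)) 0 W := by
    intro z hz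
    have hDz : DifferentiableAt ℂ (fun z => F1 z - F2 z) z := (hD z hz).differentiableAt (hW.mem_nhds hz)
    have hexp : (fun z => cexp (F1 z - F2 z)) =ᶠ[𝓝 z] fun _ => (1 : ℂ) := by
      filter_upwards [hW.mem_nhds hz] with w hw
      rw [Complex.exp_sub, he w hw, div_self (Complex.exp_ne_zero _)]
    have h3 : HasDerivAt (fun z => cexp (F1 z - F2 z))
        (cexp (F1 z - F2 z) * deriv (fun z => F1 z - F2 z) z) z := hDz.hasDerivAt.cexp
    have h4 : deriv (fun z => cexp (F1 z - F2 z)) z = 0 := by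
      rw [hexp.deriv_eq]; simp
    rw [h3.deriv] at h4
    exact (mul_eq_zero.1 h4).resolve_left (Complex.exp_ne_zero _)
  intro z hz
  have := hW.is_const_of_deriv_eq_zero hWc hD hderiv hz hz₀
  simp only [h0, sub_self] at this
  exact sub_eq_zero.1 this

theorem exists_log_ball {c : ℂ} {ρ : ℝ} {h : ℂ → ℂ} (hd : DifferentiableOn ℂ h (Metric.ball c ρ))
    (hne : ∀ z ∈ Metric.ball c ρ, h z ≠ 0) (z₀ : ℂ) (hz₀ : z₀ ∈ Metric.ball c ρ) :
    ∃ l : ℂ → ℂ, DifferentiableOn ℂ l (Metric.ball c ρ) ∧ (∀ z ∈ Metric.ball c ρ, cexp (l z) = h z) ∧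
      l z₀ = Complex.log (h z₀) := by
  have hdd : DifferentiableOn ℂ (deriv h) (Metric.ball c ρ) := hd.deriv Metric.isOpen_ball
  have hg : DifferentiableOn ℂ (fun z => deriv h z / h z) (Metric.ball c ρ) := hdd.div hd hne
  obtain ⟨l, hl0, hl⟩ := (hg.isExactOn_ball).with_val_at z₀ (Complex.log (h z₀))
  have hld : DifferentiableOn ℂ l (Metric.ball c ρ) :=
    fun z hz => (hl z hz).differentiableAt.differentiableWithinAt
  refine ⟨l, hld, ?_, hl0⟩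
  have hu : DifferentiableOn ℂ (fun z => cexp (-l z) * h z) (Metric.ball c ρ) := (hld.neg.cexp).mul hd
  have hderiv : EqOn (deriv (fun z => cexp (-l z) * h z)) 0 (Metric.ball c ρ) := by
    intro z hz
    have hhz : HasDerivAt h (deriv h z) z :=
      ((hd z hz).differentiableAt (Metric.isOpen_ball.mem_nhds hz)).hasDerivAt
    have h3 := ((hl z hz).neg.cexp).mul hhz
    have h4 : deriv (fun z => cexp (-l z) * h z) z = _ := h3.deriv
    rw [h4]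
    have := hne z hz
    simp only [Pi.zero_apply]
    field_simp
    ring
  intro z hz
  have hconst := Metric.isOpen_ball.is_const_of_deriv_eq_zero (convex_ball c ρ).isPreconnected hu hderiv hz hz₀
  simp only [hl0] at hconst
  rw [Complex.exp_neg (Complex.log (h z₀)), Complex.exp_log (hne z₀ hz₀),
    inv_mul_cancel₀ (hne z₀ hz₀), Complex.exp_neg] at hconst
  field_simp at hconst
  exact hconst.symm

/-- centre and radius of the ball. -/
noncomputable def gc (z₁ r : ℝ) : ℝ := (z₁ - r / 2 + 1) / 2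
noncomputable def gr (z₁ r : ℝ) : ℝ := (1 - (z₁ - r / 2)) / 2 + r / 4

theorem mem_gball_real {z₁ r x : ℝ} : (x : ℂ) ∈ Metric.ball ((gc z₁ r : ℝ) : ℂ) (gr z₁ r) ↔
    z₁ - 3 * r / 4 < x ∧ x < 1 + r / 4 := by
  rw [Metric.mem_ball, Complex.dist_eq, ← Complex.ofReal_sub, Complex.norm_real, Real.norm_eq_abs, abs_lt,
    gc, gr]
  constructor
  · rintro ⟨h1, h2⟩; constructor <;> linarith
  · rintro ⟨h1, h2⟩; constructor <;> linarith

theorem conj_mem_gball {z₁ r : ℝ} {z : ℂ} (hz : z ∈ Metric.ball ((gc z₁ r : ℝ) : ℂ) (gr z₁ r)) :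
    (starRingEnd ℂ) z ∈ Metric.ball ((gc z₁ r : ℝ) : ℂ) (gr z₁ r) := by
  rw [Metric.mem_ball, Complex.dist_eq] at hz ⊢
  rw [← Complex.conj_ofReal, ← map_sub, Complex.norm_conj]
  exact hz

theorem ghost_data : ∃ (z₁ r : ℝ) (l : ℂ → ℂ), z₁ < 0 ∧ 0 < r ∧
    DifferentiableOn ℂ l (Metric.ball ((gc z₁ r : ℝ) : ℂ) (gr z₁ r)) ∧
    (∀ η ∈ Metric.ball ((gc z₁ r : ℝ) : ℂ) (gr z₁ r), (η - (z₁ : ℂ)) * cexp (l η) = Ai η) ∧
    (∀ x : ℝ, (x : ℂ) ∈ Metric.ball ((gc z₁ r : ℝ) : ℂ) (gr z₁ r) → (l (x : ℂ)).im = 0) := by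
  obtain ⟨z₁, hz₁, hAi, hder, hpos, r, hr, hneg⟩ := exists_first_zero
  set V := Metric.ball ((gc z₁ r : ℝ) : ℂ) (gr z₁ r) with hV
  have hVo : IsOpen V := Metric.isOpen_ball
  set h : ℂ → ℂ := dslope Ai (z₁ : ℂ) with hh
  have hz₁V : (z₁ : ℂ) ∈ V := mem_gball_real.2 ⟨by linarith, by linarith⟩
  have h1V : ((1 : ℝ) : ℂ) ∈ V := mem_gball_real.2 ⟨by linarith, by linarith⟩
  have hd : DifferentiableOn ℂ h V :=
    (Complex.differentiableOn_dslope (hVo.mem_nhds hz₁V)).2 Ai_differentiable.differentiableOn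
  have hmul : ∀ η : ℂ, (η - (z₁ : ℂ)) * h η = Ai η := by
    intro η
    have := sub_smul_dslope Ai (z₁ : ℂ) η
    rw [smul_eq_mul, hAi, sub_zero] at this
    exact this
  have hreal : ∀ x : ℝ, Ai (x : ℂ) = (((Ai (x : ℂ)).re : ℝ) : ℂ) := by
    intro x
    apply Complex.ext
    · simp
    · simp [Ai_real x]
  have hne : ∀ z ∈ V, h z ≠ 0 := by
    intro z hz h0
    have h1 := hmul z
    rw [h0, mul_zero] at h1
    by_cases him : z.im = 0
    · have hzr : z = ((z.re : ℝ) : ℂ) := by apply Complex.ext <;> simp [him]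
      rw [hzr] at hz h1 h0
      rcases lt_trichotomy z.re z₁ with hlt | heq | hgt
      · have h2 := hneg z.re (by have := (mem_gball_real.1 hz).1; linarith) hlt
        rw [← h1] at h2
        simp at h2
      · rw [heq, hh, dslope_same] at h0
        exact hder h0
      · have h2 := hpos z.re hgt
        rw [← h1] at h2
        simp at h2
    · exact Ai_ne_zero z (Or.inl him) h1.symm
  -- h is real on the real axis, symmetric
  have hconj : ∀ z ∈ V, h ((starRingEnd ℂ) z) = (starRingEnd ℂ) (h z) := by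
    intro z hz
    by_cases hzz : z = (z₁ : ℂ)
    · -- continuity argument: use points near; here derivative of Ai at real point is real
      subst hzz
      rw [Complex.conj_ofReal, hh, dslope_same]
      have hA : ∀ w, Ai ((starRingEnd ℂ) w) = (starRingEnd ℂ) (Ai w) := Ai_conj
      have h1 : HasDerivAt Ai (deriv Ai (z₁ : ℂ)) (z₁ : ℂ) := (Ai_differentiable _).hasDerivAt
      have h2 : deriv ((starRingEnd ℂ) ∘ Ai ∘ (starRingEnd ℂ)) (z₁ : ℂ) = (starRingEnd ℂ) (deriv Ai ((starRingEnd ℂ) (z₁ : ℂ))) := by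
        exact congrFun (deriv_conj_conj (f := Ai)) (z₁ : ℂ)
      have h3 : ((starRingEnd ℂ) ∘ Ai ∘ (starRingEnd ℂ)) = Ai := by
        funext w
        simp [hA]
      rw [h3, Complex.conj_ofReal] at h2
      exact h2
    · have h1 := hmul z
      have h2 := hmul ((starRingEnd ℂ) z)
      rw [Ai_conj, ← h1, map_mul, map_sub, Complex.conj_ofReal] at h2
      have h3 : (starRingEnd ℂ) z - (z₁ : ℂ) ≠ 0 := by
        intro h4
        apply hzz
        have h5 := sub_eq_zero.1 h4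
        have h6 := congrArg (starRingEnd ℂ) h5
        simpa using h6
      exact mul_left_cancel₀ h3 h2
  have hh1 : 0 < (h ((1 : ℝ) : ℂ)).re ∧ (h ((1 : ℝ) : ℂ)).im = 0 := by
    have h1 := hmul ((1 : ℝ) : ℂ)
    have h2 := hpos 1 (by linarith)
    have him : (h ((1 : ℝ) : ℂ)).im = 0 := by
      have := hconj _ h1V
      rw [Complex.conj_ofReal] at this
      exact Complex.conj_eq_iff_im.1 this.symm
    refine ⟨?_, him⟩
    rw [← h1, ← Complex.ofReal_sub, Complex.re_ofReal_mul] at h2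
    by_contra hcon
    push Not at hcon
    have : (1 - z₁) * (h ((1 : ℝ) : ℂ)).re ≤ 0 := mul_nonpos_of_nonneg_of_nonpos (by linarith) hcon
    linarith
  obtain ⟨l, hld, hle, hl1⟩ := exists_log_ball hd hne ((1 : ℝ) : ℂ) h1V
  have hl1im : (l ((1 : ℝ) : ℂ)).im = 0 := by
    rw [hl1, Complex.log_im]
    have : h ((1 : ℝ) : ℂ) = (((h ((1 : ℝ) : ℂ)).re : ℝ) : ℂ) := by
      apply Complex.ext
      · simp
      · rw [hh1.2]; simp
    rw [this, Complex.arg_ofReal_of_nonneg hh1.1.le]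
  refine ⟨z₁, r, l, hz₁, hr, hld, ?_, ?_⟩
  · intro η hη
    rw [hle η hη, hmul]
  · -- l is symmetric
    have hl' : DifferentiableOn ℂ (fun z => (starRingEnd ℂ) (l ((starRingEnd ℂ) z))) V := by
      intro z hz
      have h1 : DifferentiableAt ℂ l ((starRingEnd ℂ) z) :=
        (hld _ (conj_mem_gball hz)).differentiableAt (hVo.mem_nhds (conj_mem_gball hz))
      have h2 := h1.conj_conj
      rw [Complex.conj_conj] at h2
      exact h2.differentiableWithinAt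
    have heq := eq_of_exp_eq hVo (convex_ball _ _).isPreconnected hl' hld (by
      intro z hz
      rw [hle z hz, Complex.exp_conj, hle _ (conj_mem_gball hz), hconj z hz, Complex.conj_conj]) h1V (by
      rw [Complex.conj_ofReal]
      exact Complex.conj_eq_iff_im.2 hl1im)
    intro x hx
    have := heq (x : ℂ) hx
    simp only [Complex.conj_ofReal] at this
    exact Complex.conj_eq_iff_im.1 this

theorem gh_sqrt_facts {η : ℂ} (hη : η ∈ slitPlane) :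
    0 < (η ^ ((1 : ℂ) / 2)).re ∧ (η ^ ((1 : ℂ) / 2)) ^ 2 = η ∧
      Complex.log (η ^ ((1 : ℂ) / 2)) = Complex.log η / 2 := by
  have hη0 : η ≠ 0 := slitPlane_ne_zero hη
  have harg1 : -Real.pi < η.arg := Complex.neg_pi_lt_arg η
  have harg2 : η.arg < Real.pi := lt_of_le_of_ne (Complex.arg_le_pi η) (Complex.slitPlane_arg_ne_pi hη)
  have hlogim : (Complex.log η / 2).im = η.arg / 2 := by
    have : (Complex.log η / 2).im = (Complex.log η).im / 2 := by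
      rw [show Complex.log η / 2 = Complex.log η / ((2 : ℝ) : ℂ) by norm_num, Complex.div_ofReal_im]
    rw [this, Complex.log_im]
  have hs : η ^ ((1 : ℂ) / 2) = cexp (Complex.log η / 2) := by
    rw [Complex.cpow_def_of_ne_zero hη0]; congr 1; ring
  refine ⟨?_, ?_, ?_⟩
  · rw [hs, Complex.exp_re, hlogim]
    exact mul_pos (Real.exp_pos _) (Real.cos_pos_of_mem_Ioo ⟨by linarith, by linarith⟩)
  · rw [hs, ← Complex.exp_nat_mul]
    rw [show ((2 : ℕ) : ℂ) * (Complex.log η / 2) = Complex.log η by push_cast; ring]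
    exact Complex.exp_log hη0
  · rw [hs, Complex.log_exp]
    · rw [hlogim]; linarith
    · rw [hlogim]; linarith

theorem FF_div {β : ℂ → ℂ} (q : ℝ) (lam : ℂ) {η : ℂ} (hη : η ∈ slitPlane) :
    FF β q lam (η ^ ((1 : ℂ) / 2)) / (2 * η ^ ((1 : ℂ) / 2)) =
      (1 / 2) * cexp (lam * η + (q : ℂ) * (β (η ^ ((1 : ℂ) / 2)) - (2 / 3) * (η ^ ((1 : ℂ) / 2)) ^ 3 -
        Complex.log (η ^ ((1 : ℂ) / 2)) / 2)) := by
  obtain ⟨h1, h2, h3⟩ := gh_sqrt_facts hη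
  set s := η ^ ((1 : ℂ) / 2) with hs
  have hs0 : s ≠ 0 := by
    intro h0; rw [h0] at h1; simp at h1
  rw [FF, Complex.cpow_def_of_ne_zero hs0]
  have h4 : cexp (Complex.log s * (1 - (q : ℂ) / 2)) = s * cexp (-((q : ℂ) * (Complex.log s / 2))) := by
    rw [show Complex.log s * (1 - (q : ℂ) / 2) = Complex.log s + -((q : ℂ) * (Complex.log s / 2)) by ring,
      Complex.exp_add, Complex.exp_log hs0]
  rw [h4, h2]
  field_simp
  rw [← Complex.exp_add]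
  congr 1; ring

theorem log_match {β : ℂ → ℂ} (hβ : IsLogB β) {z₁ r : ℝ} {l : ℂ → ℂ} (hz₁ : z₁ < 0) (hr : 0 < r)
    (hld : DifferentiableOn ℂ l (Metric.ball ((gc z₁ r : ℝ) : ℂ) (gr z₁ r)))
    (hle : ∀ η ∈ Metric.ball ((gc z₁ r : ℝ) : ℂ) (gr z₁ r), (η - (z₁ : ℂ)) * cexp (l η) = Ai η)
    (hlr : ∀ x : ℝ, (x : ℂ) ∈ Metric.ball ((gc z₁ r : ℝ) : ℂ) (gr z₁ r) → (l (x : ℂ)).im = 0)
    {η : ℂ} (hη : η ∈ Metric.ball ((gc z₁ r : ℝ) : ℂ) (gr z₁ r)) (hη' : η ∈ slitPlane) :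
    β (η ^ ((1 : ℂ) / 2)) - (2 / 3) * (η ^ ((1 : ℂ) / 2)) ^ 3 - Complex.log (η ^ ((1 : ℂ) / 2)) / 2 =
      Complex.log (η - (z₁ : ℂ)) + l η + ((Real.log (2 * Real.sqrt Real.pi) : ℝ) : ℂ) := by
  set V := Metric.ball ((gc z₁ r : ℝ) : ℂ) (gr z₁ r) with hV
  have hsub : ∀ w ∈ slitPlane, w - (z₁ : ℂ) ∈ slitPlane := by
    intro w hw
    rw [Complex.mem_slitPlane_iff] at hw ⊢
    rcases hw with h | h
    · left; simp; linarith
    · right; simpa using h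
  have h1V : (1 : ℂ) ∈ V := by
    have := (mem_gball_real (z₁ := z₁) (r := r) (x := 1)).2 ⟨by linarith, by linarith⟩
    rwa [Complex.ofReal_one] at this
  have hWo : IsOpen (V ∩ slitPlane) := Metric.isOpen_ball.inter isOpen_slitPlane
  have hWc : IsPreconnected (V ∩ slitPlane) := by
    have hst : StarConvex ℝ (1 : ℂ) (V ∩ slitPlane) :=
      ((convex_ball _ _).starConvex h1V).inter starConvex_one_slitPlane
    exact (hst.isPathConnected ⟨h1V, one_mem_slitPlane⟩).isConnected.isPreconnected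
  have hsqd : DifferentiableOn ℂ (fun w : ℂ => w ^ ((1 : ℂ) / 2)) (V ∩ slitPlane) := by
    intro w hw
    exact (DifferentiableAt.cpow differentiableAt_id (differentiableAt_const _) hw.2).differentiableWithinAt
  have he : ∀ w ∈ V ∩ slitPlane, cexp (β (w ^ ((1 : ℂ) / 2)) - (2 / 3) * (w ^ ((1 : ℂ) / 2)) ^ 3 -
      Complex.log (w ^ ((1 : ℂ) / 2)) / 2) =
      cexp (Complex.log (w - (z₁ : ℂ)) + l w + ((Real.log (2 * Real.sqrt Real.pi) : ℝ) : ℂ)) := by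
    intro w hw
    obtain ⟨h1, h2, h3⟩ := gh_sqrt_facts hw.2
    set s := w ^ ((1 : ℂ) / 2) with hs
    have hs0 : s ≠ 0 := by
      intro h0; rw [h0] at h1; simp at h1
    have hpi : (0 : ℝ) < Real.pi := Real.pi_pos
    have hlogpi : Complex.log (s / (Real.pi : ℂ)) = Complex.log s - ((Real.log Real.pi : ℝ) : ℂ) := by
      have h5 : s / (Real.pi : ℂ) = ((Real.pi⁻¹ : ℝ) : ℂ) * s := by
        push_cast; field_simp
      rw [h5, Complex.log_ofReal_mul (by positivity) hs0, Real.log_inv]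
      push_cast; ring
    have hspi : s / (Real.pi : ℂ) ≠ 0 := div_ne_zero hs0 (by exact_mod_cast hpi.ne')
    have hA := Ai_sq s h1
    rw [h2] at hA
    have hB : cexp (β s) = BB s := hβ.exp_eq s h1
    rw [BB, Complex.cpow_def_of_ne_zero hspi, hlogpi] at hB
    have hL : cexp (Complex.log (w - (z₁ : ℂ)) + l w + ((Real.log (2 * Real.sqrt Real.pi) : ℝ) : ℂ)) =
        Ai w * ((2 * Real.sqrt Real.pi : ℝ) : ℂ) := by
      rw [Complex.exp_add, Complex.exp_add, Complex.exp_log (slitPlane_ne_zero (hsub w hw.2)), hle w hw.1,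
        ← Complex.ofReal_exp, Real.exp_log (by positivity)]
    rw [hL, hA]
    rw [show β s - 2 / 3 * s ^ 3 - Complex.log s / 2 = β s + (-(2 / 3) * s ^ 3) + (-(Complex.log s / 2)) by ring,
      Complex.exp_add, Complex.exp_add, hB]
    have h6 : cexp ((Complex.log s - ((Real.log Real.pi : ℝ) : ℂ)) * (1 / 2)) * cexp (-(Complex.log s / 2)) =
        ((1 / (2 * Real.pi) : ℝ) : ℂ) * ((2 * Real.sqrt Real.pi : ℝ) : ℂ) := by
      rw [← Complex.exp_add, show (Complex.log s - ((Real.log Real.pi : ℝ) : ℂ)) * (1 / 2) + -(Complex.log s / 2) =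
        ((-(1 / 2) * Real.log Real.pi : ℝ) : ℂ) by push_cast; ring, ← Complex.ofReal_exp, ← Complex.ofReal_mul]
      congr 1
      rw [show -(1 / 2) * Real.log Real.pi = -(Real.log (Real.sqrt Real.pi)) by
        rw [Real.log_sqrt hpi.le]; ring, Real.exp_neg, Real.exp_log (by positivity)]
      have h7 : Real.sqrt Real.pi * Real.sqrt Real.pi = Real.pi := Real.mul_self_sqrt hpi.le
      have h8 : 0 < Real.sqrt Real.pi := by positivity
      field_simp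
      nlinarith
    linear_combination (cexp (-(2 / 3) * s ^ 3) * cA s) * h6
  have key := eq_of_exp_eq hWo hWc
    (F1 := fun w => β (w ^ ((1 : ℂ) / 2)) - (2 / 3) * (w ^ ((1 : ℂ) / 2)) ^ 3 -
      Complex.log (w ^ ((1 : ℂ) / 2)) / 2)
    (F2 := fun w => Complex.log (w - (z₁ : ℂ)) + l w + ((Real.log (2 * Real.sqrt Real.pi) : ℝ) : ℂ))
    ?_ ?_ ?_ (z₀ := 1) ⟨h1V, one_mem_slitPlane⟩ ?_ η ⟨hη, hη'⟩
  · exact key
  · have hb : DifferentiableOn ℂ (fun w : ℂ => β (w ^ ((1 : ℂ) / 2))) (V ∩ slitPlane) :=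
      hβ.diff.comp hsqd (fun w hw => (gh_sqrt_facts hw.2).1)
    have hlog : DifferentiableOn ℂ (fun w : ℂ => Complex.log (w ^ ((1 : ℂ) / 2))) (V ∩ slitPlane) := by
      refine hsqd.clog (fun w hw => ?_)
      rw [Complex.mem_slitPlane_iff]
      exact Or.inl (gh_sqrt_facts hw.2).1
    exact (hb.sub ((hsqd.pow 3).const_mul _)).sub (hlog.div_const 2)
  · have hlog : DifferentiableOn ℂ (fun w : ℂ => Complex.log (w - (z₁ : ℂ))) (V ∩ slitPlane) :=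
      (differentiableOn_id.sub_const _).clog (fun w hw => hsub w hw.2)
    exact (hlog.add (hld.mono inter_subset_left)).add_const _
  · exact he
  · have hone : (1 : ℂ) ^ ((1 : ℂ) / 2) = 1 := Complex.one_cpow _
    simp only [hone, Complex.log_one, one_pow]
    -- both sides are real with the same exponential
    have hz : (0 : ℝ) < 1 - z₁ := by linarith
    have e1 : (β 1 - 2 / 3 * 1 - 0 / 2 : ℂ) = (((β 1).re - 2 / 3 : ℝ) : ℂ) := by
      have := hβ.real 1 one_pos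
      apply Complex.ext
      · simp
      · simp at this ⊢
        exact this
    have e2 : Complex.log (1 - (z₁ : ℂ)) + l 1 + ((Real.log (2 * Real.sqrt Real.pi) : ℝ) : ℂ) =
        ((Real.log (1 - z₁) + (l 1).re + Real.log (2 * Real.sqrt Real.pi) : ℝ) : ℂ) := by
      have h9 : (l 1).im = 0 := by
        have := hlr 1 (by simpa using h1V)
        simpa using this
      have h10 : Complex.log (1 - (z₁ : ℂ)) = ((Real.log (1 - z₁) : ℝ) : ℂ) := by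
        rw [Complex.ofReal_log hz.le]; push_cast; rfl
      have h11 : l 1 = (((l 1).re : ℝ) : ℂ) := by
        apply Complex.ext <;> simp [h9]
      rw [h10]
      conv_lhs => rw [h11]
      push_cast; ring
    have h12 := he 1 ⟨h1V, one_mem_slitPlane⟩
    simp only [hone, Complex.log_one, one_pow] at h12
    rw [e1, e2] at h12 ⊢
    rw [← Complex.ofReal_exp, ← Complex.ofReal_exp] at h12
    exact congrArg _ (Real.exp_injective (Complex.ofReal_injective h12))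

/-- `e^{Λη}` times the branch of `(2√π)^q Ai^q / 2`. -/
noncomputable def gg (q z₁ : ℝ) (l : ℂ → ℂ) (Λ : ℝ) (η : ℂ) : ℂ :=
  (1 / 2) * (cexp ((Λ : ℂ) * η) * ((η - (z₁ : ℂ)) ^ (q : ℂ) *
    cexp ((q : ℂ) * (l η + ((Real.log (2 * Real.sqrt Real.pi) : ℝ) : ℂ)))))

theorem rect_mem {z₁ r x y : ℝ} (hr : 0 < r) (hx : z₁ - r / 2 ≤ x) (hx' : x ≤ 1) (hy : 0 ≤ y)
    (hy' : y ≤ r / 8) : (x : ℂ) + (y : ℂ) * I ∈ Metric.ball ((gc z₁ r : ℝ) : ℂ) (gr z₁ r) := by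
  rw [Metric.mem_ball, Complex.dist_eq]
  have h1 : (x : ℂ) + (y : ℂ) * I - ((gc z₁ r : ℝ) : ℂ) = ((x - gc z₁ r : ℝ) : ℂ) + (y : ℂ) * I := by
    push_cast; ring
  rw [h1]
  refine lt_of_le_of_lt (norm_add_le _ _) ?_
  rw [Complex.norm_real, norm_mul, Complex.norm_I, Complex.norm_real, mul_one, Real.norm_eq_abs,
    Real.norm_eq_abs, abs_of_nonneg hy, gr]
  have h2 : |x - gc z₁ r| ≤ (1 - (z₁ - r / 2)) / 2 := by
    rw [abs_le, gc]; constructor <;> linarith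
  linarith

theorem gg_continuousOn (q : ℝ) (hq : 0 < q) {z₁ r : ℝ} {l : ℂ → ℂ}
    (hld : DifferentiableOn ℂ l (Metric.ball ((gc z₁ r : ℝ) : ℂ) (gr z₁ r))) (Λ : ℝ) :
    ContinuousOn (gg q z₁ l Λ) (Metric.ball ((gc z₁ r : ℝ) : ℂ) (gr z₁ r) ∩ {z | 0 ≤ z.im}) := by
  set V := Metric.ball ((gc z₁ r : ℝ) : ℂ) (gr z₁ r) with hV
  have h1 : ContinuousOn (fun η : ℂ => (η - (z₁ : ℂ)) ^ (q : ℂ)) (V ∩ {z | 0 ≤ z.im}) := by
    intro w hw
    by_cases hcase : 0 ≤ (w - (z₁ : ℂ)).re ∨ (w - (z₁ : ℂ)).im ≠ 0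
    · have h2 : ContinuousAt (fun η : ℂ => (η - (z₁ : ℂ)) ^ (q : ℂ)) w := by
        have := continuousAt_cpow_const_of_re_pos (w := (q : ℂ)) hcase (by simpa using hq)
        exact ContinuousAt.comp (f := fun η : ℂ => η - (z₁ : ℂ)) (g := fun x => x ^ (q : ℂ)) this (by fun_prop)
      exact h2.continuousWithinAt
    · push Not at hcase
      obtain ⟨hre, him⟩ := hcase
      have hlog := continuousWithinAt_log_of_re_neg_of_im_zero hre him
      have h3 : ContinuousWithinAt (fun η : ℂ => Complex.log (η - (z₁ : ℂ))) (V ∩ {z | 0 ≤ z.im}) w := by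
        refine ContinuousWithinAt.comp (f := fun η : ℂ => η - (z₁ : ℂ)) (g := Complex.log) hlog
          (by fun_prop) ?_
        intro u hu
        simpa using hu.2
      have h4 : ContinuousWithinAt (fun η : ℂ => cexp (Complex.log (η - (z₁ : ℂ)) * (q : ℂ)))
          (V ∩ {z | 0 ≤ z.im}) w := (h3.mul continuousWithinAt_const).cexp
      refine h4.congr_of_eventuallyEq ?_ ?_
      · have h5 : ∀ᶠ u in 𝓝 w, u - (z₁ : ℂ) ≠ 0 := by
          have h6 : w - (z₁ : ℂ) ≠ 0 := by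
            intro h0; rw [h0] at hre; simp at hre
          exact (ContinuousAt.eventually_ne (g := fun η : ℂ => η - (z₁ : ℂ)) (by fun_prop) h6)
        filter_upwards [h5.filter_mono nhdsWithin_le_nhds] with u hu
        rw [Complex.cpow_def_of_ne_zero hu]
      · have h6 : w - (z₁ : ℂ) ≠ 0 := by
          intro h0; rw [h0] at hre; simp at hre
        rw [Complex.cpow_def_of_ne_zero h6]
  have h2 : ContinuousOn (fun η : ℂ => cexp ((q : ℂ) * (l η + ((Real.log (2 * Real.sqrt Real.pi) : ℝ) : ℂ))))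
      (V ∩ {z | 0 ≤ z.im}) :=
    (continuousOn_const.mul ((hld.continuousOn.mono inter_subset_left).add continuousOn_const)).cexp
  have h3 : ContinuousOn (fun η : ℂ => cexp ((Λ : ℂ) * η)) (V ∩ {z | 0 ≤ z.im}) := by fun_prop
  exact continuousOn_const.mul (h3.mul (h1.mul h2))

theorem gg_differentiableOn (q : ℝ) {z₁ r : ℝ} {l : ℂ → ℂ}
    (hld : DifferentiableOn ℂ l (Metric.ball ((gc z₁ r : ℝ) : ℂ) (gr z₁ r))) (Λ : ℝ) :
    DifferentiableOn ℂ (gg q z₁ l Λ) (Metric.ball ((gc z₁ r : ℝ) : ℂ) (gr z₁ r) ∩ {z | 0 < z.im}) := by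
  set V := Metric.ball ((gc z₁ r : ℝ) : ℂ) (gr z₁ r) with hV
  have h1 : DifferentiableOn ℂ (fun η : ℂ => (η - (z₁ : ℂ)) ^ (q : ℂ)) (V ∩ {z | 0 < z.im}) := by
    intro w hw
    refine (DifferentiableAt.cpow (by fun_prop) (by fun_prop) ?_).differentiableWithinAt
    rw [Complex.mem_slitPlane_iff]
    right
    have : 0 < w.im := hw.2
    simp
    exact this.ne'
  have h2 : DifferentiableOn ℂ (fun η : ℂ => cexp ((q : ℂ) * (l η + ((Real.log (2 * Real.sqrt Real.pi) : ℝ) : ℂ))))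
      (V ∩ {z | 0 < z.im}) :=
    (((hld.mono inter_subset_left).add_const _).const_mul _).cexp
  have h3 : DifferentiableOn ℂ (fun η : ℂ => cexp ((Λ : ℂ) * η)) (V ∩ {z | 0 < z.im}) := by fun_prop
  exact (h3.mul (h1.mul h2)).const_mul _

theorem gg_rect (q : ℝ) (hq : 0 < q) {z₁ r : ℝ} (hz₁ : z₁ < 0) (hr : 0 < r) {l : ℂ → ℂ}
    (hld : DifferentiableOn ℂ l (Metric.ball ((gc z₁ r : ℝ) : ℂ) (gr z₁ r))) (Λ : ℝ) :
    (∫ x in (z₁ - r / 2)..(1 / 2 : ℝ), gg q z₁ l Λ (x : ℂ)) -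
      (∫ x in (z₁ - r / 2)..(1 / 2 : ℝ), gg q z₁ l Λ ((x : ℂ) + ((r / 8 : ℝ) : ℂ) * I)) +
      I * (∫ y in (0 : ℝ)..(r / 8), gg q z₁ l Λ (((1 / 2 : ℝ) : ℂ) + (y : ℂ) * I)) -
      I * (∫ y in (0 : ℝ)..(r / 8), gg q z₁ l Λ (((z₁ - r / 2 : ℝ) : ℂ) + (y : ℂ) * I)) = 0 := by
  have hle : z₁ - r / 2 ≤ 1 / 2 := by linarith
  have hle2 : (0 : ℝ) ≤ r / 8 := by positivity
  have key := Complex.integral_boundary_rect_eq_zero_of_continuousOn_of_differentiableOn (gg q z₁ l Λ)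
    (⟨z₁ - r / 2, 0⟩ : ℂ) (⟨1 / 2, r / 8⟩ : ℂ) ?_ ?_
  · simpa using key
  · refine (gg_continuousOn q hq hld Λ).mono ?_
    intro z hz
    rw [Complex.mem_reProdIm] at hz
    simp only [uIcc_of_le hle, uIcc_of_le hle2, mem_Icc] at hz
    refine ⟨?_, hz.2.1⟩
    have := rect_mem (z₁ := z₁) (r := r) (x := z.re) (y := z.im) hr hz.1.1 (by linarith [hz.1.2]) hz.2.1 hz.2.2
    rwa [Complex.re_add_im] at this
  · refine (gg_differentiableOn q hld Λ).mono ?_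
    intro z hz
    rw [Complex.mem_reProdIm] at hz
    simp only [min_eq_left hle, max_eq_right hle, min_eq_left hle2, max_eq_right hle2, mem_Ioo] at hz
    refine ⟨?_, hz.2.1⟩
    have := rect_mem (z₁ := z₁) (r := r) (x := z.re) (y := z.im) hr hz.1.1.le (by linarith [hz.1.2]) hz.2.1.le hz.2.2.le
    rwa [Complex.re_add_im] at this

theorem gg_zero (q z₁ : ℝ) (l : ℂ → ℂ) (Λ : ℝ) (η : ℂ) :
    gg q z₁ l Λ η = cexp ((Λ : ℂ) * η) * gg q z₁ l 0 η := by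
  simp only [gg, Complex.ofReal_zero, zero_mul, Complex.exp_zero, one_mul]
  ring

theorem gg_eq {β : ℂ → ℂ} (hβ : IsLogB β) (q : ℝ) {z₁ r : ℝ} {l : ℂ → ℂ} (hz₁ : z₁ < 0) (hr : 0 < r)
    (hld : DifferentiableOn ℂ l (Metric.ball ((gc z₁ r : ℝ) : ℂ) (gr z₁ r)))
    (hle : ∀ η ∈ Metric.ball ((gc z₁ r : ℝ) : ℂ) (gr z₁ r), (η - (z₁ : ℂ)) * cexp (l η) = Ai η)
    (hlr : ∀ x : ℝ, (x : ℂ) ∈ Metric.ball ((gc z₁ r : ℝ) : ℂ) (gr z₁ r) → (l (x : ℂ)).im = 0)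
    (Λ : ℝ) {η : ℂ} (hη : η ∈ Metric.ball ((gc z₁ r : ℝ) : ℂ) (gr z₁ r)) (hη' : η ∈ slitPlane) :
    FF β q (Λ : ℂ) (η ^ ((1 : ℂ) / 2)) / (2 * η ^ ((1 : ℂ) / 2)) = gg q z₁ l Λ η := by
  rw [FF_div q (Λ : ℂ) hη', log_match hβ hz₁ hr hld hle hlr hη hη', gg]
  have h0 : η - (z₁ : ℂ) ≠ 0 := by
    intro h
    have h1 : η = (z₁ : ℂ) := sub_eq_zero.1 h
    rw [h1, Complex.mem_slitPlane_iff] at hη'
    rcases hη' with h2 | h2
    · simp at h2; linarith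
    · simp at h2
  rw [Complex.cpow_def_of_ne_zero h0, ← Complex.exp_add, ← Complex.exp_add]
  congr 2
  ring

theorem sqrt_hasDerivAt {G : ℂ → ℂ} {g : ℂ → ℂ} (hG : ∀ p : ℂ, 0 < p.re → HasDerivAt G (g p) p)
    {η : ℂ} (hη : η ∈ slitPlane) :
    HasDerivAt (fun w : ℂ => G (w ^ ((1 : ℂ) / 2)))
      (g (η ^ ((1 : ℂ) / 2)) / (2 * η ^ ((1 : ℂ) / 2))) η := by
  obtain ⟨h1, h2, h3⟩ := gh_sqrt_facts hη
  have hη0 : η ≠ 0 := slitPlane_ne_zero hη
  have hs0 : η ^ ((1 : ℂ) / 2) ≠ 0 := by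
    intro h0; rw [h0] at h1; simp at h1
  have hd : HasDerivAt (fun w : ℂ => w ^ ((1 : ℂ) / 2)) ((1 : ℂ) / 2 * η ^ ((1 : ℂ) / 2 - 1) * 1) η :=
    (hasDerivAt_id η).cpow_const hη
  have h4 : (1 : ℂ) / 2 * η ^ ((1 : ℂ) / 2 - 1) * 1 = 1 / (2 * η ^ ((1 : ℂ) / 2)) := by
    rw [Complex.cpow_sub _ _ hη0, Complex.cpow_one]
    rw [mul_one]
    field_simp
    rw [h2]
  rw [h4] at hd
  have := HasDerivAt.comp (h := fun w : ℂ => w ^ ((1 : ℂ) / 2)) (h₂ := G) η (hG _ h1) hd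
  have h5 : g (η ^ ((1 : ℂ) / 2)) / (2 * η ^ ((1 : ℂ) / 2)) =
      g (η ^ ((1 : ℂ) / 2)) * (1 / (2 * η ^ ((1 : ℂ) / 2))) := div_eq_mul_one_div _ _
  rw [h5]
  exact this

theorem middle_eq {β : ℂ → ℂ} (hβ : IsLogB β) (q : ℝ) (hq : 0 < q) {z₁ r : ℝ} {l : ℂ → ℂ} (hz₁ : z₁ < 0)
    (hr : 0 < r)
    (hld : DifferentiableOn ℂ l (Metric.ball ((gc z₁ r : ℝ) : ℂ) (gr z₁ r)))
    (hle : ∀ η ∈ Metric.ball ((gc z₁ r : ℝ) : ℂ) (gr z₁ r), (η - (z₁ : ℂ)) * cexp (l η) = Ai η)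
    (hlr : ∀ x : ℝ, (x : ℂ) ∈ Metric.ball ((gc z₁ r : ℝ) : ℂ) (gr z₁ r) → (l (x : ℂ)).im = 0)
    (Λ : ℝ) {G : ℂ → ℂ} (hG : ∀ p : ℂ, 0 < p.re → HasDerivAt G (FF β q (Λ : ℂ) p) p) :
    G ((((1 / 2 : ℝ)) : ℂ) ^ ((1 : ℂ) / 2)) -
        G ((((z₁ - r / 2 : ℝ) : ℂ) + ((r / 8 : ℝ) : ℂ) * I) ^ ((1 : ℂ) / 2)) =
      (∫ x in (z₁ - r / 2)..(1 / 2 : ℝ), gg q z₁ l Λ (x : ℂ)) -
        I * (∫ y in (0 : ℝ)..(r / 8), gg q z₁ l Λ (((z₁ - r / 2 : ℝ) : ℂ) + (y : ℂ) * I)) := by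
  have hQ : ∀ η ∈ Metric.ball ((gc z₁ r : ℝ) : ℂ) (gr z₁ r), η ∈ slitPlane →
      HasDerivAt (fun w : ℂ => G (w ^ ((1 : ℂ) / 2))) (gg q z₁ l Λ η) η := by
    intro η hη hη'
    rw [← gg_eq hβ q hz₁ hr hld hle hlr Λ hη hη']
    exact sqrt_hasDerivAt hG hη'
  have hcont := gg_continuousOn q hq hld Λ
  have hle1 : z₁ - r / 2 ≤ 1 / 2 := by linarith
  have hle2 : (0 : ℝ) ≤ r / 8 := by positivity
  have hA : ∫ x in (z₁ - r / 2)..(1 / 2 : ℝ), gg q z₁ l Λ ((x : ℂ) + ((r / 8 : ℝ) : ℂ) * I) =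
      G ((((1 / 2 : ℝ) : ℂ) + ((r / 8 : ℝ) : ℂ) * I) ^ ((1 : ℂ) / 2)) -
      G ((((z₁ - r / 2 : ℝ) : ℂ) + ((r / 8 : ℝ) : ℂ) * I) ^ ((1 : ℂ) / 2)) := by
    refine intervalIntegral.integral_eq_sub_of_hasDerivAt
      (f := fun x : ℝ => G (((x : ℂ) + ((r / 8 : ℝ) : ℂ) * I) ^ ((1 : ℂ) / 2))) ?_ ?_
    · intro x hx
      rw [uIcc_of_le hle1] at hx
      have hm := rect_mem (z₁ := z₁) (r := r) (x := x) (y := r / 8) hr hx.1 (by linarith [hx.2]) hle2 le_rfl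
      have hs : (x : ℂ) + ((r / 8 : ℝ) : ℂ) * I ∈ slitPlane := by
        rw [Complex.mem_slitPlane_iff]; right; simp; positivity
      have h1 := hQ _ hm hs
      have h2 : HasDerivAt (fun x : ℝ => (x : ℂ) + ((r / 8 : ℝ) : ℂ) * I) 1 x :=
        (Complex.ofRealCLM.hasDerivAt).add_const _
      have h3 := HasDerivAt.comp (h := fun x : ℝ => (x : ℂ) + ((r / 8 : ℝ) : ℂ) * I) x h1 h2
      rw [mul_one] at h3
      exact h3
    · apply ContinuousOn.intervalIntegrable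
      refine ContinuousOn.comp (f := fun x : ℝ => (x : ℂ) + ((r / 8 : ℝ) : ℂ) * I) hcont (by fun_prop) ?_
      intro x hx
      rw [uIcc_of_le hle1] at hx
      refine ⟨rect_mem hr hx.1 (by linarith [hx.2]) hle2 le_rfl, ?_⟩
      simp
      linarith
  have hB : I * ∫ y in (0 : ℝ)..(r / 8), gg q z₁ l Λ (((1 / 2 : ℝ) : ℂ) + (y : ℂ) * I) =
      G ((((1 / 2 : ℝ) : ℂ) + ((r / 8 : ℝ) : ℂ) * I) ^ ((1 : ℂ) / 2)) -
      G ((((1 / 2 : ℝ)) : ℂ) ^ ((1 : ℂ) / 2)) := by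
    rw [← intervalIntegral.integral_const_mul]
    have := intervalIntegral.integral_eq_sub_of_hasDerivAt (a := 0) (b := r / 8)
      (f := fun y : ℝ => G ((((1 / 2 : ℝ) : ℂ) + (y : ℂ) * I) ^ ((1 : ℂ) / 2)))
      (f' := fun y : ℝ => I * gg q z₁ l Λ (((1 / 2 : ℝ) : ℂ) + (y : ℂ) * I)) ?_ ?_
    · rw [this]
      simp
    · intro y hy
      rw [uIcc_of_le hle2] at hy
      have hm := rect_mem (z₁ := z₁) (r := r) (x := 1 / 2) (y := y) hr hle1 (by norm_num) hy.1 hy.2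
      have hs : ((1 / 2 : ℝ) : ℂ) + (y : ℂ) * I ∈ slitPlane := by
        rw [Complex.mem_slitPlane_iff]; left; simp
      have h1 := hQ _ hm hs
      have h2 : HasDerivAt (fun y : ℝ => ((1 / 2 : ℝ) : ℂ) + (y : ℂ) * I) (1 * I) y :=
        ((Complex.ofRealCLM.hasDerivAt).mul_const I).const_add _
      have h3 := HasDerivAt.comp (h := fun y : ℝ => ((1 / 2 : ℝ) : ℂ) + (y : ℂ) * I) y h1 h2
      rw [one_mul, mul_comm] at h3
      exact h3
    · apply ContinuousOn.intervalIntegrable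
      refine continuousOn_const.mul (ContinuousOn.comp (f := fun y : ℝ => ((1 / 2 : ℝ) : ℂ) + (y : ℂ) * I) hcont
        (by fun_prop) ?_)
      intro y hy
      rw [uIcc_of_le hle2] at hy
      refine ⟨rect_mem hr hle1 (by norm_num) hy.1 hy.2, ?_⟩
      simp
      exact hy.1
  have hR := gg_rect q hq hz₁ hr hld Λ
  rw [hA, hB] at hR
  linear_combination (-1 : ℂ) * hR

/-- imaginary part on the real axis, to the right of `z₁`. -/
theorem gg_im_right (q : ℝ) {z₁ r : ℝ} {l : ℂ → ℂ}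
    (hlr : ∀ x : ℝ, (x : ℂ) ∈ Metric.ball ((gc z₁ r : ℝ) : ℂ) (gr z₁ r) → (l (x : ℂ)).im = 0)
    (Λ : ℝ) {x : ℝ} (hx : (x : ℂ) ∈ Metric.ball ((gc z₁ r : ℝ) : ℂ) (gr z₁ r)) (hx' : z₁ ≤ x) :
    (gg q z₁ l Λ (x : ℂ)).im = 0 := by
  have h1 : l (x : ℂ) = (((l (x : ℂ)).re : ℝ) : ℂ) := by
    apply Complex.ext
    · simp
    · simp [hlr x hx]
  have h2 : ((x : ℂ) - (z₁ : ℂ)) ^ (q : ℂ) = (((x - z₁) ^ q : ℝ) : ℂ) := by
    rw [← Complex.ofReal_sub, ← Complex.ofReal_cpow (by linarith)]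
  have h3 : gg q z₁ l Λ (x : ℂ) = ((1 / 2 * (Real.exp (Λ * x) * ((x - z₁) ^ q *
      Real.exp (q * ((l (x : ℂ)).re + Real.log (2 * Real.sqrt Real.pi))))) : ℝ) : ℂ) := by
    rw [gg, h2]
    conv_lhs => rw [h1]
    push_cast
    ring
  rw [h3, Complex.ofReal_im]

theorem gg_im_left (q : ℝ) {z₁ r : ℝ} {l : ℂ → ℂ}
    (hlr : ∀ x : ℝ, (x : ℂ) ∈ Metric.ball ((gc z₁ r : ℝ) : ℂ) (gr z₁ r) → (l (x : ℂ)).im = 0)
    (Λ : ℝ) {x : ℝ} (hx : (x : ℂ) ∈ Metric.ball ((gc z₁ r : ℝ) : ℂ) (gr z₁ r)) (hx' : x < z₁) :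
    (gg q z₁ l Λ (x : ℂ)).im = (1 / 2 * (Real.exp (Λ * x) * ((z₁ - x) ^ q *
      Real.exp (q * ((l (x : ℂ)).re + Real.log (2 * Real.sqrt Real.pi)))))) * Real.sin (Real.pi * q) := by
  have h1 : l (x : ℂ) = (((l (x : ℂ)).re : ℝ) : ℂ) := by
    apply Complex.ext
    · simp
    · simp [hlr x hx]
  have h0 : (x : ℂ) - (z₁ : ℂ) ≠ 0 := by
    rw [← Complex.ofReal_sub]; exact_mod_cast (sub_neg.2 hx').ne
  have hpos : 0 < z₁ - x := sub_pos.2 hx'
  have hlog : Complex.log ((x : ℂ) - (z₁ : ℂ)) = ((Real.log (z₁ - x) : ℝ) : ℂ) + (Real.pi : ℂ) * I := by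
    have e1 : (x : ℂ) - (z₁ : ℂ) = (((x - z₁ : ℝ)) : ℂ) := by push_cast; ring
    rw [e1]
    apply Complex.ext
    · rw [Complex.log_re, Complex.norm_real, Real.norm_eq_abs, abs_of_neg (by linarith)]
      simp
    · rw [Complex.log_im, Complex.arg_ofReal_of_neg (by linarith)]
      simp
  have h2 : ((x : ℂ) - (z₁ : ℂ)) ^ (q : ℂ) = (((z₁ - x) ^ q : ℝ) : ℂ) * cexp (((Real.pi * q : ℝ) : ℂ) * I) := by
    rw [Complex.cpow_def_of_ne_zero h0, hlog, Real.rpow_def_of_pos hpos]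
    push_cast
    rw [← Complex.exp_add]
    congr 1
    ring
  have h3 : gg q z₁ l Λ (x : ℂ) = ((1 / 2 * (Real.exp (Λ * x) * ((z₁ - x) ^ q *
      Real.exp (q * ((l (x : ℂ)).re + Real.log (2 * Real.sqrt Real.pi))))) : ℝ) : ℂ) *
        cexp (((Real.pi * q : ℝ) : ℂ) * I) := by
    rw [gg, h2]
    conv_lhs => rw [h1]
    push_cast
    ring
  rw [h3, Complex.im_ofReal_mul, Complex.exp_ofReal_mul_I_im]

theorem FF_real_im {β : ℂ → ℂ} (hβ : IsLogB β) (q Λ : ℝ) {x : ℝ} (hx : 0 < x) :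
    (FF β q (Λ : ℂ) (x : ℂ)).im = 0 := by
  have h1 : β (x : ℂ) = (((β (x : ℂ)).re : ℝ) : ℂ) := by
    apply Complex.ext
    · simp
    · simp [hβ.real x hx]
  have h2 : (x : ℂ) ^ ((1 : ℂ) - (q : ℂ) / 2) = ((x ^ (1 - q / 2) : ℝ) : ℂ) := by
    rw [Complex.ofReal_cpow hx.le]; push_cast; rfl
  have h3 : FF β q (Λ : ℂ) (x : ℂ) =
      ((Real.exp (Λ * x ^ 2 - 2 / 3 * q * x ^ 3 + q * (β (x : ℂ)).re) * x ^ (1 - q / 2) : ℝ) : ℂ) := by
    rw [FF, h2]
    conv_lhs => rw [h1]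
    push_cast
    rfl
  rw [h3, Complex.ofReal_im]

theorem ghost {β : ℂ → ℂ} (hβ : IsLogB β) (q : ℝ) (hq : 0 < q) (hnon : ∀ n : ℤ, (n : ℝ) ≠ q) :
    ∃ σ : ℝ, (σ = 1 ∨ σ = -1) ∧ ∃ c c₁ R : ℝ, 0 < c ∧ ∀ Λ : ℝ, R ≤ Λ →
      c * Real.exp (-(1 / (3 * q ^ 2)) * Λ ^ 3 - c₁ * Λ) ≤ σ * (Psi β q (Λ : ℂ)).im := by
  obtain ⟨z₁, r, l, hz₁, hr, hld, hle, hlr⟩ := ghost_data
  set V := Metric.ball ((gc z₁ r : ℝ) : ℂ) (gr z₁ r) with hV
  obtain ⟨C₀, Λ₀, hΛ₀, hleft⟩ := ghost_left hβ q hq (r / 8) (by positivity) (z₁ - r / 2) (by linarith)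
  have hsin : Real.sin (Real.pi * q) ≠ 0 := by
    intro h0
    rw [Real.sin_eq_zero_iff] at h0
    obtain ⟨n, hn⟩ := h0
    apply hnon n
    have : Real.pi ≠ 0 := Real.pi_ne_zero
    apply mul_left_cancel₀ this
    linarith
  obtain ⟨σ, hσ, hσs⟩ : ∃ σ : ℝ, (σ = 1 ∨ σ = -1) ∧ σ * Real.sin (Real.pi * q) = |Real.sin (Real.pi * q)| := by
    rcases lt_or_gt_of_ne hsin with h | h
    · exact ⟨-1, Or.inr rfl, by rw [abs_of_neg h]; ring⟩
    · exact ⟨1, Or.inl rfl, by rw [abs_of_pos h]; ring⟩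
  have habsin : 0 < |Real.sin (Real.pi * q)| := abs_pos.2 hsin
  have habsσ : |σ| = 1 := by rcases hσ with h | h <;> simp [h]
  -- bound on the vertical segment
  obtain ⟨K, hK⟩ : ∃ K : ℝ, ∀ y ∈ Icc (0 : ℝ) (r / 8),
      ‖gg q z₁ l 0 (((z₁ - r / 2 : ℝ) : ℂ) + (y : ℂ) * I)‖ ≤ K := by
    have hc : ContinuousOn (fun y : ℝ => gg q z₁ l 0 (((z₁ - r / 2 : ℝ) : ℂ) + (y : ℂ) * I))
        (Icc (0 : ℝ) (r / 8)) := by
      refine ContinuousOn.comp (f := fun y : ℝ => ((z₁ - r / 2 : ℝ) : ℂ) + (y : ℂ) * I)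
        (gg_continuousOn q hq hld 0) (by fun_prop) ?_
      intro y hy
      refine ⟨rect_mem hr le_rfl (by linarith) hy.1 hy.2, ?_⟩
      simp
      exact hy.1
    exact isCompact_Icc.exists_bound_of_continuousOn hc
  have hK0 : 0 ≤ K := le_trans (norm_nonneg _) (hK 0 ⟨le_rfl, by positivity⟩)
  -- lower bound
  set φ : ℝ → ℝ := fun x => 1 / 2 * ((z₁ - x) ^ q *
      Real.exp (q * ((l (x : ℂ)).re + Real.log (2 * Real.sqrt Real.pi)))) with hφ
  obtain ⟨m, hm, hmφ⟩ : ∃ m : ℝ, 0 < m ∧ ∀ x ∈ Icc (z₁ - r / 4) (z₁ - r / 8), m ≤ φ x := by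
    have hc : ContinuousOn φ (Icc (z₁ - r / 4) (z₁ - r / 8)) := by
      have hl : ContinuousOn (fun x : ℝ => (l (x : ℂ)).re) (Icc (z₁ - r / 4) (z₁ - r / 8)) := by
        refine Complex.continuous_re.comp_continuousOn (hld.continuousOn.comp
          Complex.continuous_ofReal.continuousOn ?_)
        intro x hx
        exact mem_gball_real.2 ⟨by linarith [hx.1], by linarith [hx.2]⟩
      have hp : ContinuousOn (fun x : ℝ => (z₁ - x) ^ q) (Icc (z₁ - r / 4) (z₁ - r / 8)) := by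
        refine ContinuousOn.rpow_const (by fun_prop) ?_
        intro x hx
        right; exact hq.le
      exact continuousOn_const.mul (hp.mul ((continuousOn_const.mul (hl.add continuousOn_const)).rexp))
    obtain ⟨x₀, hx₀, hmin⟩ := isCompact_Icc.exists_isMinOn ⟨z₁ - r / 4, ⟨le_rfl, by linarith⟩⟩ hc
    refine ⟨φ x₀, ?_, fun x hx => hmin hx⟩
    have : 0 < z₁ - x₀ := by linarith [hx₀.2]
    rw [hφ]
    positivity
  set c' : ℝ := (r / 8) * (m * |Real.sin (Real.pi * q)|) with hc'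
  have hc'pos : 0 < c' := by positivity
  set K' : ℝ := K * (r / 8) + |C₀| with hK'
  have hK'0 : 0 ≤ K' := by positivity
  set κ : ℝ := q ^ (1 - q / 2) * Real.pi ^ (-(1 / 2 : ℝ)) with hκ
  have hκpos : 0 < κ := by
    have := Real.pi_pos
    positivity
  refine ⟨σ, hσ, κ * (c' / 2), 1 - (z₁ - r / 4), max (max Λ₀ (2 * q + 1)) (max 1 ((4 / r) * (2 * K' / c'))),
    by positivity, ?_⟩
  intro Λ hΛ
  have hL1 : Λ₀ ≤ Λ := le_trans (le_trans (le_max_left _ _) (le_max_left _ _)) hΛ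
  have hL2 : 2 * q + 1 ≤ Λ := le_trans (le_trans (le_max_right _ _) (le_max_left _ _)) hΛ
  have hL3 : 1 ≤ Λ := le_trans (le_trans (le_max_left _ _) (le_max_right _ _)) hΛ
  have hL4 : (4 / r) * (2 * K' / c') ≤ Λ := le_trans (le_trans (le_max_right _ _) (le_max_right _ _)) hΛ
  have hΛpos : 0 < Λ := by linarith
  obtain ⟨G, L, U, hE⟩ := exists_ends hβ q hq (Λ : ℂ) (by simpa using hΛpos)
  have hJ : JJ β q (Λ : ℂ) = L - U := JJ_eq_ends hβ hq hE (by simp; linarith)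
  have hmid := middle_eq hβ q hq hz₁ hr hld hle hlr Λ hE.prim
  have hlft := hleft Λ hL1 G L U hE
  -- right part is real
  have hright : (L - G ((((1 / 2 : ℝ)) : ℂ) ^ ((1 : ℂ) / 2))).im = 0 := by
    have hs : (((1 / 2 : ℝ)) : ℂ) ^ ((1 : ℂ) / 2) = ((Real.sqrt (1 / 2) : ℝ) : ℂ) := by
      rw [Real.sqrt_eq_rpow, Complex.ofReal_cpow (by norm_num)]
      norm_num
    have hspos : 0 < Real.sqrt (1 / 2) := by positivity
    have h1 := hE.integral_right hβ hq (Real.sqrt (1 / 2)) 0 hspos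
    simp only [Complex.ofReal_zero, zero_mul, add_zero] at h1
    rw [hs, ← h1]
    have h2 : ∫ x in Ioi (Real.sqrt (1 / 2)), FF β q (Λ : ℂ) (x : ℂ) =
        ∫ x in Ioi (Real.sqrt (1 / 2)), (((FF β q (Λ : ℂ) (x : ℂ)).re : ℝ) : ℂ) := by
      refine setIntegral_congr_fun measurableSet_Ioi ?_
      intro x hx
      have hx0 : 0 < x := lt_trans hspos hx
      apply Complex.ext
      · simp
      · simp [FF_real_im hβ q Λ hx0]
    have h3 : ∫ x in Ioi (Real.sqrt (1 / 2)), (((FF β q (Λ : ℂ) (x : ℂ)).re : ℝ) : ℂ) =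
        ((∫ x in Ioi (Real.sqrt (1 / 2)), (FF β q (Λ : ℂ) (x : ℂ)).re : ℝ) : ℂ) := integral_complex_ofReal
    rw [h2, h3]
    exact Complex.ofReal_im _
  -- vertical part
  have hvert : ‖∫ y in (0 : ℝ)..(r / 8), gg q z₁ l Λ (((z₁ - r / 2 : ℝ) : ℂ) + (y : ℂ) * I)‖ ≤
      Real.exp (Λ * (z₁ - r / 2)) * K * (r / 8) := by
    have := intervalIntegral.norm_integral_le_of_norm_le_const (a := 0) (b := r / 8)
      (f := fun y : ℝ => gg q z₁ l Λ (((z₁ - r / 2 : ℝ) : ℂ) + (y : ℂ) * I))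
      (C := Real.exp (Λ * (z₁ - r / 2)) * K) ?_
    · rwa [sub_zero, abs_of_nonneg (by positivity : (0 : ℝ) ≤ r / 8)] at this
    · intro y hy
      rw [uIoc_of_le (by positivity)] at hy
      rw [gg_zero, norm_mul, Complex.norm_exp]
      have h1 := hK y ⟨hy.1.le, hy.2⟩
      have h2 : ((Λ : ℂ) * (((z₁ - r / 2 : ℝ) : ℂ) + (y : ℂ) * I)).re = Λ * (z₁ - r / 2) := by
        simp
      rw [h2]
      gcongr
  -- the real segment
  have hxle : z₁ - r / 2 ≤ 1 / 2 := by linarith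
  have hint : IntervalIntegrable (fun x : ℝ => gg q z₁ l Λ (x : ℂ)) volume (z₁ - r / 2) (1 / 2) := by
    apply ContinuousOn.intervalIntegrable
    refine ContinuousOn.comp (f := fun x : ℝ => (x : ℂ)) (gg_continuousOn q hq hld Λ) (by fun_prop) ?_
    intro x hx
    rw [uIcc_of_le hxle] at hx
    refine ⟨mem_gball_real.2 ⟨by linarith [hx.1], by linarith [hx.2]⟩, ?_⟩
    simp
  have hmemV : ∀ x : ℝ, z₁ - r / 2 ≤ x → x ≤ 1 / 2 → (x : ℂ) ∈ V := by
    intro x h1 h2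
    exact mem_gball_real.2 ⟨by linarith, by linarith⟩
  have him : ∀ x : ℝ, z₁ - r / 2 ≤ x → x ≤ 1 / 2 → 0 ≤ σ * (gg q z₁ l Λ (x : ℂ)).im := by
    intro x h1 h2
    rcases lt_or_ge x z₁ with h3 | h3
    · rw [gg_im_left q hlr Λ (hmemV x h1 h2) h3]
      have h4 : 0 < z₁ - x := by linarith
      have h5 : 0 ≤ 1 / 2 * (Real.exp (Λ * x) * ((z₁ - x) ^ q *
        Real.exp (q * ((l (x : ℂ)).re + Real.log (2 * Real.sqrt Real.pi))))) := by positivity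
      calc (0 : ℝ) ≤ (1 / 2 * (Real.exp (Λ * x) * ((z₁ - x) ^ q *
        Real.exp (q * ((l (x : ℂ)).re + Real.log (2 * Real.sqrt Real.pi)))))) * |Real.sin (Real.pi * q)| := by positivity
        _ = _ := by rw [← hσs]; ring
    · rw [gg_im_right q hlr Λ (hmemV x h1 h2) h3, mul_zero]
  have hIm : (∫ x in (z₁ - r / 2)..(1 / 2 : ℝ), gg q z₁ l Λ (x : ℂ)).im =
      ∫ x in (z₁ - r / 2)..(1 / 2 : ℝ), (gg q z₁ l Λ (x : ℂ)).im := by
    have := Complex.imCLM.intervalIntegral_comp_comm hint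
    exact this.symm
  have hintim : IntervalIntegrable (fun x : ℝ => σ * (gg q z₁ l Λ (x : ℂ)).im) volume (z₁ - r / 2) (1 / 2) := by
    have h1 : IntervalIntegrable (fun x : ℝ => (gg q z₁ l Λ (x : ℂ)).im) volume (z₁ - r / 2) (1 / 2) :=
      ⟨hint.1.im, hint.2.im⟩
    exact h1.const_mul σ
  have hlow : c' * Real.exp (Λ * (z₁ - r / 4)) ≤
      σ * (∫ x in (z₁ - r / 2)..(1 / 2 : ℝ), gg q z₁ l Λ (x : ℂ)).im := by
    rw [hIm, ← intervalIntegral.integral_const_mul]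
    have h1 : ∫ x in (z₁ - r / 4)..(z₁ - r / 8), σ * (gg q z₁ l Λ (x : ℂ)).im ≤
        ∫ x in (z₁ - r / 2)..(1 / 2 : ℝ), σ * (gg q z₁ l Λ (x : ℂ)).im := by
      refine intervalIntegral.integral_mono_interval (by linarith) (by linarith) (by linarith) ?_ hintim
      refine (ae_restrict_iff' measurableSet_Ioc).2 (Eventually.of_forall ?_)
      intro x hx
      exact him x hx.1.le hx.2
    refine le_trans ?_ h1
    have h2 : ∫ _x in (z₁ - r / 4)..(z₁ - r / 8), (m * |Real.sin (Real.pi * q)|) * Real.exp (Λ * (z₁ - r / 4)) =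
        c' * Real.exp (Λ * (z₁ - r / 4)) := by
      rw [intervalIntegral.integral_const, smul_eq_mul, hc']
      ring
    rw [← h2]
    refine intervalIntegral.integral_mono_on (by linarith) intervalIntegrable_const
      (hintim.mono_set ?_) ?_
    · rw [uIcc_of_le (by linarith), uIcc_of_le hxle]
      exact Icc_subset_Icc (by linarith) (by linarith)
    · intro x hx
      rw [gg_im_left q hlr Λ (hmemV x (by linarith [hx.1]) (by linarith [hx.2])) (by linarith [hx.2])]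
      have h3 := hmφ x hx
      have h4 : Real.exp (Λ * (z₁ - r / 4)) ≤ Real.exp (Λ * x) := by
        apply Real.exp_le_exp.2
        exact mul_le_mul_of_nonneg_left hx.1 hΛpos.le
      have h5 : 0 ≤ φ x := hm.le.trans h3
      calc m * |Real.sin (Real.pi * q)| * Real.exp (Λ * (z₁ - r / 4))
          ≤ φ x * |Real.sin (Real.pi * q)| * Real.exp (Λ * x) := by gcongr
        _ = _ := by rw [← hσs, hφ]; ring
  have hJim : c' / 2 * Real.exp (Λ * (z₁ - r / 4)) ≤ σ * (JJ β q (Λ : ℂ)).im := by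
    have e1 : JJ β q (Λ : ℂ) = (L - G ((((1 / 2 : ℝ)) : ℂ) ^ ((1 : ℂ) / 2))) +
        ((∫ x in (z₁ - r / 2)..(1 / 2 : ℝ), gg q z₁ l Λ (x : ℂ)) -
        I * (∫ y in (0 : ℝ)..(r / 8), gg q z₁ l Λ (((z₁ - r / 2 : ℝ) : ℂ) + (y : ℂ) * I))) +
        (G ((((z₁ - r / 2 : ℝ) : ℂ) + ((r / 8 : ℝ) : ℂ) * I) ^ ((1 : ℂ) / 2)) - U) := by
      rw [hJ, ← hmid]; ring
    have e2 : (JJ β q (Λ : ℂ)).im = (∫ x in (z₁ - r / 2)..(1 / 2 : ℝ), gg q z₁ l Λ (x : ℂ)).im -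
        (I * (∫ y in (0 : ℝ)..(r / 8), gg q z₁ l Λ (((z₁ - r / 2 : ℝ) : ℂ) + (y : ℂ) * I))).im +
        (G ((((z₁ - r / 2 : ℝ) : ℂ) + ((r / 8 : ℝ) : ℂ) * I) ^ ((1 : ℂ) / 2)) - U).im := by
      rw [e1, Complex.add_im, Complex.add_im, hright, Complex.sub_im]
      ring
    have e3 : |(I * (∫ y in (0 : ℝ)..(r / 8), gg q z₁ l Λ (((z₁ - r / 2 : ℝ) : ℂ) + (y : ℂ) * I))).im| ≤
        Real.exp (Λ * (z₁ - r / 2)) * K * (r / 8) := by
      refine le_trans (Complex.abs_im_le_norm _) ?_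
      rw [norm_mul, Complex.norm_I, one_mul]
      exact hvert
    have e4 : |(G ((((z₁ - r / 2 : ℝ) : ℂ) + ((r / 8 : ℝ) : ℂ) * I) ^ ((1 : ℂ) / 2)) - U).im| ≤
        |C₀| * Real.exp (Λ * (z₁ - r / 2)) := by
      refine le_trans (Complex.abs_im_le_norm _) (le_trans hlft ?_)
      gcongr
      exact le_abs_self _
    have e5 : ∀ t : ℝ, |σ * t| = |t| := by intro t; rw [abs_mul, habsσ, one_mul]
    have e6 : K' * Real.exp (Λ * (z₁ - r / 2)) ≤ c' / 2 * Real.exp (Λ * (z₁ - r / 4)) := by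
      have h1 : Real.exp (Λ * (z₁ - r / 4)) = Real.exp (Λ * (z₁ - r / 2)) * Real.exp (Λ * (r / 4)) := by
        rw [← Real.exp_add]; congr 1; ring
      have h2 : K' ≤ c' / 2 * Real.exp (Λ * (r / 4)) := by
        have h3 : Λ * (r / 4) ≤ Real.exp (Λ * (r / 4)) := by
          have := Real.add_one_le_exp (Λ * (r / 4)); linarith
        have h4 : 2 * K' / c' ≤ Λ * (r / 4) := by
          have := mul_le_mul_of_nonneg_right hL4 (by positivity : (0 : ℝ) ≤ r / 4)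
          calc 2 * K' / c' = (4 / r) * (2 * K' / c') * (r / 4) := by field_simp
            _ ≤ _ := this
        have h5 : 2 * K' ≤ (Λ * (r / 4)) * c' := by
          rwa [div_le_iff₀ hc'pos] at h4
        nlinarith
      rw [h1]
      calc K' * Real.exp (Λ * (z₁ - r / 2)) ≤ (c' / 2 * Real.exp (Λ * (r / 4))) * Real.exp (Λ * (z₁ - r / 2)) := by gcongr
        _ = _ := by ring
    have e7 := neg_abs_le (σ * (I * (∫ y in (0 : ℝ)..(r / 8), gg q z₁ l Λ (((z₁ - r / 2 : ℝ) : ℂ) + (y : ℂ) * I))).im)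
    have e7' := le_abs_self (σ * (I * (∫ y in (0 : ℝ)..(r / 8), gg q z₁ l Λ (((z₁ - r / 2 : ℝ) : ℂ) + (y : ℂ) * I))).im)
    have e8 := neg_abs_le (σ * (G ((((z₁ - r / 2 : ℝ) : ℂ) + ((r / 8 : ℝ) : ℂ) * I) ^ ((1 : ℂ) / 2)) - U).im)
    rw [e5] at e7 e7' e8
    have e9 : K' * Real.exp (Λ * (z₁ - r / 2)) = Real.exp (Λ * (z₁ - r / 2)) * K * (r / 8) +
        |C₀| * Real.exp (Λ * (z₁ - r / 2)) := by rw [hK']; ring
    rw [e2]
    have e10 : σ * ((∫ x in (z₁ - r / 2)..(1 / 2 : ℝ), gg q z₁ l Λ (x : ℂ)).im -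
        (I * (∫ y in (0 : ℝ)..(r / 8), gg q z₁ l Λ (((z₁ - r / 2 : ℝ) : ℂ) + (y : ℂ) * I))).im +
        (G ((((z₁ - r / 2 : ℝ) : ℂ) + ((r / 8 : ℝ) : ℂ) * I) ^ ((1 : ℂ) / 2)) - U).im) =
        σ * (∫ x in (z₁ - r / 2)..(1 / 2 : ℝ), gg q z₁ l Λ (x : ℂ)).im -
        σ * (I * (∫ y in (0 : ℝ)..(r / 8), gg q z₁ l Λ (((z₁ - r / 2 : ℝ) : ℂ) + (y : ℂ) * I))).im +
        σ * (G ((((z₁ - r / 2 : ℝ) : ℂ) + ((r / 8 : ℝ) : ℂ) * I) ^ ((1 : ℂ) / 2)) - U).im := by ring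
    rw [e10]
    linarith
  -- the factor
  have hPsi : Psi β q (Λ : ℂ) = ((κ * Real.exp (-(1 / (3 * q ^ 2)) * Λ ^ 3) * Λ ^ ((q - 1) / 2) : ℝ) : ℂ) *
      JJ β q (Λ : ℂ) := by
    have h1 : (Λ : ℂ) ^ (((q : ℂ) - 1) / 2) = ((Λ ^ ((q - 1) / 2) : ℝ) : ℂ) := by
      rw [Complex.ofReal_cpow hΛpos.le]; push_cast; rfl
    have h2 : cexp (-((Λ : ℂ) ^ 3) / (3 * (q : ℂ) ^ 2)) = ((Real.exp (-(1 / (3 * q ^ 2)) * Λ ^ 3) : ℝ) : ℂ) := by
      push_cast
      congr 1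
      ring
    rw [Psi, h1, h2, ← hκ]
    push_cast
    ring
  rw [hPsi, Complex.im_ofReal_mul]
  have hpow : Real.exp (-Λ) ≤ Λ ^ ((q - 1) / 2) := by
    rw [Real.rpow_def_of_pos hΛpos]
    apply Real.exp_le_exp.2
    have h1 : 0 ≤ Real.log Λ := Real.log_nonneg hL3
    have h2 : Real.log Λ ≤ Λ := by
      have := Real.log_le_sub_one_of_pos hΛpos; linarith
    nlinarith
  have hexp : Real.exp (-(1 / (3 * q ^ 2)) * Λ ^ 3 - (1 - (z₁ - r / 4)) * Λ) =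
      Real.exp (-(1 / (3 * q ^ 2)) * Λ ^ 3) * Real.exp (-Λ) * Real.exp (Λ * (z₁ - r / 4)) := by
    rw [← Real.exp_add, ← Real.exp_add]
    congr 1; ring
  rw [hexp]
  calc κ * (c' / 2) * (Real.exp (-(1 / (3 * q ^ 2)) * Λ ^ 3) * Real.exp (-Λ) * Real.exp (Λ * (z₁ - r / 4)))
      = (κ * Real.exp (-(1 / (3 * q ^ 2)) * Λ ^ 3) * Real.exp (-Λ)) *
        (c' / 2 * Real.exp (Λ * (z₁ - r / 4))) := by ring
    _ ≤ (κ * Real.exp (-(1 / (3 * q ^ 2)) * Λ ^ 3) * Λ ^ ((q - 1) / 2)) * (σ * (JJ β q (Λ : ℂ)).im) := by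
        gcongr
    _ = _ := by ring

end Pool.Agent.H140R2.FR
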