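import Pool.Agent.H140R2.FR.Defs

/-!
T02.  Basic facts on `cA` and `BB`.

Sketch.  `|exp(-p y² + i y³/3)| = exp(-(Re p) y²)`, so `‖cA p‖ ≤ √(π/Re p)`; differentiate under the
integral sign; conjugation: `y → -y`.  Expansion: with `e^{iy³/3} = ∑_{n<2N} (iy³/3)^n/n! + R`,
`|R| ≤ |y|^{6N}/(3^{2N}(2N)!)` (e.g. `Complex.norm_exp_sub_sum_le...` / Taylor with imaginary exponent), odd
terms vanish, `∫ y^{2n} e^{-py²} dy = √(π/p) (2n)!/(4^n n! p^n)` (complex Gaussian moments), and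
`∫|y|^{6N}e^{-ay²} dy = C a^{-3N-1/2}` with `a = Re p ≥ c‖p‖`.
Coefficient: `(-1)^j/(9^j (2j)!) * (6j)!/(4^{3j}(3j)!) = (-1)^j bR j / 576^j`.
-/

set_option autoImplicit false

open Complex MeasureTheory Set Filter Topology

namespace Pool.Agent.H140R2.FR

namespace T02

/-- norm of the integrand of `cA`. -/
lemma norm_integrand (p : ℂ) (y : ℝ) :
    ‖cexp (-p * (y : ℂ) ^ 2 + I * (y : ℂ) ^ 3 / 3)‖ = Real.exp (-p.re * y ^ 2) := by
  rw [Complex.norm_exp]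
  congr 1
  have h1 : (y : ℂ) ^ 2 = ((y ^ 2 : ℝ) : ℂ) := by push_cast; rfl
  have h2 : I * (y : ℂ) ^ 3 / 3 = I * ((y ^ 3 / 3 : ℝ) : ℂ) := by push_cast; ring
  rw [h1, h2, Complex.add_re, Complex.re_mul_ofReal, Complex.I_mul_re, Complex.ofReal_im,
    Complex.neg_re]
  ring

lemma norm_gauss (p : ℂ) (y : ℝ) :
    ‖cexp (-p * (y : ℂ) ^ 2)‖ = Real.exp (-p.re * y ^ 2) := by
  rw [Complex.norm_exp]
  congr 1
  have h1 : (y : ℂ) ^ 2 = ((y ^ 2 : ℝ) : ℂ) := by push_cast; rfl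
  rw [h1, Complex.re_mul_ofReal, Complex.neg_re]

/-- moments are integrable (real form). -/
lemma integrable_pow_gauss (a : ℝ) (ha : 0 < a) (n : ℕ) :
    Integrable (fun y : ℝ => |y| ^ n * Real.exp (-a * y ^ 2)) := by
  have h := (integrable_rpow_mul_exp_neg_mul_sq ha (s := (n : ℝ))
    (by have := Nat.cast_nonneg (α := ℝ) n; linarith)).norm
  refine h.congr (Filter.Eventually.of_forall fun y => ?_)
  simp only [Real.rpow_natCast, norm_mul, norm_pow, Real.norm_eq_abs, Real.abs_exp]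

/-- moments are integrable (complex form). -/
lemma integrable_cpow_gauss (lam : ℂ) (hlam : 0 < lam.re) (n : ℕ) :
    Integrable (fun y : ℝ => (y : ℂ) ^ n * cexp (-lam * (y : ℂ) ^ 2)) := by
  refine (integrable_pow_gauss lam.re hlam n).mono' ?_ (Filter.Eventually.of_forall fun y => ?_)
  · exact (Continuous.aestronglyMeasurable (by fun_prop))
  · rw [norm_mul, norm_pow, norm_gauss, Complex.norm_real, Real.norm_eq_abs]

/-- recurrence for Gaussian moments. -/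
lemma gauss_rec (lam : ℂ) (hlam : 0 < lam.re) (n : ℕ) :
    2 * lam * ∫ t : ℝ, (t : ℂ) ^ (n + 2) * cexp (-lam * (t : ℂ) ^ 2) =
      (n + 1) * ∫ t : ℝ, (t : ℂ) ^ n * cexp (-lam * (t : ℂ) ^ 2) := by
  have hder : ∀ t : ℝ, HasDerivAt (fun t : ℝ => (t : ℂ) ^ (n + 1) * cexp (-lam * (t : ℂ) ^ 2))
      ((n + 1) * ((t : ℂ) ^ n * cexp (-lam * (t : ℂ) ^ 2)) -
        2 * lam * ((t : ℂ) ^ (n + 2) * cexp (-lam * (t : ℂ) ^ 2))) t := by
    intro t
    have h1 : HasDerivAt (fun z : ℂ => z ^ (n + 1) * cexp (-lam * z ^ 2))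
        ((((n + 1 : ℕ) : ℂ) * (t : ℂ) ^ n) * cexp (-lam * (t : ℂ) ^ 2) +
          (t : ℂ) ^ (n + 1) * (cexp (-lam * (t : ℂ) ^ 2) * (-lam * (((2 : ℕ) : ℂ) * (t : ℂ) ^ 1))))
        (t : ℂ) := by
      exact (hasDerivAt_pow (n + 1) (t : ℂ)).mul
        (((hasDerivAt_pow 2 (t : ℂ)).const_mul (-lam)).cexp)
    have h2 := h1.comp_ofReal
    convert h2 using 1
    push_cast
    ring
  have hint1 := (integrable_cpow_gauss lam hlam n).const_mul ((n : ℂ) + 1)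
  have hint2 := (integrable_cpow_gauss lam hlam (n + 2)).const_mul (2 * lam)
  have h0 := integral_eq_zero_of_hasDerivAt_of_integrable hder (hint1.sub hint2)
    (integrable_cpow_gauss lam hlam (n + 1))
  rw [integral_sub hint1 hint2, integral_const_mul, integral_const_mul] at h0
  linear_combination -h0

end T02

open T02

theorem cA_integrable (p : ℂ) (hp : 0 < p.re) :
    Integrable (fun y : ℝ => cexp (-p * (y : ℂ) ^ 2 + I * (y : ℂ) ^ 3 / 3)) := by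
  refine (integrable_exp_neg_mul_sq hp).mono' ?_ (Filter.Eventually.of_forall fun y => ?_)
  · exact (Continuous.aestronglyMeasurable (by fun_prop))
  · exact (norm_integrand p y).le

theorem cA_norm_le (p : ℂ) (hp : 0 < p.re) : ‖cA p‖ ≤ Real.sqrt (Real.pi / p.re) := by
  rw [← integral_gaussian p.re]
  exact norm_integral_le_of_norm_le (integrable_exp_neg_mul_sq hp)
    (Filter.Eventually.of_forall fun y => (norm_integrand p y).le)

theorem cA_differentiableOn : DifferentiableOn ℂ cA {p | 0 < p.re} := by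
  intro p₀ hp₀
  have hp₀' : 0 < p₀.re := hp₀
  have hs : {p : ℂ | p₀.re / 2 < p.re} ∈ 𝓝 p₀ :=
    (isOpen_lt continuous_const Complex.continuous_re).mem_nhds (by
      show p₀.re / 2 < p₀.re
      linarith)
  have key := hasDerivAt_integral_of_dominated_loc_of_deriv_le (𝕜 := ℂ) (μ := (volume : Measure ℝ))
    (F := fun p (y : ℝ) => cexp (-p * (y : ℂ) ^ 2 + I * (y : ℂ) ^ 3 / 3))
    (F' := fun p (y : ℝ) => cexp (-p * (y : ℂ) ^ 2 + I * (y : ℂ) ^ 3 / 3) * (-(y : ℂ) ^ 2))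
    (x₀ := p₀) (bound := fun y => |y| ^ 2 * Real.exp (-(p₀.re / 2) * y ^ 2)) hs
    (Filter.Eventually.of_forall fun p => (Continuous.aestronglyMeasurable (by fun_prop)))
    (cA_integrable p₀ hp₀')
    (Continuous.aestronglyMeasurable (by fun_prop))
    (Filter.Eventually.of_forall fun y p hp => ?_)
    (integrable_pow_gauss _ (by linarith) 2)
    (Filter.Eventually.of_forall fun y p hp => ?_)
  · exact key.2.differentiableAt.differentiableWithinAt
  · rw [norm_mul, norm_integrand, norm_neg, norm_pow, Complex.norm_real, Real.norm_eq_abs, mul_comm]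
    have hp' : p₀.re / 2 < p.re := hp
    refine mul_le_mul_of_nonneg_left (Real.exp_le_exp.mpr ?_) (by positivity)
    nlinarith [sq_nonneg y]
  · have h1 : HasDerivAt (fun p : ℂ => -p * (y : ℂ) ^ 2 + I * (y : ℂ) ^ 3 / 3)
        (-(y : ℂ) ^ 2) p := by
      have := ((hasDerivAt_id p).neg.mul_const ((y : ℂ) ^ 2)).add_const (I * (y : ℂ) ^ 3 / 3)
      simpa using this
    exact h1.cexp

theorem BB_differentiableOn : DifferentiableOn ℂ BB {p | 0 < p.re} := by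
  refine DifferentiableOn.mul ?_ cA_differentiableOn
  intro p hp
  have hp' : 0 < p.re := hp
  refine DifferentiableAt.differentiableWithinAt ?_
  refine (differentiableAt_id.div_const _).cpow_const ?_
  left
  show 0 < (p / (Real.pi : ℂ)).re
  rw [Complex.div_ofReal_re]
  exact div_pos hp' Real.pi_pos

namespace T02

lemma arg_ne_pi (z : ℂ) (hz : 0 < z.re) : z.arg ≠ Real.pi := by
  intro h
  rw [Complex.arg_eq_pi_iff] at h
  linarith [h.1]

lemma re_div_pi (p : ℂ) (hp : 0 < p.re) : 0 < (p / (Real.pi : ℂ)).re := by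
  rw [Complex.div_ofReal_re]
  exact div_pos hp Real.pi_pos

lemma conj_cA (p : ℂ) : cA ((starRingEnd ℂ) p) = (starRingEnd ℂ) (cA p) := by
  unfold cA
  rw [← integral_conj, ← integral_neg_eq_self]
  congr 1
  ext y
  rw [← Complex.exp_conj]
  congr 1
  simp only [map_add, map_mul, map_neg, map_pow, map_div₀, Complex.conj_I, Complex.conj_ofReal,
    map_ofNat]
  push_cast
  ring

lemma norm_sqrt_pi (z : ℂ) : ‖z ^ ((1 : ℂ) / 2)‖ = Real.sqrt ‖z‖ := by
  have h : ((1 : ℂ) / 2) = (((1 / 2 : ℝ)) : ℂ) := by push_cast; rfl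
  rw [h, Complex.norm_cpow_real, Real.sqrt_eq_rpow]

end T02

theorem BB_conj (p : ℂ) (hp : 0 < p.re) : BB ((starRingEnd ℂ) p) = (starRingEnd ℂ) (BB p) := by
  unfold BB
  rw [map_mul, conj_cA]
  congr 1
  have h1 : (starRingEnd ℂ) p / (Real.pi : ℂ) = (starRingEnd ℂ) (p / (Real.pi : ℂ)) := by
    rw [map_div₀, Complex.conj_ofReal]
  rw [h1, Complex.conj_cpow _ _ (arg_ne_pi _ (re_div_pi p hp))]
  have h2 : (starRingEnd ℂ) ((1 : ℂ) / 2) = 1 / 2 := by
    rw [map_div₀, map_one, map_ofNat]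
  rw [h2]

theorem BB_norm_le (p : ℂ) (hp : 0 < p.re) : ‖BB p‖ ≤ Real.sqrt (‖p‖ / p.re) := by
  unfold BB
  rw [norm_mul, norm_sqrt_pi]
  calc Real.sqrt ‖p / (Real.pi : ℂ)‖ * ‖cA p‖
      ≤ Real.sqrt ‖p / (Real.pi : ℂ)‖ * Real.sqrt (Real.pi / p.re) :=
        mul_le_mul_of_nonneg_left (cA_norm_le p hp) (Real.sqrt_nonneg _)
    _ = Real.sqrt (‖p‖ / p.re) := by
        rw [← Real.sqrt_mul (norm_nonneg _), norm_div, Complex.norm_real, Real.norm_eq_abs,
          abs_of_pos Real.pi_pos]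
        congr 1
        have := Real.pi_pos.ne'
        field_simp

/-- complex Gaussian moments, even ones. -/
theorem gauss_even (lam : ℂ) (hlam : 0 < lam.re) (n : ℕ) :
    ∫ t : ℝ, (t : ℂ) ^ (2 * n) * cexp (-lam * (t : ℂ) ^ 2) =
      ((Real.pi : ℂ) / lam) ^ ((1 : ℂ) / 2) *
        (((2 * n).factorial : ℂ) / ((4 : ℂ) ^ n * (n.factorial : ℂ)) * (lam ^ n)⁻¹) := by
  have hlam0 : lam ≠ 0 := by
    rintro rfl
    simp at hlam
  induction n with
  | zero =>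
    simp only [mul_zero, pow_zero, one_mul, Nat.factorial_zero, Nat.cast_one, mul_one, div_one,
      inv_one]
    exact integral_gaussian_complex hlam
  | succ n ih =>
    have hrec := gauss_rec lam hlam (2 * n)
    rw [ih] at hrec
    have h2 : 2 * (n + 1) = 2 * n + 2 := by ring
    rw [h2]
    have h2lam : (2 * lam) ≠ 0 := mul_ne_zero two_ne_zero hlam0
    apply mul_left_cancel₀ h2lam
    rw [hrec]
    have hf : (((2 * n + 2).factorial : ℕ) : ℂ) =
        (2 * (n : ℂ) + 2) * ((2 * (n : ℂ) + 1) * ((2 * n).factorial : ℂ)) := by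
      rw [show 2 * n + 2 = (2 * n + 1) + 1 by ring, Nat.factorial_succ, Nat.factorial_succ]
      push_cast
      ring
    have hg : (((n + 1).factorial : ℕ) : ℂ) = ((n : ℂ) + 1) * (n.factorial : ℂ) := by
      rw [Nat.factorial_succ]
      push_cast
      ring
    rw [hf, hg]
    have hn1 : ((n : ℂ) + 1) ≠ 0 := by exact_mod_cast Nat.succ_ne_zero n
    have hnf : (n.factorial : ℂ) ≠ 0 := by exact_mod_cast n.factorial_ne_zero
    have h4 : ((4 : ℂ) ^ n) ≠ 0 := pow_ne_zero _ (by norm_num)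
    push_cast
    rw [pow_succ, pow_succ]
    field_simp
    ring

/-- complex Gaussian moments, odd ones. -/
theorem gauss_odd (lam : ℂ) (hlam : 0 < lam.re) (n : ℕ) :
    ∫ t : ℝ, (t : ℂ) ^ (2 * n + 1) * cexp (-lam * (t : ℂ) ^ 2) = 0 := by
  have h := integral_neg_eq_self (fun t : ℝ => (t : ℂ) ^ (2 * n + 1) * cexp (-lam * (t : ℂ) ^ 2))
    volume
  have h2 : (fun t : ℝ => (((-t : ℝ)) : ℂ) ^ (2 * n + 1) * cexp (-lam * (((-t : ℝ)) : ℂ) ^ 2)) =
      fun t : ℝ => -((t : ℂ) ^ (2 * n + 1) * cexp (-lam * (t : ℂ) ^ 2)) := by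
    ext t
    push_cast
    rw [neg_sq, Odd.neg_pow ⟨n, rfl⟩]
    ring
  rw [h2, integral_neg] at h
  have h3 := self_eq_neg.mp h.symm
  exact h3

namespace T02

/-- Taylor remainder of `e^{iu}`, crude constant. -/
lemma exp_taylor (u : ℝ) (M : ℕ) :
    ‖cexp (I * (u : ℂ)) - ∑ m ∈ Finset.range M, (I * (u : ℂ)) ^ m / (m.factorial : ℂ)‖ ≤
      ((M : ℝ) + 3) * |u| ^ M := by
  have hn : ‖I * (u : ℂ)‖ = |u| := by
    rw [norm_mul, Complex.norm_I, one_mul, Complex.norm_real, Real.norm_eq_abs]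
  rcases le_total |u| 1 with hu | hu
  · have h := Complex.norm_exp_sub_sum_le_norm_mul_exp (I * (u : ℂ)) M
    rw [hn] at h
    refine h.trans ?_
    have h3 : Real.exp |u| ≤ 3 := by
      have := Real.exp_one_lt_d9
      have h4 : Real.exp |u| ≤ Real.exp 1 := Real.exp_le_exp.mpr hu
      linarith
    have h5 : 0 ≤ |u| ^ M := by positivity
    have h6 : (0 : ℝ) ≤ M := Nat.cast_nonneg M
    nlinarith
  · have h1 : ‖cexp (I * (u : ℂ))‖ = 1 := by
      rw [mul_comm]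
      exact Complex.norm_exp_ofReal_mul_I u
    have h2 : ‖∑ m ∈ Finset.range M, (I * (u : ℂ)) ^ m / (m.factorial : ℂ)‖ ≤ (M : ℝ) * |u| ^ M := by
      calc ‖∑ m ∈ Finset.range M, (I * (u : ℂ)) ^ m / (m.factorial : ℂ)‖
          ≤ ∑ m ∈ Finset.range M, ‖(I * (u : ℂ)) ^ m / (m.factorial : ℂ)‖ := norm_sum_le _ _
        _ ≤ ∑ _m ∈ Finset.range M, |u| ^ M := by
            refine Finset.sum_le_sum fun m hm => ?_
            rw [norm_div, norm_pow, hn, Complex.norm_natCast]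
            have hm' : m ≤ M := (Finset.mem_range.mp hm).le
            have h3 : |u| ^ m ≤ |u| ^ M := pow_le_pow_right₀ hu hm'
            have h4 : (1 : ℝ) ≤ (m.factorial : ℝ) := by exact_mod_cast Nat.factorial_pos m
            calc |u| ^ m / (m.factorial : ℝ) ≤ |u| ^ m / 1 := by
                  exact div_le_div_of_nonneg_left (by positivity) one_pos h4
              _ = |u| ^ m := div_one _
              _ ≤ |u| ^ M := h3
        _ = (M : ℝ) * |u| ^ M := by simp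
    have h3 : (1 : ℝ) ≤ |u| ^ M := one_le_pow₀ hu
    calc ‖cexp (I * (u : ℂ)) - ∑ m ∈ Finset.range M, (I * (u : ℂ)) ^ m / (m.factorial : ℂ)‖
        ≤ ‖cexp (I * (u : ℂ))‖ + ‖∑ m ∈ Finset.range M, (I * (u : ℂ)) ^ m / (m.factorial : ℂ)‖ :=
          norm_sub_le _ _
      _ ≤ 1 + (M : ℝ) * |u| ^ M := by rw [h1]; linarith
      _ ≤ ((M : ℝ) + 3) * |u| ^ M := by linarith

/-- real absolute moment of even order. -/
lemma real_moment (a : ℝ) (ha : 0 < a) (n : ℕ) :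
    ∫ t : ℝ, |t| ^ (2 * n) * Real.exp (-a * t ^ 2) =
      Real.sqrt (Real.pi / a) *
        (((2 * n).factorial : ℝ) / ((4 : ℝ) ^ n * (n.factorial : ℝ)) * (a ^ n)⁻¹) := by
  have h := gauss_even (a : ℂ) (by simpa using ha) n
  have h1 : (fun t : ℝ => (t : ℂ) ^ (2 * n) * cexp (-(a : ℂ) * (t : ℂ) ^ 2)) =
      fun t : ℝ => ((|t| ^ (2 * n) * Real.exp (-a * t ^ 2) : ℝ) : ℂ) := by
    ext t
    rw [pow_mul |t|, sq_abs, ← pow_mul]
    push_cast
    rfl
  rw [h1, integral_complex_ofReal] at h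
  have h2 : ((Real.pi : ℂ) / (a : ℂ)) ^ ((1 : ℂ) / 2) = ((Real.sqrt (Real.pi / a) : ℝ) : ℂ) := by
    rw [Real.sqrt_eq_rpow, Complex.ofReal_cpow (by positivity)]
    push_cast
    rfl
  rw [h2] at h
  apply Complex.ofReal_injective
  rw [h]
  push_cast
  ring

/-- the terms of the expansion. -/
lemma term_integral (p : ℂ) (m : ℕ) :
    ∫ y : ℝ, cexp (-p * (y : ℂ) ^ 2) * ((I * ((y ^ 3 / 3 : ℝ) : ℂ)) ^ m / (m.factorial : ℂ)) =
      (I / 3) ^ m / (m.factorial : ℂ) * ∫ y : ℝ, (y : ℂ) ^ (3 * m) * cexp (-p * (y : ℂ) ^ 2) := by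
  rw [← integral_const_mul]
  congr 1
  ext y
  push_cast
  rw [pow_mul (y : ℂ) 3 m]
  have : (I * ((y : ℂ) ^ 3 / 3)) ^ m = (I / 3) ^ m * ((y : ℂ) ^ 3) ^ m := by
    rw [← mul_pow]
    congr 1
    ring
  rw [this]
  ring

lemma term_integrable (p : ℂ) (hp : 0 < p.re) (m : ℕ) :
    Integrable (fun y : ℝ =>
      cexp (-p * (y : ℂ) ^ 2) * ((I * ((y ^ 3 / 3 : ℝ) : ℂ)) ^ m / (m.factorial : ℂ))) := by
  have h := (integrable_cpow_gauss p hp (3 * m)).const_mul ((I / 3) ^ m / (m.factorial : ℂ))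
  refine h.congr (Filter.Eventually.of_forall fun y => ?_)
  push_cast
  have : (I * ((y : ℂ) ^ 3 / 3)) ^ m = (I / 3) ^ m * ((y : ℂ) ^ 3) ^ m := by
    rw [← mul_pow]
    congr 1
    ring
  rw [this, pow_mul (y : ℂ) 3 m]
  ring

end T02

namespace T02

lemma sum_range_two_mul {M : Type*} [AddCommMonoid M] (f : ℕ → M) (N : ℕ) :
    ∑ m ∈ Finset.range (2 * N), f m = ∑ j ∈ Finset.range N, (f (2 * j) + f (2 * j + 1)) := by
  induction N with
  | zero => simp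
  | succ N ih =>
    rw [show 2 * (N + 1) = 2 * N + 1 + 1 by ring, Finset.sum_range_succ, Finset.sum_range_succ, ih,
      Finset.sum_range_succ, add_assoc]

lemma sqrt_mul_sqrt (p : ℂ) (hp : 0 < p.re) :
    (p / (Real.pi : ℂ)) ^ ((1 : ℂ) / 2) * ((Real.pi : ℂ) / p) ^ ((1 : ℂ) / 2) = 1 := by
  have hp0 : p ≠ 0 := by
    rintro rfl
    simp at hp
  have hpi : (Real.pi : ℂ) ≠ 0 := by exact_mod_cast Real.pi_pos.ne'
  have h1 : (Real.pi : ℂ) / p = (p / (Real.pi : ℂ))⁻¹ := by rw [inv_div]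
  rw [h1, Complex.inv_cpow _ _ (arg_ne_pi _ (re_div_pi p hp))]
  apply mul_inv_cancel₀
  rw [Complex.cpow_ne_zero_iff]
  left
  exact div_ne_zero hp0 hpi

/-- the coefficient identity. -/
lemma coef_identity (j : ℕ) :
    (I / 3) ^ (2 * j) / ((2 * j).factorial : ℂ) *
      (((2 * (3 * j)).factorial : ℂ) / ((4 : ℂ) ^ (3 * j) * ((3 * j).factorial : ℂ))) =
      (((-1) ^ j * bR j / 576 ^ j : ℝ) : ℂ) := by
  unfold bR
  have h1 : (I / 3) ^ (2 * j) = (-1) ^ j / 9 ^ j := by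
    rw [pow_mul, div_pow, Complex.I_sq, ← div_pow]
    norm_num
  have h2 : (4 : ℂ) ^ (3 * j) = 64 ^ j := by
    rw [pow_mul]
    norm_num
  have h3 : (576 : ℂ) ^ j = 9 ^ j * 64 ^ j := by
    rw [← mul_pow]
    norm_num
  rw [h1, h2, show 2 * (3 * j) = 6 * j by ring]
  push_cast
  rw [h3]
  have ha : ((2 * j).factorial : ℂ) ≠ 0 := by exact_mod_cast (2 * j).factorial_ne_zero
  have hb : ((3 * j).factorial : ℂ) ≠ 0 := by exact_mod_cast (3 * j).factorial_ne_zero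
  have hc : (9 : ℂ) ^ j ≠ 0 := pow_ne_zero _ (by norm_num)
  have hd : (64 : ℂ) ^ j ≠ 0 := pow_ne_zero _ (by norm_num)
  field_simp

/-- main part of the expansion. -/
lemma main_part (p : ℂ) (hp : 0 < p.re) (N : ℕ) :
    (p / (Real.pi : ℂ)) ^ ((1 : ℂ) / 2) *
      ∫ y : ℝ, ∑ m ∈ Finset.range (2 * N),
        cexp (-p * (y : ℂ) ^ 2) * ((I * ((y ^ 3 / 3 : ℝ) : ℂ)) ^ m / (m.factorial : ℂ)) =
      ∑ j ∈ Finset.range N, (((-1) ^ j * bR j / 576 ^ j : ℝ) : ℂ) * (p ^ (3 * j))⁻¹ := by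
  rw [integral_finsetSum _ (fun m _ => term_integrable p hp m), sum_range_two_mul, Finset.mul_sum]
  refine Finset.sum_congr rfl fun j _ => ?_
  rw [term_integral, term_integral, show 3 * (2 * j) = 2 * (3 * j) by ring,
    show 3 * (2 * j + 1) = 2 * (3 * j + 1) + 1 by ring, gauss_even p hp, gauss_odd p hp, mul_zero,
    add_zero, ← coef_identity]
  have h := sqrt_mul_sqrt p hp
  linear_combination ((I / 3) ^ (2 * j) / ((2 * j).factorial : ℂ) *
      (((2 * (3 * j)).factorial : ℂ) / ((4 : ℂ) ^ (3 * j) * ((3 * j).factorial : ℂ))) *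
        (p ^ (3 * j))⁻¹) * h

end T02

theorem BB_expansion (N : ℕ) (c : ℝ) (hc : 0 < c) :
    ∃ C : ℝ, ∀ p : ℂ, p ≠ 0 → c * ‖p‖ ≤ p.re →
      ‖BB p - ∑ j ∈ Finset.range N, (((-1) ^ j * bR j / 576 ^ j : ℝ) : ℂ) * (p ^ (3 * j))⁻¹‖
        ≤ C / ‖p‖ ^ (3 * N) := by
  set K : ℝ := (((2 * N : ℕ) : ℝ) + 3) * (1 / 3) ^ (2 * N) with hK
  have hK0 : 0 ≤ K := by positivity
  set G : ℝ := ((2 * (3 * N)).factorial : ℝ) / ((4 : ℝ) ^ (3 * N) * ((3 * N).factorial : ℝ)) with hG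
  have hG0 : 0 ≤ G := by positivity
  refine ⟨Real.sqrt (1 / c) * (K * (G * (c ^ (3 * N))⁻¹)), fun p hp0 hcp => ?_⟩
  have hpn : 0 < ‖p‖ := norm_pos_iff.mpr hp0
  have hre : 0 < p.re := lt_of_lt_of_le (mul_pos hc hpn) hcp
  -- the remainder
  set R : ℝ → ℂ := fun y => cexp (-p * (y : ℂ) ^ 2 + I * (y : ℂ) ^ 3 / 3) -
    ∑ m ∈ Finset.range (2 * N),
        cexp (-p * (y : ℂ) ^ 2) * ((I * ((y ^ 3 / 3 : ℝ) : ℂ)) ^ m / (m.factorial : ℂ)) with hR
  have hRn : ∀ y : ℝ, ‖R y‖ ≤ K * (|y| ^ (2 * (3 * N)) * Real.exp (-p.re * y ^ 2)) := by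
    intro y
    have e1 : R y = cexp (-p * (y : ℂ) ^ 2) * (cexp (I * ((y ^ 3 / 3 : ℝ) : ℂ)) -
        ∑ m ∈ Finset.range (2 * N), (I * ((y ^ 3 / 3 : ℝ) : ℂ)) ^ m / (m.factorial : ℂ)) := by
      have e0 : I * ((y ^ 3 / 3 : ℝ) : ℂ) = I * (y : ℂ) ^ 3 / 3 := by
        push_cast
        ring
      rw [mul_sub, ← Complex.exp_add, Finset.mul_sum, e0]
      simp only [hR, e0]
    rw [e1, norm_mul, norm_gauss]
    have h2 := exp_taylor (y ^ 3 / 3) (2 * N)
    have h3 : |y ^ 3 / 3| ^ (2 * N) = (1 / 3) ^ (2 * N) * |y| ^ (2 * (3 * N)) := by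
      rw [abs_div, abs_pow, div_pow, ← pow_mul, abs_of_pos (by norm_num : (0 : ℝ) < 3)]
      rw [show 3 * (2 * N) = 2 * (3 * N) by ring, one_div_pow]
      ring
    rw [h3] at h2
    calc Real.exp (-p.re * y ^ 2) * ‖cexp (I * ((y ^ 3 / 3 : ℝ) : ℂ)) -
          ∑ m ∈ Finset.range (2 * N), (I * ((y ^ 3 / 3 : ℝ) : ℂ)) ^ m / (m.factorial : ℂ)‖
        ≤ Real.exp (-p.re * y ^ 2) *
          ((((2 * N : ℕ) : ℝ) + 3) * ((1 / 3) ^ (2 * N) * |y| ^ (2 * (3 * N)))) :=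
          mul_le_mul_of_nonneg_left h2 (Real.exp_pos _).le
      _ = K * (|y| ^ (2 * (3 * N)) * Real.exp (-p.re * y ^ 2)) := by rw [hK]; ring
  have hint : Integrable (fun y : ℝ => ∑ m ∈ Finset.range (2 * N),
        cexp (-p * (y : ℂ) ^ 2) * ((I * ((y ^ 3 / 3 : ℝ) : ℂ)) ^ m / (m.factorial : ℂ))) :=
    integrable_finsetSum _ (fun m _ => term_integrable p hre m)
  have e2 : BB p - ∑ j ∈ Finset.range N, (((-1) ^ j * bR j / 576 ^ j : ℝ) : ℂ) * (p ^ (3 * j))⁻¹ =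
      (p / (Real.pi : ℂ)) ^ ((1 : ℂ) / 2) * ∫ y : ℝ, R y := by
    rw [← main_part p hre N, hR, integral_sub (cA_integrable p hre) hint, mul_sub]
    rfl
  rw [e2, norm_mul, norm_sqrt_pi]
  have h4 : ‖∫ y : ℝ, R y‖ ≤ K * (Real.sqrt (Real.pi / p.re) * (G * (p.re ^ (3 * N))⁻¹)) := by
    rw [← real_moment p.re hre (3 * N), ← integral_const_mul]
    exact norm_integral_le_of_norm_le ((integrable_pow_gauss p.re hre _).const_mul K)
      (Filter.Eventually.of_forall hRn)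
  have h5 : Real.sqrt ‖p / (Real.pi : ℂ)‖ * Real.sqrt (Real.pi / p.re) ≤ Real.sqrt (1 / c) := by
    rw [← Real.sqrt_mul (norm_nonneg _), norm_div, Complex.norm_real, Real.norm_eq_abs,
      abs_of_pos Real.pi_pos]
    apply Real.sqrt_le_sqrt
    have hpi := Real.pi_pos.ne'
    have e3 : ‖p‖ / Real.pi * (Real.pi / p.re) = ‖p‖ / p.re := by field_simp
    rw [e3, div_le_div_iff₀ hre hc]
    linarith
  have h6 : (p.re ^ (3 * N))⁻¹ ≤ (c ^ (3 * N))⁻¹ * (‖p‖ ^ (3 * N))⁻¹ := by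
    rw [← mul_inv, ← mul_pow]
    apply inv_anti₀ (by positivity)
    exact pow_le_pow_left₀ (by positivity) hcp _
  calc Real.sqrt ‖p / (Real.pi : ℂ)‖ * ‖∫ y : ℝ, R y‖
      ≤ Real.sqrt ‖p / (Real.pi : ℂ)‖ *
        (K * (Real.sqrt (Real.pi / p.re) * (G * (p.re ^ (3 * N))⁻¹))) :=
        mul_le_mul_of_nonneg_left h4 (Real.sqrt_nonneg _)
    _ = (Real.sqrt ‖p / (Real.pi : ℂ)‖ * Real.sqrt (Real.pi / p.re)) *
        (K * (G * (p.re ^ (3 * N))⁻¹)) := by ring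
    _ ≤ Real.sqrt (1 / c) * (K * (G * ((c ^ (3 * N))⁻¹ * (‖p‖ ^ (3 * N))⁻¹))) := by
        apply mul_le_mul h5 _ (by positivity) (Real.sqrt_nonneg _)
        exact mul_le_mul_of_nonneg_left (mul_le_mul_of_nonneg_left h6 hG0) hK0
    _ = Real.sqrt (1 / c) * (K * (G * (c ^ (3 * N))⁻¹)) / ‖p‖ ^ (3 * N) := by
        rw [div_eq_mul_inv]
        ring

end Pool.Agent.H140R2.FR
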