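import Pool.Agent.H140R2.FR.T01Airy
import Pool.Agent.H140R2.FR.T02Bbasic

/-!
T04.  Connection formula.

Sketch.  `W z = Ai z + ω Ai(ω z) + ω² Ai(ω² z)`, `ω = e^{2πi/3}`, satisfies `W'' = z W`, `W 0 = 0`,
`W' 0 = (1 + ω² + ω⁴) Ai' 0 = 0`; all derivatives at `0` vanish, so `W = 0` (`W` is entire).
Put `z = r²`, `ω r² = (ze r)²`, `ω² r² = (conj ze * r)²`, use `Ai_sq` for the three points (`Re r > 0`
because `Re (ze r) + Re (conj ze * r) = Re r`), and `(ze r/π)^(1/2) = e^{iπ/6} (r/π)^(1/2)`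
(`|arg r| < π/6`): `e^{-2r³/3} B(r) + i e^{2r³/3} B(ze r) - i e^{2r³/3} B(conj ze r) = 0`.
-/

set_option autoImplicit false

open Complex MeasureTheory Set Filter Topology

namespace Pool.Agent.H140R2.FR

namespace T04

/-- a solution of `W'' = z W` with zero initial values vanishes -/
theorem zero_of_ode (W : ℂ → ℂ) (hW : Differentiable ℂ W)
    (hode : ∀ z, deriv (deriv W) z = z * W z) (h0 : W 0 = 0) (h1 : deriv W 0 = 0) :
    ∀ z, W z = 0 := by
  have hd : ∀ n, Differentiable ℂ (iteratedDeriv n W) := by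
    intro n
    have h := hW.contDiff (n := ((n + 1 : ℕ) : WithTop ℕ∞))
    exact h.differentiable_iteratedDeriv n (by exact_mod_cast Nat.lt_succ_self n)
  have hrec2 : ∀ z, iteratedDeriv 2 W z = z * iteratedDeriv 0 W z := by
    intro z
    rw [iteratedDeriv_succ, iteratedDeriv_one, iteratedDeriv_zero]
    exact hode z
  have hrec : ∀ n z, iteratedDeriv (n + 3) W z =
      z * iteratedDeriv (n + 1) W z + (n + 1) * iteratedDeriv n W z := by
    intro n
    induction n with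
    | zero =>
      intro z
      have e : iteratedDeriv 2 W = fun z => z * iteratedDeriv 0 W z := funext hrec2
      have h2 : iteratedDeriv (0 + 3) W z = deriv (iteratedDeriv 2 W) z := by
        rw [← iteratedDeriv_succ]
      rw [h2, e]
      have h3 : HasDerivAt (fun z : ℂ => z * iteratedDeriv 0 W z)
          (1 * iteratedDeriv 0 W z + z * deriv (iteratedDeriv 0 W) z) z :=
        (hasDerivAt_id z).mul (hd 0 z).hasDerivAt
      rw [h3.deriv, ← iteratedDeriv_succ]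
      push_cast
      ring
    | succ n ih =>
      intro z
      have e : iteratedDeriv (n + 3) W = fun z => z * iteratedDeriv (n + 1) W z +
        ((n : ℂ) + 1) * iteratedDeriv n W z := funext ih
      have h2 : iteratedDeriv (n + 1 + 3) W z = deriv (iteratedDeriv (n + 3) W) z := by
        rw [← iteratedDeriv_succ]
      rw [h2, e]
      have h3 : HasDerivAt (fun z : ℂ => z * iteratedDeriv (n + 1) W z +
          ((n : ℂ) + 1) * iteratedDeriv n W z)
          ((1 * iteratedDeriv (n + 1) W z + z * deriv (iteratedDeriv (n + 1) W) z) +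
            ((n : ℂ) + 1) * deriv (iteratedDeriv n W) z) z :=
        ((hasDerivAt_id z).mul (hd (n + 1) z).hasDerivAt).add
          ((hd n z).hasDerivAt.const_mul _)
      rw [h3.deriv, ← iteratedDeriv_succ, ← iteratedDeriv_succ]
      push_cast
      ring
  have hz : ∀ n, iteratedDeriv n W 0 = 0 ∧ iteratedDeriv (n + 1) W 0 = 0 ∧
      iteratedDeriv (n + 2) W 0 = 0 := by
    intro n
    induction n with
    | zero =>
      refine ⟨by rw [iteratedDeriv_zero]; exact h0, by rw [zero_add, iteratedDeriv_one]; exact h1, ?_⟩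
      rw [zero_add, hrec2, zero_mul]
    | succ n ih =>
      refine ⟨ih.2.1, ih.2.2, ?_⟩
      have h2 := hrec n 0
      rw [ih.1] at h2
      have e : n + 1 + 2 = n + 3 := by omega
      rw [e, h2]
      ring
  intro z
  have ht := Complex.taylorSeries_eq_of_entire' 0 z hW
  rw [← ht]
  have : ∀ n : ℕ, (n.factorial : ℂ)⁻¹ * iteratedDeriv n W 0 * (z - 0) ^ n = 0 := by
    intro n
    rw [(hz n).1]
    ring
  simp only [this, tsum_zero]

/-- `e^{iπ/6}` -/
noncomputable def ka : ℂ := cexp (((Real.pi / 6 : ℝ) : ℂ) * I)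

theorem ka_pow_three : ka ^ 3 = I := by
  unfold ka
  rw [← Complex.exp_nat_mul]
  have : ((3 : ℕ) : ℂ) * (((Real.pi / 6 : ℝ) : ℂ) * I) = (Real.pi : ℂ) / 2 * I := by
    push_cast
    ring
  rw [this]
  exact Complex.exp_pi_div_two_mul_I

theorem ka_six : ka ^ 6 = -1 := by
  have : ka ^ 6 = (ka ^ 3) ^ 2 := by ring
  rw [this, ka_pow_three, Complex.I_sq]

theorem ka_ne : ka ≠ 0 := Complex.exp_ne_zero _

theorem ze_eq : ze = ka ^ 2 := by
  unfold ze ka
  rw [← Complex.exp_nat_mul]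
  congr 1
  push_cast
  ring

theorem conj_ka : (starRingEnd ℂ) ka = ka⁻¹ := by
  unfold ka
  rw [← Complex.exp_conj, ← Complex.exp_neg]
  congr 1
  rw [map_mul, Complex.conj_ofReal, Complex.conj_I]
  ring

theorem conj_ze_eq : (starRingEnd ℂ) ze = ka⁻¹ ^ 2 := by
  rw [ze_eq, map_pow, conj_ka]

theorem arg_ze : ze.arg = Real.pi / 3 := by
  unfold ze
  have : I * (Real.pi : ℂ) / 3 = ((Real.pi / 3 : ℝ) : ℂ) * I := by
    push_cast
    ring
  rw [this, Complex.arg_exp_mul_I, toIocMod_eq_self]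
  have := Real.pi_pos
  constructor <;> linarith

theorem ze_ne : ze ≠ 0 := Complex.exp_ne_zero _

/-- the square root of a product -/
theorem sqrt_mul {x y : ℂ} (hx : x ≠ 0) (hy : y ≠ 0) (h : x.arg + y.arg ∈ Ioc (-Real.pi) Real.pi) :
    (x * y) ^ ((1 : ℂ) / 2) = x ^ ((1 : ℂ) / 2) * y ^ ((1 : ℂ) / 2) := by
  rw [Complex.cpow_def_of_ne_zero (mul_ne_zero hx hy), Complex.cpow_def_of_ne_zero hx,
    Complex.cpow_def_of_ne_zero hy, (Complex.log_mul_eq_add_log_iff hx hy).2 h, ← Complex.exp_add]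
  congr 1
  ring

theorem sqrt_ze : ze ^ ((1 : ℂ) / 2) = ka := by
  have hlog : Complex.log ze = ((Real.pi / 3 : ℝ) : ℂ) * I := by
    unfold ze
    have : I * (Real.pi : ℂ) / 3 = ((Real.pi / 3 : ℝ) : ℂ) * I := by
      push_cast
      ring
    rw [this, Complex.log_exp]
    · simp
      have := Real.pi_pos
      linarith
    · simp
      have := Real.pi_pos
      linarith
  rw [Complex.cpow_def_of_ne_zero ze_ne, hlog]
  unfold ka
  congr 1
  push_cast
  ring

theorem norm_ze_mul (r : ℂ) : ‖ze * r‖ = ‖r‖ := by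
  have : ‖ze‖ = 1 := by
    rw [ze_eq, norm_pow]
    unfold ka
    rw [Complex.norm_exp_ofReal_mul_I, one_pow]
  rw [norm_mul, this, one_mul]

theorem sqrt_conj_ze : ((starRingEnd ℂ) ze) ^ ((1 : ℂ) / 2) = ka⁻¹ := by
  have h1 : ze.arg ≠ Real.pi := by
    rw [arg_ze]
    have := Real.pi_pos
    intro h
    linarith
  have h2 := Complex.conj_cpow_eq_ite ze ((1 : ℂ) / 2)
  have h3 : (starRingEnd ℂ) ((1 : ℂ) / 2) = 1 / 2 := by
    rw [map_div₀, map_one]
    congr 1
    have := Complex.conj_ofReal 2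
    simpa using this
  rw [Complex.conj_cpow _ _ h1, h3, sqrt_ze, conj_ka]

end T04

open T04

theorem BB_connection (r : ℂ) (h1 : 0 < (ze * r).re) (h2 : 0 < ((starRingEnd ℂ) ze * r).re) :
    BB (ze * r) - BB ((starRingEnd ℂ) ze * r) = I * cexp (-(4 / 3) * r ^ 3) * BB r := by
  have hpi := Real.pi_pos
  have hka := ka_ne
  have hk3 := ka_pow_three
  have hk6 := ka_six
  -- `Re r > 0`
  have hsum : ze + (starRingEnd ℂ) ze = 1 := by
    rw [Complex.add_conj]
    unfold ze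
    have e : I * (Real.pi : ℂ) / 3 = ((Real.pi / 3 : ℝ) : ℂ) * I := by
      push_cast
      ring
    rw [e, Complex.exp_ofReal_mul_I_re, Real.cos_pi_div_three]
    push_cast
    ring
  have hr : 0 < r.re := by
    have h3 : ze * r + (starRingEnd ℂ) ze * r = r := by
      rw [← add_mul, hsum, one_mul]
    have h4 : (ze * r).re + ((starRingEnd ℂ) ze * r).re = r.re := by
      rw [← Complex.add_re, h3]
    linarith
  have hrne : r ≠ 0 := by
    rintro rfl
    simp at hr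
  -- the function `W`
  set ω : ℂ := ka ^ 4 with hω
  have hω3 : ω ^ 3 = 1 := by
    have : ω ^ 3 = (ka ^ 6) ^ 2 := by rw [hω]; ring
    rw [this, hk6]
    ring
  have hω2 : ω ^ 2 = ka⁻¹ ^ 4 := by
    rw [inv_pow, hω]
    apply eq_inv_of_mul_eq_one_left
    have : (ka ^ 4) ^ 2 * ka ^ 4 = (ka ^ 6) ^ 2 := by ring
    rw [this, hk6]
    ring
  have hω1 : 1 + ω + ω ^ 2 = 0 := by
    have h3 : ka ^ 2 + ka⁻¹ ^ 2 = 1 := by
      rw [← ze_eq, ← conj_ze_eq]
      exact hsum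
    have h4 : ω + ω ^ 2 = (ka ^ 2 + ka⁻¹ ^ 2) ^ 2 - 2 := by
      rw [hω2, hω]
      field_simp
      ring
    rw [add_assoc, h4, h3]
    ring
  set W : ℂ → ℂ := fun z => Ai z + ω * Ai (ω * z) + ω ^ 2 * Ai (ω ^ 2 * z) with hWdef
  have hAd : Differentiable ℂ (deriv Ai) := by
    have h := Ai_differentiable.contDiff (n := 2)
    exact ((contDiff_succ_iff_deriv (n := 1)).1 h).2.2.differentiable (by norm_num)
  have hscale : ∀ (a z : ℂ) (f : ℂ → ℂ), Differentiable ℂ f →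
      HasDerivAt (fun z => f (a * z)) (a * deriv f (a * z)) z := by
    intro a z f hf
    have h3 : HasDerivAt (fun z : ℂ => a * z) a z := by
      have := (hasDerivAt_id z).const_mul a
      rwa [mul_one] at this
    have h4 := (hf (a * z)).hasDerivAt.comp z h3
    rw [mul_comm] at h4
    exact h4
  have hWd1 : ∀ z, HasDerivAt W
      (deriv Ai z + ω * (ω * deriv Ai (ω * z)) + ω ^ 2 * (ω ^ 2 * deriv Ai (ω ^ 2 * z))) z := by
    intro z
    exact (((Ai_differentiable z).hasDerivAt).add ((hscale ω z Ai Ai_differentiable).const_mul ω)).add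
      ((hscale (ω ^ 2) z Ai Ai_differentiable).const_mul (ω ^ 2))
  have hWd : deriv W = fun z =>
      deriv Ai z + ω * (ω * deriv Ai (ω * z)) + ω ^ 2 * (ω ^ 2 * deriv Ai (ω ^ 2 * z)) :=
    funext fun z => (hWd1 z).deriv
  have hWd2 : ∀ z, deriv (deriv W) z = z * W z := by
    intro z
    rw [hWd]
    have h3 := ((((hAd z).hasDerivAt).add
      (((hscale ω z (deriv Ai) hAd).const_mul ω).const_mul ω)).add
      (((hscale (ω ^ 2) z (deriv Ai) hAd).const_mul (ω ^ 2)).const_mul (ω ^ 2)))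
    have h4 := h3.deriv
    have h5 : deriv (fun z =>
      deriv Ai z + ω * (ω * deriv Ai (ω * z)) + ω ^ 2 * (ω ^ 2 * deriv Ai (ω ^ 2 * z))) z =
      deriv (deriv Ai) z + ω * (ω * (ω * deriv (deriv Ai) (ω * z))) +
        ω ^ 2 * (ω ^ 2 * (ω ^ 2 * deriv (deriv Ai) (ω ^ 2 * z))) := h4
    rw [h5, Ai_ode, Ai_ode, Ai_ode]
    simp only [hWdef]
    have h6 : ω * (ω * (ω * (ω * z * Ai (ω * z)))) = ω ^ 3 * (z * (ω * Ai (ω * z))) := by ring
    have h7 : ω ^ 2 * (ω ^ 2 * (ω ^ 2 * (ω ^ 2 * z * Ai (ω ^ 2 * z)))) =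
        (ω ^ 3) ^ 2 * (z * (ω ^ 2 * Ai (ω ^ 2 * z))) := by ring
    rw [h6, h7, hω3]
    ring
  have hW0 : W 0 = 0 := by
    simp only [hWdef, mul_zero]
    have : Ai 0 + ω * Ai 0 + ω ^ 2 * Ai 0 = (1 + ω + ω ^ 2) * Ai 0 := by ring
    rw [this, hω1, zero_mul]
  have hW1 : deriv W 0 = 0 := by
    rw [hWd]
    simp only [mul_zero]
    have : deriv Ai 0 + ω * (ω * deriv Ai 0) + ω ^ 2 * (ω ^ 2 * deriv Ai 0) =
        (1 + ω ^ 3 * ω + ω ^ 2) * deriv Ai 0 := by ring
    rw [this, hω3, one_mul, hω1, zero_mul]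
  have hWz := zero_of_ode W (fun z => (hWd1 z).differentiableAt) hWd2 hW0 hW1 (r ^ 2)
  -- the three points
  have hzs : ω * r ^ 2 = (ze * r) ^ 2 := by
    rw [hω, ze_eq]
    ring
  have hzs' : ω ^ 2 * r ^ 2 = ((starRingEnd ℂ) ze * r) ^ 2 := by
    rw [hω2, conj_ze_eq]
    ring
  have hc1 : (ze * r) ^ 3 = - r ^ 3 := by
    rw [ze_eq]
    have : (ka ^ 2 * r) ^ 3 = ka ^ 6 * r ^ 3 := by ring
    rw [this, hk6]
    ring
  have hc2 : ((starRingEnd ℂ) ze * r) ^ 3 = - r ^ 3 := by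
    rw [conj_ze_eq]
    have : (ka⁻¹ ^ 2 * r) ^ 3 = (ka ^ 6)⁻¹ * r ^ 3 := by
      rw [← inv_pow]
      ring
    rw [this, hk6]
    norm_num
  simp only [hWdef] at hWz
  rw [hzs, hzs', Ai_sq r hr, Ai_sq _ h1, Ai_sq _ h2, hc1, hc2] at hWz
  have hpic : ((1 / (2 * Real.pi) : ℝ) : ℂ) ≠ 0 := by
    have : (1 / (2 * Real.pi) : ℝ) ≠ 0 := by positivity
    exact_mod_cast this
  have hrel : cexp (-(2 / 3) * r ^ 3) * cA r + ω * (cexp (2 / 3 * r ^ 3) * cA (ze * r)) +
      ω ^ 2 * (cexp (2 / 3 * r ^ 3) * cA ((starRingEnd ℂ) ze * r)) = 0 := by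
    have e : -(2 / 3) * -r ^ 3 = 2 / 3 * r ^ 3 := by ring
    rw [e] at hWz
    apply mul_left_cancel₀ hpic
    linear_combination hWz
  -- square roots
  have hrpi : r / (Real.pi : ℂ) ≠ 0 := div_ne_zero hrne (by exact_mod_cast hpi.ne')
  have harg : |(r / (Real.pi : ℂ)).arg| < Real.pi / 2 := by
    rw [Complex.abs_arg_lt_pi_div_two_iff]
    left
    have : r / (Real.pi : ℂ) = r / ((Real.pi : ℝ) : ℂ) := rfl
    rw [this, Complex.div_ofReal_re]
    positivity
  have harg' := abs_lt.1 harg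
  have hs1 : (ze * r / (Real.pi : ℂ)) ^ ((1 : ℂ) / 2) = ka * (r / (Real.pi : ℂ)) ^ ((1 : ℂ) / 2) := by
    rw [mul_div_assoc, sqrt_mul ze_ne hrpi, sqrt_ze]
    rw [arg_ze]
    constructor <;> linarith [harg'.1, harg'.2]
  have hs2 : ((starRingEnd ℂ) ze * r / (Real.pi : ℂ)) ^ ((1 : ℂ) / 2) =
      ka⁻¹ * (r / (Real.pi : ℂ)) ^ ((1 : ℂ) / 2) := by
    rw [mul_div_assoc, sqrt_mul _ hrpi, sqrt_conj_ze]
    · rw [Complex.arg_conj, arg_ze, if_neg (by intro h; linarith)]
      constructor <;> linarith [harg'.1, harg'.2]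
    · exact (map_ne_zero _).2 ze_ne
  unfold BB
  rw [hs1, hs2]
  set S := (r / (Real.pi : ℂ)) ^ ((1 : ℂ) / 2) with hS
  have hE : cexp (2 / 3 * r ^ 3) * cexp (-(4 / 3) * r ^ 3) = cexp (-(2 / 3) * r ^ 3) := by
    rw [← Complex.exp_add]
    congr 1
    ring
  have hEne : cexp (2 / 3 * r ^ 3) ≠ 0 := Complex.exp_ne_zero _
  have hIka : ω * ka⁻¹ = I := by
    rw [hω, ← hk3]
    field_simp
  have hIka' : ω ^ 2 * ka = -I := by
    rw [hω]
    have : (ka ^ 4) ^ 2 * ka = ka ^ 6 * ka ^ 3 := by ring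
    rw [this, hk6, hk3]
    ring
  -- multiply the relation by the square root
  apply mul_left_cancel₀ (mul_ne_zero Complex.I_ne_zero hEne)
  have hI2 : I * I = -1 := Complex.I_mul_I
  have hkk : ka * ka⁻¹ = 1 := mul_inv_cancel₀ hka
  rw [← hE] at hrel
  have goal1 : I * cexp (2 / 3 * r ^ 3) * (ka * S * cA (ze * r) -
      ka⁻¹ * S * cA ((starRingEnd ℂ) ze * r)) =
      S * (ω * (cexp (2 / 3 * r ^ 3) * cA (ze * r)) +
        ω ^ 2 * (cexp (2 / 3 * r ^ 3) * cA ((starRingEnd ℂ) ze * r))) := by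
    have e1 : I * ka = ω := by
      rw [← hIka, mul_assoc, inv_mul_cancel₀ hka, mul_one]
    have e2 : - (I * ka⁻¹) = ω ^ 2 := by
      rw [← neg_mul, ← hIka', mul_assoc, hkk, mul_one]
    linear_combination (cexp (2 / 3 * r ^ 3) * S * cA (ze * r)) * e1 +
      (cexp (2 / 3 * r ^ 3) * S * cA ((starRingEnd ℂ) ze * r)) * e2
  rw [goal1]
  linear_combination S * hrel - (cexp (2 / 3 * r ^ 3) * cexp (-(4 / 3) * r ^ 3) * S * cA r) * hI2

end Pool.Agent.H140R2.FR
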