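import Pool.Agent.H140R2.FR.T11aRep
import Pool.Agent.H140R2.FR.T04Conn

/-!
T11b.  Bound for `XX`  (helper332).
-/

set_option autoImplicit false

open Complex MeasureTheory Set Filter Topology

namespace Pool.Agent.H140R2.FR

namespace T11b

theorem ze_eq : ze = ⟨1 / 2, Real.sqrt 3 / 2⟩ := by
  unfold ze
  have h : I * (Real.pi : ℂ) / 3 = ((Real.pi / 3 : ℝ) : ℂ) * I := by push_cast; ring
  rw [h, Complex.exp_mul_I]
  rw [← Complex.ofReal_cos, ← Complex.ofReal_sin, Real.cos_pi_div_three, Real.sin_pi_div_three]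
  apply Complex.ext <;> simp

theorem e6_eq : cexp (I * (Real.pi : ℂ) / 6) = ⟨Real.sqrt 3 / 2, 1 / 2⟩ := by
  have h : I * (Real.pi : ℂ) / 6 = ((Real.pi / 6 : ℝ) : ℂ) * I := by push_cast; ring
  rw [h, Complex.exp_mul_I]
  rw [← Complex.ofReal_cos, ← Complex.ofReal_sin, Real.cos_pi_div_six, Real.sin_pi_div_six]
  apply Complex.ext <;> simp

theorem e6m_eq : cexp (-(I * (Real.pi : ℂ) / 6)) = ⟨Real.sqrt 3 / 2, -(1 / 2)⟩ := by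
  have h : -(I * (Real.pi : ℂ) / 6) = ((-(Real.pi / 6) : ℝ) : ℂ) * I := by push_cast; ring
  rw [h, Complex.exp_mul_I]
  rw [← Complex.ofReal_cos, ← Complex.ofReal_sin, Real.cos_neg, Real.sin_neg,
    Real.cos_pi_div_six, Real.sin_pi_div_six]
  apply Complex.ext <;> simp

theorem norm_e6 : ‖cexp (I * (Real.pi : ℂ) / 6)‖ = 1 := by
  have h : I * (Real.pi : ℂ) / 6 = ((Real.pi / 6 : ℝ) : ℂ) * I := by push_cast; ring
  rw [h]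
  exact Complex.norm_exp_ofReal_mul_I _

theorem norm_e6m : ‖cexp (-(I * (Real.pi : ℂ) / 6))‖ = 1 := by
  have h : -(I * (Real.pi : ℂ) / 6) = ((-(Real.pi / 6) : ℝ) : ℂ) * I := by push_cast; ring
  rw [h]
  exact Complex.norm_exp_ofReal_mul_I _

theorem norm_pow_le (q : ℝ) (hq : 4 < q) (r : ℂ) (hr : 1 ≤ ‖r‖) :
    ‖r ^ ((1 : ℂ) - (q : ℂ) / 2)‖ ≤ 1 := by
  have h : (1 : ℂ) - (q : ℂ) / 2 = ((1 - q / 2 : ℝ) : ℂ) := by push_cast; ring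
  rw [h, Complex.norm_cpow_real]
  exact Real.rpow_le_one_of_one_le_of_nonpos hr (by linarith)

/-- real part of the exponent at `r = r₁ s`. -/
theorem re_expo (q Λ r₁ : ℝ) (hq : 4 < q) (hr : r₁ = Λ / (q - 2)) (x y : ℝ) :
    (-(Λ : ℂ) * ((r₁ : ℂ) * (⟨x, y⟩ : ℂ)) ^ 2 +
      (2 / 3) * (q : ℂ) * ((r₁ : ℂ) * (⟨x, y⟩ : ℂ)) ^ 3).re =
    Λ ^ 3 / (q - 2) ^ 2 * (-(x ^ 2 - y ^ 2) + (2 / 3) * (q / (q - 2)) * (x ^ 3 - 3 * x * y ^ 2)) := by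
  have h1 : (-(Λ : ℂ) * ((r₁ : ℂ) * (⟨x, y⟩ : ℂ)) ^ 2 +
      (2 / 3) * (q : ℂ) * ((r₁ : ℂ) * (⟨x, y⟩ : ℂ)) ^ 3) =
      ((-(Λ * r₁ ^ 2) : ℝ) : ℂ) * (⟨x, y⟩ : ℂ) ^ 2 +
        (((2 / 3) * q * r₁ ^ 3 : ℝ) : ℂ) * (⟨x, y⟩ : ℂ) ^ 3 := by
    push_cast; ring
  rw [h1, Complex.add_re, Complex.re_ofReal_mul, Complex.re_ofReal_mul]
  have h2 : ((⟨x, y⟩ : ℂ) ^ 2).re = x ^ 2 - y ^ 2 := by
    simp [pow_succ, Complex.mul_re]
  have h3 : ((⟨x, y⟩ : ℂ) ^ 3).re = x ^ 3 - 3 * x * y ^ 2 := by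
    simp [pow_succ, Complex.mul_re, Complex.mul_im]; ring
  rw [h2, h3, hr]
  have hq2 : q - 2 ≠ 0 := by linarith
  field_simp

theorem sqrt_facts : (1.414 : ℝ) < Real.sqrt 2 ∧ Real.sqrt 2 < 1.415 ∧ (1.732 : ℝ) < Real.sqrt 3 ∧
    Real.sqrt 3 < 1.7321 ∧ Real.sqrt 2 ^ 2 = 2 ∧ Real.sqrt 3 ^ 2 = 3 ∧
    Real.sqrt 2 * Real.sqrt 3 < 2.45 ∧ 2.449 < Real.sqrt 2 * Real.sqrt 3 := by
  have h2 : Real.sqrt 2 ^ 2 = 2 := Real.sq_sqrt (by norm_num)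
  have h3 : Real.sqrt 3 ^ 2 = 3 := Real.sq_sqrt (by norm_num)
  have p2 : 0 ≤ Real.sqrt 2 := Real.sqrt_nonneg _
  have p3 : 0 ≤ Real.sqrt 3 := Real.sqrt_nonneg _
  have a1 : (1.414 : ℝ) < Real.sqrt 2 := by
    rw [Real.lt_sqrt (by norm_num)]; norm_num
  have a2 : Real.sqrt 2 < 1.415 := by
    rw [Real.sqrt_lt' (by norm_num)]; norm_num
  have a3 : (1.732 : ℝ) < Real.sqrt 3 := by
    rw [Real.lt_sqrt (by norm_num)]; norm_num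
  have a4 : Real.sqrt 3 < 1.7321 := by
    rw [Real.sqrt_lt' (by norm_num)]; norm_num
  have h6 : Real.sqrt 2 * Real.sqrt 3 = Real.sqrt 6 := by
    rw [← Real.sqrt_mul (by norm_num)]; norm_num
  refine ⟨a1, a2, a3, a4, h2, h3, ?_, ?_⟩
  · rw [h6, Real.sqrt_lt' (by norm_num)]; norm_num
  · rw [h6, Real.lt_sqrt (by norm_num)]; norm_num

/-- the exponent on the tails. -/
theorem tail_expo (κ t : ℝ) (hκ : κ ≤ 2) (ht : 0 ≤ t) (x y : ℝ)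
    (hx : x = 1 + t * Real.sqrt 3 / 2) (hy : y ^ 2 = (Real.sqrt 2 / 3 + t / 2) ^ 2) :
    -(x ^ 2 - y ^ 2) + (2 / 3) * κ * (x ^ 3 - 3 * x * y ^ 2) ≤ -(1 / 3) - t ^ 2 / 10 := by
  obtain ⟨a1, a2, a3, a4, h2, h3, h6, h6'⟩ := sqrt_facts
  set a := Real.sqrt 2
  set b := Real.sqrt 3
  have e2 : x ^ 2 - y ^ 2 = 7 / 9 + t * (b - a / 3) + t ^ 2 / 2 := by
    rw [hy, hx]; linear_combination (t ^ 2 / 4) * h3 - (1 / 9) * h2
  have e3 : x ^ 3 - 3 * x * y ^ 2 = 1 / 3 + t * (7 * b / 6 - a) + t ^ 2 * (3 / 2 - a * b / 2) := by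
    rw [hy, hx]
    linear_combination (3 / 4 * t ^ 2 + t ^ 3 * b / 8) * h3 - (1 / 3) * (1 + t * b / 2) * h2
  rw [e2, e3]
  have c1 : 0 ≤ 7 * b / 6 - a := by nlinarith
  have c2 : 0 ≤ 3 / 2 - a * b / 2 := by nlinarith
  have hB : 0 ≤ 1 / 3 + t * (7 * b / 6 - a) + t ^ 2 * (3 / 2 - a * b / 2) := by positivity
  have hm : κ * (1 / 3 + t * (7 * b / 6 - a) + t ^ 2 * (3 / 2 - a * b / 2)) ≤
      2 * (1 / 3 + t * (7 * b / 6 - a) + t ^ 2 * (3 / 2 - a * b / 2)) :=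
    mul_le_mul_of_nonneg_right hκ hB
  have d1 : t * (5 * b / 9 - a) ≤ 0 := by
    apply mul_nonpos_of_nonneg_of_nonpos ht; nlinarith
  have d2 : t ^ 2 * (3 / 2 - 2 / 3 * (a * b)) ≤ t ^ 2 * (-(1 / 10)) := by
    apply mul_le_mul_of_nonneg_left _ (sq_nonneg t); nlinarith
  nlinarith

theorem combine (A B P E1 E2 F c K2 : ℝ) (hA : A ≤ E1 * E2) (hB : B ≤ c * F) (hB0 : 0 ≤ B)
    (hP : P ≤ 1) (hP0 : 0 ≤ P) (hK : E2 * F ≤ K2) (h1 : 0 ≤ E1) (h2 : 0 ≤ E2) (hc : 0 ≤ c) :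
    A * B * P ≤ E1 * (c * K2) := by
  calc A * B * P ≤ (E1 * E2) * (c * F) * 1 := by
        apply mul_le_mul _ hP hP0 (by
          have : 0 ≤ c * F := hB0.trans hB
          positivity)
        exact mul_le_mul hA hB hB0 (by positivity)
    _ = E1 * (c * (E2 * F)) := by ring
    _ ≤ E1 * (c * K2) := by gcongr

set_option maxHeartbeats 2000000 in
/-- pointwise bound for one of the two functions on a tail; `w` is `ze` or its conjugate. -/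
theorem tail_point {β : ℂ → ℂ} (hβ : IsLogB β) (q Λ r₁ ρ : ℝ) (hq : 4 < q)
    (hr : r₁ = Λ / (q - 2)) (h1 : 1 ≤ r₁) (hΛ : 10 ≤ Λ) (hρ : 0 ≤ ρ) (N : ℕ) (hN : q / 2 ≤ N)
    (x y c : ℝ) (w : ℂ) (hw : ‖w‖ = 1)
    (hx : x = 1 + (ρ / r₁) * Real.sqrt 3 / 2)
    (hy : |y| = Real.sqrt 2 / 3 + (ρ / r₁) / 2)
    (hre : (w * (⟨x, y⟩ : ℂ)).re = c) (hc : 0.09 ≤ c) :
    ‖cexp (-(Λ : ℂ) * ((r₁ : ℂ) * (⟨x, y⟩ : ℂ)) ^ 2 +
      (2 / 3) * (q : ℂ) * ((r₁ : ℂ) * (⟨x, y⟩ : ℂ)) ^ 3 +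
      (q : ℂ) * β (w * ((r₁ : ℂ) * (⟨x, y⟩ : ℂ)))) *
      ((r₁ : ℂ) * (⟨x, y⟩ : ℂ)) ^ ((1 : ℂ) - (q : ℂ) / 2)‖ ≤
    Real.exp (-(Λ ^ 3 / (3 * (q - 2) ^ 2))) * (23 ^ N * N.factorial * Real.exp 2 * Real.exp (-ρ)) := by
  obtain ⟨a1, a2, a3, a4, h2, h3, h6, h6'⟩ := sqrt_facts
  set t : ℝ := ρ / r₁ with ht
  have hr0 : 0 < r₁ := by linarith
  have ht0 : 0 ≤ t := div_nonneg hρ hr0.le
  have htρ : t ≤ ρ := div_le_self hρ h1
  set s : ℂ := ⟨x, y⟩ with hs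
  have hx1 : 1 ≤ x := by
    rw [hx]; have : 0 ≤ t * Real.sqrt 3 / 2 := by positivity
    linarith
  have hsn1 : 1 ≤ ‖s‖ := by
    have := Complex.abs_re_le_norm s
    have h' : |s.re| = x := abs_of_nonneg (by simp [hs]; linarith)
    linarith
  have hsn2 : ‖s‖ ≤ 2 + 2 * t := by
    have := Complex.norm_le_abs_re_add_abs_im s
    have h' : |s.re| = x := abs_of_nonneg (by simp [hs]; linarith)
    have h'' : |s.im| = |y| := by simp [hs]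
    rw [h', h'', hy, hx] at this
    have : t * Real.sqrt 3 / 2 ≤ t := by nlinarith
    nlinarith
  have hrn : 1 ≤ ‖(r₁ : ℂ) * s‖ := by
    rw [norm_mul, Complex.norm_real, Real.norm_eq_abs, abs_of_pos hr0]
    nlinarith
  rw [Complex.exp_add, norm_mul, norm_mul, Complex.norm_exp]
  rw [re_expo q Λ r₁ hq hr x y]
  -- the factor `exp (q β)`
  have hp : 0 < (w * ((r₁ : ℂ) * s)).re := by
    have : w * ((r₁ : ℂ) * s) = (r₁ : ℂ) * (w * s) := by ring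
    rw [this, Complex.re_ofReal_mul, hre]
    have : (0 : ℝ) < c := by linarith [hc]
    positivity
  have hb := hβ.norm_exp q (by linarith) (w * ((r₁ : ℂ) * s)) hp
  have hratio : ‖w * ((r₁ : ℂ) * s)‖ / (w * ((r₁ : ℂ) * s)).re ≤ 23 * (1 + ρ) := by
    have e1 : w * ((r₁ : ℂ) * s) = (r₁ : ℂ) * (w * s) := by ring
    have e2 : ‖w * ((r₁ : ℂ) * s)‖ = r₁ * ‖s‖ := by
      rw [norm_mul, hw, one_mul, norm_mul, Complex.norm_real, Real.norm_eq_abs, abs_of_pos hr0]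
    rw [e2, e1, Complex.re_ofReal_mul, hre, mul_div_mul_left _ _ hr0.ne']
    have hc0 : (0 : ℝ) < c := by linarith [hc]
    rw [div_le_iff₀ hc0]
    have : (2 + 2 * ρ) ≤ 23 * (1 + ρ) * 0.09 := by nlinarith
    nlinarith
  have hratio1 : 1 ≤ ‖w * ((r₁ : ℂ) * s)‖ / (w * ((r₁ : ℂ) * s)).re := by
    rw [one_le_div hp]
    exact (le_abs_self _).trans (Complex.abs_re_le_norm _)
  have hb2 : ‖cexp ((q : ℂ) * β (w * ((r₁ : ℂ) * s)))‖ ≤ (23 * (1 + ρ)) ^ N := by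
    refine hb.trans ?_
    calc (‖w * ((r₁ : ℂ) * s)‖ / (w * ((r₁ : ℂ) * s)).re) ^ (q / 2)
        ≤ (‖w * ((r₁ : ℂ) * s)‖ / (w * ((r₁ : ℂ) * s)).re) ^ (N : ℝ) :=
          Real.rpow_le_rpow_of_exponent_le hratio1 hN
      _ = (‖w * ((r₁ : ℂ) * s)‖ / (w * ((r₁ : ℂ) * s)).re) ^ N := Real.rpow_natCast _ _
      _ ≤ (23 * (1 + ρ)) ^ N := pow_le_pow_left₀ (by linarith) hratio N
  have hfac : (1 + ρ) ^ N ≤ N.factorial * Real.exp (1 + ρ) := by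
    have := Real.pow_div_factorial_le_exp (1 + ρ) (by linarith) N
    rw [div_le_iff₀ (by positivity)] at this
    linarith
  have hb3 : ‖cexp ((q : ℂ) * β (w * ((r₁ : ℂ) * s)))‖ ≤
      23 ^ N * (N.factorial * Real.exp (1 + ρ)) := by
    refine hb2.trans ?_
    rw [mul_pow]
    exact mul_le_mul_of_nonneg_left hfac (by positivity)
  have hpw := norm_pow_le q hq ((r₁ : ℂ) * s) hrn
  -- the exponent
  have hκ : q / (q - 2) ≤ 2 := by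
    rw [div_le_iff₀ (by linarith)]; linarith
  have hy2 : y ^ 2 = (Real.sqrt 2 / 3 + t / 2) ^ 2 := by
    rw [← sq_abs y, hy]
  have hE := tail_expo (q / (q - 2)) t hκ ht0 x y hx hy2
  have hM : 0 ≤ Λ ^ 3 / (q - 2) ^ 2 := by positivity
  have hE2 : Λ ^ 3 / (q - 2) ^ 2 * (-(x ^ 2 - y ^ 2) + (2 / 3) * (q / (q - 2)) *
      (x ^ 3 - 3 * x * y ^ 2)) ≤ -(Λ ^ 3 / (3 * (q - 2) ^ 2)) - ρ ^ 2 := by
    refine (mul_le_mul_of_nonneg_left hE hM).trans ?_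
    have e1 : Λ ^ 3 / (q - 2) ^ 2 * (-(1 / 3) - t ^ 2 / 10) =
        -(Λ ^ 3 / (3 * (q - 2) ^ 2)) - Λ * ρ ^ 2 / 10 := by
      rw [ht, hr]
      have hq2 : q - 2 ≠ 0 := by linarith
      have hΛ0 : Λ ≠ 0 := by linarith
      field_simp
    rw [e1]
    have h10 : 10 * ρ ^ 2 ≤ Λ * ρ ^ 2 := mul_le_mul_of_nonneg_right hΛ (sq_nonneg ρ)
    linarith
  have hexp : Real.exp (Λ ^ 3 / (q - 2) ^ 2 * (-(x ^ 2 - y ^ 2) + (2 / 3) * (q / (q - 2)) *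
      (x ^ 3 - 3 * x * y ^ 2))) ≤ Real.exp (-(Λ ^ 3 / (3 * (q - 2) ^ 2))) * Real.exp (-ρ ^ 2) := by
    rw [← Real.exp_add, Real.exp_le_exp]
    linarith
  have hlast : Real.exp (-ρ ^ 2) * Real.exp (1 + ρ) ≤ Real.exp 2 * Real.exp (-ρ) := by
    rw [← Real.exp_add, ← Real.exp_add, Real.exp_le_exp]
    nlinarith [sq_nonneg (ρ - 1)]
  have hb3 := hb3.trans (le_of_eq (mul_assoc _ _ _).symm)
  have hfin := combine _ _ _ _ _ (Real.exp (1 + ρ)) (23 ^ N * N.factorial)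
    (Real.exp 2 * Real.exp (-ρ)) hexp hb3
    (norm_nonneg _) hpw (norm_nonneg _) hlast (Real.exp_pos _).le (Real.exp_pos _).le (by positivity)
  refine hfin.trans (le_of_eq ?_)
  ring

/-- `|e^{qa} - e^{qb}| ≤ C |e^a - e^b|` for small `a, b`. -/
theorem exp_diff (q : ℝ) (hq : 4 < q) (a b : ℂ) (ha : ‖a‖ ≤ 1 / (2 * q)) (hb : ‖b‖ ≤ 1 / (2 * q)) :
    ‖cexp ((q : ℂ) * a) - cexp ((q : ℂ) * b)‖ ≤ 4 * Real.exp 1 * q * ‖cexp a - cexp b‖ := by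
  have hq0 : 0 < q := by linarith
  have hq8 : 1 / (2 * q) ≤ 1 / 8 := by
    apply one_div_le_one_div_of_le (by norm_num); linarith
  have hab : ‖a - b‖ ≤ 1 / q := by
    calc ‖a - b‖ ≤ ‖a‖ + ‖b‖ := norm_sub_le _ _
      _ ≤ 1 / (2 * q) + 1 / (2 * q) := add_le_add ha hb
      _ = 1 / q := by field_simp; ring
  have hab4 : ‖a - b‖ ≤ 1 / 4 := by
    calc ‖a - b‖ ≤ ‖a‖ + ‖b‖ := norm_sub_le _ _
      _ ≤ 1 / 8 + 1 / 8 := add_le_add (ha.trans hq8) (hb.trans hq8)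
      _ = 1 / 4 := by norm_num
  have hnq : ‖(q : ℂ)‖ = q := by rw [Complex.norm_real, Real.norm_eq_abs, abs_of_pos hq0]
  -- upper bound
  have e1 : cexp ((q : ℂ) * a) - cexp ((q : ℂ) * b) =
      cexp ((q : ℂ) * b) * (cexp ((q : ℂ) * (a - b)) - 1) := by
    rw [mul_sub, mul_one, ← Complex.exp_add]
    congr 2; ring
  have u1 : ‖cexp ((q : ℂ) * b)‖ ≤ Real.exp (1 / 2) := by
    refine (Complex.norm_exp_le_exp_norm _).trans ?_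
    rw [Real.exp_le_exp, norm_mul, hnq]
    calc q * ‖b‖ ≤ q * (1 / (2 * q)) := mul_le_mul_of_nonneg_left hb hq0.le
      _ = 1 / 2 := by field_simp
  have u2 : ‖cexp ((q : ℂ) * (a - b)) - 1‖ ≤ 2 * (q * ‖a - b‖) := by
    have hle : ‖(q : ℂ) * (a - b)‖ ≤ 1 := by
      rw [norm_mul, hnq]
      calc q * ‖a - b‖ ≤ q * (1 / q) := mul_le_mul_of_nonneg_left hab hq0.le
        _ = 1 := by field_simp
    have := Complex.norm_exp_sub_one_le hle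
    rwa [norm_mul, hnq] at this
  -- lower bound
  have e2 : cexp a - cexp b = cexp b * (cexp (a - b) - 1) := by
    rw [mul_sub, mul_one, ← Complex.exp_add]
    congr 2; ring
  have l1 : Real.exp (-(1 / 8)) ≤ ‖cexp b‖ := by
    rw [Complex.norm_exp, Real.exp_le_exp]
    have := Complex.abs_re_le_norm b
    have h2 := neg_abs_le b.re
    linarith [hb.trans hq8]
  have l2 : ‖a - b‖ / 2 ≤ ‖cexp (a - b) - 1‖ := by
    have h := Complex.norm_exp_sub_one_sub_id_le (x := a - b) (by linarith)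
    have h2 : ‖a - b‖ ≤ ‖cexp (a - b) - 1‖ + ‖cexp (a - b) - 1 - (a - b)‖ := by
      have h3 : a - b = (cexp (a - b) - 1) - (cexp (a - b) - 1 - (a - b)) := by ring
      calc ‖a - b‖ = ‖(cexp (a - b) - 1) - (cexp (a - b) - 1 - (a - b))‖ := by rw [← h3]
        _ ≤ _ := norm_sub_le _ _
    nlinarith [norm_nonneg (a - b)]
  have l3 : Real.exp (-(1 / 8)) * (‖a - b‖ / 2) ≤ ‖cexp a - cexp b‖ := by
    rw [e2, norm_mul]
    exact mul_le_mul l1 l2 (by positivity) (norm_nonneg _)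
  have l4 : ‖a - b‖ ≤ 2 * Real.exp (1 / 8) * ‖cexp a - cexp b‖ := by
    have h5 : Real.exp (1 / 8) * Real.exp (-(1 / 8)) = 1 := by
      rw [← Real.exp_add]; simp
    have h6 := mul_le_mul_of_nonneg_left l3 (Real.exp_pos (1 / 8)).le
    have h7 : Real.exp (1 / 8) * (Real.exp (-(1 / 8)) * (‖a - b‖ / 2)) = ‖a - b‖ / 2 := by
      rw [← mul_assoc, h5, one_mul]
    rw [h7] at h6
    linarith
  rw [e1, norm_mul]
  calc ‖cexp ((q : ℂ) * b)‖ * ‖cexp ((q : ℂ) * (a - b)) - 1‖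
      ≤ Real.exp (1 / 2) * (2 * (q * ‖a - b‖)) :=
        mul_le_mul u1 u2 (norm_nonneg _) (Real.exp_pos _).le
    _ ≤ Real.exp (1 / 2) * (2 * (q * (2 * Real.exp (1 / 8) * ‖cexp a - cexp b‖))) := by gcongr
    _ = 4 * (Real.exp (1 / 2) * Real.exp (1 / 8)) * q * ‖cexp a - cexp b‖ := by ring
    _ ≤ 4 * Real.exp 1 * q * ‖cexp a - cexp b‖ := by
        have : Real.exp (1 / 2) * Real.exp (1 / 8) ≤ Real.exp 1 := by
          rw [← Real.exp_add, Real.exp_le_exp]; norm_num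
        gcongr

set_option maxHeartbeats 2000000 in
/-- pointwise bound on the segment. -/
theorem seg_point {β : ℂ → ℂ} (hβ : IsLogB β) (q Λ r₁ y : ℝ) (hq : 4 < q)
    (hr : r₁ = Λ / (q - 2)) (h1 : 1 ≤ r₁) (hy : |y| ≤ Real.sqrt 2 / 3)
    (hsm : ∀ p : ℂ, r₁ ≤ ‖p‖ → 0.04 * ‖p‖ ≤ p.re → ‖β p‖ ≤ 1 / (2 * q)) :
    ‖Hp β q Λ ((r₁ : ℂ) * (⟨1, y⟩ : ℂ)) - Hm β q Λ ((r₁ : ℂ) * (⟨1, y⟩ : ℂ))‖ ≤
      8 * Real.exp 1 * q * Real.exp (-(Λ ^ 3 / (3 * (q - 2) ^ 2))) := by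
  obtain ⟨a1, a2, a3, a4, h2, h3, h6, h6'⟩ := sqrt_facts
  have hr0 : 0 < r₁ := by linarith
  have hq0 : 0 < q := by linarith
  set s : ℂ := ⟨1, y⟩ with hs
  have hy1 : |y| ≤ 0.5 := by linarith
  have hyy := abs_le.mp hy
  have hsn1 : 1 ≤ ‖s‖ := by
    have := Complex.abs_re_le_norm s
    simpa [hs] using this
  have hsn2 : ‖s‖ ≤ 2 := by
    have := Complex.norm_le_abs_re_add_abs_im s
    simp only [hs, abs_one] at this
    linarith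
  have hnr : ‖(r₁ : ℂ) * s‖ = r₁ * ‖s‖ := by
    rw [norm_mul, Complex.norm_real, Real.norm_eq_abs, abs_of_pos hr0]
  have hrn : 1 ≤ ‖(r₁ : ℂ) * s‖ := by rw [hnr]; nlinarith
  have hzre : (ze * s).re = 1 / 2 - Real.sqrt 3 / 2 * y := by
    rw [ze_eq, hs]; simp [Complex.mul_re]
  have hzre' : ((starRingEnd ℂ) ze * s).re = 1 / 2 + Real.sqrt 3 / 2 * y := by
    rw [ze_eq, hs]; simp [Complex.mul_re]
  have hb1 : Real.sqrt 3 / 2 * y ≤ 0.41 := by nlinarith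
  have hb2 : -0.41 ≤ Real.sqrt 3 / 2 * y := by nlinarith
  have hnze : ‖ze‖ = 1 := by
    unfold ze
    have h : I * (Real.pi : ℂ) / 3 = ((Real.pi / 3 : ℝ) : ℂ) * I := by push_cast; ring
    rw [h]; exact Complex.norm_exp_ofReal_mul_I _
  have hnze' : ‖(starRingEnd ℂ) ze‖ = 1 := by rw [RCLike.norm_conj, hnze]
  have hp1 : (ze * ((r₁ : ℂ) * s)).re = r₁ * (ze * s).re := by
    have : ze * ((r₁ : ℂ) * s) = (r₁ : ℂ) * (ze * s) := by ring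
    rw [this, Complex.re_ofReal_mul]
  have hp2 : ((starRingEnd ℂ) ze * ((r₁ : ℂ) * s)).re = r₁ * ((starRingEnd ℂ) ze * s).re := by
    have : (starRingEnd ℂ) ze * ((r₁ : ℂ) * s) = (r₁ : ℂ) * ((starRingEnd ℂ) ze * s) := by ring
    rw [this, Complex.re_ofReal_mul]
  have hn1 : ‖ze * ((r₁ : ℂ) * s)‖ = r₁ * ‖s‖ := by rw [norm_mul, hnze, one_mul, hnr]
  have hn2 : ‖(starRingEnd ℂ) ze * ((r₁ : ℂ) * s)‖ = r₁ * ‖s‖ := by
    rw [norm_mul, hnze', one_mul, hnr]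
  have pos1 : 0 < (ze * ((r₁ : ℂ) * s)).re := by
    rw [hp1, hzre]; apply mul_pos hr0; linarith
  have pos2 : 0 < ((starRingEnd ℂ) ze * ((r₁ : ℂ) * s)).re := by
    rw [hp2, hzre']; apply mul_pos hr0; linarith
  have s1 : ‖β (ze * ((r₁ : ℂ) * s))‖ ≤ 1 / (2 * q) := by
    apply hsm
    · rw [hn1]; nlinarith
    · rw [hn1, hp1, hzre]; nlinarith
  have s2 : ‖β ((starRingEnd ℂ) ze * ((r₁ : ℂ) * s))‖ ≤ 1 / (2 * q) := by
    apply hsm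
    · rw [hn2]; nlinarith
    · rw [hn2, hp2, hzre']; nlinarith
  have hd := exp_diff q hq _ _ s1 s2
  rw [hβ.exp_eq _ pos1, hβ.exp_eq _ pos2, BB_connection _ pos1 pos2] at hd
  have hBB : ‖BB ((r₁ : ℂ) * s)‖ ≤ 2 := by
    have hre : 0 < ((r₁ : ℂ) * s).re := by
      rw [Complex.re_ofReal_mul]; simp [hs, hr0]
    refine (BB_norm_le _ hre).trans ?_
    have : ‖(r₁ : ℂ) * s‖ / ((r₁ : ℂ) * s).re ≤ 2 := by
      rw [hnr, Complex.re_ofReal_mul, mul_div_mul_left _ _ hr0.ne']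
      simpa [hs] using hsn2
    calc Real.sqrt (‖(r₁ : ℂ) * s‖ / ((r₁ : ℂ) * s).re) ≤ Real.sqrt 2 := Real.sqrt_le_sqrt this
      _ ≤ 2 := by linarith
  have hcube : ((-(4 / 3) : ℂ) * ((r₁ : ℂ) * s) ^ 3).re = -(4 / 3) * r₁ ^ 3 * (1 - 3 * y ^ 2) := by
    have e : (-(4 / 3) : ℂ) * ((r₁ : ℂ) * s) ^ 3 = ((-(4 / 3) * r₁ ^ 3 : ℝ) : ℂ) * s ^ 3 := by
      push_cast; ring
    rw [e, Complex.re_ofReal_mul]
    have : (s ^ 3).re = 1 - 3 * y ^ 2 := by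
      rw [hs]; simp [pow_succ, Complex.mul_re, Complex.mul_im]; ring
    rw [this]
  have hd2 : ‖cexp ((q : ℂ) * β (ze * ((r₁ : ℂ) * s))) -
      cexp ((q : ℂ) * β ((starRingEnd ℂ) ze * ((r₁ : ℂ) * s)))‖ ≤
      8 * Real.exp 1 * q * Real.exp (-(4 / 3) * r₁ ^ 3 * (1 - 3 * y ^ 2)) := by
    refine hd.trans ?_
    rw [norm_mul, norm_mul, Complex.norm_I, one_mul, Complex.norm_exp, hcube]
    calc 4 * Real.exp 1 * q * (Real.exp (-(4 / 3) * r₁ ^ 3 * (1 - 3 * y ^ 2)) * ‖BB ((r₁ : ℂ) * s)‖)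
        ≤ 4 * Real.exp 1 * q * (Real.exp (-(4 / 3) * r₁ ^ 3 * (1 - 3 * y ^ 2)) * 2) := by gcongr
      _ = _ := by ring
  have hpw := norm_pow_le q hq ((r₁ : ℂ) * s) hrn
  have hfac : Hp β q Λ ((r₁ : ℂ) * s) - Hm β q Λ ((r₁ : ℂ) * s) =
      cexp (-(Λ : ℂ) * ((r₁ : ℂ) * s) ^ 2 + (2 / 3) * (q : ℂ) * ((r₁ : ℂ) * s) ^ 3) *
      (cexp ((q : ℂ) * β (ze * ((r₁ : ℂ) * s))) -
        cexp ((q : ℂ) * β ((starRingEnd ℂ) ze * ((r₁ : ℂ) * s)))) *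
      ((r₁ : ℂ) * s) ^ ((1 : ℂ) - (q : ℂ) / 2) := by
    unfold Hp Hm
    rw [Complex.exp_add, Complex.exp_add _ ((q : ℂ) * β ((starRingEnd ℂ) ze * ((r₁ : ℂ) * s)))]
    ring
  rw [hfac, norm_mul, norm_mul, Complex.norm_exp, re_expo q Λ r₁ hq hr 1 y]
  have hE : Λ ^ 3 / (q - 2) ^ 2 * (-((1 : ℝ) ^ 2 - y ^ 2) + (2 / 3) * (q / (q - 2)) *
      ((1 : ℝ) ^ 3 - 3 * 1 * y ^ 2)) + (-(4 / 3) * r₁ ^ 3 * (1 - 3 * y ^ 2)) ≤
      -(Λ ^ 3 / (3 * (q - 2) ^ 2)) := by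
    have e : Λ ^ 3 / (q - 2) ^ 2 * (-((1 : ℝ) ^ 2 - y ^ 2) + (2 / 3) * (q / (q - 2)) *
      ((1 : ℝ) ^ 3 - 3 * 1 * y ^ 2)) + (-(4 / 3) * r₁ ^ 3 * (1 - 3 * y ^ 2)) =
      -(Λ ^ 3 / (3 * (q - 2) ^ 2)) - Λ ^ 3 / (q - 2) ^ 2 * y ^ 2 := by
      rw [hr]
      have hq2 : q - 2 ≠ 0 := by linarith
      field_simp
      ring
    rw [e]
    have hΛ0 : 0 ≤ Λ := by
      have : Λ = r₁ * (q - 2) := by rw [hr]; field_simp [show q - 2 ≠ 0 by linarith]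
      rw [this]; apply mul_nonneg hr0.le; linarith
    have : 0 ≤ Λ ^ 3 / (q - 2) ^ 2 * y ^ 2 := by positivity
    linarith
  calc _ ≤ Real.exp (Λ ^ 3 / (q - 2) ^ 2 * (-((1 : ℝ) ^ 2 - y ^ 2) + (2 / 3) * (q / (q - 2)) *
      ((1 : ℝ) ^ 3 - 3 * 1 * y ^ 2))) *
      (8 * Real.exp 1 * q * Real.exp (-(4 / 3) * r₁ ^ 3 * (1 - 3 * y ^ 2))) * 1 := by
        apply mul_le_mul _ hpw (norm_nonneg _) (by positivity)
        exact mul_le_mul_of_nonneg_left hd2 (Real.exp_pos _).le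
    _ = 8 * Real.exp 1 * q * Real.exp (Λ ^ 3 / (q - 2) ^ 2 * (-((1 : ℝ) ^ 2 - y ^ 2) +
      (2 / 3) * (q / (q - 2)) * ((1 : ℝ) ^ 3 - 3 * 1 * y ^ 2)) +
        (-(4 / 3) * r₁ ^ 3 * (1 - 3 * y ^ 2))) := by rw [Real.exp_add]; ring
    _ ≤ _ := by
        have := Real.exp_le_exp.mpr hE
        gcongr

theorem exp_int : IntegrableOn (fun ρ : ℝ => Real.exp (-ρ)) (Ioi 0) := by
  have := exp_neg_integrableOn_Ioi 0 (b := 1) one_pos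
  simpa using this

theorem tail_integral (f : ℝ → ℂ) (K M : ℝ) (hf : ∀ ρ : ℝ, 0 < ρ → ‖f ρ‖ ≤ M * (K * Real.exp (-ρ))) :
    ‖∫ ρ in Ioi (0 : ℝ), f ρ‖ ≤ M * K := by
  have hint : IntegrableOn (fun ρ : ℝ => M * (K * Real.exp (-ρ))) (Ioi 0) :=
    (exp_int.const_mul K).const_mul M
  have h := norm_integral_le_of_norm_le (μ := volume.restrict (Ioi 0)) (f := f) hint (by
    filter_upwards [ae_restrict_mem measurableSet_Ioi] with ρ hρ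
    exact hf ρ hρ)
  refine h.trans (le_of_eq ?_)
  rw [integral_const_mul, integral_const_mul, integral_exp_neg_Ioi_zero, mul_one]

/-- a tail, `σ = 1` for the upper and `σ = -1` for the lower one. -/
theorem tail_total {β : ℂ → ℂ} (hβ : IsLogB β) (q Λ r₁ : ℝ) (hq : 4 < q)
    (hr : r₁ = Λ / (q - 2)) (h1 : 1 ≤ r₁) (hΛ : 10 ≤ Λ) (N : ℕ) (hN : q / 2 ≤ N)
    (p e : ℂ) (σ : ℝ) (hσ : σ = 1 ∨ σ = -1)
    (hp : p = (r₁ : ℂ) * (⟨1, σ * (Real.sqrt 2 / 3)⟩ : ℂ))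
    (he : e = (⟨Real.sqrt 3 / 2, σ * (1 / 2)⟩ : ℂ)) (hen : ‖e‖ = 1) :
    ‖∫ ρ in Ioi (0 : ℝ), (Hp β q Λ (p + (ρ : ℂ) * e) - Hm β q Λ (p + (ρ : ℂ) * e)) * e‖ ≤
      Real.exp (-(Λ ^ 3 / (3 * (q - 2) ^ 2))) * (2 * (23 ^ N * N.factorial * Real.exp 2)) := by
  obtain ⟨a1, a2, a3, a4, h2, h3, h6, h6'⟩ := sqrt_facts
  have hr0 : 0 < r₁ := by linarith
  apply tail_integral
  intro ρ hρ
  set t := ρ / r₁ with ht
  have ht0 : 0 ≤ t := by positivity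
  set x : ℝ := 1 + t * Real.sqrt 3 / 2 with hx
  set y : ℝ := σ * (Real.sqrt 2 / 3 + t / 2) with hy
  have hpt : p + (ρ : ℂ) * e = (r₁ : ℂ) * (⟨x, y⟩ : ℂ) := by
    have hρt : ρ = r₁ * t := by rw [ht]; field_simp
    rw [hp, he, hρt]
    apply Complex.ext
    · simp [hx]; ring
    · simp [hy]; ring
  have habs : |y| = Real.sqrt 2 / 3 + t / 2 := by
    rw [hy, abs_mul]
    have : |σ| = 1 := by rcases hσ with h | h <;> rw [h] <;> simp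
    rw [this, one_mul, abs_of_nonneg (by positivity)]
  have hnze : ‖ze‖ = 1 := by
    unfold ze
    have h : I * (Real.pi : ℂ) / 3 = ((Real.pi / 3 : ℝ) : ℂ) * I := by push_cast; ring
    rw [h]; exact Complex.norm_exp_ofReal_mul_I _
  have hnze' : ‖(starRingEnd ℂ) ze‖ = 1 := by rw [RCLike.norm_conj, hnze]
  have hzre : (ze * (⟨x, y⟩ : ℂ)).re = x / 2 - Real.sqrt 3 / 2 * y := by
    rw [ze_eq]; simp [Complex.mul_re]; ring
  have hzre' : ((starRingEnd ℂ) ze * (⟨x, y⟩ : ℂ)).re = x / 2 + Real.sqrt 3 / 2 * y := by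
    rw [ze_eq]; simp [Complex.mul_re]; ring
  have hup : Real.sqrt 3 / 2 * |y| ≤ x / 2 - 0.09 := by
    rw [habs, hx]; nlinarith
  have hc1 : 0.09 ≤ x / 2 - Real.sqrt 3 / 2 * y := by
    have := le_abs_self y
    nlinarith
  have hc2 : 0.09 ≤ x / 2 + Real.sqrt 3 / 2 * y := by
    have := neg_abs_le y
    nlinarith
  have b1 := tail_point hβ q Λ r₁ ρ hq hr h1 hΛ hρ.le N hN x y _ ze hnze hx habs hzre hc1
  have b2 := tail_point hβ q Λ r₁ ρ hq hr h1 hΛ hρ.le N hN x y _ _ hnze' hx habs hzre' hc2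
  rw [norm_mul, hen, mul_one, hpt]
  refine (norm_sub_le _ _).trans ?_
  unfold Hp Hm
  refine (add_le_add b1 b2).trans (le_of_eq ?_)
  ring

end T11b

open T11b

theorem XX_bound {β : ℂ → ℂ} (hβ : IsLogB β) (q : ℝ) (hq : 4 < q) :
    ∃ (C : ℝ) (N : ℕ) (R : ℝ), 0 < R ∧ ∀ Λ : ℝ, R ≤ Λ →
      ‖XX β q Λ‖ ≤ C * Λ ^ N * Real.exp (-(Λ ^ 3 / (3 * (q - 2) ^ 2))) := by
  obtain ⟨R0, hR0, hsm⟩ := hβ.small 0.04 (by norm_num) (1 / (2 * q)) (by positivity)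
  set N : ℕ := ⌈q / 2⌉₊ with hN
  have hNq : q / 2 ≤ N := Nat.le_ceil _
  set K : ℝ := 2 * (23 ^ N * N.factorial * Real.exp 2) with hK
  have hK0 : 0 ≤ K := by positivity
  have hq2 : 0 < q - 2 := by linarith
  refine ⟨2 * K + 8 * Real.exp 1 * q, 1, 10 + (q - 2) + (q - 2) * R0, by positivity, ?_⟩
  intro Λ hΛ
  have hΛ10 : 10 ≤ Λ := by nlinarith [mul_pos hq2 hR0]
  have hΛq : q - 2 ≤ Λ := by nlinarith [mul_pos hq2 hR0]
  have hΛR : (q - 2) * R0 ≤ Λ := by nlinarith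
  set r₁ : ℝ := Λ / (q - 2) with hr
  have hr1 : 1 ≤ r₁ := by rw [hr, one_le_div hq2]; exact hΛq
  have hrR : R0 ≤ r₁ := by rw [hr, le_div_iff₀ hq2]; linarith
  have hrΛ : r₁ ≤ Λ := by
    rw [hr]; exact div_le_self (by linarith) (by linarith)
  set E : ℝ := Real.exp (-(Λ ^ 3 / (3 * (q - 2) ^ 2))) with hE
  have hE0 : 0 < E := Real.exp_pos _
  have hrc : rc q Λ = (r₁ : ℂ) * (⟨1, 1 * (Real.sqrt 2 / 3)⟩ : ℂ) := by
    unfold rc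
    rw [← hr]
    congr 1
    apply Complex.ext <;> simp
  have hrc' : (starRingEnd ℂ) (rc q Λ) = (r₁ : ℂ) * (⟨1, (-1) * (Real.sqrt 2 / 3)⟩ : ℂ) := by
    rw [hrc, map_mul, Complex.conj_ofReal]
    congr 1
    apply Complex.ext <;> simp
  have t1 := tail_total hβ q Λ r₁ hq hr hr1 hΛ10 N hNq _ _ (-1) (Or.inr rfl) hrc'
    (by rw [e6m_eq]; apply Complex.ext <;> simp) norm_e6m
  have t2 := tail_total hβ q Λ r₁ hq hr hr1 hΛ10 N hNq _ _ 1 (Or.inl rfl) hrc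
    (by rw [e6_eq]; apply Complex.ext <;> simp) norm_e6
  have hseg : ‖I * ((Λ / (q - 2) : ℝ) : ℂ) *
    (∫ y in (-(Real.sqrt 2 / 3))..(Real.sqrt 2 / 3),
      (Hp β q Λ (((Λ / (q - 2) : ℝ) : ℂ) * (1 + (y : ℂ) * I)) -
        Hm β q Λ (((Λ / (q - 2) : ℝ) : ℂ) * (1 + (y : ℂ) * I))))‖ ≤
      Λ * (8 * Real.exp 1 * q * E) := by
    obtain ⟨a1, a2, a3, a4, h2, h3, h6, h6'⟩ := sqrt_facts
    rw [norm_mul, norm_mul, Complex.norm_I, one_mul, ← hr, Complex.norm_real, Real.norm_eq_abs,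
      abs_of_pos (by linarith : (0 : ℝ) < r₁)]
    have hint := intervalIntegral.norm_integral_le_of_norm_le_const
      (a := -(Real.sqrt 2 / 3)) (b := Real.sqrt 2 / 3)
      (f := fun y : ℝ => Hp β q Λ ((r₁ : ℂ) * (1 + (y : ℂ) * I)) -
        Hm β q Λ ((r₁ : ℂ) * (1 + (y : ℂ) * I))) (C := 8 * Real.exp 1 * q * E) (by
        intro y hy
        rw [Set.uIoc_of_le (by linarith)] at hy
        have hyy : |y| ≤ Real.sqrt 2 / 3 := abs_le.mpr ⟨hy.1.le, hy.2⟩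
        have h := seg_point hβ q Λ r₁ y hq hr hr1 hyy
          (fun p hp1 hp2 => hsm p (hrR.trans hp1) hp2)
        have hs : (⟨1, y⟩ : ℂ) = 1 + (y : ℂ) * I := by apply Complex.ext <;> simp
        rw [hs] at h
        exact h)
    have hlen : |Real.sqrt 2 / 3 - -(Real.sqrt 2 / 3)| ≤ 1 := by
      rw [abs_of_nonneg (by linarith)]; linarith
    have hC0 : 0 ≤ 8 * Real.exp 1 * q * E := by positivity
    calc r₁ * ‖∫ y in (-(Real.sqrt 2 / 3))..(Real.sqrt 2 / 3),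
          (Hp β q Λ ((r₁ : ℂ) * (1 + (y : ℂ) * I)) - Hm β q Λ ((r₁ : ℂ) * (1 + (y : ℂ) * I)))‖
        ≤ r₁ * (8 * Real.exp 1 * q * E * |Real.sqrt 2 / 3 - -(Real.sqrt 2 / 3)|) := by
          apply mul_le_mul_of_nonneg_left hint (by linarith)
      _ ≤ r₁ * (8 * Real.exp 1 * q * E * 1) := by gcongr
      _ ≤ Λ * (8 * Real.exp 1 * q * E) := by
          rw [mul_one]; exact mul_le_mul_of_nonneg_right hrΛ hC0
  unfold XX
  refine (norm_sub_le _ _).trans ?_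
  refine (add_le_add ((norm_sub_le _ _).trans (add_le_add t1 hseg)) t2).trans ?_
  rw [← hK, pow_one]
  have : E * K ≤ Λ * (K * E) := by nlinarith [mul_nonneg hK0 hE0.le]
  nlinarith

end Pool.Agent.H140R2.FR
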