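import Pool.Agent.H140R2.FR.Defs

/-!
T12.  Dispersion relation: the signs of the coefficients (abstract, independent of everything else).

Sketch.  `g(ξ) = Ψ(e^ξ) e^{3mξ}` on the rectangle `[a,b] × [0,π/3]`, `e^a/2 > R₀`; Cauchy
(`Complex.integral_boundary_rect_eq_zero_of_differentiableOn`); imaginary part:
`∫_a^b Im Ψ(e^t) e^{3mt} dt + Re ∫_0^{π/3} g(b+iφ) dφ - (-1)^m ∫_a^b Im Ψ(e^t ze) e^{3mt} dt - Re ∫_0^{π/3} g(a+iφ)dφ = 0`
(`e^{3m(t+iπ/3)} = (-1)^m e^{3mt}`).  As `b → ∞` the second term tends to `b_m π/3`: in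
`g(b+iφ) = ∑_{j≤m} b_j e^{3(m-j)(b+iφ)} + O(e^{-3b})` the term `j < m` has `Re ∫_0^{π/3} e^{3(m-j)iφ}dφ = 0`.
Hence `(π/3) σ b_m ≤ -∫_a^∞ σ Im Ψ(e^t) e^{3mt}dt + ∫_a^∞ |Im Ψ(e^t ze)| e^{3mt}dt + C_a e^{3ma}`.
With `a` so large that `σ Im Ψ(e^t) - |Im Ψ(e^t ze)|` is positive for `t ≥ a` (`s₀ < s₁`), the right side is at most
`C_a e^{3ma} - d₀ e^{3m(a+1)}`.
-/

set_option autoImplicit false

open Complex MeasureTheory Set Filter Topology

namespace Pool.Agent.H140R2.FR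

namespace T12

theorem cos_ge {y : ℝ} (h0 : 0 ≤ y) (h1 : y ≤ Real.pi / 3) : 1 / 2 ≤ Real.cos y := by
  rw [← Real.cos_pi_div_three]
  exact Real.cos_le_cos_of_nonneg_of_le_pi h0 (by linarith [Real.pi_pos]) h1

theorem exp_re_im (x y : ℝ) : (cexp ((x : ℂ) + (y : ℂ) * I)).re = Real.exp x * Real.cos y ∧
    (cexp ((x : ℂ) + (y : ℂ) * I)).im = Real.exp x * Real.sin y := by
  constructor
  · rw [Complex.exp_re]; simp
  · rw [Complex.exp_im]; simp

theorem ze_eq : ze = cexp (((Real.pi / 3 : ℝ) : ℂ) * I) := by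
  unfold ze
  congr 1
  push_cast
  ring

/-- the arc of radius `e^x` lies in the sector -/
theorem sec_exp {x y : ℝ} (h0 : 0 ≤ y) (h1 : y ≤ Real.pi / 3) : Sec (cexp ((x : ℂ) + (y : ℂ) * I)) := by
  obtain ⟨hr, hi⟩ := exp_re_im x y
  unfold Sec
  rw [hr, hi]
  have hc := cos_ge h0 h1
  have hs0 : 0 ≤ Real.sin y := Real.sin_nonneg_of_nonneg_of_le_pi h0 (by linarith [Real.pi_pos])
  refine ⟨by positivity, ?_⟩
  have hs : Real.sin y ≤ Real.sqrt 3 * Real.cos y := by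
    have h3 : Real.sin y ≤ Real.sqrt 3 / 2 := by
      rw [← Real.sin_pi_div_three]
      exact Real.sin_le_sin_of_le_of_le_pi_div_two (by linarith [Real.pi_pos]) (by linarith [Real.pi_pos]) h1
    have h4 : 0 ≤ Real.sqrt 3 := Real.sqrt_nonneg 3
    nlinarith
  calc Real.exp x * Real.sin y ≤ Real.exp x * (Real.sqrt 3 * Real.cos y) :=
        mul_le_mul_of_nonneg_left hs (Real.exp_pos x).le
    _ = _ := by ring

theorem cos_int (n : ℕ) (hn : 1 ≤ n) : ∫ y in (0 : ℝ)..(Real.pi / 3), Real.cos (((3 * n : ℕ) : ℝ) * y) = 0 := by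
  have hne : (((3 * n : ℕ) : ℝ)) ≠ 0 := by
    have : (3 * n : ℕ) ≠ 0 := by omega
    exact_mod_cast this
  rw [intervalIntegral.integral_comp_mul_left (fun y => Real.cos y) hne, integral_cos]
  have h1 : (((3 * n : ℕ) : ℝ)) * (Real.pi / 3) = (n : ℝ) * Real.pi := by push_cast; ring
  rw [h1, Real.sin_nat_mul_pi]
  simp

/-- the arc at distance `e^B` -/
theorem arc (Ψ : ℂ → ℂ) (R₀ : ℝ) (b : ℕ → ℝ)
    (hdiff : DifferentiableOn ℂ Ψ {lam | R₀ < lam.re}) (m : ℕ) (C R : ℝ)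
    (hexp : ∀ lam : ℂ, Sec lam → R ≤ ‖lam‖ →
      ‖Ψ lam - ∑ j ∈ Finset.range (m + 1), ((b j : ℝ) : ℂ) * (lam ^ (3 * j))⁻¹‖ ≤ C / ‖lam‖ ^ (3 * (m + 1)))
    (B : ℝ) (hB : R ≤ Real.exp B) (hB0 : 2 * R₀ < Real.exp B) :
    |(∫ y in (0 : ℝ)..(Real.pi / 3),
      (Ψ (cexp ((B : ℂ) + (y : ℂ) * I)) * cexp ((3 * m : ℕ) * ((B : ℂ) + (y : ℂ) * I))).re) -
      Real.pi / 3 * b m| ≤ (Real.pi / 3) * (C * Real.exp (-(3 * B))) := by
  have hpi := Real.pi_pos
  set S : ℝ → ℝ := fun y => ∑ j ∈ Finset.range (m + 1),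
    b j * Real.exp (((3 * (m - j) : ℕ) : ℝ) * B) * Real.cos (((3 * (m - j) : ℕ) : ℝ) * y) with hS
  have hSint : ∫ y in (0 : ℝ)..(Real.pi / 3), S y = Real.pi / 3 * b m := by
    rw [hS, intervalIntegral.integral_finsetSum]
    · rw [Finset.sum_range_succ, Finset.sum_eq_zero]
      · rw [intervalIntegral.integral_const_mul]
        simp
        ring
      · intro j hj
        rw [intervalIntegral.integral_const_mul, cos_int (m - j) (by have := Finset.mem_range.mp hj; omega),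
          mul_zero]
    · intro j _
      exact (Continuous.intervalIntegrable (by fun_prop) _ _)
  set g : ℝ → ℂ := fun y => Ψ (cexp ((B : ℂ) + (y : ℂ) * I)) * cexp ((3 * m : ℕ) * ((B : ℂ) + (y : ℂ) * I))
    with hg
  have hgc : ContinuousOn (fun y => (g y).re) (uIcc 0 (Real.pi / 3)) := by
    rw [uIcc_of_le (by positivity)]
    refine Complex.continuous_re.comp_continuousOn ?_
    refine ContinuousOn.mul ?_ (by fun_prop)
    refine hdiff.continuousOn.comp (by fun_prop) ?_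
    intro y hy
    show R₀ < (cexp ((B : ℂ) + (y : ℂ) * I)).re
    rw [(exp_re_im B y).1]
    have := cos_ge hy.1 hy.2
    nlinarith [Real.exp_pos B]
  have hSc : Continuous S := by rw [hS]; fun_prop
  rw [← hSint, ← intervalIntegral.integral_sub hgc.intervalIntegrable (hSc.intervalIntegrable _ _)]
  have hb := intervalIntegral.norm_integral_le_of_norm_le_const (a := 0) (b := Real.pi / 3)
    (f := fun y => (g y).re - S y) (C := C * Real.exp (-(3 * B))) ?_
  · rw [Real.norm_eq_abs, sub_zero, abs_of_pos (by positivity : 0 < Real.pi / 3)] at hb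
    linarith
  · intro y hy
    rw [uIoc_of_le (by positivity)] at hy
    have hy0 : 0 ≤ y := hy.1.le
    set lam : ℂ := cexp ((B : ℂ) + (y : ℂ) * I) with hlam
    have hlam0 : lam ≠ 0 := Complex.exp_ne_zero _
    have hnorm : ‖lam‖ = Real.exp B := by rw [hlam, Complex.norm_exp]; simp
    have h1 := hexp lam (sec_exp hy0 hy.2) (by rw [hnorm]; exact hB)
    have hpow : cexp ((3 * m : ℕ) * ((B : ℂ) + (y : ℂ) * I)) = lam ^ (3 * m) := by
      rw [hlam, ← Complex.exp_nat_mul]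
    have hSre : S y = ((∑ j ∈ Finset.range (m + 1), ((b j : ℝ) : ℂ) * (lam ^ (3 * j))⁻¹) * lam ^ (3 * m)).re := by
      rw [hS, Finset.sum_mul, Complex.re_sum]
      refine Finset.sum_congr rfl ?_
      intro j hj
      have hjm : j ≤ m := by have := Finset.mem_range.mp hj; omega
      have e1 : ((b j : ℝ) : ℂ) * (lam ^ (3 * j))⁻¹ * lam ^ (3 * m) =
          ((b j : ℝ) : ℂ) * cexp (((((3 * (m - j) : ℕ) : ℝ) * B : ℝ) : ℂ) +
            ((((3 * (m - j) : ℕ) : ℝ) * y : ℝ) : ℂ) * I) := by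
        have e2 : lam ^ (3 * m) = lam ^ (3 * j) * lam ^ (3 * (m - j)) := by
          rw [← pow_add]; congr 1; omega
        have e3 : lam ^ (3 * (m - j)) = cexp (((((3 * (m - j) : ℕ) : ℝ) * B : ℝ) : ℂ) +
            ((((3 * (m - j) : ℕ) : ℝ) * y : ℝ) : ℂ) * I) := by
          rw [hlam, ← Complex.exp_nat_mul]
          congr 1
          push_cast
          ring
        rw [e2, ← e3]
        field_simp
      rw [e1, Complex.re_ofReal_mul, (exp_re_im _ _).1]
      ring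
    have h2 : (g y).re - S y = ((Ψ lam - ∑ j ∈ Finset.range (m + 1),
        ((b j : ℝ) : ℂ) * (lam ^ (3 * j))⁻¹) * lam ^ (3 * m)).re := by
      rw [hSre, ← Complex.sub_re]
      congr 1
      simp only [hg]
      rw [hpow]
      ring
    rw [h2, Real.norm_eq_abs]
    refine (Complex.abs_re_le_norm _).trans ?_
    rw [norm_mul, norm_pow, hnorm]
    rw [hnorm] at h1
    calc ‖Ψ lam - ∑ j ∈ Finset.range (m + 1), ((b j : ℝ) : ℂ) * (lam ^ (3 * j))⁻¹‖ * Real.exp B ^ (3 * m)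
        ≤ C / Real.exp B ^ (3 * (m + 1)) * Real.exp B ^ (3 * m) :=
          mul_le_mul_of_nonneg_right h1 (by positivity)
      _ = C * Real.exp (-(3 * B)) := by
          have e4 : Real.exp B ^ (3 * (m + 1)) = Real.exp B ^ (3 * m) * Real.exp B ^ 3 := by
            rw [← pow_add]; congr 1
          have e5 : Real.exp (-(3 * B)) = (Real.exp B ^ 3)⁻¹ := by
            rw [Real.exp_neg, ← Real.exp_nat_mul]; norm_num
          rw [e4, e5]
          field_simp

/-- the dispersion relation on a rectangle -/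
theorem disp (Ψ : ℂ → ℂ) (R₀ : ℝ) (hdiff : DifferentiableOn ℂ Ψ {lam | R₀ < lam.re}) (m : ℕ)
    (a B : ℝ) (haB : a ≤ B) (ha : 2 * R₀ < Real.exp a) :
    (∫ y in (0 : ℝ)..(Real.pi / 3),
      (Ψ (cexp ((B : ℂ) + (y : ℂ) * I)) * cexp ((3 * m : ℕ) * ((B : ℂ) + (y : ℂ) * I))).re) =
    (∫ y in (0 : ℝ)..(Real.pi / 3),
      (Ψ (cexp ((a : ℂ) + (y : ℂ) * I)) * cexp ((3 * m : ℕ) * ((a : ℂ) + (y : ℂ) * I))).re) -
    (∫ x in a..B, (Ψ ((Real.exp x : ℝ) : ℂ)).im * Real.exp ((3 * m : ℕ) * x)) +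
    (-1) ^ m * (∫ x in a..B, (Ψ (((Real.exp x : ℝ) : ℂ) * ze)).im * Real.exp ((3 * m : ℕ) * x)) := by
  have hpi := Real.pi_pos
  set g : ℂ → ℂ := fun ξ => Ψ (cexp ξ) * cexp ((3 * m : ℕ) * ξ) with hg
  have hre : ∀ x y : ℝ, a ≤ x → 0 ≤ y → y ≤ Real.pi / 3 → R₀ < (cexp ((x : ℂ) + (y : ℂ) * I)).re := by
    intro x y hx hy0 hy1
    rw [(exp_re_im x y).1]
    have h1 := cos_ge hy0 hy1
    have h2 := Real.exp_le_exp.mpr hx
    nlinarith [Real.exp_pos a, Real.exp_pos x]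
  have hopen : IsOpen {lam : ℂ | R₀ < lam.re} := isOpen_lt continuous_const Complex.continuous_re
  have hgd : ∀ ξ : ℂ, a ≤ ξ.re → 0 ≤ ξ.im → ξ.im ≤ Real.pi / 3 → DifferentiableAt ℂ g ξ := by
    intro ξ h1 h2 h3
    have h4 := hre ξ.re ξ.im h1 h2 h3
    rw [Complex.re_add_im] at h4
    have h5 : DifferentiableAt ℂ Ψ (cexp ξ) := (hdiff _ h4).differentiableAt (hopen.mem_nhds h4)
    exact (h5.comp ξ (Complex.differentiable_exp ξ)).mul (by fun_prop)
  have hH : DifferentiableOn ℂ g (uIcc (a : ℂ).re ((B : ℂ) + ((Real.pi / 3 : ℝ) : ℂ) * I).re ×ℂ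
      uIcc (a : ℂ).im ((B : ℂ) + ((Real.pi / 3 : ℝ) : ℂ) * I).im) := by
    intro ξ hξ
    rw [mem_reProdIm] at hξ
    have e1 : ((B : ℂ) + ((Real.pi / 3 : ℝ) : ℂ) * I).re = B := by simp
    have e2 : ((B : ℂ) + ((Real.pi / 3 : ℝ) : ℂ) * I).im = Real.pi / 3 := by simp
    rw [e1, e2, Complex.ofReal_re, Complex.ofReal_im, uIcc_of_le haB, uIcc_of_le (by positivity)] at hξ
    exact (hgd ξ hξ.1.1 hξ.2.1 hξ.2.2).differentiableWithinAt
  have hcau := Complex.integral_boundary_rect_eq_zero_of_differentiableOn g (a : ℂ)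
    ((B : ℂ) + ((Real.pi / 3 : ℝ) : ℂ) * I) hH
  have e1 : ((B : ℂ) + ((Real.pi / 3 : ℝ) : ℂ) * I).re = B := by simp
  have e2 : ((B : ℂ) + ((Real.pi / 3 : ℝ) : ℂ) * I).im = Real.pi / 3 := by simp
  rw [e1, e2, Complex.ofReal_re, Complex.ofReal_im] at hcau
  -- integrability
  have hcx : ∀ (y : ℝ), 0 ≤ y → y ≤ Real.pi / 3 →
      IntervalIntegrable (fun x : ℝ => g ((x : ℂ) + (y : ℂ) * I)) volume a B := by
    intro y h0 h1
    refine ContinuousOn.intervalIntegrable ?_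
    rw [uIcc_of_le haB]
    intro x hx
    refine ContinuousAt.continuousWithinAt ?_
    have := (hgd ((x : ℂ) + (y : ℂ) * I) (by simpa using hx.1) (by simpa using h0) (by simpa using h1)).continuousAt
    exact ContinuousAt.comp (f := fun x : ℝ => (x : ℂ) + (y : ℂ) * I) this (by fun_prop)
  have hcy : ∀ (x : ℝ), a ≤ x →
      IntervalIntegrable (fun y : ℝ => g ((x : ℂ) + (y : ℂ) * I)) volume 0 (Real.pi / 3) := by
    intro x h0
    refine ContinuousOn.intervalIntegrable ?_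
    rw [uIcc_of_le (by positivity)]
    intro y hy
    refine ContinuousAt.continuousWithinAt ?_
    have := (hgd ((x : ℂ) + (y : ℂ) * I) (by simpa using h0) (by simpa using hy.1) (by simpa using hy.2)).continuousAt
    exact ContinuousAt.comp (f := fun y : ℝ => (x : ℂ) + (y : ℂ) * I) this (by fun_prop)
  have him := congrArg Complex.im hcau
  simp only [Complex.sub_im, Complex.add_im, Complex.zero_im, smul_eq_mul, Complex.I_mul_im] at him
  have i1 : (∫ x in a..B, g ((x : ℂ) + ((0 : ℝ) : ℂ) * I)).im =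
      ∫ x in a..B, (Ψ ((Real.exp x : ℝ) : ℂ)).im * Real.exp ((3 * m : ℕ) * x) := by
    have := Complex.imCLM.intervalIntegral_comp_comm (hcx 0 le_rfl (by positivity))
    simp only [Complex.imCLM_apply] at this
    rw [← this]
    refine intervalIntegral.integral_congr fun x _ => ?_
    simp only [hg]
    have e3 : (x : ℂ) + ((0 : ℝ) : ℂ) * I = (x : ℂ) := by simp
    have e4 : cexp (((3 * m : ℕ) : ℂ) * (x : ℂ)) = ((Real.exp ((3 * m : ℕ) * x) : ℝ) : ℂ) := by
      push_cast; rfl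
    rw [e3, e4, ← Complex.ofReal_exp, Complex.im_mul_ofReal]
  have i2 : (∫ x in a..B, g ((x : ℂ) + ((Real.pi / 3 : ℝ) : ℂ) * I)).im =
      (-1) ^ m * ∫ x in a..B, (Ψ (((Real.exp x : ℝ) : ℂ) * ze)).im * Real.exp ((3 * m : ℕ) * x) := by
    have := Complex.imCLM.intervalIntegral_comp_comm (hcx (Real.pi / 3) (by positivity) le_rfl)
    simp only [Complex.imCLM_apply] at this
    rw [← this, ← intervalIntegral.integral_const_mul]
    refine intervalIntegral.integral_congr fun x _ => ?_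
    simp only [hg]
    have e3 : cexp ((x : ℂ) + ((Real.pi / 3 : ℝ) : ℂ) * I) = ((Real.exp x : ℝ) : ℂ) * ze := by
      rw [Complex.exp_add, ze_eq, Complex.ofReal_exp]
    have e4 : cexp (((3 * m : ℕ) : ℂ) * ((x : ℂ) + ((Real.pi / 3 : ℝ) : ℂ) * I)) =
        (((-1) ^ m * Real.exp ((3 * m : ℕ) * x) : ℝ) : ℂ) := by
      have e5 : ((3 * m : ℕ) : ℂ) * ((x : ℂ) + ((Real.pi / 3 : ℝ) : ℂ) * I) =
          ((((3 * m : ℕ) : ℝ) * x : ℝ) : ℂ) + (m : ℂ) * ((Real.pi : ℂ) * I) := by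
        push_cast; ring
      rw [e5, Complex.exp_add, Complex.exp_nat_mul, Complex.exp_pi_mul_I]
      push_cast
      ring
    rw [e3, e4, Complex.im_mul_ofReal]
    ring
  have i3 : ∀ x : ℝ, a ≤ x → (∫ y in (0 : ℝ)..(Real.pi / 3), g ((x : ℂ) + (y : ℂ) * I)).re =
      ∫ y in (0 : ℝ)..(Real.pi / 3),
        (Ψ (cexp ((x : ℂ) + (y : ℂ) * I)) * cexp ((3 * m : ℕ) * ((x : ℂ) + (y : ℂ) * I))).re := by
    intro x hx
    have := Complex.reCLM.intervalIntegral_comp_comm (hcy x hx)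
    simp only [Complex.reCLM_apply] at this
    rw [← this]
  rw [i1, i2, i3 B haB, i3 a le_rfl] at him
  linarith

end T12

open T12 in
theorem sign_of_coeffs (Ψ : ℂ → ℂ) (R₀ : ℝ) (b : ℕ → ℝ)
    (hdiff : DifferentiableOn ℂ Ψ {lam | R₀ < lam.re})
    (hexp : ∀ M : ℕ, ∃ C R : ℝ, 0 < R ∧ ∀ lam : ℂ, Sec lam → R ≤ ‖lam‖ →
      ‖Ψ lam - ∑ m ∈ Finset.range M, ((b m : ℝ) : ℂ) * (lam ^ (3 * m))⁻¹‖ ≤ C / ‖lam‖ ^ (3 * M))
    (s₀ s₁ c c₁ C₂ : ℝ) (N : ℕ) (hs₀ : 0 < s₀) (hs : s₀ < s₁) (hc : 0 < c)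
    (σ : ℝ) (hσ : σ = 1 ∨ σ = -1)
    (h7 : ∃ R : ℝ, ∀ Λ : ℝ, R ≤ Λ → c * Real.exp (-s₀ * Λ ^ 3 - c₁ * Λ) ≤ σ * (Ψ (Λ : ℂ)).im)
    (h8 : ∃ R : ℝ, ∀ Λ : ℝ, R ≤ Λ →
      |(Ψ ((Λ : ℂ) * ze)).im| ≤ C₂ * Λ ^ N * Real.exp (-s₁ * Λ ^ 3)) :
    ∃ m₀ : ℕ, ∀ m : ℕ, m₀ ≤ m → σ * b m < 0 := by
  obtain ⟨R7, h7⟩ := h7
  obtain ⟨R8, h8⟩ := h8
  have hpi := Real.pi_pos
  -- comparison of the two exponentials
  have hcmp : ∃ R9 : ℝ, ∀ Λ : ℝ, R9 ≤ Λ → C₂ * Λ ^ N * Real.exp (-s₁ * Λ ^ 3) ≤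
      1 / 2 * (c * Real.exp (-s₀ * Λ ^ 3 - c₁ * Λ)) := by
    have hδ : 0 < s₁ - s₀ := by linarith
    have ht : Tendsto (fun Λ : ℝ => Λ ^ N * Real.exp (-1 * Λ)) atTop (𝓝 0) := by
      have := Real.tendsto_pow_mul_exp_neg_atTop_nhds_zero N
      refine this.congr fun x => ?_
      simp
    have hpos : 0 < c / (2 * (|C₂| + 1)) := by positivity
    obtain ⟨R1, hR1⟩ := Filter.eventually_atTop.mp (ht.eventually (gt_mem_nhds hpos))
    refine ⟨max (max R1 1) ((|c₁| + 1) / (s₁ - s₀) + 1), fun Λ hΛ => ?_⟩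
    have hΛ1 : R1 ≤ Λ := le_trans (le_trans (le_max_left _ _) (le_max_left _ _)) hΛ
    have hΛ2 : 1 ≤ Λ := le_trans (le_trans (le_max_right _ _) (le_max_left _ _)) hΛ
    have hΛ3 : (|c₁| + 1) / (s₁ - s₀) ≤ Λ := by
      have := le_trans (le_max_right _ _) hΛ
      linarith
    have hΛ0 : 0 < Λ := by linarith
    have h1 := hR1 Λ hΛ1
    have h2 : (|c₁| + 1) ≤ (s₁ - s₀) * Λ := by
      rw [div_le_iff₀ hδ] at hΛ3; linarith
    have h3 : (|c₁| + 1) * Λ ≤ (s₁ - s₀) * Λ ^ 3 := by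
      have h4 : (|c₁| + 1) * Λ ≤ (s₁ - s₀) * Λ * Λ := mul_le_mul_of_nonneg_right h2 hΛ0.le
      have h5 : (s₁ - s₀) * Λ * Λ ≤ (s₁ - s₀) * Λ * Λ * Λ := le_mul_of_one_le_right (by positivity) hΛ2
      calc _ ≤ _ := h4
        _ ≤ _ := h5
        _ = _ := by ring
    have h6 : -s₁ * Λ ^ 3 ≤ (-s₀ * Λ ^ 3 - c₁ * Λ) + (-1 * Λ) := by
      have : c₁ * Λ ≤ |c₁| * Λ := mul_le_mul_of_nonneg_right (le_abs_self _) hΛ0.le
      nlinarith
    have h7' : Real.exp (-s₁ * Λ ^ 3) ≤ Real.exp (-s₀ * Λ ^ 3 - c₁ * Λ) * Real.exp (-1 * Λ) := by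
      rw [← Real.exp_add]; exact Real.exp_le_exp.mpr h6
    have h9 : |C₂| * (Λ ^ N * Real.exp (-1 * Λ)) ≤ 1 / 2 * c := by
      have h10 : (|C₂| + 1) * (Λ ^ N * Real.exp (-1 * Λ)) ≤ (|C₂| + 1) * (c / (2 * (|C₂| + 1))) :=
        mul_le_mul_of_nonneg_left h1.le (by positivity)
      have h11 : (|C₂| + 1) * (c / (2 * (|C₂| + 1))) = 1 / 2 * c := by field_simp
      have h12 : 0 ≤ Λ ^ N * Real.exp (-1 * Λ) := by positivity
      nlinarith
    calc C₂ * Λ ^ N * Real.exp (-s₁ * Λ ^ 3) ≤ |C₂| * Λ ^ N * Real.exp (-s₁ * Λ ^ 3) := by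
          refine mul_le_mul_of_nonneg_right ?_ (Real.exp_pos _).le
          exact mul_le_mul_of_nonneg_right (le_abs_self _) (by positivity)
      _ ≤ |C₂| * Λ ^ N * (Real.exp (-s₀ * Λ ^ 3 - c₁ * Λ) * Real.exp (-1 * Λ)) :=
          mul_le_mul_of_nonneg_left h7' (by positivity)
      _ = (|C₂| * (Λ ^ N * Real.exp (-1 * Λ))) * Real.exp (-s₀ * Λ ^ 3 - c₁ * Λ) := by ring
      _ ≤ (1 / 2 * c) * Real.exp (-s₀ * Λ ^ 3 - c₁ * Λ) :=
          mul_le_mul_of_nonneg_right h9 (Real.exp_pos _).le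
      _ = _ := by ring
  obtain ⟨R9, h9⟩ := hcmp
  -- the left end
  set R : ℝ := max (max R7 R8) (max R9 (max (2 * R₀ + 1) 1)) with hR
  have hR1 : 1 ≤ R := le_trans (le_max_right _ _) (le_trans (le_max_right _ _) (le_max_right _ _))
  set a : ℝ := Real.log R with ha
  have hea : Real.exp a = R := Real.exp_log (by linarith)
  have hx7 : ∀ x, a ≤ x → R7 ≤ Real.exp x := fun x hx =>
    le_trans (le_trans (le_trans (le_max_left _ _) (le_max_left _ _)) hea.symm.le) (Real.exp_le_exp.mpr hx)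
  have hx8 : ∀ x, a ≤ x → R8 ≤ Real.exp x := fun x hx =>
    le_trans (le_trans (le_trans (le_max_right _ _) (le_max_left _ _)) hea.symm.le) (Real.exp_le_exp.mpr hx)
  have hx9 : ∀ x, a ≤ x → R9 ≤ Real.exp x := fun x hx =>
    le_trans (le_trans (le_trans (le_max_left _ _) (le_max_right _ _)) hea.symm.le) (Real.exp_le_exp.mpr hx)
  have ha0 : 2 * R₀ < Real.exp a := by
    have : 2 * R₀ + 1 ≤ R := le_trans (le_max_left _ _) (le_trans (le_max_right _ _) (le_max_right _ _))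
    rw [hea]; linarith
  set D : ℝ → ℝ := fun x => σ * (Ψ ((Real.exp x : ℝ) : ℂ)).im - |(Ψ (((Real.exp x : ℝ) : ℂ) * ze)).im| with hD
  set d : ℝ → ℝ := fun x => 1 / 2 * (c * Real.exp (-s₀ * Real.exp x ^ 3 - c₁ * Real.exp x)) with hd
  have hDd : ∀ x, a ≤ x → d x ≤ D x := by
    intro x hx
    have h1 := h7 _ (hx7 x hx)
    have h2 := h8 _ (hx8 x hx)
    have h3 := h9 _ (hx9 x hx)
    simp only [hD, hd]
    linarith
  have hdpos : ∀ x, 0 < d x := fun x => by simp only [hd]; positivity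
  have hdc : Continuous d := by simp only [hd]; fun_prop
  obtain ⟨x₀, hx₀, hmin⟩ := isCompact_Icc.exists_isMinOn (nonempty_Icc.mpr (by linarith : a + 1 ≤ a + 2))
    hdc.continuousOn
  set d₀ : ℝ := d x₀ with hd₀
  have hd₀pos : 0 < d₀ := hdpos _
  -- a bound on the left arc
  have hopen : IsOpen {lam : ℂ | R₀ < lam.re} := isOpen_lt continuous_const Complex.continuous_re
  have harc : ContinuousOn (fun y : ℝ => Ψ (cexp ((a : ℂ) + (y : ℂ) * I))) (Icc 0 (Real.pi / 3)) := by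
    refine hdiff.continuousOn.comp (by fun_prop) ?_
    intro y hy
    show R₀ < (cexp ((a : ℂ) + (y : ℂ) * I)).re
    rw [(exp_re_im a y).1]
    have := cos_ge hy.1 hy.2
    nlinarith [Real.exp_pos a]
  obtain ⟨Sa, hSa⟩ := isCompact_Icc.exists_bound_of_continuousOn harc
  have hSa0 : 0 ≤ Sa := (norm_nonneg _).trans (hSa 0 ⟨le_rfl, by positivity⟩)
  -- choice of m₀
  obtain ⟨m₀, hm₀⟩ : ∃ m₀ : ℕ, Real.pi / 3 * Sa < d₀ * Real.exp ((3 * m₀ : ℕ) : ℝ) := by
    obtain ⟨n, hn⟩ := exists_nat_gt ((Real.pi / 3 * Sa) / d₀)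
    refine ⟨n, ?_⟩
    rw [div_lt_iff₀ hd₀pos] at hn
    have h1 : ((3 * n : ℕ) : ℝ) + 1 ≤ Real.exp ((3 * n : ℕ) : ℝ) := Real.add_one_le_exp _
    have h2 : (n : ℝ) ≤ ((3 * n : ℕ) : ℝ) := by push_cast; linarith [(Nat.cast_nonneg n : (0 : ℝ) ≤ n)]
    calc Real.pi / 3 * Sa < n * d₀ := hn
      _ ≤ Real.exp ((3 * n : ℕ) : ℝ) * d₀ := mul_le_mul_of_nonneg_right (by linarith) hd₀pos.le
      _ = _ := by ring
  refine ⟨m₀, fun m hm => ?_⟩
  obtain ⟨C, Rm, hRm, hexpm⟩ := hexp (m + 1)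
  -- the estimate for a finite rectangle
  have hfin : ∀ B : ℝ, a + 2 ≤ B → Rm ≤ Real.exp B →
      σ * (Real.pi / 3 * b m) ≤ Real.pi / 3 * Sa * Real.exp ((3 * m : ℕ) * a) -
        d₀ * Real.exp ((3 * m : ℕ) * (a + 1)) + (Real.pi / 3) * (C * Real.exp (-(3 * B))) := by
    intro B hB1 hB2
    have haB : a ≤ B := by linarith
    have hB0 : 2 * R₀ < Real.exp B := lt_of_lt_of_le ha0 (Real.exp_le_exp.mpr haB)
    have harcB := arc Ψ R₀ b hdiff m C Rm hexpm B hB2 hB0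
    have hdisp := disp Ψ R₀ hdiff m a B haB ha0
    set P := ∫ y in (0 : ℝ)..(Real.pi / 3),
      (Ψ (cexp ((B : ℂ) + (y : ℂ) * I)) * cexp ((3 * m : ℕ) * ((B : ℂ) + (y : ℂ) * I))).re with hP
    set Q := ∫ y in (0 : ℝ)..(Real.pi / 3),
      (Ψ (cexp ((a : ℂ) + (y : ℂ) * I)) * cexp ((3 * m : ℕ) * ((a : ℂ) + (y : ℂ) * I))).re with hQ
    set U := ∫ x in a..B, (Ψ ((Real.exp x : ℝ) : ℂ)).im * Real.exp ((3 * m : ℕ) * x) with hU
    set W := ∫ x in a..B, (Ψ (((Real.exp x : ℝ) : ℂ) * ze)).im * Real.exp ((3 * m : ℕ) * x) with hW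
    -- continuity on the rays
    have hc1 : ContinuousOn (fun x : ℝ => (Ψ ((Real.exp x : ℝ) : ℂ)).im) (Ici a) := by
      refine Complex.continuous_im.comp_continuousOn (hdiff.continuousOn.comp (by fun_prop) ?_)
      intro x hx
      show R₀ < ((Real.exp x : ℝ) : ℂ).re
      rw [Complex.ofReal_re]
      have := Real.exp_le_exp.mpr (show a ≤ x from hx)
      linarith [Real.exp_pos x]
    have hc2 : ContinuousOn (fun x : ℝ => (Ψ (((Real.exp x : ℝ) : ℂ) * ze)).im) (Ici a) := by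
      refine Complex.continuous_im.comp_continuousOn (hdiff.continuousOn.comp (by fun_prop) ?_)
      intro x hx
      show R₀ < (((Real.exp x : ℝ) : ℂ) * ze).re
      rw [Complex.re_ofReal_mul]
      have hz : ze.re = 1 / 2 := by
        rw [ze_eq, Complex.exp_ofReal_mul_I_re, Real.cos_pi_div_three]
      rw [hz]
      have := Real.exp_le_exp.mpr (show a ≤ x from hx)
      linarith
    have hcD : ContinuousOn D (Ici a) := (continuousOn_const.mul hc1).sub hc2.abs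
    have hce : Continuous (fun x : ℝ => Real.exp ((3 * m : ℕ) * x)) := by fun_prop
    have hii : ∀ {f : ℝ → ℝ}, ContinuousOn f (Ici a) → ∀ u v : ℝ, a ≤ u → u ≤ v →
        IntervalIntegrable (fun x => f x * Real.exp ((3 * m : ℕ) * x)) volume u v := by
      intro f hf u v hu huv
      refine ContinuousOn.intervalIntegrable ?_
      rw [uIcc_of_le huv]
      exact (hf.mono fun x hx => le_trans hu hx.1).mul hce.continuousOn
    -- combine the two integrals
    have hUW : -(σ * U) + σ * ((-1) ^ m * W) ≤ -∫ x in a..B, D x * Real.exp ((3 * m : ℕ) * x) := by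
      have h1 : σ * ((-1) ^ m * W) ≤ ∫ x in a..B, |(Ψ (((Real.exp x : ℝ) : ℂ) * ze)).im| *
          Real.exp ((3 * m : ℕ) * x) := by
        have h2 : |σ * ((-1) ^ m * W)| = |W| := by
          rw [abs_mul, abs_mul, abs_pow, abs_neg, abs_one, one_pow, one_mul]
          rcases hσ with h | h <;> rw [h] <;> simp
        refine (le_abs_self _).trans (h2.le.trans ?_)
        rw [hW]
        refine (intervalIntegral.abs_integral_le_integral_abs haB).trans (le_of_eq ?_)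
        refine intervalIntegral.integral_congr fun x _ => ?_
        rw [abs_mul, abs_of_pos (Real.exp_pos _)]
      have h3 : ∫ x in a..B, D x * Real.exp ((3 * m : ℕ) * x) = σ * U -
          ∫ x in a..B, |(Ψ (((Real.exp x : ℝ) : ℂ) * ze)).im| * Real.exp ((3 * m : ℕ) * x) := by
        rw [hU, ← intervalIntegral.integral_const_mul, ← intervalIntegral.integral_sub
          ((hii hc1 a B le_rfl haB).const_mul σ) (hii hc2.abs a B le_rfl haB)]
        refine intervalIntegral.integral_congr fun x _ => ?_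
        simp only [hD]
        ring
      rw [h3]
      linarith
    -- lower bound of the main integral
    have hDint : d₀ * Real.exp ((3 * m : ℕ) * (a + 1)) ≤ ∫ x in a..B, D x * Real.exp ((3 * m : ℕ) * x) := by
      have hadd1 := intervalIntegral.integral_add_adjacent_intervals
        (hii hcD a (a + 1) le_rfl (by linarith)) (hii hcD (a + 1) B (by linarith) (by linarith))
      have hadd2 := intervalIntegral.integral_add_adjacent_intervals
        (hii hcD (a + 1) (a + 2) (by linarith) (by linarith)) (hii hcD (a + 2) B (by linarith) (by linarith))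
      have hnn : ∀ u v : ℝ, a ≤ u → u ≤ v → 0 ≤ ∫ x in u..v, D x * Real.exp ((3 * m : ℕ) * x) := by
        intro u v hu huv
        refine intervalIntegral.integral_nonneg huv fun x hx => ?_
        exact mul_nonneg ((hdpos x).le.trans (hDd x (le_trans hu hx.1))) (Real.exp_pos _).le
      have hmid : d₀ * Real.exp ((3 * m : ℕ) * (a + 1)) ≤
          ∫ x in (a + 1)..(a + 2), D x * Real.exp ((3 * m : ℕ) * x) := by
        have h1 : ∫ _x in (a + 1)..(a + 2), d₀ * Real.exp ((3 * m : ℕ) * (a + 1)) =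
            d₀ * Real.exp ((3 * m : ℕ) * (a + 1)) := by
          rw [intervalIntegral.integral_const]
          norm_num
        rw [← h1]
        refine intervalIntegral.integral_mono_on (by linarith) (by simp)
          (hii hcD (a + 1) (a + 2) (by linarith) (by linarith)) fun x hx => ?_
        have h2 : d₀ ≤ D x := le_trans (hmin hx) (hDd x (by linarith [hx.1]))
        refine mul_le_mul h2 ?_ (Real.exp_pos _).le (hd₀pos.le.trans h2)
        exact Real.exp_le_exp.mpr (mul_le_mul_of_nonneg_left hx.1 (Nat.cast_nonneg _))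
      have h4 := hnn a (a + 1) le_rfl (by linarith)
      have h5 := hnn (a + 2) B (by linarith) (by linarith)
      linarith
    -- the left arc
    have hQb : |Q| ≤ Real.pi / 3 * Sa * Real.exp ((3 * m : ℕ) * a) := by
      have hb := intervalIntegral.norm_integral_le_of_norm_le_const (a := 0) (b := Real.pi / 3)
        (f := fun y : ℝ => (Ψ (cexp ((a : ℂ) + (y : ℂ) * I)) *
          cexp ((3 * m : ℕ) * ((a : ℂ) + (y : ℂ) * I))).re) (C := Sa * Real.exp ((3 * m : ℕ) * a)) ?_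
      · rw [Real.norm_eq_abs, sub_zero, abs_of_pos (by positivity : 0 < Real.pi / 3)] at hb
        rw [hQ]
        linarith
      · intro y hy
        rw [uIoc_of_le (by positivity)] at hy
        rw [Real.norm_eq_abs]
        refine (Complex.abs_re_le_norm _).trans ?_
        rw [norm_mul]
        have h1 := hSa y ⟨hy.1.le, hy.2⟩
        have h2 : ‖cexp ((3 * m : ℕ) * ((a : ℂ) + (y : ℂ) * I))‖ = Real.exp ((3 * m : ℕ) * a) := by
          rw [Complex.norm_exp]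
          congr 1
          simp
        rw [h2]
        exact mul_le_mul_of_nonneg_right h1 (Real.exp_pos _).le
    have hσP : σ * (Real.pi / 3 * b m) ≤ σ * P + (Real.pi / 3) * (C * Real.exp (-(3 * B))) := by
      have h1 := abs_le.mp harcB
      rcases hσ with h | h
      · rw [h]; linarith [h1.1]
      · rw [h]; linarith [h1.2]
    have hσQ : σ * Q ≤ Real.pi / 3 * Sa * Real.exp ((3 * m : ℕ) * a) := by
      have h1 := abs_le.mp hQb
      rcases hσ with h | h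
      · rw [h]; linarith [h1.2]
      · rw [h]; linarith [h1.1]
    have hσP2 : σ * P = σ * Q + (-(σ * U) + σ * ((-1) ^ m * W)) := by
      rw [hdisp]; ring
    linarith
  -- limit
  have hlim : Tendsto (fun B : ℝ => Real.pi / 3 * Sa * Real.exp ((3 * m : ℕ) * a) -
        d₀ * Real.exp ((3 * m : ℕ) * (a + 1)) + (Real.pi / 3) * (C * Real.exp (-(3 * B)))) atTop
      (𝓝 (Real.pi / 3 * Sa * Real.exp ((3 * m : ℕ) * a) -
        d₀ * Real.exp ((3 * m : ℕ) * (a + 1)) + (Real.pi / 3) * (C * 0))) := by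
    refine tendsto_const_nhds.add (tendsto_const_nhds.mul (tendsto_const_nhds.mul ?_))
    refine Real.tendsto_exp_neg_atTop_nhds_zero.comp ?_
    exact Filter.Tendsto.const_mul_atTop (by norm_num) tendsto_id
  have hlast : σ * (Real.pi / 3 * b m) ≤ Real.pi / 3 * Sa * Real.exp ((3 * m : ℕ) * a) -
        d₀ * Real.exp ((3 * m : ℕ) * (a + 1)) + (Real.pi / 3) * (C * 0) := by
    refine ge_of_tendsto hlim ?_
    have hRmB : ∀ᶠ B : ℝ in atTop, Rm ≤ Real.exp B := Real.tendsto_exp_atTop.eventually_ge_atTop Rm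
    filter_upwards [eventually_ge_atTop (a + 2), hRmB] with B h1 h2
    exact hfin B h1 h2
  have hexpm' : Real.exp ((3 * m : ℕ) * (a + 1)) = Real.exp ((3 * m : ℕ) * a) * Real.exp ((3 * m : ℕ) : ℝ) := by
    rw [← Real.exp_add]; congr 1; ring
  have hmm : Real.exp ((3 * m₀ : ℕ) : ℝ) ≤ Real.exp ((3 * m : ℕ) : ℝ) := by
    refine Real.exp_le_exp.mpr ?_
    exact_mod_cast (by omega : 3 * m₀ ≤ 3 * m)
  have hneg : Real.pi / 3 * Sa - d₀ * Real.exp ((3 * m : ℕ) : ℝ) < 0 := by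
    have := mul_le_mul_of_nonneg_left hmm hd₀pos.le
    linarith
  have hfinal : σ * (Real.pi / 3 * b m) < 0 := by
    refine lt_of_le_of_lt hlast ?_
    rw [hexpm']
    have : Real.pi / 3 * Sa * Real.exp ((3 * m : ℕ) * a) -
        d₀ * (Real.exp ((3 * m : ℕ) * a) * Real.exp ((3 * m : ℕ) : ℝ)) + Real.pi / 3 * (C * 0) =
        Real.exp ((3 * m : ℕ) * a) * (Real.pi / 3 * Sa - d₀ * Real.exp ((3 * m : ℕ) : ℝ)) := by ring
    rw [this]
    exact mul_neg_of_pos_of_neg (Real.exp_pos _) hneg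
  have : σ * (Real.pi / 3 * b m) = Real.pi / 3 * (σ * b m) := by ring
  rw [this] at hfinal
  exact neg_of_mul_neg_right hfinal (by positivity) 

end Pool.Agent.H140R2.FR
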