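import Pool.Agent.H140R2.FR.T08Analytic
import Pool.Agent.H140R2.FR.T09Expansion
import Pool.Agent.H140R2.FR.T10Ghost
import Pool.Agent.H140R2.FR.T11bBound
import Pool.Agent.H140R2.FR.T12Sign

/-! T16.  The main analytic theorem: the sums over cubic pairings alternate in sign. -/

set_option autoImplicit false

open Complex MeasureTheory Set Filter Topology

namespace Pool.Agent.H140R2.FR

theorem bcoef_sign (q : ℝ) (hq : 4 < q) (hq2 : (q - 2) ^ 2 < 4 * (q - 1))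
    (hnon : ∀ n : ℤ, (n : ℝ) ≠ q) :
    ∃ σ : ℝ, (σ = 1 ∨ σ = -1) ∧ ∃ m₀ : ℕ, ∀ m : ℕ, m₀ ≤ m → σ * bcoef q m < 0 := by
  obtain ⟨β, hβ⟩ := exists_logB
  have hq0 : 0 < q := by linarith
  obtain ⟨σ, hσ, c, c₁, R, hc, h7⟩ := ghost hβ q hq0 hnon
  obtain ⟨R₁, hR₁, h8a⟩ := Psi_im_eq hβ q hq
  obtain ⟨C, N, R₂, hR₂, h8b⟩ := XX_bound hβ q hq
  refine ⟨σ, hσ, ?_⟩
  set s₁ : ℝ := 1 / (3 * (q - 2) ^ 2) - 1 / (3 * q ^ 2) with hs₁
  obtain ⟨N', hN'⟩ := exists_nat_ge ((q - 1) / 2)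
  refine sign_of_coeffs (Psi β q) (2 * q) (bcoef q) (Psi_differentiableOn hβ q hq0)
    (fun M => Psi_expansion hβ q hq0 M) (1 / (3 * q ^ 2)) s₁ c c₁
    (q ^ (1 - q / 2) * Real.pi ^ (-(1 / 2 : ℝ)) * (1 / 2) * |C|) (N' + N) (by positivity) ?_ hc σ hσ ⟨R, h7⟩ ?_
  · have h2 : 0 < q - 2 := by linarith
    rw [hs₁, lt_sub_iff_add_lt, ← add_div, div_lt_div_iff₀ (by positivity) (by positivity)]
    nlinarith [sq_nonneg q, sq_nonneg (q - 2), mul_pos h2 h2]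
  · refine ⟨max (max R₁ R₂) 1, fun Λ hΛ => ?_⟩
    have hΛ1 : R₁ ≤ Λ := le_trans (le_trans (le_max_left _ _) (le_max_left _ _)) hΛ
    have hΛ2 : R₂ ≤ Λ := le_trans (le_trans (le_max_right _ _) (le_max_left _ _)) hΛ
    have hΛ3 : 1 ≤ Λ := le_trans (le_max_right _ _) hΛ
    have hX := h8b Λ hΛ2
    have hre : |(XX β q Λ).re| ≤ |C| * Λ ^ N * Real.exp (-(Λ ^ 3 / (3 * (q - 2) ^ 2))) := by
      refine le_trans (Complex.abs_re_le_norm _) (le_trans hX ?_)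
      gcongr
      exact le_abs_self C
    rw [h8a Λ hΛ1, abs_mul]
    have hpos : 0 ≤ q ^ (1 - q / 2) * Real.pi ^ (-(1 / 2 : ℝ)) * Λ ^ ((q - 1) / 2) *
          Real.exp (Λ ^ 3 / (3 * q ^ 2)) * (1 / 2) := by positivity
    rw [abs_of_nonneg hpos]
    have hpow : Λ ^ ((q - 1) / 2) ≤ Λ ^ N' := by
      rw [← Real.rpow_natCast]
      exact Real.rpow_le_rpow_of_exponent_le hΛ3 hN'
    have hexp : Real.exp (-s₁ * Λ ^ 3) = Real.exp (Λ ^ 3 / (3 * q ^ 2)) *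
        Real.exp (-(Λ ^ 3 / (3 * (q - 2) ^ 2))) := by
      rw [← Real.exp_add, hs₁]
      congr 1
      ring
    rw [hexp, pow_add]
    calc q ^ (1 - q / 2) * Real.pi ^ (-(1 / 2 : ℝ)) * Λ ^ ((q - 1) / 2) *
          Real.exp (Λ ^ 3 / (3 * q ^ 2)) * (1 / 2) * |(XX β q Λ).re|
        ≤ q ^ (1 - q / 2) * Real.pi ^ (-(1 / 2 : ℝ)) * Λ ^ N' *
          Real.exp (Λ ^ 3 / (3 * q ^ 2)) * (1 / 2) *
            (|C| * Λ ^ N * Real.exp (-(Λ ^ 3 / (3 * (q - 2) ^ 2)))) := by gcongr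
      _ = _ := by ring

end Pool.Agent.H140R2.FR
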