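import Mathlib
import Pool.Agent.H140R2.FR.CombMain
import Pool.Agent.H140R2.FR.CombR3
import Pool.Agent.H140R2.FR.T16Main

/-!
# Final assembly
-/

set_option autoImplicit false

open Finset Polynomial Filter Topology

namespace Pool.Agent.H140R2.FR

open Pool.Agent.Helper96.Flow

/-- for every non-integer `q` in `(4, 4+2√2)` some cubic multigraph, given by a pairing of half-edges,
has a negative value of its flow polynomial. -/
theorem exists_neg_cubic (q : ℝ) (hq : 4 < q) (hq2 : (q - 2) ^ 2 < 4 * (q - 1))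
    (hnon : ∀ n : ℤ, (n : ℝ) ≠ q) :
    ∃ m : ℕ, 1 ≤ m ∧ ∃ L ∈ pairings (3 * m) (hlist (2 * m)), aeval q (QL L) < 0 :=
  exists_neg_of_sign q (by linarith) (bcoef_sign q hq hq2 hnon)

theorem exists_nonint_btwn {a b : ℝ} (h : a < b) : ∃ q : ℝ, a < q ∧ q < b ∧ ∀ n : ℤ, (n : ℝ) ≠ q := by
  obtain ⟨q, hq, h1, h2⟩ : ∃ q : ℝ, Irrational q ∧ a < q ∧ q < b := exists_irrational_btwn h
  exact ⟨q, h1, h2, fun n hn => hq.ne_int n hn.symm⟩

/-- **Flow roots are dense in `[4, 4+2√2]`.** -/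
theorem flow_roots_dense (a b : ℝ) (ha : 4 ≤ a) (hab : a < b) (hb : b ≤ 4 + 2 * Real.sqrt 2) :
    ∃ (V : Type) (_ : Fintype V) (E : Type) (_ : Fintype E) (ends : E → Sym2 V),
      Bridgeless ends ∧ ∃ q : ℝ, a < q ∧ q < b ∧ aeval q (flowPoly ends) = 0 := by
  obtain ⟨q, h1, h2, h3⟩ := exists_nonint_btwn hab
  have hs : Real.sqrt 2 ^ 2 = 2 := Real.sq_sqrt (by norm_num)
  have hs0 : 0 ≤ Real.sqrt 2 := Real.sqrt_nonneg 2
  have hq2 : (q - 2) ^ 2 < 4 * (q - 1) := by nlinarith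
  obtain ⟨m, _, L, _, hL⟩ := exists_neg_cubic q (by linarith) hq2 h3
  exact root_near q a b (by linarith) h1 h2 L hL

/-- **The real zeros of the dichromatic polynomial are dense in the part `4 ≤ q ≤ 4+2√2` of the
region `v < -q`.** -/
theorem dichr_zeros_dense (q v ε : ℝ) (hq : 4 ≤ q) (hq2 : q ≤ 4 + 2 * Real.sqrt 2) (hv : v < -q)
    (hε : 0 < ε) :
    ∃ (V : Type) (_ : Fintype V) (E : Type) (_ : Fintype E) (ends : E → Sym2 V) (q' v' : ℝ),
      |q' - q| < ε ∧ |v' - v| < ε ∧ dichr ends q' v' = 0 := by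
  have hs : Real.sqrt 2 ^ 2 = 2 := Real.sq_sqrt (by norm_num)
  have hs0 : 0 < Real.sqrt 2 := Real.sqrt_pos.2 (by norm_num)
  have hδ : 0 < min ε (-v - q) := lt_min hε (by linarith)
  set δ := min ε (-v - q) with hδdef
  have hab : max 4 (q - δ) < min (4 + 2 * Real.sqrt 2) (q + δ) := by
    rw [max_lt_iff, lt_min_iff, lt_min_iff]
    refine ⟨⟨by linarith, by linarith⟩, ⟨by linarith, by linarith⟩⟩
  obtain ⟨q₀, h1, h2, h3⟩ := exists_nonint_btwn hab
  rw [max_lt_iff] at h1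
  rw [lt_min_iff] at h2
  have hd1 : δ ≤ ε := min_le_left _ _
  have hd2 : δ ≤ -v - q := min_le_right _ _
  have hq3 : (q₀ - 2) ^ 2 < 4 * (q₀ - 1) := by nlinarith
  obtain ⟨m, _, L, _, hL⟩ := exists_neg_cubic q₀ h1.1 hq3 h3
  obtain ⟨V', i1, E', i2, ends, v', e1, _, e3⟩ :=
    zero_near q₀ (by linarith [h1.1]) L hL v ε (by linarith [h2.2]) hε
  refine ⟨V', i1, E', i2, ends, q₀, v', ?_, e1, e3⟩
  rw [abs_lt]
  constructor
  · linarith [h1.2]
  · linarith [h2.2]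

end Pool.Agent.H140R2.FR
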