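import Mathlib
import Pool.Agent.H140R2.FR.CombMain
import Pool.Agent.H140R2.FR.CombZ

/-!
# Product identity for flow polynomials and the gap theorem (C5)

`F(G, x y) = ∑_{A ⊆ E} F(G|A, x) y^(nullity A) F(G/A, y)`; hence the set of reals at which all
bridgeless multigraphs have a positive flow polynomial is closed under multiplication, also by
positive integers, and a root-free interval `(a, b)`, `a ≥ 3`, forces `F(G, q) > 0` for all
`q > a b / (b - a)`.  (Idea of the product identity: helper124.)
-/

set_option autoImplicit false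

open Finset Polynomial

namespace Pool.Agent.H140R2.FR

open Pool.Agent.Helper96.Flow

section prod

variable {V E : Type}

theorem exists_orient (ends : E → Sym2 V) :
    ∃ src tgt : E → V, ends = fun e => s(src e, tgt e) := by
  refine ⟨fun e => (Quot.out (ends e)).1, fun e => (Quot.out (ends e)).2, ?_⟩
  funext e
  exact (Quot.out_eq (ends e)).symm

/-- nullity of an edge set -/
noncomputable def nu [Fintype V] (ends : E → Sym2 V) (A : Finset E) : ℕ :=
  A.card + kc ends (A : Set E) - Fintype.card V

theorem card_le_null [Fintype V] [Fintype E] (ends : E → Sym2 V) (A : Finset E) :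
    Fintype.card V ≤ A.card + kc ends (A : Set E) := by
  classical
  obtain ⟨src, tgt, rfl⟩ := exists_orient ends
  rw [kc_eq_quot]
  exact rank_bound src tgt A

/-- the restriction `G|A` -/
def resG (ends : E → Sym2 V) (A : Finset E) : {e // e ∈ A} → Sym2 V := fun e => ends e.1

/-- the vertices of the contraction `G/A` -/
abbrev Cp (ends : E → Sym2 V) (A : Finset E) : Type :=
  (SimpleGraph.fromEdgeSet (ends '' (A : Set E))).ConnectedComponent

/-- the contraction `G/A` -/
def conG (ends : E → Sym2 V) (A : Finset E) : {e // e ∉ A} → Sym2 (Cp ends A) :=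
  fun e => (ends e.1).map (SimpleGraph.connectedComponentMk _)

noncomputable instance [Fintype V] (ends : E → Sym2 V) (A : Finset E) : Fintype (Cp ends A) :=
  have : Finite (Cp ends A) := Quot.finite _
  Fintype.ofFinite _

theorem card_Cp [Fintype V] (ends : E → Sym2 V) (A : Finset E) :
    Fintype.card (Cp ends A) = kc ends (A : Set E) := by
  rw [kc, Nat.card_eq_fintype_card]

theorem kc_res (ends : E → Sym2 V) (A : Finset E) (B : Finset {e // e ∈ A}) :
    kc (resG ends A) (B : Set {e // e ∈ A}) =
      kc ends ((B.map (Function.Embedding.subtype _) : Finset E) : Set E) := by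
  unfold kc
  have : resG ends A '' (B : Set {e // e ∈ A}) =
      ends '' ((B.map (Function.Embedding.subtype _) : Finset E) : Set E) := by
    rw [Finset.coe_map, Set.image_image]
    rfl
  rw [this]

theorem kc_con [Fintype V] (ends : E → Sym2 V) (A : Finset E) (B : Finset {e // e ∉ A}) :
    kc (conG ends A) (B : Set {e // e ∉ A}) =
      kc ends ((A : Set E) ∪ ((B.map (Function.Embedding.subtype _) : Finset E) : Set E)) := by
  classical
  have h1 := count_cc (conG ends A) (B : Set {e // e ∉ A}) (ZMod 2)
  have h2 := count_cc ends ((A : Set E) ∪ ((B.map (Function.Embedding.subtype _) : Finset E) : Set E))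
    (ZMod 2)
  have e : {s : Cp ends A → ZMod 2 // Cst (conG ends A) (B : Set {e // e ∉ A}) s} ≃
      {t : V → ZMod 2 // Cst ends ((A : Set E) ∪
        ((B.map (Function.Embedding.subtype _) : Finset E) : Set E)) t} :=
    { toFun := fun s => ⟨fun v => s.1 (SimpleGraph.connectedComponentMk _ v), by
        intro e he a b hab
        rcases he with he | he
        · exact congrArg s.1
            (SimpleGraph.ConnectedComponent.sound (reachable_of_edge ends (A : Set E) he hab))
        · rw [Finset.coe_map] at he
          obtain ⟨e', he', rfl⟩ := he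
          refine s.2 e' he' _ _ ?_
          show (ends e'.1).map _ = _
          have : ends e'.1 = s(a, b) := hab
          rw [this]
          rfl⟩
      invFun := fun t => ⟨fun c => Quot.lift t.1 (fun a b hab =>
          cst_of_reachable ends (A : Set E) t.1
            (fun e he a b h => t.2 e (Or.inl he) a b h) hab) c, by
        intro e he c d hcd
        obtain ⟨a, b, hab⟩ : ∃ a b, ends e.1 = s(a, b) := by
          induction hz : ends e.1 using Sym2.ind with
          | _ x y => exact ⟨x, y, rfl⟩
        have h3 : conG ends A e = s(SimpleGraph.connectedComponentMk _ a,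
            SimpleGraph.connectedComponentMk _ b) := by
          show (ends e.1).map _ = _
          rw [hab]
          rfl
        have h4 : t.1 a = t.1 b := t.2 e.1 (Or.inr (by
          rw [Finset.coe_map]
          exact ⟨e, he, rfl⟩)) a b hab
        rw [h3, Sym2.eq_iff] at hcd
        rcases hcd with ⟨rfl, rfl⟩ | ⟨rfl, rfl⟩
        · exact h4
        · exact h4.symm⟩
      left_inv := fun s => by
        apply Subtype.ext
        funext c
        induction c using Quot.ind
        rfl
      right_inv := fun t => rfl }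
  rw [Nat.card_congr e, h2, Nat.card_zmod] at h1
  exact (Nat.pow_right_injective le_rfl h1).symm

/-- evaluation of the flow polynomial -/
noncomputable def Fv [Fintype V] [Fintype E] (ends : E → Sym2 V) (z : ℝ) : ℝ :=
  ∑ A ∈ (univ : Finset E).powerset, (-1 : ℝ) ^ (Fintype.card E - A.card) * z ^ nu ends A

theorem Fv_eq [Fintype V] [Fintype E] (ends : E → Sym2 V) (z : ℝ) :
    Fv ends z = aeval z (flowPoly ends) := by
  rw [flowPoly, map_sum, Fv]
  refine Finset.sum_congr rfl fun A _ => ?_
  rw [map_mul, aeval_C, map_pow, map_pow, aeval_X, nu]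
  simp

theorem Fv_res [Fintype V] [Fintype E] [DecidableEq E] (ends : E → Sym2 V) (A : Finset E) (x : ℝ) :
    Fv (resG ends A) x = ∑ B ∈ A.powerset, (-1 : ℝ) ^ (A.card - B.card) * x ^ nu ends B := by
  rw [Fv]
  refine Finset.sum_nbij' (fun B => B.map (Function.Embedding.subtype _))
    (fun B => B.subtype (· ∈ A)) ?_ ?_ ?_ ?_ ?_
  · intro B _
    rw [Finset.mem_powerset]
    intro e he
    rw [Finset.mem_map] at he
    obtain ⟨e', _, rfl⟩ := he
    exact e'.2
  · intro B _
    exact Finset.mem_powerset.2 (Finset.subset_univ _)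
  · intro B _
    ext e
    simp
  · intro B hB
    rw [Finset.mem_powerset] at hB
    ext e
    simp only [Finset.mem_map, Finset.mem_subtype, Function.Embedding.coe_subtype]
    constructor
    · rintro ⟨e', h, rfl⟩
      exact h
    · intro h
      exact ⟨⟨e, hB h⟩, h, rfl⟩
  · intro B _
    rw [Fintype.card_coe, Finset.card_map]
    congr 2
    rw [nu, nu, kc_res, Finset.card_map]

theorem nu_con [Fintype V] [Fintype E] [DecidableEq E] (ends : E → Sym2 V) (A : Finset E)
    (B : Finset {e // e ∉ A}) :
    nu (conG ends A) B + nu ends A =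
      nu ends (A ∪ B.map (Function.Embedding.subtype _)) := by
  have h1 := card_le_null ends A
  have h2 := card_le_null (conG ends A) B
  have h3 : (A ∪ B.map (Function.Embedding.subtype _)).card = A.card + B.card := by
    rw [Finset.card_union_of_disjoint, Finset.card_map]
    rw [Finset.disjoint_left]
    intro e he he'
    rw [Finset.mem_map] at he'
    obtain ⟨e', _, rfl⟩ := he'
    exact e'.2 he
  have h4 := kc_con ends A B
  rw [card_Cp] at h2
  rw [nu, nu, nu, card_Cp, h3, Finset.coe_union, ← h4]
  omega

theorem Fv_con [Fintype V] [Fintype E] [DecidableEq E] (ends : E → Sym2 V) (A : Finset E) (y : ℝ) :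
    Fv (conG ends A) y * y ^ nu ends A =
      ∑ C ∈ (univ : Finset E).powerset with A ⊆ C,
        (-1 : ℝ) ^ (Fintype.card E - C.card) * y ^ nu ends C := by
  rw [Fv, Finset.sum_mul]
  refine Finset.sum_nbij' (fun B => A ∪ B.map (Function.Embedding.subtype _))
    (fun C => C.subtype (· ∉ A)) ?_ ?_ ?_ ?_ ?_
  · intro B _
    simp
  · intro C _
    simp
  · intro B _
    ext e
    simp only [Finset.mem_subtype, Finset.mem_union, Finset.mem_map,
      Function.Embedding.coe_subtype]
    constructor
    · rintro (h | ⟨e', h, h'⟩)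
      · exact absurd h e.2
      · rwa [← Subtype.ext h']
    · intro h
      exact Or.inr ⟨e, h, rfl⟩
  · intro C hC
    rw [Finset.mem_filter] at hC
    ext e
    simp only [Finset.mem_subtype, Finset.mem_union, Finset.mem_map,
      Function.Embedding.coe_subtype]
    constructor
    · rintro (h | ⟨e', h, rfl⟩)
      · exact hC.2 h
      · exact h
    · intro h
      by_cases he : e ∈ A
      · exact Or.inl he
      · exact Or.inr ⟨⟨e, he⟩, h, rfl⟩
  · intro B _
    have h3 : (A ∪ B.map (Function.Embedding.subtype _)).card = A.card + B.card := by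
      rw [Finset.card_union_of_disjoint, Finset.card_map]
      rw [Finset.disjoint_left]
      intro e he he'
      rw [Finset.mem_map] at he'
      obtain ⟨e', _, rfl⟩ := he'
      exact e'.2 he
    have h5 : Fintype.card {e // e ∉ A} = Fintype.card E - A.card := by
      rw [Fintype.card_subtype_compl]
      simp
    rw [← nu_con, pow_add, h3, h5, mul_assoc, Nat.sub_sub]

theorem alt_sum [DecidableEq E] (B C : Finset E) :
    ∑ A ∈ C.powerset with B ⊆ A, (-1 : ℝ) ^ (A.card - B.card) = if B = C then 1 else 0 := by
  by_cases hBC : B ⊆ C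
  · have h1 : ∑ A ∈ C.powerset with B ⊆ A, (-1 : ℝ) ^ (A.card - B.card) =
        ∑ D ∈ (C \ B).powerset, (-1 : ℝ) ^ D.card := by
      refine Finset.sum_nbij' (fun A => A \ B) (fun D => B ∪ D) ?_ ?_ ?_ ?_ ?_
      · intro A hA
        rw [Finset.mem_filter, Finset.mem_powerset] at hA
        rw [Finset.mem_powerset]
        exact Finset.sdiff_subset_sdiff hA.1 (Finset.Subset.refl B)
      · intro D hD
        rw [Finset.mem_powerset] at hD
        rw [Finset.mem_filter, Finset.mem_powerset]
        exact ⟨Finset.union_subset hBC (hD.trans Finset.sdiff_subset), Finset.subset_union_left⟩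
      · intro A hA
        rw [Finset.mem_filter] at hA
        exact Finset.union_sdiff_of_subset hA.2
      · intro D hD
        rw [Finset.mem_powerset] at hD
        apply Finset.union_sdiff_cancel_left
        rw [Finset.disjoint_left]
        intro e he he'
        exact (Finset.mem_sdiff.1 (hD he')).2 he
      · intro A hA
        rw [Finset.mem_filter] at hA
        rw [Finset.card_sdiff_of_subset hA.2]
    rw [h1]
    have h2 := Finset.sum_powerset_neg_one_pow_card (x := C \ B)
    have h3 : ∑ D ∈ (C \ B).powerset, (-1 : ℝ) ^ D.card =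
        ((∑ D ∈ (C \ B).powerset, (-1 : ℤ) ^ D.card : ℤ) : ℝ) := by push_cast; rfl
    rw [h3, h2]
    by_cases h : B = C
    · subst h
      simp
    · rw [if_neg h, if_neg]
      · simp
      · intro h'
        rw [Finset.sdiff_eq_empty_iff_subset] at h'
        exact h (Finset.Subset.antisymm hBC h')
  · have hne : B ≠ C := fun h => hBC (by rw [h])
    rw [if_neg hne, Finset.sum_eq_zero]
    intro A hA
    rw [Finset.mem_filter, Finset.mem_powerset] at hA
    exact absurd (hA.2.trans hA.1) hBC

/-- **Product identity.** -/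
theorem Fv_mul [Fintype V] [Fintype E] [DecidableEq E] (ends : E → Sym2 V) (x y : ℝ) :
    Fv ends (x * y) = ∑ A ∈ (univ : Finset E).powerset,
      Fv (resG ends A) x * (Fv (conG ends A) y * y ^ nu ends A) := by
  simp only [Fv_res, Fv_con, Finset.sum_mul_sum]
  have h1 : ∀ A : Finset E, A ∈ (univ : Finset E).powerset →
      (∑ B ∈ A.powerset, ∑ C ∈ (univ : Finset E).powerset with A ⊆ C,
        (-1 : ℝ) ^ (A.card - B.card) * x ^ nu ends B *
          ((-1 : ℝ) ^ (Fintype.card E - C.card) * y ^ nu ends C)) =
      ∑ B ∈ (univ : Finset E).powerset, ∑ C ∈ (univ : Finset E).powerset,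
        if B ⊆ A ∧ A ⊆ C then (-1 : ℝ) ^ (A.card - B.card) * x ^ nu ends B *
          ((-1 : ℝ) ^ (Fintype.card E - C.card) * y ^ nu ends C) else 0 := by
    intro A _
    have h2 : A.powerset = (univ : Finset E).powerset.filter (fun B => B ⊆ A) := by
      ext B
      simp
    rw [h2, Finset.sum_filter]
    refine Finset.sum_congr rfl fun B _ => ?_
    by_cases hB : B ⊆ A
    · rw [if_pos hB, Finset.sum_filter]
      refine Finset.sum_congr rfl fun C _ => ?_
      simp [hB]
    · rw [if_neg hB, Finset.sum_eq_zero]
      intro C _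
      rw [if_neg (fun h => hB h.1)]
  rw [Finset.sum_congr rfl h1, Finset.sum_comm]
  rw [Fv]
  refine Finset.sum_congr rfl fun B _ => ?_
  rw [Finset.sum_comm]
  have h3 : ∀ C : Finset E, C ∈ (univ : Finset E).powerset →
      (∑ A ∈ (univ : Finset E).powerset, if B ⊆ A ∧ A ⊆ C then
        (-1 : ℝ) ^ (A.card - B.card) * x ^ nu ends B *
          ((-1 : ℝ) ^ (Fintype.card E - C.card) * y ^ nu ends C) else 0) =
      if B = C then x ^ nu ends B *
          ((-1 : ℝ) ^ (Fintype.card E - C.card) * y ^ nu ends C) else 0 := by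
    intro C _
    have h4 := alt_sum B C
    have h5 : (∑ A ∈ (univ : Finset E).powerset, if B ⊆ A ∧ A ⊆ C then
        (-1 : ℝ) ^ (A.card - B.card) * x ^ nu ends B *
          ((-1 : ℝ) ^ (Fintype.card E - C.card) * y ^ nu ends C) else 0) =
        (∑ A ∈ C.powerset with B ⊆ A, (-1 : ℝ) ^ (A.card - B.card)) * (x ^ nu ends B *
          ((-1 : ℝ) ^ (Fintype.card E - C.card) * y ^ nu ends C)) := by
      rw [Finset.sum_mul, ← Finset.sum_filter]
      refine Finset.sum_congr ?_ fun A _ => by ring
      ext A
      simp [and_comm]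
    rw [h5, h4]
    split_ifs with h
    · rw [one_mul]
    · rw [zero_mul]
  rw [Finset.sum_congr rfl h3]
  rw [Finset.sum_ite_eq, if_pos (by simp)]
  rw [mul_pow]
  ring

/-- the set of reals at which all bridgeless multigraphs have a positive flow polynomial -/
def AllPos (q : ℝ) : Prop :=
  ∀ (V E : Type) [Fintype V] [Fintype E] (ends : E → Sym2 V), Bridgeless ends → 0 < Fv ends q

def AllNonneg (q : ℝ) : Prop :=
  ∀ (V E : Type) [Fintype V] [Fintype E] (ends : E → Sym2 V), 0 ≤ Fv ends q

theorem AllPos.nonneg {q : ℝ} (h : AllPos q) : AllNonneg q := by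
  intro V E _ _ ends
  by_cases hb : Bridgeless ends
  · exact (h V E ends hb).le
  · have h0 : flowPoly ends = 0 := by
      by_contra hne
      exact hb (bridgeless_of_ne_zero ends hne)
    rw [Fv_eq, h0, map_zero]

theorem allNonneg_nat (k : ℕ) (hk : 1 ≤ k) : AllNonneg (k : ℝ) := by
  intro V E _ _ ends
  classical
  obtain ⟨src, tgt, rfl⟩ := exists_orient ends
  rw [Fv_eq]
  have h := flowPoly_spec src tgt k hk
  have h2 : aeval (k : ℝ) (flowPoly (fun e => s(src e, tgt e))) =
      (((flowPoly (fun e => s(src e, tgt e))).eval (k : ℤ) : ℤ) : ℝ) := by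
    rw [show ((k : ℝ)) = ((k : ℤ) : ℝ) by norm_cast]
    rw [Polynomial.aeval_def, Polynomial.eval₂_at_intCast]
    simp
  rw [h2, h]
  positivity

theorem Fv_res_empty [Fintype V] [Fintype E] [DecidableEq E] (ends : E → Sym2 V) (x : ℝ) :
    Fv (resG ends ∅) x = 1 := by
  rw [Fv_res]
  have h1 := card_le_null ends ∅
  have h2 : kc ends ((∅ : Finset E) : Set E) = Fintype.card V := by
    have h3 := count_cc ends ((∅ : Finset E) : Set E) (ZMod 2)
    have h4 : Nat.card {s : V → ZMod 2 // Cst ends ((∅ : Finset E) : Set E) s} =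
        2 ^ Fintype.card V := by
      have : Nat.card {s : V → ZMod 2 // Cst ends ((∅ : Finset E) : Set E) s} =
          Nat.card (V → ZMod 2) := by
        apply Nat.card_congr
        apply Equiv.subtypeUnivEquiv
        intro s e he
        simp at he
      rw [this, Nat.card_fun, Nat.card_zmod, Nat.card_eq_fintype_card]
    rw [h4, Nat.card_zmod] at h3
    exact (Nat.pow_right_injective le_rfl h3).symm
  have h3 : nu ends ∅ = 0 := by
    rw [nu, h2]
    simp
  simp [h3]

theorem Fv_con_empty [Fintype V] [Fintype E] [DecidableEq E] (ends : E → Sym2 V) (y : ℝ) :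
    Fv (conG ends ∅) y * y ^ nu ends ∅ = Fv ends y := by
  rw [Fv_con, Fv]
  refine Finset.sum_congr ?_ fun _ _ => rfl
  ext C
  simp

theorem AllNonneg.mul {x y : ℝ} (hy0 : 0 < y) (hx : AllNonneg x) (hy : AllPos y) :
    AllPos (x * y) := by
  intro V E _ _ ends hb
  classical
  rw [Fv_mul]
  have h0 : ∀ A ∈ (univ : Finset E).powerset,
      0 ≤ Fv (resG ends A) x * (Fv (conG ends A) y * y ^ nu ends A) := by
    intro A _
    have h1 := hx V _ (resG ends A)
    have h2 := hy.nonneg _ _ (conG ends A)
    positivity
  have h3 := Finset.single_le_sum h0 (Finset.mem_powerset.2 (Finset.empty_subset _))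
  rw [Fv_res_empty, Fv_con_empty, one_mul] at h3
  exact lt_of_lt_of_le (hy V E ends hb) h3

theorem exists_list [Fintype V] [DecidableEq V] [Fintype E] (ends : E → Sym2 V) :
    ∃ L : List (V × V), QL L = flowPoly ends := by
  classical
  obtain ⟨src, tgt, rfl⟩ := exists_orient ends
  refine ⟨(univ : Finset E).toList.map (fun e => (src e, tgt e)), ?_⟩
  apply poly_eq_of_nat
  intro k hk
  have hk0 : (k : ℤ) ^ Fintype.card V ≠ 0 := by
    apply pow_ne_zero
    exact_mod_cast (by omega : k ≠ 0)
  apply mul_left_cancel₀ hk0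
  rw [QL_pottsZ k hk, flowPoly_spec src tgt k hk, potts src tgt k hk]
  refine Finset.sum_congr rfl fun σ _ => ?_
  rw [List.map_map]
  exact Finset.prod_map_toList univ (wz k σ ∘ fun e => (src e, tgt e))

/-- a root-free interval is contained in the positivity set -/
theorem pos_of_rootfree {a b : ℝ} (ha : 3 ≤ a)
    (h : ∀ (V E : Type) [Fintype V] [Fintype E] (ends : E → Sym2 V), Bridgeless ends →
      ∀ q : ℝ, a < q → q < b → Fv ends q ≠ 0) (q : ℝ) (h1 : a < q) (h2 : q < b) : AllPos q := by
  intro V E _ _ ends hb
  classical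
  by_contra hneg
  rw [not_lt] at hneg
  have h3 := h V E ends hb q h1 h2
  have h4 : Fv ends q < 0 := lt_of_le_of_ne hneg h3
  obtain ⟨L, hL⟩ := exists_list ends
  rw [Fv_eq, ← hL] at h4
  obtain ⟨V', i1, E', i2, ends', hb', q', h5, h6, h7⟩ := root_near q a b ha h1 h2 L h4
  have := h V' E' ends' hb' q' h5 h6
  rw [Fv_eq] at this
  exact this h7

/-- **Gap theorem.** -/
theorem gap {a b : ℝ} (ha : 3 ≤ a) (hab : a < b)
    (h : ∀ (V E : Type) [Fintype V] [Fintype E] (ends : E → Sym2 V), Bridgeless ends →
      ∀ q : ℝ, a < q → q < b → Fv ends q ≠ 0) (q : ℝ) (hq : a * b / (b - a) < q) : AllPos q := by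
  have hb : 0 < b := by linarith
  have ha0 : 0 < a := by linarith
  have hba : 0 < b - a := by linarith
  rw [div_lt_iff₀ hba] at hq
  have hq0 : 0 < q := by
    by_contra hneg
    nlinarith [mul_pos ha0 hb]
  obtain ⟨k, hk1, hk2⟩ : ∃ k : ℕ, q / b < k ∧ (k : ℝ) < q / a := by
    refine ⟨⌊q / b⌋₊ + 1, ?_, ?_⟩
    · push_cast
      exact Nat.lt_floor_add_one _
    · have h1 : (⌊q / b⌋₊ : ℝ) ≤ q / b := Nat.floor_le (by positivity)
      have h2 : q / b + 1 < q / a := by
        rw [lt_div_iff₀ ha0]
        have : (q / b + 1) * a * b < q * b := by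
          have : (q / b + 1) * a * b = q * a + a * b := by field_simp
          rw [this]
          nlinarith
        exact lt_of_mul_lt_mul_right this hb.le
      push_cast
      linarith
  rw [div_lt_iff₀ hb] at hk1
  rw [lt_div_iff₀ ha0] at hk2
  have hk0 : 0 < (k : ℝ) := by
    by_contra hneg
    have : (k : ℝ) * b ≤ 0 := mul_nonpos_of_nonpos_of_nonneg (not_lt.1 hneg) hb.le
    linarith
  have hk : 1 ≤ k := by
    have : 0 < k := by exact_mod_cast hk0
    omega
  have h1 : AllPos (q / k) := by
    apply pos_of_rootfree ha h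
    · rw [lt_div_iff₀ hk0]
      linarith
    · rw [div_lt_iff₀ hk0]
      linarith
  have h2 := AllNonneg.mul (by positivity) (allNonneg_nat k hk) h1
  rwa [mul_div_cancel₀ _ hk0.ne'] at h2

end prod

end Pool.Agent.H140R2.FR
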