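import Pool.Agent.H140R2.FR.Defs

/-!
T01.  Basic facts on the Airy function `Ai z = (1/2π) ∫ exp(i((s+i)³/3 + z(s+i))) ds`.

Sketch.  `|exp(i((s+i)³/3 + z(s+i)))| = exp(1/3 - s² - s·Im z - Re z)`, so everything converges locally
uniformly in `z` with a Gaussian; differentiate under the integral sign.
ODE: `Ai'' - z Ai = (1/2π)∫ -((s+i)² + z) e^{..} ds = (1/2π) ∫ i d/ds(e^{..}) ds = 0`
(`MeasureTheory.integral_eq_zero_of_hasDerivAt_of_integrable`).
`Ai (conj z) = conj (Ai z)`: substitute `s → -s`.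
`Ai_sq`: the integral over the line through `w0` does not depend on `w0` in the upper half plane
(its derivative in `w0` is `∫ g'(s+w0) ds = 0`); take `w0 = i p`, and
`i((y+ip)³/3 + p²(y+ip)) = i y³/3 - p y² - (2/3)p³`.
`deriv_Ai_sq_bound`: the same for `Ai' = (1/2π)∫ i(s+i) e^{..}`; `∫|y|e^{-ay²} = 1/a`.
-/

set_option autoImplicit false

open Complex MeasureTheory Set Filter Topology

namespace Pool.Agent.H140R2.FR

namespace T01

/-- the integrand of the Airy integral -/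
noncomputable def gz (z w : ℂ) : ℂ := cexp (I * (w ^ 3 / 3 + z * w))

theorem norm_gz (z w : ℂ) : ‖gz z w‖ =
    Real.exp (w.im ^ 3 / 3 - w.im * w.re ^ 2 - z.im * w.re - z.re * w.im) := by
  unfold gz
  rw [Complex.norm_exp]
  congr 1
  have h3 : (w ^ 3).im = 3 * w.re ^ 2 * w.im - w.im ^ 3 := by
    rw [pow_succ, pow_two]
    simp only [Complex.mul_im, Complex.mul_re]
    ring
  have h4 : (I * (w ^ 3 / 3 + z * w)).re = - ((w ^ 3).im / 3 + (z * w).im) := by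
    have e : (w ^ 3 / 3 + z * w).im = (w ^ 3).im / 3 + (z * w).im := by
      rw [Complex.add_im]
      congr 1
      have : w ^ 3 / 3 = w ^ 3 / ((3 : ℝ) : ℂ) := by norm_num
      rw [this, Complex.div_ofReal_im]
    rw [Complex.I_mul_re, e]
  rw [h4, h3, Complex.mul_im]
  ring

theorem hasDerivAt_gz (z w : ℂ) : HasDerivAt (gz z) (I * (w ^ 2 + z) * gz z w) w := by
  have h1 : HasDerivAt (fun w : ℂ => I * (w ^ 3 / 3 + z * w)) (I * (w ^ 2 + z)) w := by
    have h2 : HasDerivAt (fun w : ℂ => w ^ 3 / 3 + z * w) ((3 : ℕ) * w ^ (3 - 1) / 3 + z * 1) w :=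
      ((hasDerivAt_pow 3 w).div_const 3).add ((hasDerivAt_id w).const_mul z)
    have h3 := h2.const_mul I
    have e : I * ((3 : ℕ) * w ^ (3 - 1) / 3 + z * 1) = I * (w ^ 2 + z) := by
      push_cast
      ring
    rwa [e] at h3
  have h4 := h1.cexp
  unfold gz
  rw [mul_comm]
  exact h4

theorem continuous_gz (z : ℂ) : Continuous (gz z) := by
  unfold gz
  fun_prop

theorem quad_bound {u M c : ℝ} (hc : 0 < c) : M * u - c * u ^ 2 ≤ M ^ 2 / (2 * c) - c / 2 * u ^ 2 := by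
  have h1 : 0 ≤ (M - c * u) ^ 2 / (2 * c) := by positivity
  have h2 : (M - c * u) ^ 2 / (2 * c) = M ^ 2 / (2 * c) - M * u + c / 2 * u ^ 2 := by
    field_simp
    ring
  linarith

/-- the bound along horizontal lines -/
theorem key_bound (z : ℂ) (m : ℕ) {c1 a1 : ℝ} (hc : 0 < c1) : ∃ C : ℝ, ∀ w0 : ℂ,
    c1 / 2 ≤ w0.im → w0.im ≤ 2 * c1 → |w0.re| ≤ a1 → ∀ s : ℝ,
      Real.exp (m * ‖(s : ℂ) + w0‖) * ‖gz z ((s : ℂ) + w0)‖ ≤ Real.exp (C - c1 / 8 * s ^ 2) := by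
  refine ⟨(2 * c1) ^ 3 / 3 + 2 * c1 * ‖z‖ + 2 * m * c1 + (‖z‖ + m) ^ 2 / (2 * (c1 / 2)) +
    c1 / 4 * a1 ^ 2, ?_⟩
  intro w0 h1 h2 h3 s
  rw [norm_gz, ← Real.exp_add]
  apply Real.exp_le_exp.2
  set a := w0.re with ha
  set c := w0.im with hcd
  have e1 : ((s : ℂ) + w0).re = s + a := by simp [ha]
  have e2 : ((s : ℂ) + w0).im = c := by simp [hcd]
  rw [e1, e2]
  have hcpos : 0 < c := by linarith
  set u := |s + a| with hu
  have hu0 : 0 ≤ u := abs_nonneg _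
  have hu2 : u ^ 2 = (s + a) ^ 2 := sq_abs _
  have hn : ‖(s : ℂ) + w0‖ ≤ u + 2 * c1 := by
    have h4 := Complex.norm_le_abs_re_add_abs_im ((s : ℂ) + w0)
    rw [e1, e2, abs_of_pos hcpos] at h4
    linarith
  have hz1 : - (z.im * (s + a)) ≤ ‖z‖ * u := by
    have h4 : |z.im| ≤ ‖z‖ := Complex.abs_im_le_norm z
    calc - (z.im * (s + a)) ≤ |z.im * (s + a)| := neg_le_abs _
      _ = |z.im| * u := by rw [abs_mul]
      _ ≤ ‖z‖ * u := by gcongr
  have hz2 : - (z.re * c) ≤ ‖z‖ * (2 * c1) := by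
    have h4 : |z.re| ≤ ‖z‖ := Complex.abs_re_le_norm z
    calc - (z.re * c) ≤ |z.re * c| := neg_le_abs _
      _ = |z.re| * c := by rw [abs_mul, abs_of_pos hcpos]
      _ ≤ ‖z‖ * (2 * c1) := by gcongr
  have hc3 : c ^ 3 / 3 ≤ (2 * c1) ^ 3 / 3 := by gcongr
  have hcs : c1 / 2 * u ^ 2 ≤ c * (s + a) ^ 2 := by
    rw [← hu2]
    gcongr
  have hm : (m : ℝ) * ‖(s : ℂ) + w0‖ ≤ m * (u + 2 * c1) := by gcongr
  have hq := quad_bound (u := u) (M := ‖z‖ + m) (c := c1 / 2) (by positivity)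
  have hs : s ^ 2 / 2 - a1 ^ 2 ≤ u ^ 2 := by
    rw [hu2]
    have h5 : a ^ 2 ≤ a1 ^ 2 := by
      rw [← sq_abs]
      gcongr
    nlinarith [sq_nonneg (s + 2 * a)]
  have hs' : c1 / 4 * (s ^ 2 / 2 - a1 ^ 2) ≤ c1 / 4 * u ^ 2 := by gcongr
  have e3 : c1 / 2 / 2 * u ^ 2 = c1 / 4 * u ^ 2 := by ring
  rw [e3] at hq
  nlinarith

theorem integrable_gauss (C : ℝ) {c : ℝ} (hc : 0 < c) :
    Integrable (fun s : ℝ => Real.exp (C - c * s ^ 2)) := by
  have h := (integrable_exp_neg_mul_sq hc).const_mul (Real.exp C)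
  refine h.congr (Filter.Eventually.of_forall fun s => ?_)
  simp only
  rw [← Real.exp_add]
  congr 1
  ring

/-- shifting the line of integration -/
theorem shift (z : ℂ) (f f' : ℂ → ℂ) (K : ℝ) (hK : 0 ≤ K) (m : ℕ)
    (hf : ∀ w, HasDerivAt f (f' w) w) (hf' : Continuous f')
    (hb : ∀ w, ‖f w‖ ≤ K * (Real.exp (m * ‖w‖) * ‖gz z w‖))
    (hb' : ∀ w, ‖f' w‖ ≤ K * (Real.exp (m * ‖w‖) * ‖gz z w‖)) :
    (∀ w0 : ℂ, 0 < w0.im → Integrable (fun s : ℝ => f ((s : ℂ) + w0))) ∧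
    (∀ w0 : ℂ, 0 < w0.im → ∫ s : ℝ, f' ((s : ℂ) + w0) = 0) ∧
    ∀ w0 w1 : ℂ, 0 < w0.im → 0 < w1.im → ∫ s : ℝ, f ((s : ℂ) + w0) = ∫ s : ℝ, f ((s : ℂ) + w1) := by
  have hfc : Continuous f := continuous_iff_continuousAt.2 fun w => (hf w).continuousAt
  have hint : ∀ g : ℂ → ℂ, Continuous g →
      (∀ w, ‖g w‖ ≤ K * (Real.exp (m * ‖w‖) * ‖gz z w‖)) → ∀ w0 : ℂ, 0 < w0.im →
      Integrable (fun s : ℝ => g ((s : ℂ) + w0)) := by
    intro g hg hgb w0 hw0
    obtain ⟨C, hC⟩ := key_bound z m (c1 := w0.im) (a1 := |w0.re|) hw0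
    refine ((integrable_gauss C (c := w0.im / 8) (by positivity)).const_mul K).mono'
      (by fun_prop) (Filter.Eventually.of_forall fun s => ?_)
    calc ‖g ((s : ℂ) + w0)‖ ≤ K * (Real.exp (m * ‖(s : ℂ) + w0‖) * ‖gz z ((s : ℂ) + w0)‖) := hgb _
      _ ≤ K * Real.exp (C - w0.im / 8 * s ^ 2) := by
          gcongr
          exact hC w0 (by linarith) (by linarith) le_rfl s
  have hzero : ∀ w0 : ℂ, 0 < w0.im → ∫ s : ℝ, f' ((s : ℂ) + w0) = 0 := by
    intro w0 hw0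
    apply integral_eq_zero_of_hasDerivAt_of_integrable (f := fun s : ℝ => f ((s : ℂ) + w0))
    · intro s
      have h1 : HasDerivAt (fun s : ℂ => f (s + w0)) (f' ((s : ℂ) + w0)) (s : ℂ) := by
        have := (hf ((s : ℂ) + w0)).comp_add_const (s : ℂ) w0
        exact this
      exact h1.comp_ofReal
    · exact hint f' hf' hb' w0 hw0
    · exact hint f hfc hb w0 hw0
  refine ⟨hint f hfc hb, hzero, ?_⟩
  intro w0 w1 hw0 hw1
  have hderiv : ∀ w0 : ℂ, 0 < w0.im → HasDerivAt (fun w : ℂ => ∫ s : ℝ, f ((s : ℂ) + w)) 0 w0 := by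
    intro w0 hw0
    obtain ⟨C, hC⟩ := key_bound z m (c1 := w0.im) (a1 := |w0.re| + w0.im) hw0
    have h1 := hasDerivAt_integral_of_dominated_loc_of_deriv_le (μ := volume)
      (F := fun (w : ℂ) (s : ℝ) => f ((s : ℂ) + w)) (F' := fun (w : ℂ) (s : ℝ) => f' ((s : ℂ) + w))
      (x₀ := w0) (s := Metric.ball w0 (w0.im / 2))
      (bound := fun s => K * Real.exp (C - w0.im / 8 * s ^ 2))
      (Metric.ball_mem_nhds w0 (by positivity))
      (Filter.Eventually.of_forall fun w => (by fun_prop : AEStronglyMeasurable _ _))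
      (hint f hfc hb w0 hw0)
      (by fun_prop)
      (Filter.Eventually.of_forall fun s w hw => ?_)
      ((integrable_gauss C (c := w0.im / 8) (by positivity)).const_mul K)
      (Filter.Eventually.of_forall fun s w _ => ?_)
    · have h2 := h1.2
      rwa [hzero w0 hw0] at h2
    · rw [Metric.mem_ball, dist_eq_norm] at hw
      have h3 : |w.re - w0.re| ≤ ‖w - w0‖ := by
        rw [← Complex.sub_re]
        exact Complex.abs_re_le_norm _
      have h4 : |w.im - w0.im| ≤ ‖w - w0‖ := by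
        rw [← Complex.sub_im]
        exact Complex.abs_im_le_norm _
      have h5 := abs_le.1 (h4.trans hw.le)
      have h6 : |w.re| ≤ |w0.re| + w0.im := by
        have h7 : |w.re| ≤ |w.re - w0.re| + |w0.re| := by
          have := abs_add_le (w.re - w0.re) w0.re
          rwa [sub_add_cancel] at this
        linarith
      calc ‖f' ((s : ℂ) + w)‖ ≤ K * (Real.exp (m * ‖(s : ℂ) + w‖) * ‖gz z ((s : ℂ) + w)‖) := hb' _
        _ ≤ K * Real.exp (C - w0.im / 8 * s ^ 2) := by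
            gcongr
            exact hC w (by linarith [h5.1]) (by linarith [h5.2]) h6 s
    · have := (hf ((s : ℂ) + w)).comp_const_add (s : ℂ) w
      exact this
  have hopen : IsOpen {w : ℂ | 0 < w.im} := isOpen_lt continuous_const Complex.continuous_im
  have hconn : IsPreconnected {w : ℂ | 0 < w.im} := by
    have : Convex ℝ {w : ℂ | 0 < w.im} := convex_halfSpace_im_gt 0
    exact this.isPreconnected
  exact hopen.is_const_of_deriv_eq_zero hconn
    (fun w hw => (hderiv w hw).differentiableAt.differentiableWithinAt)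
    (fun w hw => (hderiv w hw).deriv) hw0 hw1

/-- the integrals `∫ (i(s+i))^k e^{..} ds` -/
noncomputable def Ak (k : ℕ) (z : ℂ) : ℂ :=
  ∫ s : ℝ, (I * ((s : ℂ) + I)) ^ k * gz z ((s : ℂ) + I)

theorem Ak_bound (k : ℕ) (z : ℂ) (s : ℝ) {R : ℝ} (hz : ‖z‖ ≤ R) :
    ‖(I * ((s : ℂ) + I)) ^ k * gz z ((s : ℂ) + I)‖ ≤
      Real.exp (1 / 3 + R + k + (R + k) ^ 2 / 2 - 1 / 2 * s ^ 2) := by
  have h0 : 0 ≤ ‖z‖ := norm_nonneg z
  have hR : 0 ≤ R := h0.trans hz
  have h1 : ‖(I * ((s : ℂ) + I)) ^ k‖ ≤ Real.exp (k * (|s| + 1)) := by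
    rw [norm_pow, norm_mul, Complex.norm_I, one_mul]
    have h2 : ‖(s : ℂ) + I‖ ≤ |s| + 1 := by
      refine (norm_add_le _ _).trans ?_
      rw [Complex.norm_real, Complex.norm_I, Real.norm_eq_abs]
    have h3 : |s| + 1 ≤ Real.exp (|s| + 1) := by
      have := Real.add_one_le_exp (|s| + 1)
      linarith
    rw [Real.exp_nat_mul]
    exact pow_le_pow_left₀ (norm_nonneg _) (h2.trans h3) k
  have h4 : ‖gz z ((s : ℂ) + I)‖ ≤ Real.exp (1 / 3 - s ^ 2 + R * |s| + R) := by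
    rw [norm_gz]
    apply Real.exp_le_exp.2
    have e1 : ((s : ℂ) + I).re = s := by simp
    have e2 : ((s : ℂ) + I).im = 1 := by simp
    rw [e1, e2]
    have h5 : - (z.im * s) ≤ R * |s| := by
      calc - (z.im * s) ≤ |z.im * s| := neg_le_abs _
        _ = |z.im| * |s| := abs_mul _ _
        _ ≤ R * |s| := by
          have := (Complex.abs_im_le_norm z).trans hz
          gcongr
    have h6 : - z.re ≤ R := by
      have := neg_le_abs z.re
      have := (Complex.abs_re_le_norm z).trans hz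
      linarith
    linarith
  rw [norm_mul]
  calc ‖(I * ((s : ℂ) + I)) ^ k‖ * ‖gz z ((s : ℂ) + I)‖ ≤
        Real.exp (k * (|s| + 1)) * Real.exp (1 / 3 - s ^ 2 + R * |s| + R) := by gcongr
    _ = Real.exp (k * (|s| + 1) + (1 / 3 - s ^ 2 + R * |s| + R)) := (Real.exp_add _ _).symm
    _ ≤ _ := by
      apply Real.exp_le_exp.2
      have h7 := quad_bound (u := |s|) (M := R + k) (c := 1) one_pos
      rw [sq_abs] at h7
      linarith

theorem Ak_integrable (k : ℕ) (z : ℂ) :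
    Integrable (fun s : ℝ => (I * ((s : ℂ) + I)) ^ k * gz z ((s : ℂ) + I)) := by
  have hc : Continuous (fun s : ℝ => (I * ((s : ℂ) + I)) ^ k * gz z ((s : ℂ) + I)) := by
    have := continuous_gz z
    fun_prop
  exact (integrable_gauss (1 / 3 + ‖z‖ + k + (‖z‖ + k) ^ 2 / 2) (c := 1 / 2) (by norm_num)).mono'
    hc.aestronglyMeasurable (Filter.Eventually.of_forall fun s => Ak_bound k z s le_rfl)

theorem hasDerivAt_Ak (k : ℕ) (z : ℂ) : HasDerivAt (Ak k) (Ak (k + 1) z) z := by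
  have hc : ∀ (k : ℕ) (w : ℂ),
      Continuous (fun s : ℝ => (I * ((s : ℂ) + I)) ^ k * gz w ((s : ℂ) + I)) := by
    intro k w
    have := continuous_gz w
    fun_prop
  have h1 := hasDerivAt_integral_of_dominated_loc_of_deriv_le (μ := volume)
      (F := fun (w : ℂ) (s : ℝ) => (I * ((s : ℂ) + I)) ^ k * gz w ((s : ℂ) + I))
      (F' := fun (w : ℂ) (s : ℝ) => (I * ((s : ℂ) + I)) ^ (k + 1) * gz w ((s : ℂ) + I))
      (x₀ := z) (s := Metric.ball z 1)
      (bound := fun s => Real.exp (1 / 3 + (‖z‖ + 1) + (k + 1 : ℕ) +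
        ((‖z‖ + 1) + (k + 1 : ℕ)) ^ 2 / 2 - 1 / 2 * s ^ 2))
      (Metric.ball_mem_nhds z one_pos)
      (Filter.Eventually.of_forall fun w => (hc k w).aestronglyMeasurable)
      (Ak_integrable k z)
      (hc (k + 1) z).aestronglyMeasurable
      (Filter.Eventually.of_forall fun s w hw => ?_)
      (integrable_gauss _ (c := 1 / 2) (by norm_num))
      (Filter.Eventually.of_forall fun s w _ => ?_)
  · exact h1.2
  · apply Ak_bound
    rw [Metric.mem_ball, dist_eq_norm] at hw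
    have h3 : ‖w‖ ≤ ‖w - z‖ + ‖z‖ := by
      have := norm_add_le (w - z) z
      rwa [sub_add_cancel] at this
    linarith
  · have h2 : HasDerivAt (fun w : ℂ => gz w ((s : ℂ) + I))
        (gz w ((s : ℂ) + I) * (I * ((s : ℂ) + I))) w := by
      unfold gz
      apply HasDerivAt.cexp
      have h3 : HasDerivAt (fun w : ℂ => I * (((s : ℂ) + I) ^ 3 / 3 + w * ((s : ℂ) + I)))
          (I * (1 * ((s : ℂ) + I))) w :=
        (((hasDerivAt_id w).mul_const ((s : ℂ) + I)).const_add _).const_mul I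
      rwa [one_mul] at h3
    have h4 := h2.const_mul ((I * ((s : ℂ) + I)) ^ k)
    have e : (I * ((s : ℂ) + I)) ^ k * (gz w ((s : ℂ) + I) * (I * ((s : ℂ) + I))) =
        (I * ((s : ℂ) + I)) ^ (k + 1) * gz w ((s : ℂ) + I) := by ring
    rwa [e] at h4

theorem Ai_eq (z : ℂ) : Ai z = ((1 / (2 * Real.pi) : ℝ) : ℂ) * Ak 0 z := by
  unfold Ai Ak gz
  simp

theorem hasDerivAt_Ai (z : ℂ) :
    HasDerivAt Ai (((1 / (2 * Real.pi) : ℝ) : ℂ) * Ak 1 z) z := by
  have h1 := (hasDerivAt_Ak 0 z).const_mul ((1 / (2 * Real.pi) : ℝ) : ℂ)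
  have h2 : Ai = fun z => ((1 / (2 * Real.pi) : ℝ) : ℂ) * Ak 0 z := funext Ai_eq
  rw [h2]
  exact h1

theorem deriv_Ai : deriv Ai = fun z => ((1 / (2 * Real.pi) : ℝ) : ℂ) * Ak 1 z :=
  funext fun z => (hasDerivAt_Ai z).deriv

theorem deriv_deriv_Ai (z : ℂ) :
    deriv (deriv Ai) z = ((1 / (2 * Real.pi) : ℝ) : ℂ) * Ak 2 z := by
  rw [deriv_Ai]
  exact ((hasDerivAt_Ak 1 z).const_mul ((1 / (2 * Real.pi) : ℝ) : ℂ)).deriv

theorem exp_poly (x : ℝ) (_hx : 0 ≤ x) : x ≤ Real.exp x := by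
  have := Real.add_one_le_exp x
  linarith

/-- the two functions to be shifted -/
theorem shift0 (z : ℂ) :
    (∀ w0 : ℂ, 0 < w0.im → Integrable (fun s : ℝ => gz z ((s : ℂ) + w0))) ∧
    (∀ w0 : ℂ, 0 < w0.im →
      ∫ s : ℝ, I * (((s : ℂ) + w0) ^ 2 + z) * gz z ((s : ℂ) + w0) = 0) ∧
    ∀ w0 w1 : ℂ, 0 < w0.im → 0 < w1.im →
      ∫ s : ℝ, gz z ((s : ℂ) + w0) = ∫ s : ℝ, gz z ((s : ℂ) + w1) := by
  apply shift z (gz z) (fun w => I * (w ^ 2 + z) * gz z w) (1 + ‖z‖) (by positivity) 2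
    (hasDerivAt_gz z)
  · have := continuous_gz z
    fun_prop
  · intro w
    have h1 : 1 ≤ Real.exp ((2 : ℕ) * ‖w‖) := Real.one_le_exp (by positivity)
    calc ‖gz z w‖ = 1 * (1 * ‖gz z w‖) := by ring
      _ ≤ (1 + ‖z‖) * (Real.exp ((2 : ℕ) * ‖w‖) * ‖gz z w‖) := by
        have := norm_nonneg z
        gcongr
        linarith
  · intro w
    rw [norm_mul, norm_mul, Complex.norm_I, one_mul, ← mul_assoc]
    gcongr
    have h1 : ‖w‖ ^ 2 ≤ Real.exp ((2 : ℕ) * ‖w‖) := by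
      rw [Real.exp_nat_mul]
      exact pow_le_pow_left₀ (norm_nonneg _) (exp_poly _ (norm_nonneg _)) 2
    have h2 : 1 ≤ Real.exp ((2 : ℕ) * ‖w‖) := Real.one_le_exp (by positivity)
    calc ‖w ^ 2 + z‖ ≤ ‖w ^ 2‖ + ‖z‖ := norm_add_le _ _
      _ = ‖w‖ ^ 2 + ‖z‖ * 1 := by rw [norm_pow, mul_one]
      _ ≤ Real.exp ((2 : ℕ) * ‖w‖) + ‖z‖ * Real.exp ((2 : ℕ) * ‖w‖) := by gcongr
      _ = (1 + ‖z‖) * Real.exp ((2 : ℕ) * ‖w‖) := by ring

theorem shift1 (z : ℂ) : ∀ w0 w1 : ℂ, 0 < w0.im → 0 < w1.im →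
      ∫ s : ℝ, (I * ((s : ℂ) + w0)) * gz z ((s : ℂ) + w0) =
        ∫ s : ℝ, (I * ((s : ℂ) + w1)) * gz z ((s : ℂ) + w1) := by
  refine (shift z (fun w => (I * w) * gz z w)
    (fun w => (I + (I * w) * (I * (w ^ 2 + z))) * gz z w) (2 + ‖z‖) (by positivity) 3 ?_ ?_ ?_ ?_).2.2
  · intro w
    have h1 : HasDerivAt (fun w : ℂ => I * w) I w := by
      have := (hasDerivAt_id w).const_mul I
      rwa [mul_one] at this
    have h2 := h1.mul (hasDerivAt_gz z w)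
    have e : I * gz z w + I * w * (I * (w ^ 2 + z) * gz z w) =
        (I + (I * w) * (I * (w ^ 2 + z))) * gz z w := by ring
    rw [e] at h2
    exact h2
  · have := continuous_gz z
    fun_prop
  · intro w
    rw [norm_mul, norm_mul, Complex.norm_I, one_mul, ← mul_assoc]
    gcongr
    have h1 : ‖w‖ ≤ Real.exp ((3 : ℕ) * ‖w‖) := by
      have h3 : ‖w‖ ≤ (3 : ℕ) * ‖w‖ := by
        have := norm_nonneg w
        push_cast
        linarith
      exact h3.trans (exp_poly _ (by positivity))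
    have h2 : 0 ≤ Real.exp ((3 : ℕ) * ‖w‖) := by positivity
    have h3 : 1 ≤ 2 + ‖z‖ := by linarith [norm_nonneg z]
    calc ‖w‖ ≤ 1 * Real.exp ((3 : ℕ) * ‖w‖) := by rw [one_mul]; exact h1
      _ ≤ (2 + ‖z‖) * Real.exp ((3 : ℕ) * ‖w‖) := by gcongr
  · intro w
    have h1 : ‖w‖ ^ 3 ≤ Real.exp ((3 : ℕ) * ‖w‖) := by
      rw [Real.exp_nat_mul]
      exact pow_le_pow_left₀ (norm_nonneg _) (exp_poly _ (norm_nonneg _)) 3
    have h2 : 1 ≤ Real.exp ((3 : ℕ) * ‖w‖) := Real.one_le_exp (by positivity)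
    have h3 : ‖w‖ ≤ Real.exp ((3 : ℕ) * ‖w‖) := by
      have h3 : ‖w‖ ≤ (3 : ℕ) * ‖w‖ := by
        have := norm_nonneg w
        push_cast
        linarith
      exact h3.trans (exp_poly _ (by positivity))
    have main : ‖I + (I * w) * (I * (w ^ 2 + z))‖ ≤ (2 + ‖z‖) * Real.exp ((3 : ℕ) * ‖w‖) := by
      calc ‖I + (I * w) * (I * (w ^ 2 + z))‖ ≤ ‖I‖ + ‖(I * w) * (I * (w ^ 2 + z))‖ :=
            norm_add_le _ _
        _ = 1 + ‖w‖ * ‖w ^ 2 + z‖ := by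
          rw [norm_mul, norm_mul, norm_mul, Complex.norm_I, one_mul, one_mul]
        _ ≤ 1 + ‖w‖ * (‖w‖ ^ 2 + ‖z‖) := by
          gcongr
          refine (norm_add_le _ _).trans ?_
          rw [norm_pow]
        _ = 1 + ‖w‖ ^ 3 + ‖z‖ * ‖w‖ := by ring
        _ ≤ Real.exp ((3 : ℕ) * ‖w‖) + Real.exp ((3 : ℕ) * ‖w‖) +
            ‖z‖ * Real.exp ((3 : ℕ) * ‖w‖) := by gcongr
        _ = (2 + ‖z‖) * Real.exp ((3 : ℕ) * ‖w‖) := by ring
    rw [norm_mul]
    calc ‖I + (I * w) * (I * (w ^ 2 + z))‖ * ‖gz z w‖ ≤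
          ((2 + ‖z‖) * Real.exp ((3 : ℕ) * ‖w‖)) * ‖gz z w‖ := by gcongr
      _ = (2 + ‖z‖) * (Real.exp ((3 : ℕ) * ‖w‖) * ‖gz z w‖) := by ring

theorem gz_sq (p : ℂ) (y : ℝ) : gz (p ^ 2) ((y : ℂ) + I * p) =
    cexp (-(2 / 3) * p ^ 3) * cexp (-p * (y : ℂ) ^ 2 + I * (y : ℂ) ^ 3 / 3) := by
  unfold gz
  rw [← Complex.exp_add]
  congr 1
  have h2 : I ^ 2 = -1 := Complex.I_sq
  have h3 : I ^ 3 = -I := by rw [pow_succ, h2]; ring
  have h4 : I ^ 4 = 1 := Complex.I_pow_four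
  ring_nf
  rw [h2, h3, h4]
  ring

theorem im_I_mul (p : ℂ) : (I * p).im = p.re := by simp

end T01

open T01

theorem Ai_differentiable : Differentiable ℂ Ai := fun z => (hasDerivAt_Ai z).differentiableAt

theorem Ai_ode (z : ℂ) : deriv (deriv Ai) z = z * Ai z := by
  rw [deriv_deriv_Ai, Ai_eq]
  have h1 := (shift0 z).2.1 I (by simp)
  have h2 : ∫ s : ℝ, I * (((s : ℂ) + I) ^ 2 + z) * gz z ((s : ℂ) + I) =
      - (I * Ak 2 z) + I * (z * Ak 0 z) := by
    have e : (fun s : ℝ => I * (((s : ℂ) + I) ^ 2 + z) * gz z ((s : ℂ) + I)) =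
        fun s : ℝ => (-I) * ((I * ((s : ℂ) + I)) ^ 2 * gz z ((s : ℂ) + I)) +
          (I * z) * ((I * ((s : ℂ) + I)) ^ 0 * gz z ((s : ℂ) + I)) := by
      funext s
      rw [mul_pow, Complex.I_sq]
      ring
    rw [e, integral_add ((Ak_integrable 2 z).const_mul _) ((Ak_integrable 0 z).const_mul _),
      integral_const_mul, integral_const_mul]
    unfold Ak
    ring
  rw [h2] at h1
  have h3 : I * (z * Ak 0 z - Ak 2 z) = 0 := by linear_combination h1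
  have h4 : z * Ak 0 z - Ak 2 z = 0 := (mul_eq_zero.1 h3).resolve_left Complex.I_ne_zero
  linear_combination (-((1 / (2 * Real.pi) : ℝ) : ℂ)) * h4

theorem Ai_conj (z : ℂ) : Ai ((starRingEnd ℂ) z) = (starRingEnd ℂ) (Ai z) := by
  unfold Ai
  rw [map_mul, Complex.conj_ofReal, ← integral_conj]
  congr 1
  rw [← integral_neg_eq_self]
  refine integral_congr_ae (Filter.Eventually.of_forall fun s => ?_)
  simp only
  rw [← Complex.exp_conj]
  congr 1
  simp only [map_mul, map_add, map_div₀, map_pow, Complex.conj_I, Complex.conj_ofReal,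
    Complex.ofReal_neg]
  have h3 : (starRingEnd ℂ) (3 : ℂ) = 3 := by
    have := Complex.conj_ofReal 3
    simpa using this
  rw [h3]
  ring

theorem Ai_sq (p : ℂ) (hp : 0 < p.re) :
    Ai (p ^ 2) = ((1 / (2 * Real.pi) : ℝ) : ℂ) * cexp (-(2 / 3) * p ^ 3) * cA p := by
  have h1 : Ak 0 (p ^ 2) = cexp (-(2 / 3) * p ^ 3) * cA p := by
    have h2 := (shift0 (p ^ 2)).2.2 I (I * p) (by simp) (by rw [im_I_mul]; exact hp)
    have h3 : Ak 0 (p ^ 2) = ∫ s : ℝ, gz (p ^ 2) ((s : ℂ) + I) := by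
      unfold Ak
      simp
    rw [h3, h2]
    simp_rw [gz_sq]
    rw [integral_const_mul]
    rfl
  rw [Ai_eq, h1, mul_assoc]

theorem deriv_Ai_sq_bound (p : ℂ) (hp : 0 < p.re) :
    ‖deriv Ai (p ^ 2)‖ ≤ Real.exp (-(2 / 3) * (p ^ 3).re) *
      (‖p‖ * Real.sqrt (Real.pi / p.re) + 1 / p.re) := by
  rw [deriv_Ai]
  simp only
  have h1 : Ak 1 (p ^ 2) = ∫ s : ℝ, (I * ((s : ℂ) + I * p)) * gz (p ^ 2) ((s : ℂ) + I * p) := by
    have h2 := shift1 (p ^ 2) I (I * p) (by simp) (by rw [im_I_mul]; exact hp)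
    rw [← h2]
    unfold Ak
    simp
  have hnorm : ∀ s : ℝ, ‖(I * ((s : ℂ) + I * p)) * gz (p ^ 2) ((s : ℂ) + I * p)‖ ≤
      Real.exp (-(2 / 3) * (p ^ 3).re) * (‖p‖ * Real.exp (-p.re * s ^ 2) +
        |s| * Real.exp (-p.re * |s| ^ 2)) := by
    intro s
    rw [gz_sq, norm_mul, norm_mul, norm_mul, Complex.norm_I, one_mul, Complex.norm_exp,
      Complex.norm_exp]
    have e1 : (-(2 / 3) * p ^ 3).re = -(2 / 3) * (p ^ 3).re := by
      have : (-(2 / 3) : ℂ) = ((-(2 / 3) : ℝ) : ℂ) := by push_cast; ring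
      rw [this, Complex.re_ofReal_mul]
    have e2 : (-p * (s : ℂ) ^ 2 + I * (s : ℂ) ^ 3 / 3).re = -p.re * s ^ 2 := by
      have h3 : (-p * (s : ℂ) ^ 2 + I * (s : ℂ) ^ 3 / 3) =
          -p * ((s ^ 2 : ℝ) : ℂ) + ((s ^ 3 / 3 : ℝ) : ℂ) * I := by
        push_cast
        ring
      rw [h3, Complex.add_re, Complex.re_mul_ofReal, Complex.re_ofReal_mul, Complex.I_re,
        Complex.neg_re]
      ring
    rw [e1, e2, sq_abs]
    have h4 : ‖(s : ℂ) + I * p‖ ≤ |s| + ‖p‖ := by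
      refine (norm_add_le _ _).trans ?_
      rw [Complex.norm_real, norm_mul, Complex.norm_I, one_mul, Real.norm_eq_abs]
    calc ‖(s : ℂ) + I * p‖ * (Real.exp (-(2 / 3) * (p ^ 3).re) * Real.exp (-p.re * s ^ 2)) ≤
          (|s| + ‖p‖) * (Real.exp (-(2 / 3) * (p ^ 3).re) * Real.exp (-p.re * s ^ 2)) := by gcongr
      _ = _ := by ring
  have hg1 : ∫ s : ℝ, Real.exp (-p.re * s ^ 2) = Real.sqrt (Real.pi / p.re) :=
    integral_gaussian p.re
  have hg2 : ∫ s : ℝ, |s| * Real.exp (-p.re * |s| ^ 2) = 1 / p.re := by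
    rw [integral_comp_abs (f := fun x => x * Real.exp (-p.re * x ^ 2))]
    have h5 := integral_mul_cexp_neg_mul_sq (b := (p.re : ℂ)) (by simpa using hp)
    have h6 : (∫ r in Ioi (0 : ℝ), (r : ℂ) * cexp (-(p.re : ℂ) * (r : ℂ) ^ 2)) =
        ((∫ r in Ioi (0 : ℝ), r * Real.exp (-p.re * r ^ 2) : ℝ) : ℂ) := by
      rw [← integral_complex_ofReal]
      refine integral_congr_ae (Filter.Eventually.of_forall fun r => ?_)
      simp only
      push_cast
      ring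
    rw [h6] at h5
    have h7 : (∫ r in Ioi (0 : ℝ), r * Real.exp (-p.re * r ^ 2)) = (2 * p.re)⁻¹ := by
      have : ((∫ r in Ioi (0 : ℝ), r * Real.exp (-p.re * r ^ 2) : ℝ) : ℂ) =
          (((2 * p.re)⁻¹ : ℝ) : ℂ) := by
        rw [h5]
        push_cast
        ring
      exact_mod_cast this
    rw [h7]
    field_simp
  have hi1 : Integrable (fun s : ℝ => Real.exp (-p.re * s ^ 2)) := integrable_exp_neg_mul_sq hp
  have hi2 : Integrable (fun s : ℝ => |s| * Real.exp (-p.re * |s| ^ 2)) := by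
    have h8 := (integrable_mul_exp_neg_mul_sq hp).norm
    refine h8.congr (Filter.Eventually.of_forall fun s => ?_)
    simp only
    rw [norm_mul, Real.norm_eq_abs, Real.norm_eq_abs, Real.abs_exp, sq_abs]
  have h9 : ‖Ak 1 (p ^ 2)‖ ≤ Real.exp (-(2 / 3) * (p ^ 3).re) *
      (‖p‖ * Real.sqrt (Real.pi / p.re) + 1 / p.re) := by
    rw [h1]
    calc ‖∫ s : ℝ, (I * ((s : ℂ) + I * p)) * gz (p ^ 2) ((s : ℂ) + I * p)‖ ≤
          ∫ s : ℝ, Real.exp (-(2 / 3) * (p ^ 3).re) * (‖p‖ * Real.exp (-p.re * s ^ 2) +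
            |s| * Real.exp (-p.re * |s| ^ 2)) := by
          apply norm_integral_le_of_norm_le (((hi1.const_mul _).add hi2).const_mul _)
          exact Filter.Eventually.of_forall hnorm
      _ = _ := by
          rw [integral_const_mul, integral_add (hi1.const_mul _) hi2, integral_const_mul, hg1, hg2]
  have h10 : ‖((1 / (2 * Real.pi) : ℝ) : ℂ)‖ ≤ 1 := by
    rw [Complex.norm_real, Real.norm_of_nonneg (by positivity)]
    rw [div_le_one (by positivity)]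
    have := Real.pi_gt_three
    linarith
  rw [norm_mul]
  calc ‖((1 / (2 * Real.pi) : ℝ) : ℂ)‖ * ‖Ak 1 (p ^ 2)‖ ≤ 1 * ‖Ak 1 (p ^ 2)‖ := by gcongr
    _ ≤ _ := by rw [one_mul]; exact h9

end Pool.Agent.H140R2.FR
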