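import Pool.Agent.H140R2.FR.T01Airy
import Pool.Agent.H140R2.FR.T02Bbasic

/-!
T03.  The zeros of `Ai` are negative reals; the first zero.

Sketch.  Let `Ai z₀ = 0`, `z₀.im ≠ 0 ∨ 0 ≤ z₀.re`, `y(t) = Ai (z₀ + t)`.
`d/dt (y' conj y) = |y'|² + (z₀ + t)|y|²`; `y' conj y` is `0` at `t = 0` and tends to `0` at `∞`
(`Ai_sq`, `cA_norm_le`, `deriv_Ai_sq_bound` with `p = √(z₀+t)`; for `z₀ = 0` start at any point).
If `Im z₀ ≠ 0` the imaginary part gives `Im z₀ ∫|y|² = 0`, if `z₀ ≥ 0` the real part gives the same: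
`y = 0` on a half line, so `Ai = 0`, contradicting `BB p → 1` (`BB_expansion` with `N = 1`).
-/

set_option autoImplicit false

open Complex MeasureTheory Set Filter Topology

namespace Pool.Agent.H140R2.FR

/-! ### the curve `p = x + i b/(2x)`, `p² = x² - b²/(4x²) + i b` -/

/-- the square root of a point on the line `Im = b` with real part `x`. -/
noncomputable def T03.pp (b x : ℝ) : ℂ := ⟨x, b / (2 * x)⟩

theorem T03.pp_sq (b x : ℝ) (hx : 0 < x) :
    T03.pp b x ^ 2 = ((x ^ 2 - b ^ 2 / (4 * x ^ 2) : ℝ) : ℂ) + (b : ℂ) * I := by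
  have hx' : x ≠ 0 := hx.ne'
  apply Complex.ext
  · simp only [T03.pp, pow_two, Complex.mul_re, Complex.add_re, Complex.ofReal_re, Complex.ofReal_im,
      Complex.I_re, Complex.I_im]
    field_simp
    ring
  · simp only [T03.pp, pow_two, Complex.mul_im, Complex.add_im, Complex.ofReal_re,
      Complex.ofReal_im, Complex.I_re, Complex.I_im]
    field_simp
    ring

theorem T03.pp_cube_re (b x : ℝ) (hx : 0 < x) :
    (T03.pp b x ^ 3).re = x ^ 3 - 3 * b ^ 2 / (4 * x) := by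
  have hx' : x ≠ 0 := hx.ne'
  simp only [T03.pp, pow_succ, pow_zero, one_mul, Complex.mul_re, Complex.mul_im]
  field_simp
  ring

theorem T03.pp_norm (b x : ℝ) (hx : 1 ≤ x) (hb : |b| ≤ x) : ‖T03.pp b x‖ ≤ 2 * x := by
  have hx0 : 0 < x := by linarith
  refine le_trans (Complex.norm_le_abs_re_add_abs_im _) ?_
  have h1 : |(T03.pp b x).re| = x := abs_of_pos hx0
  have h2 : |(T03.pp b x).im| ≤ 1 := by
    show |b / (2 * x)| ≤ 1
    rw [abs_div, abs_of_pos (by positivity : (0 : ℝ) < 2 * x), div_le_one (by positivity)]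
    linarith
  rw [h1]
  linarith

theorem T03.pp_cube_ge (b x : ℝ) (hx : 1 ≤ x) (hb : |b| ≤ x) : x / 4 ≤ (T03.pp b x ^ 3).re := by
  have hx0 : 0 < x := by linarith
  rw [T03.pp_cube_re b x hx0]
  have h1 : b ^ 2 ≤ x ^ 2 := by
    rw [← sq_abs b]
    exact pow_le_pow_left₀ (abs_nonneg b) hb 2
  have h2 : 3 * b ^ 2 / (4 * x) ≤ 3 * x / 4 := by
    rw [div_le_div_iff₀ (by positivity) (by norm_num)]
    nlinarith
  have h3 : x ≤ x ^ 3 := by
    have : 1 ≤ x ^ 2 := one_le_pow₀ hx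
    nlinarith
  linarith

theorem T03.decay_bound (b x : ℝ) (hx : 1 ≤ x) (hb : |b| ≤ x) :
    ‖deriv Ai (T03.pp b x ^ 2)‖ * ‖Ai (T03.pp b x ^ 2)‖ ≤ 10 * (x * Real.exp (-(x / 3))) := by
  have hx0 : 0 < x := by linarith
  have hre : (T03.pp b x).re = x := rfl
  have hpre : 0 < (T03.pp b x).re := hx0
  have h1 := deriv_Ai_sq_bound (T03.pp b x) hpre
  have h2 : ‖Ai (T03.pp b x ^ 2)‖ ≤ Real.exp (-(x / 6)) * 2 := by
    rw [Ai_sq (T03.pp b x) hpre, norm_mul, norm_mul, Complex.norm_real, Complex.norm_exp]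
    have e1 : (-(2 / 3) * T03.pp b x ^ 3 : ℂ).re = -(2 / 3) * (T03.pp b x ^ 3).re := by
      have : (-(2 / 3) : ℂ) = ((-(2 / 3) : ℝ) : ℂ) := by push_cast; ring
      rw [this, Complex.re_ofReal_mul]
    rw [e1]
    have h3 := T03.pp_cube_ge b x hx hb
    have h4 : ‖cA (T03.pp b x)‖ ≤ 2 := by
      refine le_trans (cA_norm_le _ hpre) ?_
      rw [hre, Real.sqrt_le_left (by norm_num)]
      rw [div_le_iff₀ hx0]
      nlinarith [Real.pi_lt_four]
    have h5 : ‖(1 / (2 * Real.pi) : ℝ)‖ ≤ 1 := by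
      rw [Real.norm_of_nonneg (by positivity), div_le_one (by positivity)]
      nlinarith [Real.pi_gt_three]
    have h6 : Real.exp (-(2 / 3) * (T03.pp b x ^ 3).re) ≤ Real.exp (-(x / 6)) :=
      Real.exp_le_exp.mpr (by linarith)
    calc ‖(1 / (2 * Real.pi) : ℝ)‖ * Real.exp (-(2 / 3) * (T03.pp b x ^ 3).re) * ‖cA (T03.pp b x)‖
        ≤ 1 * Real.exp (-(x / 6)) * 2 := by gcongr
      _ = _ := by ring
  have h1' : ‖deriv Ai (T03.pp b x ^ 2)‖ ≤ Real.exp (-(x / 6)) * (5 * x) := by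
    refine le_trans h1 ?_
    have h3 := T03.pp_cube_ge b x hx hb
    have h6 : Real.exp (-(2 / 3) * (T03.pp b x ^ 3).re) ≤ Real.exp (-(x / 6)) :=
      Real.exp_le_exp.mpr (by linarith)
    have h7 : ‖T03.pp b x‖ * Real.sqrt (Real.pi / (T03.pp b x).re) + 1 / (T03.pp b x).re ≤ 5 * x := by
      rw [hre]
      have h8 : Real.sqrt (Real.pi / x) ≤ 2 := by
        rw [Real.sqrt_le_left (by norm_num), div_le_iff₀ hx0]
        nlinarith [Real.pi_lt_four]
      have h9 : 1 / x ≤ x := by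
        rw [div_le_iff₀ hx0]; nlinarith
      have h10 := T03.pp_norm b x hx hb
      have h11 : ‖T03.pp b x‖ * Real.sqrt (Real.pi / x) ≤ (2 * x) * 2 :=
        mul_le_mul h10 h8 (Real.sqrt_nonneg _) (by positivity)
      linarith
    exact mul_le_mul h6 h7 (by positivity) (Real.exp_pos _).le
  calc ‖deriv Ai (T03.pp b x ^ 2)‖ * ‖Ai (T03.pp b x ^ 2)‖
      ≤ (Real.exp (-(x / 6)) * (5 * x)) * (Real.exp (-(x / 6)) * 2) :=
        mul_le_mul h1' h2 (norm_nonneg _) (by positivity)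
    _ = 10 * (x * (Real.exp (-(x / 6)) * Real.exp (-(x / 6)))) := by ring
    _ = 10 * (x * Real.exp (-(x / 3))) := by
        rw [← Real.exp_add]; congr 3; ring

theorem T03.tendsto_bound : Tendsto (fun x : ℝ => 10 * (x * Real.exp (-(x / 3)))) atTop (𝓝 0) := by
  have h := (Real.tendsto_pow_mul_exp_neg_atTop_nhds_zero 1).comp
    (tendsto_id.atTop_div_const (by norm_num : (0 : ℝ) < 3))
  have h2 := h.const_mul 30
  rw [mul_zero] at h2
  refine h2.congr fun x => ?_
  simp only [Function.comp, id, pow_one]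
  ring

/-- `t(x) = x² - b²/(4x²) - Re z₀` tends to infinity -/
theorem T03.tendsto_tt (b c : ℝ) : Tendsto (fun x : ℝ => x ^ 2 - b ^ 2 / (4 * x ^ 2) - c) atTop atTop := by
  have h1 : Tendsto (fun x : ℝ => x ^ 2 + (-(b ^ 2) - c)) atTop atTop :=
    tendsto_atTop_add_const_right _ _ (tendsto_pow_atTop (by norm_num))
  refine tendsto_atTop_mono' _ ?_ h1
  filter_upwards [eventually_ge_atTop (1 : ℝ)] with x hx
  have hx0 : 0 < x := by linarith
  have : b ^ 2 / (4 * x ^ 2) ≤ b ^ 2 := by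
    rw [div_le_iff₀ (by positivity)]
    have : 1 ≤ x ^ 2 := one_le_pow₀ hx
    nlinarith [sq_nonneg b]
  linarith

theorem T03.hasDerivAt_h (z₀ : ℂ) (t : ℝ) :
    HasDerivAt (fun t : ℝ => deriv Ai (z₀ + t) * (starRingEnd ℂ) (Ai (z₀ + t)))
      ((z₀ + t) * Ai (z₀ + t) * (starRingEnd ℂ) (Ai (z₀ + t)) +
        deriv Ai (z₀ + t) * (starRingEnd ℂ) (deriv Ai (z₀ + t))) t := by
  have hd : Differentiable ℂ Ai := Ai_differentiable
  have hd1 : Differentiable ℂ (deriv Ai) := by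
    have := (Ai_differentiable.contDiff (n := 2)).differentiable_deriv_two
    exact this
  have hlin : HasDerivAt (fun t : ℝ => z₀ + (t : ℂ)) 1 t := by
    simpa using (Complex.ofRealCLM.hasDerivAt (x := t)).const_add z₀
  have h1 : HasDerivAt (fun t : ℝ => Ai (z₀ + t)) (deriv Ai (z₀ + t)) t := by
    have := (hd (z₀ + t)).hasDerivAt.comp_of_eq t hlin rfl
    rw [mul_one] at this
    exact this
  have h2 : HasDerivAt (fun t : ℝ => deriv Ai (z₀ + t)) ((z₀ + t) * Ai (z₀ + t)) t := by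
    have := (hd1 (z₀ + t)).hasDerivAt.comp_of_eq t hlin rfl
    rw [Ai_ode, mul_one] at this
    exact this
  have h3 : HasDerivAt (fun t : ℝ => (starRingEnd ℂ) (Ai (z₀ + t)))
      ((starRingEnd ℂ) (deriv Ai (z₀ + t))) t := h1.star
  exact h2.mul h3

/-- if `g` is monotone on `[0,∞)` with `g 0 = 0` and `g (t x) → 0` along `t x → ∞` then `g = 0`. -/
theorem T03.mono_zero (g g' : ℝ → ℝ) (hg : ∀ t, HasDerivAt g (g' t) t) (hpos : ∀ t, 0 ≤ t → 0 ≤ g' t)
    (h0 : g 0 = 0) (τ : ℝ → ℝ) (hτ : Tendsto τ atTop atTop)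
    (hlim : Tendsto (fun x => g (τ x)) atTop (𝓝 0)) : ∀ t, 0 < t → g' t = 0 := by
  have hmono : MonotoneOn g (Ici 0) := by
    apply monotoneOn_of_deriv_nonneg (convex_Ici 0)
    · exact fun x _ => (hg x).continuousAt.continuousWithinAt
    · exact fun x _ => (hg x).differentiableAt.differentiableWithinAt
    · intro x hx
      rw [interior_Ici] at hx
      rw [(hg x).deriv]
      exact hpos x (le_of_lt hx)
  have hz : ∀ t, 0 ≤ t → g t = 0 := by
    intro t ht
    apply le_antisymm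
    · refine ge_of_tendsto hlim ?_
      filter_upwards [hτ.eventually_ge_atTop t] with x hx
      exact hmono ht (le_trans ht hx) hx
    · rw [← h0]
      exact hmono (Set.mem_Ici.mpr le_rfl) ht ht
  intro t ht
  have h1 : g =ᶠ[𝓝 t] fun _ => 0 := by
    filter_upwards [lt_mem_nhds ht] with s hs
    exact hz s hs.le
  exact (hg t).unique ((hasDerivAt_const t (0 : ℝ)).congr_of_eventuallyEq h1)

/-- `Ai` does not vanish on a horizontal half line -/
theorem T03.not_zero_halfline (z₀ : ℂ) : ¬ ∀ t : ℝ, 0 < t → Ai (z₀ + t) = 0 := by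
  intro h
  obtain ⟨C, hC⟩ := BB_expansion 1 (1 / 2) (by norm_num)
  have htt := T03.tendsto_tt z₀.im z₀.re
  have hlim : Tendsto (fun x : ℝ => C / x ^ 3) atTop (𝓝 0) :=
    tendsto_const_nhds.div_atTop (tendsto_pow_atTop (by norm_num))
  have hev : ∀ᶠ x : ℝ in atTop, 1 ≤ |C| / x ^ 3 := by
    filter_upwards [htt.eventually_gt_atTop 0, eventually_ge_atTop (1 : ℝ),
      eventually_ge_atTop |z₀.im|] with x hx1 hx2 hx3
    have hx0 : 0 < x := by linarith
    have hpre : 0 < (T03.pp z₀.im x).re := hx0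
    have hp0 : T03.pp z₀.im x ≠ 0 := by
      intro h0; rw [h0] at hpre; simp at hpre
    have e : z₀ + ((x ^ 2 - z₀.im ^ 2 / (4 * x ^ 2) - z₀.re : ℝ) : ℂ) = T03.pp z₀.im x ^ 2 := by
      rw [T03.pp_sq _ _ hx0]
      apply Complex.ext
      · simp
      · simp; ring
    have h1 := h _ hx1
    rw [e, Ai_sq _ hpre] at h1
    have h2 : cA (T03.pp z₀.im x) = 0 := by
      rcases mul_eq_zero.mp h1 with h3 | h3
      · rcases mul_eq_zero.mp h3 with h4 | h4
        · exfalso
          have : (1 / (2 * Real.pi) : ℝ) ≠ 0 := by positivity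
          exact this (Complex.ofReal_eq_zero.mp h4)
        · exact absurd h4 (Complex.exp_ne_zero _)
      · exact h3
    have h3 : BB (T03.pp z₀.im x) = 0 := by rw [BB, h2, mul_zero]
    have h4 := hC _ hp0 (by
      have := T03.pp_norm z₀.im x hx2 hx3
      show 1 / 2 * ‖T03.pp z₀.im x‖ ≤ x
      linarith)
    rw [h3] at h4
    have h5 : (∑ j ∈ Finset.range 1, (((-1) ^ j * bR j / 576 ^ j : ℝ) : ℂ) *
        ((T03.pp z₀.im x) ^ (3 * j))⁻¹) = 1 := by
      simp [bR]
    rw [h5, zero_sub, norm_neg, norm_one] at h4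
    refine le_trans h4 ?_
    have h6 : x ≤ ‖T03.pp z₀.im x‖ := by
      have := Complex.abs_re_le_norm (T03.pp z₀.im x)
      have e1 : |(T03.pp z₀.im x).re| = x := abs_of_pos hx0
      rwa [e1] at this
    calc C / ‖T03.pp z₀.im x‖ ^ (3 * 1) ≤ |C| / ‖T03.pp z₀.im x‖ ^ (3 * 1) := by
          gcongr; exact le_abs_self C
      _ ≤ |C| / x ^ 3 := by
          rw [mul_one]; gcongr
  have hlim' : Tendsto (fun x : ℝ => |C| / x ^ 3) atTop (𝓝 0) :=
    tendsto_const_nhds.div_atTop (tendsto_pow_atTop (by norm_num))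
  have := ge_of_tendsto hlim' hev
  norm_num at this

theorem T03.h_tendsto (z₀ : ℂ) : Tendsto (fun x : ℝ =>
    deriv Ai (z₀ + ((x ^ 2 - z₀.im ^ 2 / (4 * x ^ 2) - z₀.re : ℝ) : ℂ)) *
      (starRingEnd ℂ) (Ai (z₀ + ((x ^ 2 - z₀.im ^ 2 / (4 * x ^ 2) - z₀.re : ℝ) : ℂ)))) atTop (𝓝 0) := by
  rw [tendsto_zero_iff_norm_tendsto_zero]
  refine tendsto_of_tendsto_of_tendsto_of_le_of_le' tendsto_const_nhds T03.tendsto_bound
    (Eventually.of_forall fun x => norm_nonneg _) ?_
  filter_upwards [eventually_ge_atTop (1 : ℝ), eventually_ge_atTop |z₀.im|] with x hx2 hx3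
  have hx0 : 0 < x := by linarith
  have e : z₀ + ((x ^ 2 - z₀.im ^ 2 / (4 * x ^ 2) - z₀.re : ℝ) : ℂ) = T03.pp z₀.im x ^ 2 := by
    rw [T03.pp_sq _ _ hx0]
    apply Complex.ext
    · simp
    · simp; ring
  rw [e, norm_mul, RCLike.norm_conj]
  exact T03.decay_bound _ _ hx2 hx3

theorem Ai_ne_zero (z : ℂ) (hz : z.im ≠ 0 ∨ 0 ≤ z.re) : Ai z ≠ 0 := by
  intro h0
  have hder := T03.hasDerivAt_h z
  have hlim := T03.h_tendsto z
  have htt := T03.tendsto_tt z.im z.re
  have hz0 : deriv Ai (z + ((0 : ℝ) : ℂ)) * (starRingEnd ℂ) (Ai (z + ((0 : ℝ) : ℂ))) = 0 := by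
    simp [h0]
  have key : ∀ t : ℝ, ((z + t) * Ai (z + t) * (starRingEnd ℂ) (Ai (z + t)) +
        deriv Ai (z + t) * (starRingEnd ℂ) (deriv Ai (z + t))) =
      (((z.re + t) * normSq (Ai (z + t)) + normSq (deriv Ai (z + t)) : ℝ) : ℂ) +
        ((z.im * normSq (Ai (z + t)) : ℝ) : ℂ) * I := by
    intro t
    rw [mul_assoc, Complex.mul_conj, Complex.mul_conj]
    apply Complex.ext <;> simp
  rcases eq_or_ne z.im 0 with him | him
  · have hre : 0 ≤ z.re := by
      rcases hz with h | h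
      · exact absurd him h
      · exact h
    apply T03.not_zero_halfline z
    intro t ht
    have h1 := T03.mono_zero (fun t : ℝ => (deriv Ai (z + t) * (starRingEnd ℂ) (Ai (z + t))).re)
      (fun t : ℝ => (z.re + t) * normSq (Ai (z + t)) + normSq (deriv Ai (z + t))) ?_ ?_ ?_ _ htt ?_ t ht
    · have h2 : 0 ≤ normSq (deriv Ai (z + t)) := normSq_nonneg _
      have h3 : 0 ≤ normSq (Ai (z + t)) := normSq_nonneg _
      have h4 : 0 < z.re + t := by linarith
      have h5 : normSq (Ai (z + t)) = 0 := by nlinarith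
      exact normSq_eq_zero.mp h5
    · intro t
      have := hder t
      rw [key t] at this
      have h2 := (Complex.reCLM.hasFDerivAt.comp_hasDerivAt t this)
      have e : Complex.reCLM ((((z.re + t) * normSq (Ai (z + t)) +
          normSq (deriv Ai (z + t)) : ℝ) : ℂ) + ((z.im * normSq (Ai (z + t)) : ℝ) : ℂ) * I) =
          (z.re + t) * normSq (Ai (z + t)) + normSq (deriv Ai (z + t)) := by
        rw [Complex.reCLM_apply]
        simp
      rw [e] at h2
      exact h2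
    · intro t ht
      have h2 : 0 ≤ normSq (deriv Ai (z + t)) := normSq_nonneg _
      have h3 : 0 ≤ normSq (Ai (z + t)) := normSq_nonneg _
      positivity
    · show (deriv Ai (z + ((0 : ℝ) : ℂ)) * (starRingEnd ℂ) (Ai (z + ((0 : ℝ) : ℂ)))).re = 0
      rw [hz0]; simp
    · have := (Complex.continuous_re.tendsto 0).comp hlim
      rw [Complex.zero_re] at this
      exact this
  · apply T03.not_zero_halfline z
    intro t ht
    have h1 := T03.mono_zero
      (fun t : ℝ => (deriv Ai (z + t) * (starRingEnd ℂ) (Ai (z + t))).im / z.im)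
      (fun t : ℝ => normSq (Ai (z + t))) ?_ ?_ ?_ _ htt ?_ t ht
    · exact normSq_eq_zero.mp h1
    · intro t
      have := hder t
      rw [key t] at this
      have h2 := (Complex.imCLM.hasFDerivAt.comp_hasDerivAt t this).div_const z.im
      have e : (Complex.imCLM ((((z.re + t) * normSq (Ai (z + t)) +
          normSq (deriv Ai (z + t)) : ℝ) : ℂ) + ((z.im * normSq (Ai (z + t)) : ℝ) : ℂ) * I)) / z.im =
          normSq (Ai (z + t)) := by
        rw [Complex.imCLM_apply]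
        simp
        field_simp
      rw [e] at h2
      exact h2
    · intro t ht
      exact normSq_nonneg _
    · show (deriv Ai (z + ((0 : ℝ) : ℂ)) * (starRingEnd ℂ) (Ai (z + ((0 : ℝ) : ℂ)))).im / z.im = 0
      rw [hz0]; simp
    · have := ((Complex.continuous_im.tendsto 0).comp hlim).div_const z.im
      rw [Complex.zero_im, zero_div] at this
      exact this

theorem T03.cA_ne_zero (p : ℂ) (hp : 0 < p.re) : cA p ≠ 0 := by
  intro h
  have h1 : Ai (p ^ 2) = 0 := by rw [Ai_sq p hp, h, mul_zero]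
  refine Ai_ne_zero (p ^ 2) ?_ h1
  by_cases him : p.im = 0
  · right
    rw [pow_two, Complex.mul_re, him]
    nlinarith
  · left
    rw [pow_two, Complex.mul_im]
    have : p.re * p.im ≠ 0 := mul_ne_zero hp.ne' him
    intro h2
    apply this
    linarith

theorem BB_ne_zero (p : ℂ) (hp : 0 < p.re) : BB p ≠ 0 := by
  unfold BB
  have hp0 : p ≠ 0 := by rintro rfl; simp at hp
  refine mul_ne_zero ?_ (T03.cA_ne_zero p hp)
  intro h
  rw [Complex.cpow_eq_zero_iff] at h
  exact (div_ne_zero hp0 (by exact_mod_cast Real.pi_ne_zero)) h.1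

theorem BB_pos (x : ℝ) (hx : 0 < x) : 0 < (BB (x : ℂ)).re ∧ (BB (x : ℂ)).im = 0 := by
  have him : ∀ x : ℝ, 0 < x → (BB (x : ℂ)).im = 0 := by
    intro x hx
    have h := BB_conj (x : ℂ) (by simpa using hx)
    rw [Complex.conj_ofReal] at h
    exact Complex.conj_eq_iff_im.mp h.symm
  have hne : ∀ x : ℝ, 0 < x → (BB (x : ℂ)).re ≠ 0 := by
    intro x hx h
    exact BB_ne_zero (x : ℂ) (by simpa using hx) (Complex.ext h (him x hx))
  refine ⟨?_, him x hx⟩
  by_contra hneg
  push Not at hneg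
  -- large `y` with positive value
  obtain ⟨C, hC⟩ := BB_expansion 1 (1 / 2) (by norm_num)
  have hlim' : Tendsto (fun y : ℝ => |C| / y ^ 3) atTop (𝓝 0) :=
    tendsto_const_nhds.div_atTop (tendsto_pow_atTop (by norm_num))
  obtain ⟨y, hy1, hy2, hy3⟩ := ((hlim'.eventually_lt_const (by norm_num : (0 : ℝ) < 1)).and
    ((eventually_ge_atTop x).and (eventually_ge_atTop (1 : ℝ)))).exists
  have hy0 : 0 < y := by linarith
  have hypos : 0 < (BB (y : ℂ)).re := by
    have h4 := hC (y : ℂ) (by exact_mod_cast hy0.ne') (by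
      rw [Complex.norm_real, Real.norm_of_nonneg hy0.le, Complex.ofReal_re]; linarith)
    have h5 : (∑ j ∈ Finset.range 1, (((-1) ^ j * bR j / 576 ^ j : ℝ) : ℂ) *
        ((y : ℂ) ^ (3 * j))⁻¹) = 1 := by
      simp [bR]
    rw [h5] at h4
    have h6 : ‖BB (y : ℂ) - 1‖ < 1 := by
      refine lt_of_le_of_lt h4 (lt_of_le_of_lt ?_ hy1)
      rw [Complex.norm_real, Real.norm_of_nonneg hy0.le, mul_one]
      gcongr
      exact le_abs_self C
    have h7 := Complex.abs_re_le_norm (BB (y : ℂ) - 1)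
    have h8 : |(BB (y : ℂ)).re - 1| < 1 := by
      have : (BB (y : ℂ) - 1).re = (BB (y : ℂ)).re - 1 := by simp
      rw [← this]; exact lt_of_le_of_lt h7 h6
    rw [abs_lt] at h8
    linarith
  have hcont : ContinuousOn (fun s : ℝ => (BB (s : ℂ)).re) (Icc x y) := by
    apply Complex.continuous_re.comp_continuousOn
    apply BB_differentiableOn.continuousOn.comp Complex.continuous_ofReal.continuousOn
    intro s hs
    show 0 < ((s : ℂ)).re
    simpa using lt_of_lt_of_le hx hs.1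
  have := intermediate_value_Icc hy2 hcont
  obtain ⟨s, hs, hs0⟩ := this ⟨hneg, hypos.le⟩
  exact hne s (lt_of_lt_of_le hx hs.1) hs0

theorem Ai_real (x : ℝ) : (Ai (x : ℂ)).im = 0 := by
  have h := Ai_conj (x : ℂ)
  rw [Complex.conj_ofReal] at h
  exact Complex.conj_eq_iff_im.mp h.symm

/-! ### the first zero -/

theorem T03.hasDerivAt_a (x : ℝ) :
    HasDerivAt (fun x : ℝ => (Ai (x : ℂ)).re) (deriv Ai (x : ℂ)).re x :=
  (Ai_differentiable (x : ℂ)).hasDerivAt.real_of_complex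

theorem T03.hasDerivAt_a1 (x : ℝ) :
    HasDerivAt (fun x : ℝ => (deriv Ai (x : ℂ)).re) (x * (Ai (x : ℂ)).re) x := by
  have hd1 : Differentiable ℂ (deriv Ai) :=
    (Ai_differentiable.contDiff (n := 2)).differentiable_deriv_two
  have := (hd1 (x : ℂ)).hasDerivAt.real_of_complex
  rw [Ai_ode, Complex.re_ofReal_mul] at this
  exact this

theorem T03.a_pos (x : ℝ) (hx : 0 ≤ x) : 0 < (Ai (x : ℂ)).re := by
  have hpos : ∀ x : ℝ, 0 < x → 0 < (Ai (x : ℂ)).re := by
    intro x hx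
    have hs : 0 < Real.sqrt x := Real.sqrt_pos.mpr hx
    have e : (x : ℂ) = ((Real.sqrt x : ℝ) : ℂ) ^ 2 := by
      rw [← Complex.ofReal_pow, Real.sq_sqrt hx.le]
    have hB := BB_pos (Real.sqrt x) hs
    rw [e, Ai_sq _ (by simpa using hs)]
    have h1 : (((Real.sqrt x : ℝ) : ℂ) / (Real.pi : ℂ)) ^ ((1 : ℂ) / 2) =
        (((Real.sqrt x / Real.pi) ^ ((1 : ℝ) / 2) : ℝ) : ℂ) := by
      rw [Complex.ofReal_cpow (by positivity)]
      push_cast
      rfl
    have h2 : BB ((Real.sqrt x : ℝ) : ℂ) =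
        (((Real.sqrt x / Real.pi) ^ ((1 : ℝ) / 2) : ℝ) : ℂ) * cA ((Real.sqrt x : ℝ) : ℂ) := by
      rw [BB, h1]
    rw [h2, Complex.re_ofReal_mul] at hB
    have h3 : 0 < (Real.sqrt x / Real.pi) ^ ((1 : ℝ) / 2) := by positivity
    have h4 : 0 < (cA ((Real.sqrt x : ℝ) : ℂ)).re := by
      by_contra hc
      push Not at hc
      have := mul_nonpos_of_nonneg_of_nonpos h3.le hc
      linarith [hB.1]
    have h5 : cexp (-(2 / 3) * ((Real.sqrt x : ℝ) : ℂ) ^ 3) =
        ((Real.exp (-(2 / 3) * (Real.sqrt x) ^ 3) : ℝ) : ℂ) := by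
      push_cast; rfl
    rw [h5, mul_assoc, Complex.re_ofReal_mul, Complex.re_ofReal_mul]
    positivity
  rcases hx.lt_or_eq with h | h
  · exact hpos x h
  · subst h
    have h1 : 0 ≤ (Ai ((0 : ℝ) : ℂ)).re := by
      have hc : ContinuousAt (fun x : ℝ => (Ai (x : ℂ)).re) 0 := (T03.hasDerivAt_a 0).continuousAt
      have hc' : Tendsto (fun x : ℝ => (Ai (x : ℂ)).re) (𝓝[>] 0) (𝓝 (Ai ((0 : ℝ) : ℂ)).re) :=
        hc.tendsto.mono_left nhdsWithin_le_nhds
      refine ge_of_tendsto hc' ?_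
      filter_upwards [self_mem_nhdsWithin] with y hy
      exact (hpos y hy).le
    have h2 : (Ai ((0 : ℝ) : ℂ)).re ≠ 0 := by
      intro h
      exact Ai_ne_zero ((0 : ℝ) : ℂ) (Or.inr (by simp)) (Complex.ext h (Ai_real 0))
    exact lt_of_le_of_ne h1 (Ne.symm h2)

theorem T03.a_continuous : Continuous (fun x : ℝ => (Ai (x : ℂ)).re) :=
  continuous_iff_continuousAt.mpr fun x => (T03.hasDerivAt_a x).continuousAt

theorem T03.exists_real_zero : ∃ x : ℝ, (Ai (x : ℂ)).re = 0 := by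
  by_contra hno
  push Not at hno
  set a : ℝ → ℝ := fun x => (Ai (x : ℂ)).re with ha
  set a1 : ℝ → ℝ := fun x => (deriv Ai (x : ℂ)).re with ha1
  have hda : ∀ x, HasDerivAt a (a1 x) x := T03.hasDerivAt_a
  have hda1 : ∀ x, HasDerivAt a1 (x * a x) x := T03.hasDerivAt_a1
  have hpos : ∀ x, 0 < a x := by
    intro x
    by_contra hc
    push Not at hc
    have hx : x ≤ 0 := by
      by_contra hx
      push Not at hx
      exact absurd (T03.a_pos x hx.le) (not_lt.mpr hc)
    have := intermediate_value_Icc hx T03.a_continuous.continuousOn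
    obtain ⟨s, _, hs0⟩ := this ⟨hc, (T03.a_pos 0 le_rfl).le⟩
    exact hno s hs0
  have anti1 : AntitoneOn a1 (Iic 0) := by
    apply antitoneOn_of_deriv_nonpos (convex_Iic 0)
    · exact fun x _ => (hda1 x).continuousAt.continuousWithinAt
    · exact fun x _ => (hda1 x).differentiableAt.differentiableWithinAt
    · intro x hx
      rw [interior_Iic] at hx
      rw [(hda1 x).deriv]
      exact mul_nonpos_of_nonpos_of_nonneg (le_of_lt hx) (hpos x).le
  have a1_nonpos : ∀ x, x ≤ 0 → a1 x ≤ 0 := by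
    intro x₀ hx₀
    by_contra hc
    push Not at hc
    -- `a x - a1 x₀ * x` is monotone on `(-∞, x₀]`
    have hm : MonotoneOn (fun x => a x - a1 x₀ * x) (Iic x₀) := by
      apply monotoneOn_of_deriv_nonneg (convex_Iic x₀)
      · exact fun x _ => ((hda x).sub ((hasDerivAt_id x).const_mul (a1 x₀))).continuousAt.continuousWithinAt
      · exact fun x _ => ((hda x).sub ((hasDerivAt_id x).const_mul (a1 x₀))).differentiableAt.differentiableWithinAt
      · intro x hx
        rw [interior_Iic] at hx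
        have h1 : HasDerivAt (fun x => a x - a1 x₀ * x) (a1 x - a1 x₀ * 1) x :=
          (hda x).sub ((hasDerivAt_id x).const_mul (a1 x₀))
        rw [h1.deriv]
        have := anti1 (le_trans (le_of_lt hx) hx₀ : x ≤ 0) hx₀ (le_of_lt hx)
        linarith
    set x := x₀ - a x₀ / a1 x₀ with hxdef
    have hx : x ≤ x₀ := by
      have : 0 ≤ a x₀ / a1 x₀ := div_nonneg (hpos x₀).le hc.le
      linarith
    have h1 := hm (show x ∈ Iic x₀ from hx) (Set.mem_Iic.mpr (le_refl x₀)) hx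
    simp only at h1
    have h2 : a1 x₀ * x = a1 x₀ * x₀ - a x₀ := by
      rw [hxdef, mul_sub, mul_div_cancel₀ _ hc.ne']
    have h3 := hpos x
    linarith
  have anti : AntitoneOn a (Iic 0) := by
    apply antitoneOn_of_deriv_nonpos (convex_Iic 0)
    · exact fun x _ => (hda x).continuousAt.continuousWithinAt
    · exact fun x _ => (hda x).differentiableAt.differentiableWithinAt
    · intro x hx
      rw [interior_Iic] at hx
      rw [(hda x).deriv]
      exact a1_nonpos x (le_of_lt hx)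
  have anti2 : AntitoneOn (fun x => a1 x - a 0 * (x ^ 2 / 2)) (Iic 0) := by
    have hd : ∀ x, HasDerivAt (fun x => a1 x - a 0 * (x ^ 2 / 2)) (x * a x - a 0 * x) x := by
      intro x
      have h2 : HasDerivAt (fun x : ℝ => a 0 * (x ^ 2 / 2)) (a 0 * x) x := by
        have := ((hasDerivAt_pow 2 x).div_const 2).const_mul (a 0)
        simpa using this
      exact (hda1 x).sub h2
    apply antitoneOn_of_deriv_nonpos (convex_Iic 0)
    · exact fun x _ => (hd x).continuousAt.continuousWithinAt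
    · exact fun x _ => (hd x).differentiableAt.differentiableWithinAt
    · intro x hx
      rw [interior_Iic] at hx
      rw [(hd x).deriv]
      have h1 := anti (Set.mem_Iic.mpr (le_of_lt hx)) (Set.mem_Iic.mpr (le_refl (0 : ℝ)))
        (le_of_lt hx)
      have h2 : x < 0 := hx
      nlinarith
  -- contradiction
  have ha0 := hpos 0
  set K : ℝ := (|a1 0| + 1) / a 0 + 1 with hK
  have hK1 : 1 ≤ K := by
    have : 0 ≤ (|a1 0| + 1) / a 0 := by positivity
    linarith
  have hx : -(2 * K) ≤ 0 := by linarith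
  have h1 := anti2 (show -(2 * K) ∈ Iic (0 : ℝ) from hx) (Set.mem_Iic.mpr (le_refl (0 : ℝ))) hx
  simp only at h1
  have h2 := a1_nonpos _ hx
  have h3 : a 0 * K = |a1 0| + 1 + a 0 := by
    rw [hK, mul_add, mul_div_cancel₀ _ ha0.ne', mul_one]
  have h4 : a 0 * K ≤ a 0 * K ^ 2 := by
    have : K ≤ K ^ 2 := by nlinarith
    exact mul_le_mul_of_nonneg_left this ha0.le
  have h5 := neg_abs_le (a1 0)
  nlinarith

theorem T03.deriv_ne (z : ℝ) (hz : z ≤ 0) (h : (Ai (z : ℂ)).re = 0) : (deriv Ai (z : ℂ)).re ≠ 0 := by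
  intro h'
  set a : ℝ → ℝ := fun x => (Ai (x : ℂ)).re with ha
  set a1 : ℝ → ℝ := fun x => (deriv Ai (x : ℂ)).re with ha1
  have hda : ∀ x, HasDerivAt a (a1 x) x := T03.hasDerivAt_a
  have hda1 : ∀ x, HasDerivAt a1 (x * a x) x := T03.hasDerivAt_a1
  set K : ℝ := 1 + |z| with hK
  have hd : ∀ x, HasDerivAt (fun x => (a x ^ 2 + a1 x ^ 2) * Real.exp (-K * x))
      ((2 * a x * a1 x + 2 * a1 x * (x * a x)) * Real.exp (-K * x) +
        (a x ^ 2 + a1 x ^ 2) * (Real.exp (-K * x) * (-K))) x := by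
    intro x
    have h1 : HasDerivAt (fun x => a x ^ 2 + a1 x ^ 2) (2 * a x * a1 x + 2 * a1 x * (x * a x)) x := by
      exact (((hda x).pow 2).add ((hda1 x).pow 2)).congr_deriv (by norm_num)
    have h2 : HasDerivAt (fun x : ℝ => Real.exp (-K * x)) (Real.exp (-K * x) * (-K)) x := by
      have := ((hasDerivAt_id x).const_mul (-K)).exp
      simpa using this
    exact h1.mul h2
  have hanti : AntitoneOn (fun x => (a x ^ 2 + a1 x ^ 2) * Real.exp (-K * x)) (Icc z 0) := by
    apply antitoneOn_of_deriv_nonpos (convex_Icc z 0)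
    · exact fun x _ => (hd x).continuousAt.continuousWithinAt
    · exact fun x _ => (hd x).differentiableAt.differentiableWithinAt
    · intro x hx
      rw [interior_Icc] at hx
      rw [(hd x).deriv]
      have e : (2 * a x * a1 x + 2 * a1 x * (x * a x)) * Real.exp (-K * x) +
        (a x ^ 2 + a1 x ^ 2) * (Real.exp (-K * x) * (-K)) =
        -(Real.exp (-K * x) * (K * (a x ^ 2 + a1 x ^ 2) - (1 + x) * (2 * (a x * a1 x)))) := by ring
      rw [e]
      apply neg_nonpos_of_nonneg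
      apply mul_nonneg (Real.exp_pos _).le
      have hK1 : |1 + x| ≤ K := by
        have h1 : |x| ≤ |z| := by
          rw [abs_of_neg hx.2, abs_of_nonpos hz]; linarith [hx.1]
        calc |1 + x| ≤ |(1 : ℝ)| + |x| := abs_add_le _ _
          _ ≤ 1 + |z| := by rw [abs_one]; linarith
      have h2 : |2 * (a x * a1 x)| ≤ a x ^ 2 + a1 x ^ 2 := by
        rw [abs_le]; constructor <;> nlinarith [sq_nonneg (a x + a1 x), sq_nonneg (a x - a1 x)]
      have h3 : (1 + x) * (2 * (a x * a1 x)) ≤ |1 + x| * |2 * (a x * a1 x)| := by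
        rw [← abs_mul]; exact le_abs_self _
      have h4 : |1 + x| * |2 * (a x * a1 x)| ≤ K * (a x ^ 2 + a1 x ^ 2) :=
        mul_le_mul hK1 h2 (abs_nonneg _) (by positivity)
      linarith
  have h1 := hanti (show z ∈ Icc z 0 from ⟨le_rfl, hz⟩) (show (0 : ℝ) ∈ Icc z 0 from ⟨hz, le_rfl⟩) hz
  simp only at h1
  have e1 : a z = 0 := h
  have e2 : a1 z = 0 := h'
  rw [e1, e2] at h1
  have ha0 : 0 < a 0 := T03.a_pos 0 le_rfl
  simp at h1
  nlinarith [sq_nonneg (a1 0)]

theorem exists_first_zero : ∃ z₁ : ℝ, z₁ < 0 ∧ Ai (z₁ : ℂ) = 0 ∧ deriv Ai (z₁ : ℂ) ≠ 0 ∧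
    (∀ x : ℝ, z₁ < x → 0 < (Ai (x : ℂ)).re) ∧
    ∃ r : ℝ, 0 < r ∧ ∀ x : ℝ, z₁ - r ≤ x → x < z₁ → (Ai (x : ℂ)).re < 0 := by
  set a : ℝ → ℝ := fun x => (Ai (x : ℂ)).re with ha
  have hclosed : IsClosed {x : ℝ | a x = 0} := isClosed_eq T03.a_continuous continuous_const
  have hne : {x : ℝ | a x = 0}.Nonempty := T03.exists_real_zero
  have hbdd : BddAbove {x : ℝ | a x = 0} := by
    refine ⟨0, ?_⟩
    intro x hx
    by_contra hc
    push Not at hc
    exact absurd hx (T03.a_pos x hc.le).ne'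
  have hmem : a (sSup {x : ℝ | a x = 0}) = 0 := hclosed.csSup_mem hne hbdd
  set z₁ := sSup {x : ℝ | a x = 0} with hz₁
  have hneg : z₁ < 0 := by
    by_contra hc
    push Not at hc
    exact absurd hmem (T03.a_pos z₁ hc).ne'
  have hpos : ∀ x : ℝ, z₁ < x → 0 < a x := by
    intro x hx
    by_contra hc
    push Not at hc
    have hxx : x ≤ max x 0 := le_max_left _ _
    obtain ⟨s, hs, hs0⟩ := intermediate_value_Icc hxx T03.a_continuous.continuousOn
      ⟨hc, (T03.a_pos (max x 0) (le_max_right _ _)).le⟩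
    have : s ≤ z₁ := le_csSup hbdd hs0
    linarith [hs.1]
  have hslope : Tendsto (slope a z₁) (𝓝[≠] z₁) (𝓝 (deriv Ai (z₁ : ℂ)).re) :=
    hasDerivAt_iff_tendsto_slope.mp (T03.hasDerivAt_a z₁)
  have hd0 : 0 ≤ (deriv Ai (z₁ : ℂ)).re := by
    have h1 : Tendsto (slope a z₁) (𝓝[>] z₁) (𝓝 (deriv Ai (z₁ : ℂ)).re) :=
      hslope.mono_left (nhdsWithin_mono _ (fun x hx => (ne_of_gt hx)))
    refine ge_of_tendsto h1 ?_
    filter_upwards [self_mem_nhdsWithin] with x hx
    rw [slope_def_field, hmem, sub_zero]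
    exact div_nonneg (hpos x hx).le (sub_nonneg.mpr (le_of_lt hx))
  have hdne := T03.deriv_ne z₁ hneg.le hmem
  have hdpos : 0 < (deriv Ai (z₁ : ℂ)).re := lt_of_le_of_ne hd0 (Ne.symm hdne)
  refine ⟨z₁, hneg, Complex.ext hmem (Ai_real z₁), ?_, hpos, ?_⟩
  · intro h
    rw [h] at hdpos
    simp at hdpos
  · have h1 : ∀ᶠ x in 𝓝[≠] z₁, 0 < slope a z₁ x := hslope.eventually (lt_mem_nhds hdpos)
    rw [eventually_nhdsWithin_iff, Metric.eventually_nhds_iff] at h1
    obtain ⟨ε, hε, h2⟩ := h1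
    refine ⟨ε / 2, by positivity, ?_⟩
    intro x hx1 hx2
    have h3 := h2 (y := x) (by rw [Real.dist_eq, abs_of_neg (by linarith)]; linarith) (ne_of_lt hx2)
    rw [slope_def_field, hmem, sub_zero] at h3
    by_contra hc
    push Not at hc
    have h4 : a x / (x - z₁) ≤ 0 := div_nonpos_of_nonneg_of_nonpos hc (by linarith)
    linarith

end Pool.Agent.H140R2.FR
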