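import Pool.Agent.H140R2.FR.T03Zeros

/-!
T05.  The logarithm `β` of `BB` on the right half-plane.

Sketch.  Existence: `Complex.exists_continuousOn_eqOn_exp_comp` (Mathlib, BranchLogRoot) on the convex open
set `{0 < re}`, or a primitive of `BB'/BB` (T06 `exists_primitive_rhp`).  A continuous logarithm of a
holomorphic function is holomorphic.  Normalise `β 1 = Real.log (BB 1)`; then `β` is real on `(0,∞)`
(`exp(2i Im β) = 1` there, by `BB_pos`; `Im β / π` is continuous and integer valued).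
`conj_eq`: `p ↦ conj (β (conj p))` is a holomorphic log of `BB` and agrees with `β` on the real axis;
the difference is continuous with values in `2πiℤ` on a connected set.
`norm_exp`: `‖exp(qβ)‖ = ‖BB p‖^q` and `BB_norm_le`.
`small`: for `‖p‖ ≥ R` in the sector `‖BB p - 1‖` is small (`BB_expansion`, `N = 1`); on the vertical segment
from `Re p` to `p` (in the same sector) `β - log BB` is continuous with values in `2πiℤ` and
vanishes at `Re p > 0`.
-/

set_option autoImplicit false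

open Complex MeasureTheory Set Filter Topology

namespace Pool.Agent.H140R2.FR

theorem T05_mem_ball (p : ℂ) (n : ℕ) (hn : 0 < n) :
    p ∈ Metric.ball ((n : ℝ) : ℂ) (n : ℝ) ↔ p.re ^ 2 + p.im ^ 2 < 2 * n * p.re := by
  have hn' : (0 : ℝ) < n := by exact_mod_cast hn
  rw [Metric.mem_ball, Complex.dist_eq, ← sq_lt_sq₀ (norm_nonneg _) hn'.le, Complex.sq_norm,
    Complex.normSq_apply]
  simp only [Complex.sub_re, Complex.ofReal_re, Complex.sub_im, Complex.ofReal_im, sub_zero]
  constructor <;> intro h <;> nlinarith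

theorem T05_exists_primitive {f : ℂ → ℂ} (hf : DifferentiableOn ℂ f {p | 0 < p.re}) :
    ∃ g : ℂ → ℂ, ∀ p : ℂ, 0 < p.re → HasDerivAt g (f p) p := by
  classical
  have hsub : ∀ n : ℕ, 0 < n → Metric.ball ((n : ℝ) : ℂ) (n : ℝ) ⊆ {p : ℂ | 0 < p.re} := by
    intro n hn p hp
    rw [T05_mem_ball p n hn] at hp
    have hn' : (0 : ℝ) < n := by exact_mod_cast hn
    by_contra hc
    simp only [Set.mem_ofPred_eq, not_lt] at hc
    nlinarith [sq_nonneg p.re, sq_nonneg p.im, mul_nonneg hn'.le (neg_nonneg.2 hc)]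
  have hex : ∀ n : ℕ, ∃ g : ℂ → ℂ, 0 < n → (g 1 = 0 ∧
      ∀ z ∈ Metric.ball ((n : ℝ) : ℂ) (n : ℝ), HasDerivAt g (f z) z) := by
    intro n
    by_cases hn : 0 < n
    · obtain ⟨g, hg1, hg2⟩ := ((hf.mono (hsub n hn)).isExactOn_ball).with_val_at 1 0
      exact ⟨g, fun _ => ⟨hg1, hg2⟩⟩
    · exact ⟨0, fun h => absurd h hn⟩
  choose G hG using hex
  have hmono : ∀ m n : ℕ, 0 < m → m ≤ n →
      Metric.ball ((m : ℝ) : ℂ) (m : ℝ) ⊆ Metric.ball ((n : ℝ) : ℂ) (n : ℝ) := by
    intro m n hm hmn p hp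
    have hp0 : 0 < p.re := hsub m hm hp
    rw [T05_mem_ball p m hm] at hp
    rw [T05_mem_ball p n (by omega)]
    have : (m : ℝ) ≤ n := by exact_mod_cast hmn
    nlinarith [mul_le_mul_of_nonneg_right this hp0.le]
  have hone : ∀ n : ℕ, 0 < n → (1 : ℂ) ∈ Metric.ball ((n : ℝ) : ℂ) (n : ℝ) := by
    intro n hn
    rw [T05_mem_ball 1 n hn]
    have : (1 : ℝ) ≤ n := by exact_mod_cast hn
    simp only [Complex.one_re, Complex.one_im]
    nlinarith
  -- consistency
  have hcons : ∀ m n : ℕ, 0 < m → m ≤ n → ∀ p ∈ Metric.ball ((m : ℝ) : ℂ) (m : ℝ), G m p = G n p := by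
    intro m n hm hmn p hp
    have hn : 0 < n := by omega
    have hopen : IsOpen (Metric.ball ((m : ℝ) : ℂ) (m : ℝ)) := Metric.isOpen_ball
    have hpre : IsPreconnected (Metric.ball ((m : ℝ) : ℂ) (m : ℝ)) :=
      (convex_ball _ _).isPreconnected
    have hd1 : DifferentiableOn ℂ (G m) (Metric.ball ((m : ℝ) : ℂ) (m : ℝ)) := fun z hz =>
      ((hG m hm).2 z hz).differentiableAt.differentiableWithinAt
    have hd2 : DifferentiableOn ℂ (G n) (Metric.ball ((m : ℝ) : ℂ) (m : ℝ)) := fun z hz =>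
      ((hG n hn).2 z (hmono m n hm hmn hz)).differentiableAt.differentiableWithinAt
    have hder : EqOn (deriv (G m)) (deriv (G n)) (Metric.ball ((m : ℝ) : ℂ) (m : ℝ)) := by
      intro z hz
      rw [((hG m hm).2 z hz).deriv, ((hG n hn).2 z (hmono m n hm hmn hz)).deriv]
    exact hopen.eqOn_of_deriv_eq hpre hd1 hd2 hder (hone m hm)
      (by rw [(hG m hm).1, (hG n hn).1]) hp
  have hcover : ∀ p : ℂ, 0 < p.re → ∃ n : ℕ, 0 < n ∧ p ∈ Metric.ball ((n : ℝ) : ℂ) (n : ℝ) := by
    intro p hp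
    obtain ⟨n, hn⟩ := exists_nat_gt ((p.re ^ 2 + p.im ^ 2) / (2 * p.re))
    have hpos : 0 ≤ (p.re ^ 2 + p.im ^ 2) / (2 * p.re) := by positivity
    have hn0 : (0 : ℝ) < n := lt_of_le_of_lt hpos hn
    have hn1 : 0 < n := by exact_mod_cast hn0
    refine ⟨n, hn1, ?_⟩
    rw [T05_mem_ball p n hn1]
    rw [div_lt_iff₀ (by positivity)] at hn
    nlinarith
  let g : ℂ → ℂ := fun p =>
    if h : ∃ n : ℕ, 0 < n ∧ p ∈ Metric.ball ((n : ℝ) : ℂ) (n : ℝ) then G (Nat.find h) p else 0
  have hg : ∀ n : ℕ, 0 < n → ∀ p ∈ Metric.ball ((n : ℝ) : ℂ) (n : ℝ), g p = G n p := by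
    intro n hn p hp
    have h : ∃ n : ℕ, 0 < n ∧ p ∈ Metric.ball ((n : ℝ) : ℂ) (n : ℝ) := ⟨n, hn, hp⟩
    have hspec := Nat.find_spec h
    have hle : Nat.find h ≤ n := Nat.find_min' h ⟨hn, hp⟩
    change (if h : ∃ n : ℕ, 0 < n ∧ p ∈ Metric.ball ((n : ℝ) : ℂ) (n : ℝ)
      then G (Nat.find h) p else 0) = G n p
    rw [dif_pos h]
    exact hcons _ n hspec.1 hle p hspec.2
  refine ⟨g, fun p hp => ?_⟩
  obtain ⟨n, hn, hpn⟩ := hcover p hp
  refine ((hG n hn).2 p hpn).congr_of_eventuallyEq ?_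
  filter_upwards [Metric.isOpen_ball.mem_nhds hpn] with z hz
  exact hg n hn z hz


theorem T05_const {X : Type*} [TopologicalSpace X] {S : Set X} (hS : IsPreconnected S) (h : X → ℝ)
    (hc : ContinuousOn h S) (hint : ∀ x ∈ S, ∃ n : ℤ, h x = n) :
    ∀ x ∈ S, ∀ y ∈ S, h x = h y := by
  have key : ∀ x ∈ S, ∀ y ∈ S, ¬ h x < h y := by
    intro x hx y hy hlt
    obtain ⟨m, hm⟩ := hint x hx
    obtain ⟨n, hn⟩ := hint y hy
    have hpre := (hS.image h hc).ordConnected
    have hmn : m < n := by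
      rw [hm, hn] at hlt; exact_mod_cast hlt
    have hmn' : (m : ℝ) + 1 ≤ n := by exact_mod_cast hmn
    have hmem : (m : ℝ) + 1 / 2 ∈ Icc (h x) (h y) := by
      rw [hm, hn]; constructor <;> linarith
    obtain ⟨z, hz, hz'⟩ := hpre.out (mem_image_of_mem h hx) (mem_image_of_mem h hy) hmem
    obtain ⟨k, hk⟩ := hint z hz
    rw [hk] at hz'
    have h2 : (2 * k : ℝ) = 2 * m + 1 := by linarith
    have h3 : 2 * k = 2 * m + 1 := by exact_mod_cast h2
    omega
  intro x hx y hy
  rcases lt_trichotomy (h x) (h y) with h1 | h1 | h1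
  · exact absurd h1 (key x hx y hy)
  · exact h1
  · exact absurd h1 (key y hy x hx)

/-- a complex number with `exp d = 1` is an integer multiple of `2 π i`. -/
theorem T05_int {d : ℂ} (hd : cexp d = 1) : d.re = 0 ∧ ∃ n : ℤ, d.im / (2 * Real.pi) = n := by
  rw [Complex.exp_eq_one_iff] at hd
  obtain ⟨n, hn⟩ := hd
  have hpi := Real.pi_pos
  constructor
  · rw [hn]; simp
  · refine ⟨n, ?_⟩
    have : d.im = n * (2 * Real.pi) := by
      rw [hn]; simp
    rw [this]; field_simp

/-- a continuous function on a preconnected set with `exp = 1`, zero somewhere, is zero. -/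
theorem T05_zero {X : Type*} [TopologicalSpace X] {S : Set X} (hS : IsPreconnected S) (d : X → ℂ)
    (hc : ContinuousOn d S) (hd : ∀ x ∈ S, cexp (d x) = 1) {x₀ : X} (hx₀ : x₀ ∈ S) (h0 : d x₀ = 0) :
    ∀ x ∈ S, d x = 0 := by
  intro x hx
  have hconst := T05_const hS (fun x => (d x).im / (2 * Real.pi))
    ((Complex.continuous_im.comp_continuousOn hc).div_const _)
    (fun x hx => (T05_int (hd x hx)).2) x hx x₀ hx₀
  simp only [h0, Complex.zero_im, zero_div, div_eq_zero_iff] at hconst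
  have hpi := Real.pi_pos
  apply Complex.ext
  · exact (T05_int (hd x hx)).1
  · rcases hconst with h | h
    · exact h
    · exfalso; linarith

theorem T05_isOpen : IsOpen {p : ℂ | 0 < p.re} := isOpen_lt continuous_const Complex.continuous_re

theorem T05_preconnected : IsPreconnected {p : ℂ | 0 < p.re} :=
  (convex_halfSpace_re_gt 0).isPreconnected

theorem exists_logB : ∃ β : ℂ → ℂ, IsLogB β := by
  have hBd := BB_differentiableOn
  have hd : DifferentiableOn ℂ (fun p => deriv BB p / BB p) {p : ℂ | 0 < p.re} := by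
    refine DifferentiableOn.div ?_ hBd (fun p hp => BB_ne_zero p hp)
    exact hBd.deriv T05_isOpen
  obtain ⟨g, hg⟩ := T05_exists_primitive hd
  set c : ℂ := ((Real.log (BB (1 : ℂ)).re : ℝ) : ℂ) - g 1 with hcdef
  have hpos : 0 < (BB (1 : ℂ)).re := by
    have := (BB_pos 1 one_pos).1; simpa using this
  have him : (BB (1 : ℂ)).im = 0 := by
    have := (BB_pos 1 one_pos).2; simpa using this
  have hβd : ∀ p : ℂ, 0 < p.re → HasDerivAt (fun p => g p + c) (deriv BB p / BB p) p :=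
    fun p hp => (hg p hp).add_const c
  have hdiff : DifferentiableOn ℂ (fun p => g p + c) {p : ℂ | 0 < p.re} := fun p hp =>
    (hβd p hp).differentiableAt.differentiableWithinAt
  have hexp : ∀ p : ℂ, 0 < p.re → cexp (g p + c) = BB p := by
    -- `exp(-β) * BB` has derivative zero
    have hder : ∀ p ∈ {p : ℂ | 0 < p.re},
        HasDerivAt (fun p => cexp (-(g p + c)) * BB p) 0 p := by
      intro p hp
      have h1 : HasDerivAt (fun p => cexp (-(g p + c)))
          (cexp (-(g p + c)) * (-(deriv BB p / BB p))) p := (hβd p hp).neg.cexp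
      have h2 : HasDerivAt BB (deriv BB p) p :=
        (hBd.differentiableAt (T05_isOpen.mem_nhds hp)).hasDerivAt
      have h3 := h1.fun_mul h2
      have hne := BB_ne_zero p hp
      have h4 := div_mul_cancel₀ (deriv BB p) hne
      refine h3.congr_deriv ?_
      linear_combination (-cexp (-(g p + c))) * h4
    have hconst : ∀ p ∈ {p : ℂ | 0 < p.re}, cexp (-(g p + c)) * BB p = cexp (-(g 1 + c)) * BB 1 := by
      intro p hp
      have h1 : (1 : ℂ) ∈ {p : ℂ | 0 < p.re} := by simp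
      exact T05_isOpen.is_const_of_deriv_eq_zero T05_preconnected
        (fun p hp => (hder p hp).differentiableAt.differentiableWithinAt)
        (fun p hp => (hder p hp).deriv) hp h1
    intro p hp
    have h := hconst p hp
    have h1 : cexp (-(g 1 + c)) * BB 1 = 1 := by
      have : g 1 + c = ((Real.log (BB (1 : ℂ)).re : ℝ) : ℂ) := by rw [hcdef]; ring
      rw [this, Complex.exp_neg, ← Complex.ofReal_exp, Real.exp_log hpos]
      have h2 : BB (1 : ℂ) = (((BB (1 : ℂ)).re : ℝ) : ℂ) := by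
        apply Complex.ext
        · simp
        · simp [him]
      rw [← h2]
      exact inv_mul_cancel₀ (BB_ne_zero 1 (by simp))
    rw [h1, Complex.exp_neg] at h
    have hne := Complex.exp_ne_zero (g p + c)
    field_simp at h
    exact h.symm
  refine ⟨fun p => g p + c, ⟨hdiff, hexp, ?_⟩⟩
  -- real on the real axis
  have hcont : ContinuousOn (fun x : ℝ => (g (x : ℂ) + c).im / (2 * Real.pi)) (Ioi (0 : ℝ)) := by
    have h1 : ContinuousOn (fun x : ℝ => g (x : ℂ) + c) (Ioi (0 : ℝ)) := by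
      refine hdiff.continuousOn.comp Complex.continuous_ofReal.continuousOn ?_
      intro x hx
      simpa using hx
    exact (Complex.continuous_im.comp_continuousOn h1).div_const _
  have hint : ∀ x ∈ Ioi (0 : ℝ), ∃ n : ℤ, (g (x : ℂ) + c).im / (2 * Real.pi) = n := by
    intro x hx
    have hx' : (0 : ℝ) < x := hx
    have hB := BB_pos x hx'
    have hE := hexp (x : ℂ) (by simpa using hx')
    have h2 : BB (x : ℂ) = (((BB (x : ℂ)).re : ℝ) : ℂ) := by
      apply Complex.ext
      · simp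
      · simp [hB.2]
    have h3 : cexp (g (x : ℂ) + c - ((Real.log (BB (x : ℂ)).re : ℝ) : ℂ)) = 1 := by
      rw [Complex.exp_sub, hE, ← Complex.ofReal_exp, Real.exp_log hB.1, ← h2]
      exact div_self (BB_ne_zero _ (by simpa using hx'))
    obtain ⟨n, hn⟩ := (T05_int h3).2
    refine ⟨n, ?_⟩
    rw [← hn, Complex.sub_im, Complex.ofReal_im, sub_zero]
  intro x hx
  have hc := T05_const isPreconnected_Ioi _ hcont hint x hx 1 (by simp)
  have h1 : g ((1 : ℝ) : ℂ) + c = ((Real.log (BB (1 : ℂ)).re : ℝ) : ℂ) := by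
    rw [hcdef, Complex.ofReal_one]; ring
  simp only [h1, Complex.ofReal_im, zero_div, div_eq_zero_iff] at hc
  have hpi := Real.pi_pos
  rcases hc with h | h
  · exact h
  · exfalso; linarith

theorem IsLogB.conj_eq {β : ℂ → ℂ} (hβ : IsLogB β) (p : ℂ) (hp : 0 < p.re) :
    β ((starRingEnd ℂ) p) = (starRingEnd ℂ) (β p) := by
  have hcont : ContinuousOn (fun p : ℂ => β ((starRingEnd ℂ) p) - (starRingEnd ℂ) (β p))
      {p : ℂ | 0 < p.re} := by
    refine ContinuousOn.sub ?_ ?_
    · refine hβ.diff.continuousOn.comp Complex.continuous_conj.continuousOn ?_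
      intro z hz
      simpa using hz
    · exact Complex.continuous_conj.comp_continuousOn hβ.diff.continuousOn
  have hz : ∀ x ∈ {p : ℂ | 0 < p.re}, β ((starRingEnd ℂ) x) - (starRingEnd ℂ) (β x) = 0 := by
    refine T05_zero T05_preconnected _ hcont ?_ (x₀ := 1) (by simp) ?_
    · intro z hz
      have hz' : 0 < z.re := hz
      rw [Complex.exp_sub, hβ.exp_eq _ (by simpa using hz'), Complex.exp_conj, hβ.exp_eq z hz',
        BB_conj z hz']
      refine div_self ?_
      rw [map_ne_zero]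
      exact BB_ne_zero z hz'
    · have h1 := hβ.real 1 one_pos
      rw [Complex.ofReal_one] at h1
      have h2 : (starRingEnd ℂ) (β 1) = β 1 := Complex.conj_eq_iff_im.2 h1
      simp only [map_one, h2, sub_self]
  exact sub_eq_zero.1 (hz p hp)

theorem IsLogB.norm_exp {β : ℂ → ℂ} (hβ : IsLogB β) (q : ℝ) (hq : 0 ≤ q) (p : ℂ) (hp : 0 < p.re) :
    ‖cexp ((q : ℂ) * β p)‖ ≤ (‖p‖ / p.re) ^ (q / 2) := by
  have h1 : ‖cexp ((q : ℂ) * β p)‖ = ‖BB p‖ ^ q := by
    rw [← hβ.exp_eq p hp, Complex.norm_exp, Complex.norm_exp, Complex.re_ofReal_mul,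
      ← Real.exp_mul, mul_comm]
  rw [h1]
  have h2 := BB_norm_le p hp
  calc ‖BB p‖ ^ q ≤ (Real.sqrt (‖p‖ / p.re)) ^ q := Real.rpow_le_rpow (norm_nonneg _) h2 hq
    _ = (‖p‖ / p.re) ^ (q / 2) := by
      rw [Real.sqrt_eq_rpow, ← Real.rpow_mul (by positivity)]
      congr 1
      ring

theorem IsLogB.small {β : ℂ → ℂ} (hβ : IsLogB β) (c : ℝ) (hc : 0 < c) (ε : ℝ) (hε : 0 < ε) :
    ∃ R : ℝ, 0 < R ∧ ∀ p : ℂ, R ≤ ‖p‖ → c * ‖p‖ ≤ p.re → ‖β p‖ ≤ ε := by
  obtain ⟨C, hC⟩ := BB_expansion 1 c hc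
  set m : ℝ := min (1 / 2) (ε / 2) with hm
  have hm0 : 0 < m := lt_min (by norm_num) (by linarith)
  set C' : ℝ := max C 1 with hC'
  have hC'1 : 1 ≤ C' := le_max_right _ _
  set R0 : ℝ := max 1 (C' / m) with hR0
  have hR01 : 1 ≤ R0 := le_max_left _ _
  -- the estimate
  have hest : ∀ z : ℂ, R0 ≤ ‖z‖ → c * ‖z‖ ≤ z.re → ‖BB z - 1‖ ≤ m := by
    intro z hz hzs
    have hz1 : 1 ≤ ‖z‖ := hR01.trans hz
    have hz0 : z ≠ 0 := by
      rintro rfl; simp at hz1; linarith
    have h := hC z hz0 hzs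
    simp only [Finset.range_one, Finset.sum_singleton, pow_zero, mul_one, mul_zero, div_one,
      inv_one, one_mul] at h
    have hb : bR 0 = 1 := by simp [bR]
    rw [hb, Complex.ofReal_one] at h
    refine h.trans ?_
    have h3 : ‖z‖ ≤ ‖z‖ ^ 3 := by
      nlinarith [mul_self_nonneg ‖z‖, mul_nonneg (norm_nonneg z) (norm_nonneg z)]
    have h4 : C' / m ≤ ‖z‖ := (le_max_right _ _).trans hz
    rw [div_le_iff₀ (by positivity)]
    rw [div_le_iff₀ hm0] at h4
    calc C ≤ C' := le_max_left _ _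
      _ ≤ ‖z‖ * m := h4
      _ ≤ m * ‖z‖ ^ 3 := by rw [mul_comm]; exact mul_le_mul_of_nonneg_left h3 hm0.le
  refine ⟨R0 / c, by positivity, fun p hp hps => ?_⟩
  rw [div_le_iff₀ hc] at hp
  have hpre0 : R0 ≤ p.re := by nlinarith
  have hpre : 0 < p.re := by linarith
  -- the vertical segment
  let zz : ℝ → ℂ := fun t => (p.re : ℂ) + ((t * p.im : ℝ) : ℂ) * I
  have hzre : ∀ t, (zz t).re = p.re := fun t => by simp [zz]
  have hzim : ∀ t, (zz t).im = t * p.im := fun t => by simp [zz]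
  have hzn : ∀ t ∈ Icc (0 : ℝ) 1, ‖zz t‖ ≤ ‖p‖ := by
    intro t ht
    rw [← sq_le_sq₀ (norm_nonneg _) (norm_nonneg _), Complex.sq_norm, Complex.sq_norm,
      Complex.normSq_apply, Complex.normSq_apply, hzre, hzim]
    have h1 : t ^ 2 ≤ 1 := by nlinarith [ht.1, ht.2]
    nlinarith [mul_nonneg (sub_nonneg.2 h1) (mul_self_nonneg p.im)]
  have hzR : ∀ t, R0 ≤ ‖zz t‖ := by
    intro t
    have := Complex.re_le_norm (zz t)
    rw [hzre] at this
    linarith
  have hzs : ∀ t ∈ Icc (0 : ℝ) 1, c * ‖zz t‖ ≤ (zz t).re := by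
    intro t ht
    rw [hzre]
    exact (mul_le_mul_of_nonneg_left (hzn t ht) hc.le).trans hps
  have hzcont : Continuous zz := by
    change Continuous fun t : ℝ => (p.re : ℂ) + ((t * p.im : ℝ) : ℂ) * I
    fun_prop
  have hslit : ∀ t ∈ Icc (0 : ℝ) 1, BB (zz t) ∈ slitPlane := by
    intro t ht
    have h := hest (zz t) (hzR t) (hzs t ht)
    left
    have h1 := Complex.abs_re_le_norm (BB (zz t) - 1)
    rw [Complex.sub_re, Complex.one_re] at h1
    have h2 := abs_le.1 (h1.trans (h.trans (min_le_left _ _)))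
    linarith [h2.1]
  have hmap : MapsTo zz (Icc (0 : ℝ) 1) {p : ℂ | 0 < p.re} := by
    intro t _
    show 0 < (zz t).re
    rw [hzre]; exact hpre
  have hcont : ContinuousOn (fun t => β (zz t) - Complex.log (BB (zz t))) (Icc (0 : ℝ) 1) := by
    refine ContinuousOn.sub ?_ ?_
    · exact hβ.diff.continuousOn.comp hzcont.continuousOn hmap
    · refine ContinuousOn.clog ?_ hslit
      exact BB_differentiableOn.continuousOn.comp hzcont.continuousOn hmap
  have hzero : ∀ t ∈ Icc (0 : ℝ) 1, β (zz t) - Complex.log (BB (zz t)) = 0 := by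
    refine T05_zero isPreconnected_Icc _ hcont ?_ (x₀ := 0) (by simp) ?_
    · intro t ht
      have hne : BB (zz t) ≠ 0 := BB_ne_zero _ (hmap ht)
      rw [Complex.exp_sub, hβ.exp_eq _ (hmap ht), Complex.exp_log hne]
      exact div_self hne
    · have h0 : zz 0 = ((p.re : ℝ) : ℂ) := by simp [zz]
      rw [h0]
      have h1 := hβ.real p.re hpre
      have h2 := hβ.exp_eq ((p.re : ℝ) : ℂ) (by simpa using hpre)
      rw [← h2, Complex.log_exp]
      · ring
      · rw [h1]; linarith [Real.pi_pos]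
      · rw [h1]; exact Real.pi_pos.le
  have h1 := hzero 1 (by simp)
  have hz1 : zz 1 = p := by
    apply Complex.ext
    · exact hzre 1
    · rw [hzim]; ring
  rw [hz1] at h1
  have hβp : β p = Complex.log (BB p) := sub_eq_zero.1 h1
  have hB := hest (zz 1) (hzR 1) (hzs 1 (by simp))
  rw [hz1] at hB
  have h3 : BB p = 1 + (BB p - 1) := by ring
  rw [hβp, h3]
  have h4 := Complex.norm_log_one_add_half_le_self (z := BB p - 1) (hB.trans (min_le_left _ _))
  have h5 : ‖BB p - 1‖ ≤ ε / 2 := hB.trans (min_le_right _ _)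
  linarith

end Pool.Agent.H140R2.FR
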