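import Pool.Agent.H140R2.FR.T05Log

/-!
T05b.  Expansion of `B^q`.

Sketch.  In the sector, `x = p^{-3}` small, `BB p = P(x) + O(|x|^N)` with the polynomial
`P(x) = ∑_{j<N} (-1)^j bR j/576^j x^j`, `P 0 = 1`, and `β p` is small (`IsLogB.small`), so
`β p = log (BB p)` and `‖exp(qβ) - exp(q log P(x))‖ ≤ C‖BB p - P(x)‖`.
With `Q(x) = ∑_{k<N} (-1)^k dR q k / 576^k x^k`, Miller's recurrence says that
`P Q' - q P' Q` is divisible by `x^{N-1}`; so `h = Q exp(-q log P)` satisfies `h 0 = 1`, `h' = O(|x|^{N-1})`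
and `exp(q log P) - Q = O(|x|^N)`.
-/

set_option autoImplicit false

open Complex MeasureTheory Set Filter Topology

namespace Pool.Agent.H140R2.FR

namespace T05bAux

/-- the truncated series as a polynomial. -/
noncomputable def PP (a : ℕ → ℂ) (N : ℕ) : Polynomial ℂ :=
  ∑ j ∈ Finset.range N, Polynomial.C (a j) * Polynomial.X ^ j

theorem coeff_PP (a : ℕ → ℂ) (N j : ℕ) : (PP a N).coeff j = if j < N then a j else 0 := by
  unfold PP
  rw [Polynomial.finsetSum_coeff]
  simp only [Polynomial.coeff_C_mul, Polynomial.coeff_X_pow]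
  simp [Finset.sum_ite_eq]

theorem eval_PP (a : ℕ → ℂ) (N : ℕ) (x : ℂ) :
    (PP a N).eval x = ∑ j ∈ Finset.range N, a j * x ^ j := by
  unfold PP
  simp [Polynomial.eval_finsetSum]

theorem coeff_R (q : ℂ) (a e : ℕ → ℂ) (ha0 : a 0 = 1)
    (hrec : ∀ k : ℕ, ((k : ℂ) + 1) * e (k + 1) = ∑ j ∈ Finset.range (k + 1),
      (((j : ℂ) + 1) * q - ((k : ℂ) - (j : ℂ))) * a (j + 1) * e (k - j))
    (N k : ℕ) (hk : k + 1 < N) :
    (PP a N * Polynomial.derivative (PP e N) -
      Polynomial.C q * (Polynomial.derivative (PP a N) * PP e N)).coeff k = 0 := by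
  rw [Polynomial.coeff_sub, Polynomial.coeff_C_mul, Polynomial.coeff_mul, Polynomial.coeff_mul]
  rw [Finset.Nat.sum_antidiagonal_eq_sum_range_succ
    (fun i j => (PP a N).coeff i * (Polynomial.derivative (PP e N)).coeff j)]
  rw [Finset.Nat.sum_antidiagonal_eq_sum_range_succ
    (fun i j => (Polynomial.derivative (PP a N)).coeff i * (PP e N).coeff j)]
  simp only [Polynomial.coeff_derivative, coeff_PP]
  have h1 : ∑ i ∈ Finset.range (k + 1), (if i < N then a i else 0) *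
      ((if k - i + 1 < N then e (k - i + 1) else 0) * (((k - i : ℕ) : ℂ) + 1)) =
      ∑ i ∈ Finset.range (k + 1), a i * (e (k - i + 1) * (((k - i : ℕ) : ℂ) + 1)) := by
    refine Finset.sum_congr rfl fun i hi => ?_
    have hi' : i < k + 1 := Finset.mem_range.1 hi
    rw [if_pos (by omega), if_pos (by omega)]
  have h2 : ∑ i ∈ Finset.range (k + 1), ((if i + 1 < N then a (i + 1) else 0) * ((i : ℂ) + 1)) *
      (if k - i < N then e (k - i) else 0) =
      ∑ i ∈ Finset.range (k + 1), (a (i + 1) * ((i : ℂ) + 1)) * e (k - i) := by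
    refine Finset.sum_congr rfl fun i hi => ?_
    have hi' : i < k + 1 := Finset.mem_range.1 hi
    rw [if_pos (by omega), if_pos (by omega)]
  have h1' := h1
  simp only [Nat.succ_eq_add_one] at *
  rw [h1, h2, Finset.sum_range_succ', Finset.mul_sum]
  simp only [ha0, one_mul, Nat.sub_zero]
  have h3 : e (k + 1) * ((k : ℂ) + 1) = ∑ j ∈ Finset.range (k + 1),
      (((j : ℂ) + 1) * q - ((k : ℂ) - (j : ℂ))) * a (j + 1) * e (k - j) := by
    rw [← hrec k]; ring
  rw [h3, Finset.sum_range_succ, Finset.sum_range_succ]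
  have h4 : ∑ i ∈ Finset.range k, a (i + 1) * (e (k - (i + 1) + 1) * (((k - (i + 1) : ℕ) : ℂ) + 1)) =
      ∑ i ∈ Finset.range k, a (i + 1) * (e (k - i) * ((k : ℂ) - (i : ℂ))) := by
    refine Finset.sum_congr rfl fun i hi => ?_
    have hi' : i < k := Finset.mem_range.1 hi
    have e1 : k - (i + 1) + 1 = k - i := by omega
    rw [e1]
    have e2 : (((k - (i + 1) : ℕ) : ℂ) + 1) = (k : ℂ) - (i : ℂ) := by
      have : ((k - (i + 1) : ℕ) : ℂ) = (k : ℂ) - ((i + 1 : ℕ) : ℂ) := by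
        rw [Nat.cast_sub (by omega)]
      rw [this]; push_cast; ring
    rw [e2]
  rw [h4]
  have h5 : ∑ i ∈ Finset.range k, a (i + 1) * (e (k - i) * ((k : ℂ) - (i : ℂ))) +
      ∑ x ∈ Finset.range k, (((x : ℂ) + 1) * q - ((k : ℂ) - (x : ℂ))) * a (x + 1) * e (k - x) =
      ∑ x ∈ Finset.range k, q * (a (x + 1) * ((x : ℂ) + 1) * e (k - x)) := by
    rw [← Finset.sum_add_distrib]
    refine Finset.sum_congr rfl fun i _ => ?_
    ring
  have h6 : (((k : ℂ) + 1) * q - ((k : ℂ) - (k : ℂ))) * a (k + 1) * e (k - k) =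
      q * (a (k + 1) * ((k : ℂ) + 1) * e (k - k)) := by ring
  rw [h6, ← add_assoc, h5]
  ring

/-- Lipschitz bound for `z ↦ z^q` near `1`. -/
theorem lip (q : ℂ) : ∃ L : ℝ, 0 ≤ L ∧ ∀ z w : ℂ, ‖z - 1‖ ≤ 1 / 2 → ‖w - 1‖ ≤ 1 / 2 →
    ‖cexp (q * Complex.log z) - cexp (q * Complex.log w)‖ ≤ L * ‖z - w‖ := by
  have hslit : ∀ z : ℂ, z ∈ Metric.closedBall (1 : ℂ) (1 / 2) → z ∈ Complex.slitPlane := by
    intro z hz
    rw [Metric.mem_closedBall, dist_eq_norm] at hz
    left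
    have : |(z - 1).re| ≤ 1 / 2 := (Complex.abs_re_le_norm _).trans hz
    have h2 := (abs_le.1 this).1
    simp at h2
    linarith
  have hder : ∀ z ∈ Metric.closedBall (1 : ℂ) (1 / 2),
      HasDerivAt (fun z => cexp (q * Complex.log z))
        (cexp (q * Complex.log z) * (q * z⁻¹)) z := by
    intro z hz
    exact ((Complex.hasDerivAt_log (hslit z hz)).const_mul q).cexp
  have hcont : ContinuousOn (fun z : ℂ => cexp (q * Complex.log z) * (q * z⁻¹))
      (Metric.closedBall (1 : ℂ) (1 / 2)) := by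
    intro z hz
    have hz0 : z ≠ 0 := Complex.slitPlane_ne_zero (hslit z hz)
    exact ((hder z hz).continuousAt.mul
      (continuousAt_const.mul (continuousAt_inv₀ hz0))).continuousWithinAt
  obtain ⟨L, hL⟩ := (isCompact_closedBall (1 : ℂ) (1 / 2)).exists_bound_of_continuousOn hcont
  refine ⟨|L|, abs_nonneg _, fun z w hz hw => ?_⟩
  have hz' : z ∈ Metric.closedBall (1 : ℂ) (1 / 2) := by
    rwa [Metric.mem_closedBall, dist_eq_norm]
  have hw' : w ∈ Metric.closedBall (1 : ℂ) (1 / 2) := by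
    rwa [Metric.mem_closedBall, dist_eq_norm]
  exact (convex_closedBall (1 : ℂ) (1 / 2)).norm_image_sub_le_of_norm_hasDerivWithin_le
    (fun x hx => (hder x hx).hasDerivWithinAt)
    (fun x hx => (hL x hx).trans (le_abs_self L)) hw' hz'

/-- Taylor expansion of the power of a polynomial. -/
theorem taylor (q : ℂ) (a e : ℕ → ℂ) (ha0 : a 0 = 1) (he0 : e 0 = 1)
    (hrec : ∀ k : ℕ, ((k : ℂ) + 1) * e (k + 1) = ∑ j ∈ Finset.range (k + 1),
      (((j : ℂ) + 1) * q - ((k : ℂ) - (j : ℂ))) * a (j + 1) * e (k - j))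
    (N : ℕ) (hN : 0 < N) :
    ∃ C r : ℝ, 0 < r ∧ ∀ x : ℂ, ‖x‖ ≤ r →
      ‖∑ j ∈ Finset.range N, a j * x ^ j - 1‖ ≤ 1 / 2 ∧
      ‖cexp (q * Complex.log (∑ j ∈ Finset.range N, a j * x ^ j)) -
        ∑ j ∈ Finset.range N, e j * x ^ j‖ ≤ C * ‖x‖ ^ N := by
  set P := PP a N with hP
  set Q := PP e N with hQ
  set R := P * Polynomial.derivative Q - Polynomial.C q * (Polynomial.derivative P * Q) with hR
  obtain ⟨S, hS⟩ : Polynomial.X ^ (N - 1) ∣ R := by
    rw [Polynomial.X_pow_dvd_iff]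
    intro d hd
    exact coeff_R q a e ha0 hrec N d (by omega)
  have hP0 : P.eval 0 = 1 := by
    rw [hP, eval_PP, Finset.sum_eq_single 0]
    · simp [ha0]
    · intro j _ hj; simp [hj]
    · intro h; exact absurd (Finset.mem_range.2 hN) h
  have hQ0 : Q.eval 0 = 1 := by
    rw [hQ, eval_PP, Finset.sum_eq_single 0]
    · simp [he0]
    · intro j _ hj; simp [hj]
    · intro h; exact absurd (Finset.mem_range.2 hN) h
  -- the radius
  have hcP : Continuous (fun x : ℂ => P.eval x) := P.continuous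
  obtain ⟨r, hr0, hr⟩ : ∃ r > 0, ∀ x : ℂ, ‖x‖ ≤ r → ‖P.eval x - 1‖ ≤ 1 / 2 := by
    have h := Metric.continuous_iff.1 hcP 0 (1 / 2) (by norm_num)
    obtain ⟨δ, hδ, h⟩ := h
    refine ⟨δ / 2, by positivity, fun x hx => ?_⟩
    have := h x (by rw [dist_zero_right]; linarith)
    rw [hP0, dist_eq_norm] at this
    exact this.le
  have hslit : ∀ x : ℂ, ‖x‖ ≤ r → P.eval x ∈ Complex.slitPlane := by
    intro x hx
    left
    have : |(P.eval x - 1).re| ≤ 1 / 2 := (Complex.abs_re_le_norm _).trans (hr x hx)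
    have h2 := (abs_le.1 this).1
    simp at h2
    linarith
  have hne : ∀ x : ℂ, ‖x‖ ≤ r → P.eval x ≠ 0 := fun x hx => Complex.slitPlane_ne_zero (hslit x hx)
  -- the quotient
  have hder : ∀ x : ℂ, ‖x‖ ≤ r →
      HasDerivAt (fun x : ℂ => Q.eval x * cexp (-(q * Complex.log (P.eval x))))
        ((S.eval x * (P.eval x)⁻¹ * cexp (-(q * Complex.log (P.eval x)))) * x ^ (N - 1)) x := by
    intro x hx
    have h1 := (P.hasDerivAt x).clog (hslit x hx)
    have h2 := (Q.hasDerivAt x).mul (((h1.const_mul q).neg).cexp)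
    refine h2.congr_deriv ?_
    have h3 : R.eval x = x ^ (N - 1) * S.eval x := by rw [hS]; simp
    have h4 : R.eval x = P.eval x * (Polynomial.derivative Q).eval x -
        q * ((Polynomial.derivative P).eval x * Q.eval x) := by
      rw [hR]; simp
    have h5 : (Polynomial.derivative Q).eval x = (x ^ (N - 1) * S.eval x +
        q * ((Polynomial.derivative P).eval x * Q.eval x)) / P.eval x := by
      rw [eq_div_iff (hne x hx), ← h3, h4]; ring
    rw [h5]
    have := hne x hx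
    simp only [Pi.neg_apply]
    field_simp
    ring
  have hcl : ∀ x ∈ Metric.closedBall (0 : ℂ) r, ‖x‖ ≤ r := fun x hx => by
    simpa [Metric.mem_closedBall, dist_zero_right] using hx
  have hcont1 : ∀ c : ℂ, ContinuousOn (fun x : ℂ => cexp (c * Complex.log (P.eval x)))
      (Metric.closedBall (0 : ℂ) r) := by
    intro c x hx
    exact ((((P.hasDerivAt x).clog (hslit x (hcl x hx))).const_mul
      c).cexp).continuousAt.continuousWithinAt
  have hcont2 : ContinuousOn (fun x : ℂ => S.eval x * (P.eval x)⁻¹ *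
      cexp (-(q * Complex.log (P.eval x)))) (Metric.closedBall (0 : ℂ) r) := by
    refine (S.continuous.continuousOn.mul
      (P.continuous.continuousOn.inv₀ fun x hx => hne x (hcl x hx))).mul ?_
    have := hcont1 (-q)
    simpa [neg_mul] using this
  obtain ⟨M, hM⟩ := (isCompact_closedBall (0 : ℂ) r).exists_bound_of_continuousOn hcont2
  obtain ⟨M', hM'⟩ := (isCompact_closedBall (0 : ℂ) r).exists_bound_of_continuousOn (hcont1 q)
  have hr0' : (0 : ℂ) ∈ Metric.closedBall (0 : ℂ) r := Metric.mem_closedBall_self hr0.le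
  have hM0 : 0 ≤ M := (norm_nonneg _).trans (hM 0 hr0')
  have hM'0 : 0 ≤ M' := (norm_nonneg _).trans (hM' 0 hr0')
  refine ⟨M' * M, r, hr0, fun x hx => ?_⟩
  rw [← eval_PP, ← eval_PP, ← hP, ← hQ]
  refine ⟨hr x hx, ?_⟩
  have hxr : Metric.closedBall (0 : ℂ) ‖x‖ ⊆ Metric.closedBall (0 : ℂ) r :=
    Metric.closedBall_subset_closedBall hx
  have key := (convex_closedBall (0 : ℂ) ‖x‖).norm_image_sub_le_of_norm_hasDerivWithin_le
    (f := fun x : ℂ => Q.eval x * cexp (-(q * Complex.log (P.eval x))))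
    (f' := fun x : ℂ => (S.eval x * (P.eval x)⁻¹ *
      cexp (-(q * Complex.log (P.eval x)))) * x ^ (N - 1)) (C := M * ‖x‖ ^ (N - 1))
    (fun y hy => (hder y (hcl y (hxr hy))).hasDerivWithinAt)
    (fun y hy => by
      rw [norm_mul, norm_pow]
      have h1 : ‖y‖ ≤ ‖x‖ := by simpa [Metric.mem_closedBall, dist_zero_right] using hy
      exact mul_le_mul (hM y (hxr hy)) (pow_le_pow_left₀ (norm_nonneg _) h1 _)
        (by positivity) hM0)
    (Metric.mem_closedBall_self (norm_nonneg x))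
    (show x ∈ Metric.closedBall (0 : ℂ) ‖x‖ by simp)
  simp only [hP0, hQ0, Complex.log_one, mul_zero, neg_zero, Complex.exp_zero, one_mul,
    sub_zero] at key
  have hxx : x ∈ Metric.closedBall (0 : ℂ) r := by
    simpa [Metric.mem_closedBall, dist_zero_right] using hx
  have e1 : cexp (q * Complex.log (P.eval x)) - Q.eval x =
      - (cexp (q * Complex.log (P.eval x)) *
        (Q.eval x * cexp (-(q * Complex.log (P.eval x))) - 1)) := by
    have : cexp (q * Complex.log (P.eval x)) * cexp (-(q * Complex.log (P.eval x))) = 1 := by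
      rw [← Complex.exp_add]; simp
    linear_combination (Q.eval x) * this
  rw [e1, norm_neg, norm_mul]
  calc ‖cexp (q * Complex.log (P.eval x))‖ *
        ‖Q.eval x * cexp (-(q * Complex.log (P.eval x))) - 1‖
      ≤ M' * (M * ‖x‖ ^ (N - 1) * ‖x‖) :=
        mul_le_mul (hM' x hxx) key (norm_nonneg _) hM'0
    _ = M' * M * ‖x‖ ^ N := by
        have : ‖x‖ ^ N = ‖x‖ ^ (N - 1) * ‖x‖ := by
          rw [← pow_succ]; congr 1; omega
        rw [this]; ring

end T05bAux

theorem IsLogB.expansion {β : ℂ → ℂ} (hβ : IsLogB β) (q : ℝ) (N : ℕ) (c : ℝ) (hc : 0 < c) :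
    ∃ C R : ℝ, 0 < R ∧ ∀ p : ℂ, R ≤ ‖p‖ → c * ‖p‖ ≤ p.re →
      ‖cexp ((q : ℂ) * β p) -
          ∑ k ∈ Finset.range N, (((-1) ^ k * dR q k / 576 ^ k : ℝ) : ℂ) * (p ^ (3 * k))⁻¹‖
        ≤ C / ‖p‖ ^ (3 * N) := by
  rcases Nat.eq_zero_or_pos N with rfl | hN
  · obtain ⟨R, hR0, hR⟩ := hβ.small c hc 1 one_pos
    refine ⟨Real.exp |q|, R, hR0, fun p hp hcp => ?_⟩
    have h1 : ‖(q : ℂ) * β p‖ ≤ |q| := by
      rw [norm_mul, Complex.norm_real, Real.norm_eq_abs]
      exact mul_le_of_le_one_right (abs_nonneg _) (hR p hp hcp)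
    simp only [Finset.range_zero, Finset.sum_empty, sub_zero, mul_zero, pow_zero, div_one]
    rw [Complex.norm_exp]
    exact Real.exp_le_exp.2 ((Complex.re_le_norm _).trans h1)
  · set a : ℕ → ℂ := fun j => (((-1) ^ j * bR j / 576 ^ j : ℝ) : ℂ) with ha
    set e : ℕ → ℂ := fun k => (((-1) ^ k * dR q k / 576 ^ k : ℝ) : ℂ) with he
    have ha0 : a 0 = 1 := by
      simp [ha, bR]
    have he0 : e 0 = 1 := by
      simp [he, dR]
    have hrec : ∀ k : ℕ, ((k : ℂ) + 1) * e (k + 1) = ∑ j ∈ Finset.range (k + 1),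
        (((j : ℂ) + 1) * (q : ℂ) - ((k : ℂ) - (j : ℂ))) * a (j + 1) * e (k - j) := by
      intro k
      have h1 : ((k : ℝ) + 1) * ((-1) ^ (k + 1) * dR q (k + 1) / 576 ^ (k + 1)) =
          ∑ j ∈ Finset.range (k + 1), (((j : ℝ) + 1) * q - ((k : ℝ) - (j : ℝ))) *
            ((-1) ^ (j + 1) * bR (j + 1) / 576 ^ (j + 1)) *
            ((-1) ^ (k - j) * dR q (k - j) / 576 ^ (k - j)) := by
        have hk : ((k : ℝ) + 1) ≠ 0 := by positivity
        rw [dR]
        rw [Fin.sum_univ_eq_sum_range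
          (fun j => (((j : ℝ) + 1) * q - ((k : ℝ) - (j : ℝ))) * bR (j + 1) * dR q (k - j))]
        have h2 : ((k : ℝ) + 1) * ((-1) ^ (k + 1) * (((k : ℝ) + 1)⁻¹ *
            ∑ i ∈ Finset.range (k + 1), (((i : ℝ) + 1) * q - ((k : ℝ) - (i : ℝ))) * bR (i + 1) *
              dR q (k - i)) / 576 ^ (k + 1)) =
            (-1) ^ (k + 1) / 576 ^ (k + 1) *
            ∑ i ∈ Finset.range (k + 1), (((i : ℝ) + 1) * q - ((k : ℝ) - (i : ℝ))) * bR (i + 1) *
              dR q (k - i) := by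
          generalize ∑ i ∈ Finset.range (k + 1), (((i : ℝ) + 1) * q - ((k : ℝ) - (i : ℝ))) *
            bR (i + 1) * dR q (k - i) = T
          field_simp
        rw [h2, Finset.mul_sum]
        refine Finset.sum_congr rfl fun j hj => ?_
        have hj' : j < k + 1 := Finset.mem_range.1 hj
        have e1 : ((-1 : ℝ)) ^ (k + 1) = (-1) ^ (j + 1) * (-1) ^ (k - j) := by
          rw [← pow_add]; congr 1; omega
        have e2 : ((576 : ℝ)) ^ (k + 1) = 576 ^ (j + 1) * 576 ^ (k - j) := by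
          rw [← pow_add]; congr 1; omega
        rw [e1, e2]
        field_simp
      have h3 := congrArg (fun t : ℝ => (t : ℂ)) h1
      simp only [ha, he]
      push_cast at h3 ⊢
      exact h3
    obtain ⟨C₂, r, hr0, hT⟩ := T05bAux.taylor (q : ℂ) a e ha0 he0 hrec N hN
    obtain ⟨L, hL0, hL⟩ := T05bAux.lip (q : ℂ)
    obtain ⟨C₁, hC₁⟩ := BB_expansion N c hc
    obtain ⟨R₀, hR₀, hsm⟩ := hβ.small c hc (1 / 4) (by norm_num)
    refine ⟨L * C₁ + C₂, max R₀ (max 1 (1 / r)), lt_of_lt_of_le hR₀ (le_max_left _ _),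
      fun p hp hcp => ?_⟩
    have hp1 : R₀ ≤ ‖p‖ := (le_max_left _ _).trans hp
    have hp2 : 1 ≤ ‖p‖ := ((le_max_left _ _).trans (le_max_right _ _)).trans hp
    have hp3 : 1 / r ≤ ‖p‖ := ((le_max_right _ _).trans (le_max_right _ _)).trans hp
    have hp0 : p ≠ 0 := by
      intro h; rw [h, norm_zero] at hp2; linarith
    have hpos : 0 < ‖p‖ := by linarith
    have hre : 0 < p.re := lt_of_lt_of_le (mul_pos hc hpos) hcp
    have hsmall := hsm p hp1 hcp
    -- the logarithm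
    have hlog : Complex.log (BB p) = β p := by
      rw [← hβ.exp_eq p hre]
      have him : |(β p).im| ≤ 1 / 4 := (Complex.abs_im_le_norm _).trans hsmall
      have hpi := Real.pi_gt_three
      exact Complex.log_exp (by linarith [(abs_le.1 him).1]) (by linarith [(abs_le.1 him).2])
    have hBB : ‖BB p - 1‖ ≤ 1 / 2 := by
      rw [← hβ.exp_eq p hre]
      refine (Complex.norm_exp_sub_one_le (by linarith)).trans ?_
      linarith
    set x : ℂ := (p ^ 3)⁻¹ with hx
    have hxk : ∀ k : ℕ, (p ^ (3 * k))⁻¹ = x ^ k := by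
      intro k; rw [hx, inv_pow, ← pow_mul]
    have hxn : ‖x‖ = 1 / ‖p‖ ^ 3 := by rw [hx, norm_inv, norm_pow, one_div]
    have hxr : ‖x‖ ≤ r := by
      rw [hxn, div_le_iff₀ (by positivity)]
      have h1 : ‖p‖ ≤ ‖p‖ ^ 3 := le_self_pow₀ hp2 (by norm_num)
      have h2 : 1 ≤ r * ‖p‖ := by
        rw [div_le_iff₀ hr0] at hp3; linarith
      nlinarith
    have hxN : ‖x‖ ^ N = 1 / ‖p‖ ^ (3 * N) := by
      rw [hxn, one_div, inv_pow, ← pow_mul, one_div]
    obtain ⟨hP1, hPQ⟩ := hT x hxr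
    have hB := hC₁ p hp0 hcp
    have hsum1 : ∑ j ∈ Finset.range N, (((-1) ^ j * bR j / 576 ^ j : ℝ) : ℂ) * (p ^ (3 * j))⁻¹ =
        ∑ j ∈ Finset.range N, a j * x ^ j :=
      Finset.sum_congr rfl fun j _ => by rw [hxk]
    have hsum2 : ∑ k ∈ Finset.range N, (((-1) ^ k * dR q k / 576 ^ k : ℝ) : ℂ) *
        (p ^ (3 * k))⁻¹ = ∑ j ∈ Finset.range N, e j * x ^ j :=
      Finset.sum_congr rfl fun j _ => by rw [hxk]
    rw [hsum1] at hB
    rw [hsum2, ← hlog]
    have h1 := hL (BB p) (∑ j ∈ Finset.range N, a j * x ^ j) hBB hP1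
    calc ‖cexp ((q : ℂ) * Complex.log (BB p)) - ∑ j ∈ Finset.range N, e j * x ^ j‖
        ≤ ‖cexp ((q : ℂ) * Complex.log (BB p)) -
            cexp ((q : ℂ) * Complex.log (∑ j ∈ Finset.range N, a j * x ^ j))‖ +
          ‖cexp ((q : ℂ) * Complex.log (∑ j ∈ Finset.range N, a j * x ^ j)) -
            ∑ j ∈ Finset.range N, e j * x ^ j‖ := norm_sub_le_norm_sub_add_norm_sub _ _ _
      _ ≤ L * (C₁ / ‖p‖ ^ (3 * N)) + C₂ * ‖x‖ ^ N :=
          add_le_add (h1.trans (mul_le_mul_of_nonneg_left hB hL0)) hPQ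
      _ = (L * C₁ + C₂) / ‖p‖ ^ (3 * N) := by rw [hxN]; ring

end Pool.Agent.H140R2.FR
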