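import Pool.Agent.H140R2.FR.T05Log

/-!
T06.  Primitives on the right half-plane; size of `FF`.

Sketch.  `exists_primitive_rhp`: `{0 < re}` is the increasing union of the balls `B(n, n)`; on each use
`DifferentiableOn.isExactOn_ball` (Mathlib HasPrimitives), normalise at `1`, glue (two primitives on a
ball differ by a constant).  `norm_FF_le`: `IsLogB.norm_exp`, `‖p^{1-q/2}‖ = ‖p‖^{1-q/2}`.
-/

set_option autoImplicit false

open Complex MeasureTheory Set Filter Topology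

namespace Pool.Agent.H140R2.FR

theorem T06_mem_ball (p : ℂ) (n : ℕ) (hn : 0 < n) :
    p ∈ Metric.ball ((n : ℝ) : ℂ) (n : ℝ) ↔ p.re ^ 2 + p.im ^ 2 < 2 * n * p.re := by
  have hn' : (0 : ℝ) < n := by exact_mod_cast hn
  rw [Metric.mem_ball, Complex.dist_eq, ← sq_lt_sq₀ (norm_nonneg _) hn'.le, Complex.sq_norm,
    Complex.normSq_apply]
  simp only [Complex.sub_re, Complex.ofReal_re, Complex.sub_im, Complex.ofReal_im, sub_zero]
  constructor <;> intro h <;> nlinarith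

theorem exists_primitive_rhp {f : ℂ → ℂ} (hf : DifferentiableOn ℂ f {p | 0 < p.re}) :
    ∃ g : ℂ → ℂ, ∀ p : ℂ, 0 < p.re → HasDerivAt g (f p) p := by
  classical
  have hsub : ∀ n : ℕ, 0 < n → Metric.ball ((n : ℝ) : ℂ) (n : ℝ) ⊆ {p : ℂ | 0 < p.re} := by
    intro n hn p hp
    rw [T06_mem_ball p n hn] at hp
    have hn' : (0 : ℝ) < n := by exact_mod_cast hn
    by_contra hc
    simp only [Set.mem_ofPred_eq, not_lt] at hc
    nlinarith [sq_nonneg p.re, sq_nonneg p.im, mul_nonneg hn'.le (neg_nonneg.2 hc)]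
  have hex : ∀ n : ℕ, ∃ g : ℂ → ℂ, 0 < n → (g 1 = 0 ∧
      ∀ z ∈ Metric.ball ((n : ℝ) : ℂ) (n : ℝ), HasDerivAt g (f z) z) := by
    intro n
    by_cases hn : 0 < n
    · obtain ⟨g, hg1, hg2⟩ := ((hf.mono (hsub n hn)).isExactOn_ball).with_val_at 1 0
      exact ⟨g, fun _ => ⟨hg1, hg2⟩⟩
    · exact ⟨0, fun h => absurd h hn⟩
  choose G hG using hex
  have hmono : ∀ m n : ℕ, 0 < m → m ≤ n →
      Metric.ball ((m : ℝ) : ℂ) (m : ℝ) ⊆ Metric.ball ((n : ℝ) : ℂ) (n : ℝ) := by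
    intro m n hm hmn p hp
    have hp0 : 0 < p.re := hsub m hm hp
    rw [T06_mem_ball p m hm] at hp
    rw [T06_mem_ball p n (by omega)]
    have : (m : ℝ) ≤ n := by exact_mod_cast hmn
    nlinarith [mul_le_mul_of_nonneg_right this hp0.le]
  have hone : ∀ n : ℕ, 0 < n → (1 : ℂ) ∈ Metric.ball ((n : ℝ) : ℂ) (n : ℝ) := by
    intro n hn
    rw [T06_mem_ball 1 n hn]
    have : (1 : ℝ) ≤ n := by exact_mod_cast hn
    simp only [Complex.one_re, Complex.one_im]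
    nlinarith
  -- consistency
  have hcons : ∀ m n : ℕ, 0 < m → m ≤ n → ∀ p ∈ Metric.ball ((m : ℝ) : ℂ) (m : ℝ), G m p = G n p := by
    intro m n hm hmn p hp
    have hn : 0 < n := by omega
    have hopen : IsOpen (Metric.ball ((m : ℝ) : ℂ) (m : ℝ)) := Metric.isOpen_ball
    have hpre : IsPreconnected (Metric.ball ((m : ℝ) : ℂ) (m : ℝ)) :=
      (convex_ball _ _).isPreconnected
    have hd1 : DifferentiableOn ℂ (G m) (Metric.ball ((m : ℝ) : ℂ) (m : ℝ)) := fun z hz =>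
      ((hG m hm).2 z hz).differentiableAt.differentiableWithinAt
    have hd2 : DifferentiableOn ℂ (G n) (Metric.ball ((m : ℝ) : ℂ) (m : ℝ)) := fun z hz =>
      ((hG n hn).2 z (hmono m n hm hmn hz)).differentiableAt.differentiableWithinAt
    have hder : EqOn (deriv (G m)) (deriv (G n)) (Metric.ball ((m : ℝ) : ℂ) (m : ℝ)) := by
      intro z hz
      rw [((hG m hm).2 z hz).deriv, ((hG n hn).2 z (hmono m n hm hmn hz)).deriv]
    exact hopen.eqOn_of_deriv_eq hpre hd1 hd2 hder (hone m hm)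
      (by rw [(hG m hm).1, (hG n hn).1]) hp
  have hcover : ∀ p : ℂ, 0 < p.re → ∃ n : ℕ, 0 < n ∧ p ∈ Metric.ball ((n : ℝ) : ℂ) (n : ℝ) := by
    intro p hp
    obtain ⟨n, hn⟩ := exists_nat_gt ((p.re ^ 2 + p.im ^ 2) / (2 * p.re))
    have hpos : 0 ≤ (p.re ^ 2 + p.im ^ 2) / (2 * p.re) := by positivity
    have hn0 : (0 : ℝ) < n := lt_of_le_of_lt hpos hn
    have hn1 : 0 < n := by exact_mod_cast hn0
    refine ⟨n, hn1, ?_⟩
    rw [T06_mem_ball p n hn1]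
    rw [div_lt_iff₀ (by positivity)] at hn
    nlinarith
  let g : ℂ → ℂ := fun p =>
    if h : ∃ n : ℕ, 0 < n ∧ p ∈ Metric.ball ((n : ℝ) : ℂ) (n : ℝ) then G (Nat.find h) p else 0
  have hg : ∀ n : ℕ, 0 < n → ∀ p ∈ Metric.ball ((n : ℝ) : ℂ) (n : ℝ), g p = G n p := by
    intro n hn p hp
    have h : ∃ n : ℕ, 0 < n ∧ p ∈ Metric.ball ((n : ℝ) : ℂ) (n : ℝ) := ⟨n, hn, hp⟩
    have hspec := Nat.find_spec h
    have hle : Nat.find h ≤ n := Nat.find_min' h ⟨hn, hp⟩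
    change (if h : ∃ n : ℕ, 0 < n ∧ p ∈ Metric.ball ((n : ℝ) : ℂ) (n : ℝ)
      then G (Nat.find h) p else 0) = G n p
    rw [dif_pos h]
    exact hcons _ n hspec.1 hle p hspec.2
  refine ⟨g, fun p hp => ?_⟩
  obtain ⟨n, hn, hpn⟩ := hcover p hp
  refine ((hG n hn).2 p hpn).congr_of_eventuallyEq ?_
  filter_upwards [Metric.isOpen_ball.mem_nhds hpn] with z hz
  exact hg n hn z hz

theorem FF_differentiableOn {β : ℂ → ℂ} (hβ : IsLogB β) (q : ℝ) (lam : ℂ) :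
    DifferentiableOn ℂ (FF β q lam) {p | 0 < p.re} := by
  intro p hp
  have hp' : 0 < p.re := hp
  have hopen : IsOpen {p : ℂ | 0 < p.re} := isOpen_lt continuous_const Complex.continuous_re
  have hβd : DifferentiableAt ℂ β p := hβ.diff.differentiableAt (hopen.mem_nhds hp)
  have hslit : p ∈ slitPlane := Or.inl hp'
  apply DifferentiableAt.differentiableWithinAt
  unfold FF
  refine DifferentiableAt.mul ?_ ?_
  · refine DifferentiableAt.cexp ?_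
    fun_prop
  · exact differentiableAt_id.cpow_const hslit

theorem norm_FF_le {β : ℂ → ℂ} (hβ : IsLogB β) (q : ℝ) (hq : 0 < q) (lam p : ℂ) (hp : 0 < p.re) :
    ‖FF β q lam p‖ ≤ Real.exp ((lam * p ^ 2).re - 2 / 3 * q * (p ^ 3).re) * ‖p‖ * p.re ^ (-(q / 2)) := by
  have hpn : 0 < ‖p‖ := norm_pos_iff.2 (by rintro rfl; simp at hp)
  unfold FF
  rw [norm_mul, Complex.exp_add, norm_mul, Complex.norm_exp]
  have e1 : (lam * p ^ 2 - (2 / 3) * (q : ℂ) * p ^ 3).re =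
      (lam * p ^ 2).re - 2 / 3 * q * (p ^ 3).re := by
    have : (2 / 3 : ℂ) * (q : ℂ) * p ^ 3 = ((2 / 3 * q : ℝ) : ℂ) * p ^ 3 := by push_cast; ring
    rw [this, Complex.sub_re, Complex.re_ofReal_mul]
  rw [e1]
  have e2 : ‖p ^ ((1 : ℂ) - (q : ℂ) / 2)‖ = ‖p‖ ^ (1 - q / 2) := by
    have : (1 : ℂ) - (q : ℂ) / 2 = ((1 - q / 2 : ℝ) : ℂ) := by push_cast; ring
    rw [this]
    exact Complex.norm_cpow_real p (1 - q / 2)
  rw [e2]
  have h3 := hβ.norm_exp q hq.le p hp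
  have e3 : (‖p‖ / p.re) ^ (q / 2) * ‖p‖ ^ (1 - q / 2) = ‖p‖ * p.re ^ (-(q / 2)) := by
    rw [Real.div_rpow hpn.le hp.le, Real.rpow_neg hp.le, div_eq_mul_inv]
    have : ‖p‖ ^ (q / 2) * ‖p‖ ^ (1 - q / 2) = ‖p‖ := by
      rw [← Real.rpow_add hpn]; simp
    calc _ = (‖p‖ ^ (q / 2) * ‖p‖ ^ (1 - q / 2)) * (p.re ^ (q / 2))⁻¹ := by ring
      _ = _ := by rw [this]
  calc Real.exp ((lam * p ^ 2).re - 2 / 3 * q * (p ^ 3).re) * ‖cexp ((q : ℂ) * β p)‖ * ‖p‖ ^ (1 - q / 2)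
      ≤ Real.exp ((lam * p ^ 2).re - 2 / 3 * q * (p ^ 3).re) * (‖p‖ / p.re) ^ (q / 2) *
        ‖p‖ ^ (1 - q / 2) := by
        gcongr
    _ = Real.exp ((lam * p ^ 2).re - 2 / 3 * q * (p ^ 3).re) *
        ((‖p‖ / p.re) ^ (q / 2) * ‖p‖ ^ (1 - q / 2)) := by ring
    _ = _ := by rw [e3]; ring

/-- the exponent in coordinates. -/
theorem exponent_eq (q : ℝ) (lam : ℂ) (x y : ℝ) :
    (lam * ((x : ℂ) + (y : ℂ) * I) ^ 2).re - 2 / 3 * q * (((x : ℂ) + (y : ℂ) * I) ^ 3).re =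
      lam.re * x ^ 2 - 2 / 3 * q * x ^ 3 - (lam.re - 2 * q * x) * y ^ 2 - 2 * lam.im * x * y := by
  have h2 : ((x : ℂ) + (y : ℂ) * I) ^ 2 = ⟨x ^ 2 - y ^ 2, 2 * x * y⟩ := by
    apply Complex.ext <;> simp [pow_two] ; ring
  have h3 : ((x : ℂ) + (y : ℂ) * I) ^ 3 = ⟨x ^ 3 - 3 * x * y ^ 2, 3 * x ^ 2 * y - y ^ 3⟩ := by
    rw [pow_succ, h2]; apply Complex.ext <;> simp <;> ring
  rw [h2, h3]
  simp only [Complex.mul_re]
  ring

end Pool.Agent.H140R2.FR
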