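import Pool.Agent.H140R2.FR.T06FF

/-!
T07.  A primitive `G` of `FF β q lam` on the right half-plane has a limit `L` at `+∞` (along all
horizontal lines) and a limit `U` at `i∞` (along all vertical lines `Re = a`, `2qa < Re lam`), and
`JJ = L - U`.

Sketch.  By `norm_FF_le` and `exponent_eq`, `FF` is integrable on horizontal half lines and on vertical upper
half lines with `2qa < Re lam`; `MeasureTheory.integral_Ioi_of_hasDerivAt_of_tendsto`,
existence of the limits: `MeasureTheory.tendsto_integral_Ioi...` / FTC on `[A, B]` and Cauchy.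
The limits for two heights (two abscissas) differ by the integral over a segment whose length is fixed,
on which `FF → 0`.
-/

set_option autoImplicit false

open Complex MeasureTheory Set Filter Topology

namespace Pool.Agent.H140R2.FR

structure Ends (β : ℂ → ℂ) (q : ℝ) (lam : ℂ) (G : ℂ → ℂ) (L U : ℂ) : Prop where
  prim : ∀ p : ℂ, 0 < p.re → HasDerivAt G (FF β q lam p) p
  right : ∀ y : ℝ, Tendsto (fun x : ℝ => G ((x : ℂ) + (y : ℂ) * I)) atTop (𝓝 L)
  up : ∀ a : ℝ, 0 < a → 2 * q * a < lam.re →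
    Tendsto (fun y : ℝ => G ((a : ℂ) + (y : ℂ) * I)) atTop (𝓝 U)

/-- elementary: a cubic with negative leading coefficient is bounded above on the half line. -/
theorem T07_cubic (A B c : ℝ) (hc : 0 < c) :
    ∃ C : ℝ, ∀ x : ℝ, 0 ≤ x → A * x ^ 2 + B * x - c * x ^ 3 ≤ C := by
  set X : ℝ := max 1 ((|A| + |B|) / c) with hX
  have hX1 : 1 ≤ X := le_max_left _ _
  refine ⟨|A| * X ^ 2 + |B| * X, fun x hx => ?_⟩
  have hA := le_abs_self A
  have hB := le_abs_self B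
  have hA0 := abs_nonneg A
  have hB0 := abs_nonneg B
  rcases le_total x X with h | h
  · have h1 : A * x ^ 2 ≤ |A| * X ^ 2 := by
      have : x ^ 2 ≤ X ^ 2 := pow_le_pow_left₀ hx h 2
      nlinarith [sq_nonneg x]
    have h2 : B * x ≤ |B| * X := by nlinarith
    have h3 : 0 ≤ c * x ^ 3 := by positivity
    linarith
  · have hx1 : 1 ≤ x := hX1.trans h
    have h1 : (|A| + |B|) / c ≤ x := (le_max_right _ _).trans h
    have h2 : |A| + |B| ≤ c * x := by
      rw [div_le_iff₀ hc] at h1; linarith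
    have h3 : (|A| + |B|) * x ^ 2 ≤ c * x ^ 3 := by
      have : (|A| + |B|) * x ^ 2 ≤ (c * x) * x ^ 2 := by gcongr
      linarith [this, show (c * x) * x ^ 2 = c * x ^ 3 by ring]
    have h4 : A * x ^ 2 ≤ |A| * x ^ 2 := by nlinarith [sq_nonneg x]
    have h5 : B * x ≤ |B| * x ^ 2 := by
      have : B * x ≤ |B| * x := by nlinarith
      have : |B| * x ≤ |B| * x ^ 2 := by nlinarith [mul_nonneg hB0 hx]
      linarith
    have h6 : 0 ≤ |A| * X ^ 2 + |B| * X := by positivity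
    linarith

theorem T07_norm_xy_le (x y : ℝ) (hx : 0 ≤ x) : ‖(x : ℂ) + (y : ℂ) * I‖ ≤ x + |y| := by
  calc ‖(x : ℂ) + (y : ℂ) * I‖ ≤ ‖(x : ℂ)‖ + ‖(y : ℂ) * I‖ := norm_add_le _ _
    _ = x + |y| := by
      rw [norm_mul, Complex.norm_I, mul_one, Complex.norm_real, Complex.norm_real,
        Real.norm_eq_abs, Real.norm_eq_abs, abs_of_nonneg hx]

theorem T07_re (x y : ℝ) : ((x : ℂ) + (y : ℂ) * I).re = x := by simp

/-- uniform exponential decay to the right. -/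
theorem T07_right_bound {β : ℂ → ℂ} (hβ : IsLogB β) (q : ℝ) (hq : 0 < q) (lam : ℂ)
    (a Y : ℝ) (ha : 0 < a) :
    ∃ C : ℝ, ∀ x y : ℝ, a ≤ x → |y| ≤ Y →
      ‖FF β q lam ((x : ℂ) + (y : ℂ) * I)‖ ≤ C * Real.exp (-x) := by
  obtain ⟨C, hC⟩ := T07_cubic lam.re (2 * q * Y ^ 2 + 2 * |lam.im| * Y + 2) (2 / 3 * q)
    (by positivity)
  refine ⟨Real.exp (C + |lam.re| * Y ^ 2) * (1 + Y) * a ^ (-(q / 2)), fun x y hx hy => ?_⟩
  have hx0 : 0 < x := ha.trans_le hx
  have hY : 0 ≤ Y := (abs_nonneg y).trans hy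
  have h := norm_FF_le hβ q hq lam ((x : ℂ) + (y : ℂ) * I) (by rw [T07_re]; exact hx0)
  rw [exponent_eq, T07_re] at h
  have hy2 : y ^ 2 ≤ Y ^ 2 := by
    rw [← sq_abs y]; exact pow_le_pow_left₀ (abs_nonneg y) hy 2
  have he : lam.re * x ^ 2 - 2 / 3 * q * x ^ 3 - (lam.re - 2 * q * x) * y ^ 2
      - 2 * lam.im * x * y ≤ C + |lam.re| * Y ^ 2 - 2 * x := by
    have h1 := hC x hx0.le
    have h2 : -lam.re * y ^ 2 ≤ |lam.re| * Y ^ 2 := by
      have := neg_le_abs lam.re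
      calc -lam.re * y ^ 2 ≤ |lam.re| * y ^ 2 := by gcongr
        _ ≤ |lam.re| * Y ^ 2 := by gcongr
    have h3 : 2 * q * x * y ^ 2 ≤ 2 * q * x * Y ^ 2 := by gcongr
    have h4 : -(2 * lam.im * x * y) ≤ 2 * |lam.im| * Y * x := by
      have h5 : -(lam.im * y) ≤ |lam.im| * Y := by
        calc -(lam.im * y) ≤ |lam.im * y| := neg_le_abs _
          _ = |lam.im| * |y| := abs_mul _ _
          _ ≤ |lam.im| * Y := by gcongr
      nlinarith
    nlinarith
  have hn : ‖(x : ℂ) + (y : ℂ) * I‖ ≤ (1 + Y) * Real.exp x := by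
    have h1 := T07_norm_xy_le x y hx0.le
    have h2 : x + 1 ≤ Real.exp x := Real.add_one_le_exp x
    nlinarith
  have hp : x ^ (-(q / 2)) ≤ a ^ (-(q / 2)) :=
    Real.rpow_le_rpow_of_nonpos ha hx (by linarith)
  have hp0 : 0 ≤ x ^ (-(q / 2)) := Real.rpow_nonneg hx0.le _
  calc ‖FF β q lam ((x : ℂ) + (y : ℂ) * I)‖ ≤ _ := h
    _ ≤ Real.exp (C + |lam.re| * Y ^ 2 - 2 * x) * ((1 + Y) * Real.exp x) * a ^ (-(q / 2)) := by
      gcongr
    _ = Real.exp (C + |lam.re| * Y ^ 2) * (1 + Y) * a ^ (-(q / 2)) * Real.exp (-x) := by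
      have : Real.exp (C + |lam.re| * Y ^ 2 - 2 * x) * Real.exp x =
          Real.exp (C + |lam.re| * Y ^ 2) * Real.exp (-x) := by
        rw [← Real.exp_add, ← Real.exp_add]; congr 1; ring
      linear_combination (1 + Y) * a ^ (-(q / 2)) * this

/-- uniform exponential decay upwards, for abscissas `x ∈ [x₁, x₂]`, `2 q x₂ < Re lam`. -/
theorem T07_up_bound {β : ℂ → ℂ} (hβ : IsLogB β) (q : ℝ) (hq : 0 < q) (lam : ℂ)
    (x₁ x₂ : ℝ) (hx₁ : 0 < x₁) (h2 : 2 * q * x₂ < lam.re) :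
    ∃ C : ℝ, ∀ x y : ℝ, x₁ ≤ x → x ≤ x₂ →
      ‖FF β q lam ((x : ℂ) + (y : ℂ) * I)‖ ≤ C * Real.exp (-y) := by
  set κ : ℝ := lam.re - 2 * q * x₂ with hκ
  have hκ0 : 0 < κ := by rw [hκ]; linarith
  set B : ℝ := 2 * |lam.im| * x₂ + 2 with hB
  refine ⟨Real.exp (|lam.re| * x₂ ^ 2 + B ^ 2 / (4 * κ)) * (1 + x₂) * x₁ ^ (-(q / 2)),
    fun x y hx hx' => ?_⟩
  have hx0 : 0 < x := hx₁.trans_le hx
  have hx20 : 0 < x₂ := hx0.trans_le hx'
  have h := norm_FF_le hβ q hq lam ((x : ℂ) + (y : ℂ) * I) (by rw [T07_re]; exact hx0)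
  rw [exponent_eq, T07_re] at h
  have he : lam.re * x ^ 2 - 2 / 3 * q * x ^ 3 - (lam.re - 2 * q * x) * y ^ 2
      - 2 * lam.im * x * y ≤ |lam.re| * x₂ ^ 2 + B ^ 2 / (4 * κ) - 2 * |y| := by
    have h1 : lam.re * x ^ 2 ≤ |lam.re| * x₂ ^ 2 := by
      calc lam.re * x ^ 2 ≤ |lam.re| * x ^ 2 := by gcongr; exact le_abs_self _
        _ ≤ |lam.re| * x₂ ^ 2 := by gcongr
    have h3 : 0 ≤ 2 / 3 * q * x ^ 3 := by positivity
    have h4 : κ * y ^ 2 ≤ (lam.re - 2 * q * x) * y ^ 2 := by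
      have : κ ≤ lam.re - 2 * q * x := by
        rw [hκ]; nlinarith
      gcongr
    have h5 : -(2 * lam.im * x * y) ≤ 2 * |lam.im| * x₂ * |y| := by
      have h6 : -(lam.im * y) ≤ |lam.im| * |y| := by
        calc -(lam.im * y) ≤ |lam.im * y| := neg_le_abs _
          _ = |lam.im| * |y| := abs_mul _ _
      calc -(2 * lam.im * x * y) = 2 * x * -(lam.im * y) := by ring
        _ ≤ 2 * x * (|lam.im| * |y|) := by gcongr
        _ ≤ 2 * x₂ * (|lam.im| * |y|) := by gcongr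
        _ = 2 * |lam.im| * x₂ * |y| := by ring
    have h6 : B * |y| - κ * y ^ 2 ≤ B ^ 2 / (4 * κ) := by
      rw [le_div_iff₀ (by positivity), ← sq_abs y]
      nlinarith [sq_nonneg (2 * κ * |y| - B)]
    have h7 : B * |y| = 2 * |lam.im| * x₂ * |y| + 2 * |y| := by rw [hB]; ring
    linarith
  have hn : ‖(x : ℂ) + (y : ℂ) * I‖ ≤ (1 + x₂) * Real.exp |y| := by
    have h1 := T07_norm_xy_le x y hx0.le
    have h2 : |y| + 1 ≤ Real.exp |y| := Real.add_one_le_exp _
    have h3 : (1 + x₂) * (|y| + 1) ≤ (1 + x₂) * Real.exp |y| := by gcongr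
    nlinarith [abs_nonneg y]
  have hp : x ^ (-(q / 2)) ≤ x₁ ^ (-(q / 2)) :=
    Real.rpow_le_rpow_of_nonpos hx₁ hx (by linarith)
  have hp0 : 0 ≤ x ^ (-(q / 2)) := Real.rpow_nonneg hx0.le _
  calc ‖FF β q lam ((x : ℂ) + (y : ℂ) * I)‖ ≤ _ := h
    _ ≤ Real.exp (|lam.re| * x₂ ^ 2 + B ^ 2 / (4 * κ) - 2 * |y|) * ((1 + x₂) * Real.exp |y|) *
        x₁ ^ (-(q / 2)) := by gcongr
    _ = Real.exp (|lam.re| * x₂ ^ 2 + B ^ 2 / (4 * κ)) * (1 + x₂) * x₁ ^ (-(q / 2)) *
        Real.exp (-|y|) := by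
      have : Real.exp (|lam.re| * x₂ ^ 2 + B ^ 2 / (4 * κ) - 2 * |y|) * Real.exp |y| =
          Real.exp (|lam.re| * x₂ ^ 2 + B ^ 2 / (4 * κ)) * Real.exp (-|y|) := by
        rw [← Real.exp_add, ← Real.exp_add]; congr 1; ring
      linear_combination (1 + x₂) * x₁ ^ (-(q / 2)) * this
    _ ≤ Real.exp (|lam.re| * x₂ ^ 2 + B ^ 2 / (4 * κ)) * (1 + x₂) * x₁ ^ (-(q / 2)) *
        Real.exp (-y) := by
      have : 0 ≤ x₁ ^ (-(q / 2)) := Real.rpow_nonneg hx₁.le _
      have h9 : Real.exp (-|y|) ≤ Real.exp (-y) := by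
        apply Real.exp_le_exp.mpr; linarith [le_abs_self y]
      gcongr

theorem T07_integrable_of_bound {f : ℝ → ℂ} {a C : ℝ} (hf : ContinuousOn f (Ioi a))
    (h : ∀ x, a < x → ‖f x‖ ≤ C * Real.exp (-x)) : IntegrableOn f (Ioi a) := by
  have hg : IntegrableOn (fun x : ℝ => C * Real.exp (-x)) (Ioi a) := by
    have := integrableOn_exp_neg_Ioi a
    exact this.const_mul C
  refine hg.mono' (hf.aestronglyMeasurable measurableSet_Ioi) ?_
  exact (ae_restrict_iff' measurableSet_Ioi).mpr (Filter.Eventually.of_forall fun x hx => h x hx)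

theorem T07_cont {β : ℂ → ℂ} (hβ : IsLogB β) (q : ℝ) (lam : ℂ) :
    ContinuousOn (FF β q lam) {p | 0 < p.re} := (FF_differentiableOn hβ q lam).continuousOn

/-- `FF` is integrable over horizontal half lines. -/
theorem integrableOn_FF_right {β : ℂ → ℂ} (hβ : IsLogB β) (q : ℝ) (hq : 0 < q) (lam : ℂ)
    (a y : ℝ) (ha : 0 < a) :
    IntegrableOn (fun x : ℝ => FF β q lam ((x : ℂ) + (y : ℂ) * I)) (Ioi a) := by
  obtain ⟨C, hC⟩ := T07_right_bound hβ q hq lam a |y| ha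
  refine T07_integrable_of_bound ?_ (fun x hx => hC x y (le_of_lt hx) le_rfl)
  refine (T07_cont hβ q lam).comp (by fun_prop) ?_
  intro x hx
  simp only [mem_setOf_eq, T07_re]
  exact ha.trans hx

/-- `FF` is integrable over vertical upper half lines. -/
theorem integrableOn_FF_up {β : ℂ → ℂ} (hβ : IsLogB β) (q : ℝ) (hq : 0 < q) (lam : ℂ)
    (a : ℝ) (ha : 0 < a) (ha' : 2 * q * a < lam.re) (y₀ : ℝ) :
    IntegrableOn (fun y : ℝ => FF β q lam ((a : ℂ) + (y : ℂ) * I)) (Ioi y₀) := by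
  obtain ⟨C, hC⟩ := T07_up_bound hβ q hq lam a a ha ha'
  refine T07_integrable_of_bound ?_ (fun y hy => hC a y le_rfl le_rfl)
  refine (T07_cont hβ q lam).comp (by fun_prop) ?_
  intro x hx
  simp only [mem_setOf_eq, T07_re]
  exact ha

theorem T07_deriv_right {G F : ℂ → ℂ} (h : ∀ p : ℂ, 0 < p.re → HasDerivAt G (F p) p)
    (x y : ℝ) (hx : 0 < x) :
    HasDerivAt (fun x : ℝ => G ((x : ℂ) + (y : ℂ) * I)) (F ((x : ℂ) + (y : ℂ) * I)) x := by
  have h1 := h ((x : ℂ) + (y : ℂ) * I) (by rw [T07_re]; exact hx)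
  have h2 : HasDerivAt (fun z : ℂ => G (z + (y : ℂ) * I)) (F ((x : ℂ) + (y : ℂ) * I)) (x : ℂ) :=
    h1.comp_add_const (x : ℂ) ((y : ℂ) * I)
  exact h2.comp_ofReal

theorem T07_deriv_up {G F : ℂ → ℂ} (h : ∀ p : ℂ, 0 < p.re → HasDerivAt G (F p) p)
    (x y : ℝ) (hx : 0 < x) :
    HasDerivAt (fun y : ℝ => G ((x : ℂ) + (y : ℂ) * I)) (I * F ((x : ℂ) + (y : ℂ) * I)) y := by
  have h1 := h ((x : ℂ) + (y : ℂ) * I) (by rw [T07_re]; exact hx)
  have h3 : HasDerivAt (fun z : ℂ => (x : ℂ) + z * I) I (y : ℂ) := by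
    have := ((hasDerivAt_id (y : ℂ)).mul_const I).const_add (x : ℂ)
    simpa using this
  have h2 : HasDerivAt (fun z : ℂ => G ((x : ℂ) + z * I)) (F ((x : ℂ) + (y : ℂ) * I) * I) (y : ℂ) :=
    HasDerivAt.comp (y : ℂ) h1 h3
  rw [mul_comm] at h2
  exact h2.comp_ofReal

/-- the increment over a segment inside the half-plane on which `F` is small. -/
theorem T07_seg {G F : ℂ → ℂ} (h : ∀ p : ℂ, 0 < p.re → HasDerivAt G (F p) p) {u v : ℂ} {C : ℝ}
    (hu : 0 < u.re) (hv : 0 < v.re) (hC : ∀ p ∈ segment ℝ u v, ‖F p‖ ≤ C) :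
    ‖G v - G u‖ ≤ C * ‖v - u‖ := by
  refine Convex.norm_image_sub_le_of_norm_hasDerivWithin_le (f := G) (f' := F)
    (s := segment ℝ u v) ?_ hC (convex_segment u v) (left_mem_segment ℝ u v)
    (right_mem_segment ℝ u v)
  intro p hp
  refine (h p ?_).hasDerivWithinAt
  have hconv : Convex ℝ {p : ℂ | 0 < p.re} := by
    have := convex_halfSpace_gt (𝕜 := ℝ) (f := fun p : ℂ => p.re)
      ⟨fun x y => by simp, fun c x => by simp⟩ 0
    exact this
  exact hconv.segment_subset hu hv hp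

theorem T07_seg_coord {u v p : ℂ} (hp : p ∈ segment ℝ u v) :
    min u.re v.re ≤ p.re ∧ p.re ≤ max u.re v.re ∧ min u.im v.im ≤ p.im ∧
      p.im ≤ max u.im v.im := by
  obtain ⟨s, t, hs, ht, hst, rfl⟩ := hp
  have ht' : t = 1 - s := by linarith
  subst ht'
  simp only [add_re, real_smul, mul_re, ofReal_re, ofReal_im, zero_mul, sub_zero, add_im, mul_im,
    add_zero]
  have h1 := min_le_left u.re v.re
  have h2 := min_le_right u.re v.re
  have h3 := le_max_left u.re v.re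
  have h4 := le_max_right u.re v.re
  have h5 := min_le_left u.im v.im
  have h6 := min_le_right u.im v.im
  have h7 := le_max_left u.im v.im
  have h8 := le_max_right u.im v.im
  refine ⟨?_, ?_, ?_, ?_⟩
  · nlinarith
  · nlinarith
  · nlinarith
  · nlinarith

theorem exists_ends {β : ℂ → ℂ} (hβ : IsLogB β) (q : ℝ) (hq : 0 < q) (lam : ℂ) (hlam : 0 < lam.re) :
    ∃ (G : ℂ → ℂ) (L U : ℂ), Ends β q lam G L U := by
  obtain ⟨G, hG⟩ := exists_primitive_rhp (FF_differentiableOn hβ q lam)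
  -- limit to the right along the real axis
  have hR : Tendsto (fun x : ℝ => G ((x : ℂ) + ((0 : ℝ) : ℂ) * I)) atTop
      (𝓝 (limUnder atTop (fun x : ℝ => G ((x : ℂ) + ((0 : ℝ) : ℂ) * I)))) :=
    tendsto_limUnder_of_hasDerivAt_of_integrableOn_Ioi (a := 1)
      (fun x hx => T07_deriv_right hG x 0 (lt_trans one_pos hx))
      (integrableOn_FF_right hβ q hq lam 1 0 one_pos)
  set L : ℂ := limUnder atTop (fun x : ℝ => G ((x : ℂ) + ((0 : ℝ) : ℂ) * I)) with hL
  set a₀ : ℝ := lam.re / (4 * q) with ha₀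
  have ha₀pos : 0 < a₀ := by positivity
  have ha₀' : 2 * q * a₀ < lam.re := by
    have : 2 * q * a₀ = lam.re / 2 := by rw [ha₀]; field_simp; ring
    rw [this]; linarith
  have hUp : Tendsto (fun y : ℝ => G ((a₀ : ℂ) + (y : ℂ) * I)) atTop
      (𝓝 (limUnder atTop (fun y : ℝ => G ((a₀ : ℂ) + (y : ℂ) * I)))) := by
    refine tendsto_limUnder_of_hasDerivAt_of_integrableOn_Ioi (a := 0)
      (f' := fun y : ℝ => I * FF β q lam ((a₀ : ℂ) + (y : ℂ) * I))
      (fun y hy => T07_deriv_up hG a₀ y ha₀pos) ?_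
    exact (integrableOn_FF_up hβ q hq lam a₀ ha₀pos ha₀' 0).const_mul I
  set U : ℂ := limUnder atTop (fun y : ℝ => G ((a₀ : ℂ) + (y : ℂ) * I)) with hU
  have hexp : Tendsto (fun x : ℝ => Real.exp (-x)) atTop (𝓝 0) :=
    Real.tendsto_exp_neg_atTop_nhds_zero
  refine ⟨G, L, U, hG, fun y => ?_, fun a ha ha' => ?_⟩
  · obtain ⟨C, hC⟩ := T07_right_bound hβ q hq lam 1 |y| one_pos
    have hdiff : Tendsto (fun x : ℝ => G ((x : ℂ) + (y : ℂ) * I) -
        G ((x : ℂ) + ((0 : ℝ) : ℂ) * I)) atTop (𝓝 0) := by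
      have hb : Tendsto (fun x : ℝ => C * Real.exp (-x) * |y|) atTop (𝓝 0) := by
        simpa using (hexp.const_mul C).mul_const |y|
      refine squeeze_zero_norm' ?_ hb
      filter_upwards [eventually_ge_atTop (1 : ℝ)] with x hx
      have hx0 : 0 < x := lt_of_lt_of_le one_pos hx
      have h1 := T07_seg hG (u := (x : ℂ) + ((0 : ℝ) : ℂ) * I) (v := (x : ℂ) + (y : ℂ) * I)
        (C := C * Real.exp (-x)) (by rw [T07_re]; exact hx0) (by rw [T07_re]; exact hx0) ?_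
      · refine h1.trans (le_of_eq ?_)
        congr 1
        have : ((x : ℂ) + (y : ℂ) * I) - ((x : ℂ) + ((0 : ℝ) : ℂ) * I) = (y : ℂ) * I := by
          simp
        rw [this, norm_mul, Complex.norm_I, mul_one, Complex.norm_real, Real.norm_eq_abs]
      · intro p hp
        obtain ⟨c1, c2, c3, c4⟩ := T07_seg_coord hp
        have r1 : ((x : ℂ) + ((0 : ℝ) : ℂ) * I).re = x := T07_re _ _
        have r2 : ((x : ℂ) + (y : ℂ) * I).re = x := T07_re _ _
        have r3 : ((x : ℂ) + ((0 : ℝ) : ℂ) * I).im = 0 := by simp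
        have r4 : ((x : ℂ) + (y : ℂ) * I).im = y := by simp
        rw [r1, r2, min_self] at c1
        rw [r1, r2, max_self] at c2
        rw [r3, r4] at c3 c4
        have hpx : p.re = x := le_antisymm c2 c1
        have hpy : |p.im| ≤ |y| := by
          rw [abs_le]
          constructor
          · have : -|y| ≤ min 0 y := by
              rw [le_min_iff]; exact ⟨by linarith [abs_nonneg y], neg_abs_le y⟩
            linarith
          · have : max 0 y ≤ |y| := max_le (abs_nonneg y) (le_abs_self y)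
            linarith
        have := hC p.re p.im (by rw [hpx]; exact hx) hpy
        rw [Complex.re_add_im, hpx] at this
        exact this
    have := hdiff.add hR
    simpa using this
  · set x₁ : ℝ := min a a₀ with hx₁
    set x₂ : ℝ := max a a₀ with hx₂
    have hx₁pos : 0 < x₁ := lt_min ha ha₀pos
    have hx₂' : 2 * q * x₂ < lam.re := by
      rcases max_choice a a₀ with h | h <;> rw [hx₂, h] <;> assumption
    obtain ⟨C, hC⟩ := T07_up_bound hβ q hq lam x₁ x₂ hx₁pos hx₂'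
    have hdiff : Tendsto (fun y : ℝ => G ((a : ℂ) + (y : ℂ) * I) -
        G ((a₀ : ℂ) + (y : ℂ) * I)) atTop (𝓝 0) := by
      have hb : Tendsto (fun y : ℝ => C * Real.exp (-y) * |a - a₀|) atTop (𝓝 0) := by
        simpa using (hexp.const_mul C).mul_const |a - a₀|
      refine squeeze_zero_norm ?_ hb
      intro y
      have h1 := T07_seg hG (u := (a₀ : ℂ) + (y : ℂ) * I) (v := (a : ℂ) + (y : ℂ) * I)
        (C := C * Real.exp (-y)) (by rw [T07_re]; exact ha₀pos) (by rw [T07_re]; exact ha) ?_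
      · refine h1.trans (le_of_eq ?_)
        congr 1
        have : ((a : ℂ) + (y : ℂ) * I) - ((a₀ : ℂ) + (y : ℂ) * I) = ((a - a₀ : ℝ) : ℂ) := by
          push_cast; ring
        rw [this, Complex.norm_real, Real.norm_eq_abs]
      · intro p hp
        obtain ⟨c1, c2, c3, c4⟩ := T07_seg_coord hp
        have r1 : ((a₀ : ℂ) + (y : ℂ) * I).re = a₀ := T07_re _ _
        have r2 : ((a : ℂ) + (y : ℂ) * I).re = a := T07_re _ _
        have r3 : ((a₀ : ℂ) + (y : ℂ) * I).im = y := by simp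
        have r4 : ((a : ℂ) + (y : ℂ) * I).im = y := by simp
        rw [r1, r2] at c1 c2
        rw [r3, r4, min_self] at c3
        rw [r3, r4, max_self] at c4
        have hpy : p.im = y := le_antisymm c4 c3
        have := hC p.re p.im (by rw [hx₁, min_comm]; exact c1) (by rw [hx₂, max_comm]; exact c2)
        rw [Complex.re_add_im, hpy] at this
        exact this
    have := hdiff.add hUp
    simpa using this

theorem Ends.integral_right {β : ℂ → ℂ} (hβ : IsLogB β) {q : ℝ} (hq : 0 < q) {lam : ℂ} {G : ℂ → ℂ}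
    {L U : ℂ} (h : Ends β q lam G L U) (a y : ℝ) (ha : 0 < a) :
    ∫ x in Ioi a, FF β q lam ((x : ℂ) + (y : ℂ) * I) = L - G ((a : ℂ) + (y : ℂ) * I) := by
  have h1 : ∀ x ∈ Ici a, HasDerivAt (fun x : ℝ => G ((x : ℂ) + (y : ℂ) * I))
      (FF β q lam ((x : ℂ) + (y : ℂ) * I)) x :=
    fun x hx => T07_deriv_right h.prim x y (lt_of_lt_of_le ha hx)
  exact integral_Ioi_of_hasDerivAt_of_tendsto' h1 (integrableOn_FF_right hβ q hq lam a y ha)
    (h.right y)

theorem Ends.integral_up {β : ℂ → ℂ} (hβ : IsLogB β) {q : ℝ} (hq : 0 < q) {lam : ℂ} {G : ℂ → ℂ}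
    {L U : ℂ} (h : Ends β q lam G L U) (a y₀ : ℝ) (ha : 0 < a) (ha' : 2 * q * a < lam.re) :
    I * ∫ y in Ioi y₀, FF β q lam ((a : ℂ) + (y : ℂ) * I) = U - G ((a : ℂ) + (y₀ : ℂ) * I) := by
  have h1 : ∀ y ∈ Ici y₀, HasDerivAt (fun y : ℝ => G ((a : ℂ) + (y : ℂ) * I))
      (I * FF β q lam ((a : ℂ) + (y : ℂ) * I)) y :=
    fun y hy => T07_deriv_up h.prim a y ha
  rw [← integral_Ioi_of_hasDerivAt_of_tendsto' h1
    ((integrableOn_FF_up hβ q hq lam a ha ha' y₀).const_mul I) (h.up a ha ha')]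
  exact (integral_const_mul _ _).symm

theorem JJ_eq_ends {β : ℂ → ℂ} (hβ : IsLogB β) {q : ℝ} (hq : 0 < q) {lam : ℂ} {G : ℂ → ℂ}
    {L U : ℂ} (h : Ends β q lam G L U) (hlam : 2 * q < lam.re) : JJ β q lam = L - U := by
  have h1 := h.integral_right hβ hq 1 0 one_pos
  have h2 := h.integral_up hβ hq 1 0 one_pos (by linarith)
  have e1 : ∀ x : ℝ, (x : ℂ) + ((0 : ℝ) : ℂ) * I = (x : ℂ) := fun x => by simp
  simp only [e1] at h1 h2
  have e2 : ∀ y : ℝ, ((1 : ℝ) : ℂ) + (y : ℂ) * I = 1 + (y : ℂ) * I := fun y => by simp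
  simp only [e2] at h2
  unfold JJ
  rw [h1, h2]
  ring

end Pool.Agent.H140R2.FR
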