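import Pool.Agent.H140R2.FR.T07Ends

/-!
T08.  `JJ` is holomorphic in `lam` on `{2q < Re lam}` (differentiate under the integral sign; on the line
`Re p = 1` the integrand is `≤ C exp(-(Re lam - 2q) y² + 2|Im lam| y)(1+y)`).
-/

set_option autoImplicit false

open Complex MeasureTheory Set Filter Topology

namespace Pool.Agent.H140R2.FR

theorem T08_hasDerivAt (β : ℂ → ℂ) (q : ℝ) (p lam : ℂ) :
    HasDerivAt (fun lam => FF β q lam p) (p ^ 2 * FF β q lam p) lam := by
  unfold FF
  have h1 : HasDerivAt (fun lam : ℂ => lam * p ^ 2 - (2 / 3) * (q : ℂ) * p ^ 3 + (q : ℂ) * β p)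
      (p ^ 2) lam := by
    have := (((hasDerivAt_id lam).mul_const (p ^ 2)).sub_const ((2 / 3) * (q : ℂ) * p ^ 3)).add_const
      ((q : ℂ) * β p)
    simpa using this
  have h2 := (h1.cexp).mul_const (p ^ ((1 : ℂ) - (q : ℂ) / 2))
  refine h2.congr_deriv ?_
  ring

theorem T08_param {β : ℂ → ℂ} (hβ : IsLogB β) (q : ℝ) (γ : ℝ → ℂ) (S : Set ℝ)
    (hS : MeasurableSet S) (hγ : ContinuousOn γ S) (hpos : ∀ t ∈ S, 0 < (γ t).re) (lam0 : ℂ) (r : ℝ)
    (hr : 0 < r) (bound : ℝ → ℝ) (hb : IntegrableOn bound S)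
    (hbound : ∀ t ∈ S, ∀ lam ∈ Metric.ball lam0 r, ‖(γ t) ^ 2 * FF β q lam (γ t)‖ ≤ bound t)
    (hint : IntegrableOn (fun t => FF β q lam0 (γ t)) S) :
    DifferentiableAt ℂ (fun lam => ∫ t in S, FF β q lam (γ t)) lam0 := by
  have hmeas : ∀ lam : ℂ, AEStronglyMeasurable (fun t => FF β q lam (γ t)) (volume.restrict S) := by
    intro lam
    refine ContinuousOn.aestronglyMeasurable ?_ hS
    exact (FF_differentiableOn hβ q lam).continuousOn.comp hγ hpos
  have h := hasDerivAt_integral_of_dominated_loc_of_deriv_le (μ := volume.restrict S)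
    (F := fun lam t => FF β q lam (γ t)) (x₀ := lam0) (bound := bound)
    (F' := fun lam t => (γ t) ^ 2 * FF β q lam (γ t)) (s := Metric.ball lam0 r)
    (Metric.ball_mem_nhds lam0 hr)
    (Filter.Eventually.of_forall hmeas) hint
    (by
      refine AEStronglyMeasurable.mul ?_ (hmeas lam0)
      exact (hγ.aestronglyMeasurable hS).pow 2)
    ((ae_restrict_iff' hS).2 (Filter.Eventually.of_forall hbound)) hb
    ((ae_restrict_iff' hS).2 (Filter.Eventually.of_forall fun t _ lam _ =>
      T08_hasDerivAt β q (γ t) lam))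
  exact h.2.differentiableAt

/-- comparison of `FF` for two values of `lam`. -/
theorem T08_compare (β : ℂ → ℂ) (q : ℝ) (lam lam' p : ℂ) :
    ‖FF β q lam p‖ = Real.exp (((lam - lam') * p ^ 2).re) * ‖FF β q lam' p‖ := by
  unfold FF
  rw [norm_mul, norm_mul, ← mul_assoc, Complex.norm_exp, Complex.norm_exp, ← Real.exp_add]
  congr 2
  simp only [Complex.add_re, Complex.sub_re, sub_mul]
  ring

theorem JJ_differentiableOn {β : ℂ → ℂ} (hβ : IsLogB β) (q : ℝ) (hq : 0 < q) :
    DifferentiableOn ℂ (fun lam => JJ β q lam) {lam | 2 * q < lam.re} := by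
  intro lam0 h0
  have h0' : 2 * q < lam0.re := h0
  apply DifferentiableAt.differentiableWithinAt
  unfold JJ
  refine DifferentiableAt.sub ?_ (DifferentiableAt.const_mul ?_ I)
  · -- the horizontal half line
    have hi := integrableOn_FF_right hβ q hq ((lam0.re + 2 : ℝ) : ℂ) 1 0 one_pos
    have hi0 := integrableOn_FF_right hβ q hq lam0 1 0 one_pos
    simp only [Complex.ofReal_zero, zero_mul, add_zero] at hi hi0
    refine T08_param hβ q (fun x : ℝ => (x : ℂ)) (Ioi 1) measurableSet_Ioi
      Complex.continuous_ofReal.continuousOn ?_ lam0 1 one_pos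
      (fun x => ‖FF β q ((lam0.re + 2 : ℝ) : ℂ) (x : ℂ)‖) hi.norm ?_ hi0
    · intro t ht
      have : (1 : ℝ) < t := ht
      simp only [Complex.ofReal_re]; linarith
    · intro t ht lam hlam
      have ht' : (1 : ℝ) < t := ht
      rw [norm_mul, T08_compare β q lam ((lam0.re + 2 : ℝ) : ℂ), norm_pow, Complex.norm_real,
        Real.norm_of_nonneg (by linarith : (0 : ℝ) ≤ t), ← mul_assoc]
      have hre : lam.re ≤ lam0.re + 1 := by
        have h1 := Complex.abs_re_le_norm (lam - lam0)
        rw [Metric.mem_ball, Complex.dist_eq] at hlam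
        have := (abs_lt.1 (h1.trans_lt hlam)).2
        simp only [Complex.sub_re] at this
        linarith
      have he : ((lam - ((lam0.re + 2 : ℝ) : ℂ)) * (t : ℂ) ^ 2).re = (lam.re - (lam0.re + 2)) * t ^ 2 := by
        have : (t : ℂ) ^ 2 = ((t ^ 2 : ℝ) : ℂ) := by push_cast; rfl
        rw [this, Complex.re_mul_ofReal, Complex.sub_re, Complex.ofReal_re]
      rw [he]
      have hle : Real.exp ((lam.re - (lam0.re + 2)) * t ^ 2) ≤ Real.exp (-(t ^ 2)) := by
        apply Real.exp_le_exp.2
        nlinarith [sq_nonneg t]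
      have h2 : t ^ 2 * Real.exp (-(t ^ 2)) ≤ 1 := by
        have h3 := Real.add_one_le_exp (t ^ 2)
        rw [Real.exp_neg, ← div_eq_mul_inv, div_le_one (Real.exp_pos _)]
        linarith
      have h4 : t ^ 2 * Real.exp ((lam.re - (lam0.re + 2)) * t ^ 2) ≤ 1 :=
        (mul_le_mul_of_nonneg_left hle (sq_nonneg t)).trans h2
      calc _ ≤ 1 * ‖FF β q ((lam0.re + 2 : ℝ) : ℂ) (t : ℂ)‖ :=
            mul_le_mul_of_nonneg_right h4 (norm_nonneg _)
        _ = _ := one_mul _
  · -- the vertical half line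
    set r : ℝ := min 1 ((lam0.re - 2 * q) / 4) with hr
    have hr0 : 0 < r := lt_min one_pos (by linarith)
    have hr1 : r ≤ 1 := min_le_left _ _
    have hr2 : r ≤ (lam0.re - 2 * q) / 4 := min_le_right _ _
    set lam' : ℂ := ⟨lam0.re - 2 * r, lam0.im - 1⟩ with hlam'
    have hi := integrableOn_FF_up hβ q hq lam' 1 one_pos (by simp only [hlam']; linarith) 0
    have hi0 := integrableOn_FF_up hβ q hq lam0 1 one_pos (by linarith) 0
    simp only [Complex.ofReal_one] at hi hi0
    refine T08_param hβ q (fun y : ℝ => 1 + (y : ℂ) * I) (Ioi 0) measurableSet_Ioi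
      (by fun_prop) ?_ lam0 r hr0
      (fun y => (Real.exp 3 / r) * ‖FF β q lam' (1 + (y : ℂ) * I)‖) (hi.norm.const_mul _) ?_ hi0
    · intro t _
      simp
    · intro t ht lam hlam
      have ht' : (0 : ℝ) < t := ht
      rw [norm_mul, T08_compare β q lam lam', norm_pow, ← mul_assoc]
      have hn : ‖(1 : ℂ) + (t : ℂ) * I‖ ^ 2 = 1 + t ^ 2 := by
        rw [Complex.sq_norm, Complex.normSq_apply]
        simp
        ring
      have h1 := Complex.abs_re_le_norm (lam - lam0)
      have h2 := Complex.abs_im_le_norm (lam - lam0)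
      rw [Metric.mem_ball, Complex.dist_eq] at hlam
      have h1' := abs_lt.1 (h1.trans_lt hlam)
      have h2' := abs_lt.1 (h2.trans_lt hlam)
      simp only [Complex.sub_re, Complex.sub_im] at h1' h2'
      have he : ((lam - lam') * ((1 : ℂ) + (t : ℂ) * I) ^ 2).re =
          (lam.re - (lam0.re - 2 * r)) * (1 - t ^ 2) - 2 * (lam.im - (lam0.im - 1)) * t := by
        have h3 : ((1 : ℂ) + (t : ℂ) * I) ^ 2 = ⟨1 - t ^ 2, 2 * t⟩ := by
          apply Complex.ext <;> simp [pow_two] ; ring
        rw [h3, hlam']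
        simp only [Complex.mul_re, Complex.sub_re, Complex.sub_im]
        ring
      rw [hn, he]
      have hle : (lam.re - (lam0.re - 2 * r)) * (1 - t ^ 2) - 2 * (lam.im - (lam0.im - 1)) * t ≤
          3 - r * t ^ 2 := by
        have ha : r ≤ lam.re - (lam0.re - 2 * r) := by linarith [h1'.1]
        have hb : lam.re - (lam0.re - 2 * r) ≤ 3 := by linarith [h1'.2]
        have hc : 0 ≤ lam.im - (lam0.im - 1) := by linarith [h2'.1]
        nlinarith [mul_nonneg hc ht'.le, mul_nonneg (sub_nonneg.2 ha) (sq_nonneg t)]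
      have h5 : (1 + t ^ 2) * Real.exp (3 - r * t ^ 2) ≤ Real.exp 3 / r := by
        rw [Real.exp_sub, ← mul_div_assoc, div_le_div_iff₀ (Real.exp_pos _) hr0]
        have h6 := Real.add_one_le_exp (r * t ^ 2)
        have h7 : (1 + t ^ 2) * r ≤ Real.exp (r * t ^ 2) := by nlinarith
        calc (1 + t ^ 2) * Real.exp 3 * r = Real.exp 3 * ((1 + t ^ 2) * r) := by ring
          _ ≤ Real.exp 3 * Real.exp (r * t ^ 2) :=
            mul_le_mul_of_nonneg_left h7 (Real.exp_pos _).le
      refine mul_le_mul_of_nonneg_right ?_ (norm_nonneg _)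
      refine le_trans ?_ h5
      exact mul_le_mul_of_nonneg_left (Real.exp_le_exp.2 hle) (by positivity)

theorem Psi_differentiableOn {β : ℂ → ℂ} (hβ : IsLogB β) (q : ℝ) (hq : 0 < q) :
    DifferentiableOn ℂ (fun lam => Psi β q lam) {lam | 2 * q < lam.re} := by
  intro lam h
  have h' : 2 * q < lam.re := h
  have hopen : IsOpen {lam : ℂ | 2 * q < lam.re} := isOpen_lt continuous_const Complex.continuous_re
  have hJ : DifferentiableAt ℂ (fun lam => JJ β q lam) lam :=
    (JJ_differentiableOn hβ q hq).differentiableAt (hopen.mem_nhds h)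
  apply DifferentiableAt.differentiableWithinAt
  unfold Psi
  have hslit : lam ∈ slitPlane := Or.inl (by linarith)
  refine DifferentiableAt.mul (DifferentiableAt.mul (hJ.const_mul _) ?_) ?_
  · refine DifferentiableAt.cexp ?_
    fun_prop
  · exact differentiableAt_id.cpow_const hslit

end Pool.Agent.H140R2.FR
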