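import Pool.Agent.H140R2.FR.T07Ends

/-!
T09a.  `Psi` is `(lam/π)^{1/2} ∫_{t > 1 - Re(lam)/q} KK` up to an exponentially small error.

Sketch.  `JJ = L - U = (L - G(1+iy₀)) + (G(1+iy₀) - U)` with `y₀ = Im lam/q ≥ 0` (T07), so
`JJ = ∫_{x>1} FF(x+iy₀) dx - I ∫_{y>y₀} FF(1+iy) dy`.  With `p₀ = lam/q`, `x + iy₀ = p₀ + t`:
`lam (p₀+t)² - (2/3) q (p₀+t)³ = lam³/(3q²) - lam t² - (2/3) q t³`, and
`(p₀+t)^{1-q/2} = p₀^{1-q/2} (1+t/p₀)^{1-q/2}` (arguments: `arg p₀ ∈ [0,π/3]`, `arg(p₀+t) ∈ [0,π/2)`).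
Vertical part: for `y ≥ y₀`, `exponent_eq` with `x = 1` gives exponent
`≤ Re lam + ... - (Re lam - 2q) y² ` and with `lam = ‖lam‖ e^{iθ}`:
`-cosθ sin²θ/q² - cos3θ/(3q²) = -cos³θ/(3q²) ≤ -1/(24q²)` times `‖lam‖³`, up to `O(‖lam‖²)`.
-/

set_option autoImplicit false

open Complex MeasureTheory Set Filter Topology

namespace Pool.Agent.H140R2.FR

theorem abs_arg_lt_of_re_pos {z : ℂ} (hz : 0 < z.re) : |arg z| < Real.pi / 2 :=
  Complex.abs_arg_lt_pi_div_two_iff.2 (Or.inl hz)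

/-- quotient of powers in the right half-plane. -/
theorem cpow_div_rhp {p p₀ : ℂ} (hp : 0 < p.re) (hp₀ : 0 < p₀.re) (s : ℂ) :
    p ^ s = p₀ ^ s * (p / p₀) ^ s := by
  have h1 : p ≠ 0 := by rintro rfl; simp at hp
  have h2 : p₀ ≠ 0 := by rintro rfl; simp at hp₀
  have a1 := abs_lt.1 (abs_arg_lt_of_re_pos hp)
  have a2 := abs_lt.1 (abs_arg_lt_of_re_pos hp₀)
  have hlog : Complex.log (p / p₀) = Complex.log p - Complex.log p₀ := by
    have h3 : cexp (Complex.log p - Complex.log p₀) = p / p₀ := by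
      rw [Complex.exp_sub, Complex.exp_log h1, Complex.exp_log h2]
    rw [← h3, Complex.log_exp]
    · rw [Complex.sub_im, Complex.log_im, Complex.log_im]
      linarith [a1.1, a2.2, Real.pi_pos]
    · rw [Complex.sub_im, Complex.log_im, Complex.log_im]
      linarith [a1.2, a2.1, Real.pi_pos]
  rw [Complex.cpow_def_of_ne_zero h1, Complex.cpow_def_of_ne_zero h2,
    Complex.cpow_def_of_ne_zero (div_ne_zero h1 h2), hlog, ← Complex.exp_add]
  congr 1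
  ring

/-- the saddle point form of `FF`. -/
theorem FF_eq_KK (β : ℂ → ℂ) (q : ℝ) (hq : 0 < q) (lam : ℂ) (hlam : 0 < lam.re) (t : ℝ)
    (ht : 0 < lam.re / q + t) :
    FF β q lam (lam / (q : ℂ) + (t : ℂ)) =
      cexp (lam ^ 3 / (3 * (q : ℂ) ^ 2)) * (lam / (q : ℂ)) ^ ((1 : ℂ) - (q : ℂ) / 2) *
        KK β q lam t := by
  have hq' : (q : ℂ) ≠ 0 := by exact_mod_cast hq.ne'
  have hl : lam ≠ 0 := by rintro rfl; simp at hlam
  have hp₀ : 0 < (lam / (q : ℂ)).re := by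
    rw [Complex.div_ofReal_re]; positivity
  have hp : 0 < (lam / (q : ℂ) + (t : ℂ)).re := by
    rw [Complex.add_re, Complex.div_ofReal_re, Complex.ofReal_re]; exact ht
  have hdiv : (lam / (q : ℂ) + (t : ℂ)) / (lam / (q : ℂ)) = 1 + (q : ℂ) * (t : ℂ) / lam := by
    field_simp
  unfold FF KK
  rw [cpow_div_rhp hp hp₀, hdiv]
  have hexp : lam * (lam / (q : ℂ) + (t : ℂ)) ^ 2 - 2 / 3 * (q : ℂ) * (lam / (q : ℂ) + (t : ℂ)) ^ 3
      + (q : ℂ) * β (lam / (q : ℂ) + (t : ℂ)) =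
      lam ^ 3 / (3 * (q : ℂ) ^ 2) + (-lam * (t : ℂ) ^ 2 - (2 / 3) * (q : ℂ) * (t : ℂ) ^ 3 +
        (q : ℂ) * β (lam / (q : ℂ) + (t : ℂ))) := by
    field_simp
    ring
  rw [hexp, Complex.exp_add (lam ^ 3 / (3 * (q : ℂ) ^ 2))]
  ring

theorem integral_shift (f : ℝ → ℂ) (a c : ℝ) :
    ∫ x in Ioi a, f x = ∫ t in Ioi (a - c), f (t + c) := by
  have h := (measurePreserving_add_right (volume : Measure ℝ) c).setIntegral_preimage_emb
    (MeasurableEquiv.addRight c).measurableEmbedding f (Ioi a)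
  rw [← h]
  congr 2
  ext x
  simp [sub_lt_iff_lt_add]

/-- the vertical part. -/
theorem vertical_bound {β : ℂ → ℂ} (hβ : IsLogB β) (q : ℝ) (hq : 0 < q) (lam : ℂ)
    (hre : 2 * q + 1 ≤ lam.re) (him : 0 ≤ lam.im) :
    ‖∫ y in Ioi (lam.im / q), FF β q lam (1 + (y : ℂ) * I)‖ ≤
      Real.exp (lam.re - lam.re * lam.im ^ 2 / q ^ 2) * (3 * (1 + lam.im / q)) := by
  set y₀ : ℝ := lam.im / q with hy₀
  have hy₀' : 0 ≤ y₀ := by positivity
  rw [integral_shift _ y₀ y₀, sub_self]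
  have hbound : ∀ s ∈ Ioi (0 : ℝ), ‖FF β q lam (1 + ((s + y₀ : ℝ) : ℂ) * I)‖ ≤
      Real.exp (lam.re - lam.re * lam.im ^ 2 / q ^ 2) *
        ((1 + y₀) * Real.exp (-s ^ 2) + s * Real.exp (-s ^ 2)) := by
    intro s hs
    have hs' : (0 : ℝ) < s := hs
    have hre1 : (1 + ((s + y₀ : ℝ) : ℂ) * I).re = 1 := by simp
    have h1 := norm_FF_le hβ q hq lam (1 + ((s + y₀ : ℝ) : ℂ) * I) (by rw [hre1]; norm_num)
    have h2 := exponent_eq q lam 1 (s + y₀)
    rw [Complex.ofReal_one] at h2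
    rw [h2, hre1, Real.one_rpow, mul_one] at h1
    refine h1.trans ?_
    have h3 : ‖1 + ((s + y₀ : ℝ) : ℂ) * I‖ ≤ (1 + y₀) + s := by
      refine (norm_add_le _ _).trans ?_
      rw [norm_one, norm_mul, Complex.norm_I, mul_one, Complex.norm_real, Real.norm_eq_abs,
        abs_of_nonneg (by positivity)]
      linarith
    have h4 : lam.re * 1 ^ 2 - 2 / 3 * q * 1 ^ 3 - (lam.re - 2 * q * 1) * (s + y₀) ^ 2
        - 2 * lam.im * 1 * (s + y₀) ≤ (lam.re - lam.re * lam.im ^ 2 / q ^ 2) + -s ^ 2 := by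
      have e1 : lam.re * lam.im ^ 2 / q ^ 2 = lam.re * y₀ ^ 2 := by
        rw [hy₀]; field_simp
      have e2 : lam.im = q * y₀ := by rw [hy₀]; field_simp
      rw [e1, e2]
      have hA : 1 ≤ lam.re - 2 * q := by linarith
      nlinarith [mul_nonneg (mul_nonneg hs'.le hy₀') (sub_nonneg.2 hA), mul_nonneg hs'.le hy₀',
        mul_nonneg hq.le (mul_nonneg hs'.le hy₀'), mul_nonneg (sq_nonneg s) (sub_nonneg.2 hA)]
    calc Real.exp _ * ‖1 + ((s + y₀ : ℝ) : ℂ) * I‖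
        ≤ Real.exp ((lam.re - lam.re * lam.im ^ 2 / q ^ 2) + -s ^ 2) * ((1 + y₀) + s) :=
          mul_le_mul (Real.exp_le_exp.2 h4) h3 (norm_nonneg _) (Real.exp_pos _).le
      _ = _ := by rw [Real.exp_add]; ring
  have hi1 : IntegrableOn (fun s : ℝ => Real.exp (-s ^ 2)) (Ioi 0) := by
    have := (integrable_exp_neg_mul_sq (b := 1) one_pos).integrableOn (s := Ioi (0 : ℝ))
    simpa using this
  have hi2 : IntegrableOn (fun s : ℝ => s * Real.exp (-s ^ 2)) (Ioi 0) := by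
    have := (integrable_mul_exp_neg_mul_sq (b := 1) one_pos).integrableOn (s := Ioi (0 : ℝ))
    simpa using this
  have hv1 : ∫ s in Ioi (0 : ℝ), Real.exp (-s ^ 2) = Real.sqrt Real.pi / 2 := by
    have := integral_gaussian_Ioi 1
    simpa using this
  have hv2 : ∫ s in Ioi (0 : ℝ), s * Real.exp (-s ^ 2) = 1 / 2 := by
    have h := integral_mul_cexp_neg_mul_sq (b := 1) (by simp)
    have h' : ((∫ s in Ioi (0 : ℝ), s * Real.exp (-s ^ 2) : ℝ) : ℂ) = ((1 / 2 : ℝ) : ℂ) := by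
      have h2 : (∫ s in Ioi (0 : ℝ), ((s * Real.exp (-s ^ 2) : ℝ) : ℂ)) =
          ((∫ s in Ioi (0 : ℝ), s * Real.exp (-s ^ 2) : ℝ) : ℂ) := integral_ofReal
      rw [← h2]
      simp only [Complex.ofReal_mul, Complex.ofReal_exp, Complex.ofReal_neg, Complex.ofReal_pow]
      simpa using h
    exact_mod_cast h'
  calc ‖∫ s in Ioi (0 : ℝ), FF β q lam (1 + ((s + y₀ : ℝ) : ℂ) * I)‖
      ≤ ∫ s in Ioi (0 : ℝ), Real.exp (lam.re - lam.re * lam.im ^ 2 / q ^ 2) *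
        ((1 + y₀) * Real.exp (-s ^ 2) + s * Real.exp (-s ^ 2)) := by
        refine norm_integral_le_of_norm_le ?_ ?_
        · exact ((hi1.const_mul (1 + y₀)).add hi2).const_mul _
        · exact (ae_restrict_iff' measurableSet_Ioi).2 (Eventually.of_forall hbound)
    _ = Real.exp (lam.re - lam.re * lam.im ^ 2 / q ^ 2) *
        ((1 + y₀) * (Real.sqrt Real.pi / 2) + 1 / 2) := by
        rw [integral_const_mul, integral_add (hi1.const_mul (1 + y₀)) hi2, integral_const_mul,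
          hv1, hv2]
    _ ≤ _ := by
        refine mul_le_mul_of_nonneg_left ?_ (Real.exp_pos _).le
        have : Real.sqrt Real.pi ≤ 2 := by
          rw [Real.sqrt_le_left (by norm_num)]
          linarith [Real.pi_lt_four]
        nlinarith [Real.sqrt_nonneg Real.pi]

/-- everything polynomial or simply exponential is absorbed. -/
theorem absorb (q : ℝ) (hq : 0 < q) : ∃ R : ℝ, 1 ≤ R ∧ ∀ x : ℝ, R ≤ x →
    x ^ q * (1 + x / q) * Real.exp (x - x ^ 3 / (24 * q ^ 2)) ≤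
      Real.exp (-(1 / (48 * q ^ 2)) * x ^ 3) := by
  have h1 := tendsto_rpow_mul_exp_neg_mul_atTop_nhds_zero q 1 one_pos
  have h2 := tendsto_rpow_mul_exp_neg_mul_atTop_nhds_zero (q + 1) 1 one_pos
  have h3 : Tendsto (fun x : ℝ => x ^ q * Real.exp (-1 * x) +
      (1 / q) * (x ^ (q + 1) * Real.exp (-1 * x))) atTop (𝓝 (0 + (1 / q) * 0)) :=
    h1.add (h2.const_mul _)
  rw [mul_zero, add_zero] at h3
  have h4 : ∀ᶠ x : ℝ in atTop, x ^ q * Real.exp (-1 * x) +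
      (1 / q) * (x ^ (q + 1) * Real.exp (-1 * x)) < 1 := h3.eventually (gt_mem_nhds one_pos)
  obtain ⟨R₁, hR₁⟩ := eventually_atTop.1 h4
  refine ⟨max (max R₁ 1) (96 * q ^ 2 + 1), (le_max_right _ _).trans (le_max_left _ _), ?_⟩
  intro x hx
  have hx1 : R₁ ≤ x := ((le_max_left _ _).trans (le_max_left _ _)).trans hx
  have hx2 : (1 : ℝ) ≤ x := ((le_max_right _ _).trans (le_max_left _ _)).trans hx
  have hx3 : 96 * q ^ 2 + 1 ≤ x := (le_max_right _ _).trans hx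
  have hx0 : (0 : ℝ) < x := by linarith
  have h5 := hR₁ x hx1
  have h6 : x ^ (q + 1) = x ^ q * x := Real.rpow_add_one hx0.ne' q
  rw [h6] at h5
  have h7 : x ^ q * (1 + x / q) * Real.exp (-1 * x) ≤ 1 := by
    have : x ^ q * (1 + x / q) * Real.exp (-1 * x) = x ^ q * Real.exp (-1 * x) +
        (1 / q) * (x ^ q * x * Real.exp (-1 * x)) := by ring
    rw [this]; exact h5.le
  have h8 : x - x ^ 3 / (24 * q ^ 2) ≤ -1 * x + -(1 / (48 * q ^ 2)) * x ^ 3 := by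
    have : x ^ 3 / (24 * q ^ 2) = 2 * (1 / (48 * q ^ 2) * x ^ 3) := by
      field_simp; norm_num
    rw [this]
    have h9 : 2 * x ≤ 1 / (48 * q ^ 2) * x ^ 3 := by
      rw [one_div, inv_mul_eq_div, le_div_iff₀ (by positivity)]
      have : 96 * q ^ 2 ≤ x ^ 2 := by nlinarith [sq_nonneg q]
      nlinarith
    linarith
  calc x ^ q * (1 + x / q) * Real.exp (x - x ^ 3 / (24 * q ^ 2))
      ≤ x ^ q * (1 + x / q) * Real.exp (-1 * x + -(1 / (48 * q ^ 2)) * x ^ 3) := by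
        refine mul_le_mul_of_nonneg_left (Real.exp_le_exp.2 h8) (by positivity)
    _ = (x ^ q * (1 + x / q) * Real.exp (-1 * x)) * Real.exp (-(1 / (48 * q ^ 2)) * x ^ 3) := by
        rw [Real.exp_add]; ring
    _ ≤ 1 * Real.exp (-(1 / (48 * q ^ 2)) * x ^ 3) :=
        mul_le_mul_of_nonneg_right h7 (Real.exp_pos _).le
    _ = _ := one_mul _

theorem Psi_eq_KK {β : ℂ → ℂ} (hβ : IsLogB β) (q : ℝ) (hq : 0 < q) :
    ∃ C c R : ℝ, 0 < c ∧ 0 < R ∧ ∀ lam : ℂ, Sec lam → R ≤ ‖lam‖ →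
      ‖Psi β q lam - (lam / (Real.pi : ℂ)) ^ ((1 : ℂ) / 2) *
          ∫ t in Ioi (1 - lam.re / q), KK β q lam t‖ ≤ C * Real.exp (-c * ‖lam‖ ^ 3) := by
  obtain ⟨R, hR1, hR⟩ := absorb q hq
  refine ⟨q ^ (1 - q / 2) * Real.pi ^ (-(1 / 2 : ℝ)) * 3, 1 / (48 * q ^ 2),
    max R (4 * q + 2), by positivity, lt_of_lt_of_le (by linarith) (le_max_left _ _), ?_⟩
  intro lam hsec hlamR
  have hRx : R ≤ ‖lam‖ := (le_max_left _ _).trans hlamR
  have hx1 : (1 : ℝ) ≤ ‖lam‖ := hR1.trans hRx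
  have hq2 : 4 * q + 2 ≤ ‖lam‖ := (le_max_right _ _).trans hlamR
  obtain ⟨him, himre⟩ := hsec
  have hre0 : 0 ≤ lam.re := by
    by_contra h
    push Not at h
    have := Real.sqrt_pos.2 (show (0 : ℝ) < 3 by norm_num)
    nlinarith
  have hnorm : ‖lam‖ ≤ 2 * lam.re := by
    have h1 : ‖lam‖ ^ 2 = lam.re ^ 2 + lam.im ^ 2 := by
      rw [Complex.sq_norm, Complex.normSq_apply]; ring
    have h2 : lam.im ^ 2 ≤ 3 * lam.re ^ 2 := by
      have h3 : lam.im ^ 2 ≤ (Real.sqrt 3 * lam.re) ^ 2 := pow_le_pow_left₀ him himre 2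
      rwa [mul_pow, Real.sq_sqrt (by norm_num : (0 : ℝ) ≤ 3)] at h3
    nlinarith [norm_nonneg lam]
  have hre : 2 * q + 1 ≤ lam.re := by linarith
  have hre' : 0 < lam.re := by linarith
  have hl : lam ≠ 0 := by rintro rfl; simp at hre'
  have hq' : (q : ℂ) ≠ 0 := by exact_mod_cast hq.ne'
  obtain ⟨G, L, U, hE⟩ := exists_ends hβ q hq lam hre'
  set y₀ : ℝ := lam.im / q with hy₀
  have hJJ : JJ β q lam = (∫ x in Ioi (1 : ℝ), FF β q lam ((x : ℂ) + (y₀ : ℂ) * I)) -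
      I * ∫ y in Ioi y₀, FF β q lam (1 + (y : ℂ) * I) := by
    have h1 := JJ_eq_ends hβ hq hE (by linarith)
    have h2 := Ends.integral_right hβ hq hE 1 y₀ one_pos
    have h3 := Ends.integral_up hβ hq hE 1 y₀ one_pos (by linarith)
    rw [Complex.ofReal_one] at h3 h2
    rw [h1, h2, h3]
    ring
  have hhor : (∫ x in Ioi (1 : ℝ), FF β q lam ((x : ℂ) + (y₀ : ℂ) * I)) =
      cexp (lam ^ 3 / (3 * (q : ℂ) ^ 2)) * (lam / (q : ℂ)) ^ ((1 : ℂ) - (q : ℂ) / 2) *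
        ∫ t in Ioi (1 - lam.re / q), KK β q lam t := by
    rw [integral_shift _ 1 (lam.re / q), ← integral_const_mul]
    refine setIntegral_congr_fun measurableSet_Ioi ?_
    intro t ht
    have ht' : 1 - lam.re / q < t := ht
    show FF β q lam (((t + lam.re / q : ℝ) : ℂ) + (y₀ : ℂ) * I) =
      cexp (lam ^ 3 / (3 * (q : ℂ) ^ 2)) * (lam / (q : ℂ)) ^ ((1 : ℂ) - (q : ℂ) / 2) *
        KK β q lam t
    rw [← FF_eq_KK β q hq lam hre' t (by linarith)]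
    congr 1
    apply Complex.ext
    · simp [hy₀, add_comm]
    · simp [hy₀]
  set K : ℂ := ((q ^ (1 - q / 2) * Real.pi ^ (-(1 / 2 : ℝ)) : ℝ) : ℂ) with hK
  set E : ℂ := cexp (-(lam ^ 3) / (3 * (q : ℂ) ^ 2)) with hEE
  set P : ℂ := lam ^ (((q : ℂ) - 1) / 2) with hP
  have hE1 : E * cexp (lam ^ 3 / (3 * (q : ℂ) ^ 2)) = 1 := by
    rw [hEE, ← Complex.exp_add]
    have : -(lam ^ 3) / (3 * (q : ℂ) ^ 2) + lam ^ 3 / (3 * (q : ℂ) ^ 2) = 0 := by ring
    rw [this, Complex.exp_zero]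
  have hlogdiv : ∀ r : ℝ, 0 < r → Complex.log (lam / (r : ℂ)) = Complex.log lam - (Real.log r : ℂ) := by
    intro r hr
    have h1 : lam / (r : ℂ) = ((r⁻¹ : ℝ) : ℂ) * lam := by
      rw [Complex.ofReal_inv]; field_simp
    rw [h1, Complex.log_ofReal_mul (inv_pos.2 hr) hl, Real.log_inv, Complex.ofReal_neg]
    ring
  have hKP : K * (lam / (q : ℂ)) ^ ((1 : ℂ) - (q : ℂ) / 2) * P = (lam / (Real.pi : ℂ)) ^ ((1 : ℂ) / 2) := by
    have hpi : (Real.pi : ℂ) ≠ 0 := by exact_mod_cast Real.pi_ne_zero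
    rw [hK, hP, Complex.ofReal_mul, Complex.ofReal_cpow hq.le, Complex.ofReal_cpow Real.pi_pos.le,
      Complex.cpow_def_of_ne_zero hq', Complex.cpow_def_of_ne_zero hpi,
      Complex.cpow_def_of_ne_zero (div_ne_zero hl hq'), Complex.cpow_def_of_ne_zero hl,
      Complex.cpow_def_of_ne_zero (div_ne_zero hl hpi), hlogdiv q hq, hlogdiv Real.pi Real.pi_pos,
      ← Complex.ofReal_log hq.le, ← Complex.ofReal_log Real.pi_pos.le,
      ← Complex.exp_add, ← Complex.exp_add, ← Complex.exp_add]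
    congr 1
    push_cast
    ring
  have hmain : Psi β q lam - (lam / (Real.pi : ℂ)) ^ ((1 : ℂ) / 2) *
      (∫ t in Ioi (1 - lam.re / q), KK β q lam t) =
      -(K * E * P * I * ∫ y in Ioi y₀, FF β q lam (1 + (y : ℂ) * I)) := by
    unfold Psi
    rw [hJJ, hhor, ← hKP]
    have : K * (cexp (lam ^ 3 / (3 * (q : ℂ) ^ 2)) * (lam / (q : ℂ)) ^ ((1 : ℂ) - (q : ℂ) / 2) *
        (∫ t in Ioi (1 - lam.re / q), KK β q lam t) -
        I * ∫ y in Ioi y₀, FF β q lam (1 + (y : ℂ) * I)) * E * P -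
        K * (lam / (q : ℂ)) ^ ((1 : ℂ) - (q : ℂ) / 2) * P *
          (∫ t in Ioi (1 - lam.re / q), KK β q lam t) =
        (E * cexp (lam ^ 3 / (3 * (q : ℂ) ^ 2)) - 1) * (K * (lam / (q : ℂ)) ^ ((1 : ℂ) - (q : ℂ) / 2) *
          P * (∫ t in Ioi (1 - lam.re / q), KK β q lam t)) -
        K * E * P * I * ∫ y in Ioi y₀, FF β q lam (1 + (y : ℂ) * I) := by ring
    rw [this, hE1, sub_self, zero_mul, zero_sub]
  rw [hmain, norm_neg, norm_mul, norm_mul, norm_mul, norm_mul, Complex.norm_I, mul_one]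
  have hnK : ‖K‖ = q ^ (1 - q / 2) * Real.pi ^ (-(1 / 2 : ℝ)) := by
    rw [hK, Complex.norm_real, Real.norm_eq_abs, abs_of_nonneg (by positivity)]
  have hnE : ‖E‖ = Real.exp (-(lam.re ^ 3 - 3 * lam.re * lam.im ^ 2) / (3 * q ^ 2)) := by
    rw [hEE, Complex.norm_exp]
    congr 1
    have h1 : (-(lam ^ 3) / (3 * (q : ℂ) ^ 2)) = (-(lam ^ 3)) / ((3 * q ^ 2 : ℝ) : ℂ) := by
      push_cast; ring
    rw [h1, Complex.div_ofReal_re, Complex.neg_re]
    congr 2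
    have : lam ^ 3 = lam * lam * lam := by ring
    rw [this, Complex.mul_re, Complex.mul_re, Complex.mul_im]
    ring
  have hnP : ‖P‖ ≤ ‖lam‖ ^ q := by
    have h1 : ((q : ℂ) - 1) / 2 = (((q - 1) / 2 : ℝ) : ℂ) := by push_cast; ring
    rw [hP, h1, Complex.norm_cpow_real]
    exact Real.rpow_le_rpow_of_exponent_le hx1 (by linarith)
  have hV := vertical_bound hβ q hq lam hre him
  rw [← hy₀] at hV
  have hkey : ‖E‖ * ‖P‖ * ‖∫ y in Ioi y₀, FF β q lam (1 + (y : ℂ) * I)‖ ≤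
      3 * Real.exp (-(1 / (48 * q ^ 2)) * ‖lam‖ ^ 3) := by
    have hy₀le : y₀ ≤ ‖lam‖ / q := by
      rw [hy₀]
      exact div_le_div_of_nonneg_right ((le_abs_self _).trans (Complex.abs_im_le_norm lam)) hq.le
    have hy₀' : 0 ≤ y₀ := by positivity
    calc ‖E‖ * ‖P‖ * ‖∫ y in Ioi y₀, FF β q lam (1 + (y : ℂ) * I)‖
        ≤ Real.exp (-(lam.re ^ 3 - 3 * lam.re * lam.im ^ 2) / (3 * q ^ 2)) * ‖lam‖ ^ q *
          (Real.exp (lam.re - lam.re * lam.im ^ 2 / q ^ 2) * (3 * (1 + ‖lam‖ / q))) := by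
          rw [hnE]
          refine mul_le_mul (mul_le_mul_of_nonneg_left hnP (Real.exp_pos _).le) (hV.trans ?_)
            (norm_nonneg _) (by positivity)
          refine mul_le_mul_of_nonneg_left ?_ (Real.exp_pos _).le
          linarith
      _ = 3 * (‖lam‖ ^ q * (1 + ‖lam‖ / q) * Real.exp (lam.re - lam.re ^ 3 / (3 * q ^ 2))) := by
          have : lam.re - lam.re ^ 3 / (3 * q ^ 2) =
              -(lam.re ^ 3 - 3 * lam.re * lam.im ^ 2) / (3 * q ^ 2) +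
                (lam.re - lam.re * lam.im ^ 2 / q ^ 2) := by
            field_simp
            ring
          rw [this, Real.exp_add]
          ring
      _ ≤ 3 * (‖lam‖ ^ q * (1 + ‖lam‖ / q) * Real.exp (‖lam‖ - ‖lam‖ ^ 3 / (24 * q ^ 2))) := by
          refine mul_le_mul_of_nonneg_left ?_ (by norm_num)
          refine mul_le_mul_of_nonneg_left (Real.exp_le_exp.2 ?_) (by positivity)
          have h1 : lam.re ≤ ‖lam‖ := (le_abs_self _).trans (Complex.abs_re_le_norm lam)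
          have h2 : ‖lam‖ ^ 3 ≤ (2 * lam.re) ^ 3 := pow_le_pow_left₀ (norm_nonneg _) hnorm 3
          have h3 : ‖lam‖ ^ 3 / (24 * q ^ 2) ≤ lam.re ^ 3 / (3 * q ^ 2) := by
            rw [div_le_div_iff₀ (by positivity) (by positivity)]
            nlinarith [sq_nonneg q, mul_le_mul_of_nonneg_right h2 (sq_nonneg q)]
          linarith
      _ ≤ 3 * Real.exp (-(1 / (48 * q ^ 2)) * ‖lam‖ ^ 3) := by
          refine mul_le_mul_of_nonneg_left (hR _ hRx) (by norm_num)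
  calc ‖K‖ * ‖E‖ * ‖P‖ * ‖∫ y in Ioi y₀, FF β q lam (1 + (y : ℂ) * I)‖
      = ‖K‖ * (‖E‖ * ‖P‖ * ‖∫ y in Ioi y₀, FF β q lam (1 + (y : ℂ) * I)‖) := by ring
    _ ≤ ‖K‖ * (3 * Real.exp (-(1 / (48 * q ^ 2)) * ‖lam‖ ^ 3)) :=
        mul_le_mul_of_nonneg_left hkey (norm_nonneg _)
    _ = _ := by rw [hnK]; ring

end Pool.Agent.H140R2.FR
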