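import Pool.Agent.H140R2.FR.T07Ends
import Pool.Agent.H140R2.FR.T03Zeros

/-!
T10a.  The part of the contour to the left (in the variable `η = p²`).

Sketch.  `lam = Λ > 0` real.  `f(x) = G(√(x+iε))` (principal root) has the derivative
`FF β q Λ p/(2p)`, `p = √(x+iε)`, of norm `≤ C e^{(Λ-1)x}` (by `norm_FF_le`; `2 Re p Im p = ε`,
`(Im p)² ≤ -x + ε`), so `‖f(x₁) - f(x)‖ ≤ C e^{Λx₁}` for all `x < x₁`.  The limit of `f` at `-∞` is `U`: join
`√(x+iε)` to the line `Re p = a = Λ/(4q)` by a horizontal segment; by `norm_FF_le` and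
`exponent_eq` the integrand there is exponentially small.
-/

set_option autoImplicit false

open Complex MeasureTheory Set Filter Topology

namespace Pool.Agent.H140R2.FR

/-- facts on the principal square root in the upper half-plane. -/
theorem sqrt_facts (z : ℂ) (hz : 0 < z.im) :
    (z ^ ((1 : ℂ) / 2)) ^ 2 = z ∧ 0 < (z ^ ((1 : ℂ) / 2)).re ∧
      HasDerivAt (fun w : ℂ => w ^ ((1 : ℂ) / 2)) (1 / (2 * z ^ ((1 : ℂ) / 2))) z := by
  have hz0 : z ≠ 0 := by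
    rintro rfl
    simp at hz
  have hsq : (z ^ ((1 : ℂ) / 2)) ^ 2 = z := by
    rw [← Complex.cpow_nat_mul]
    norm_num
  have hre : 0 < (z ^ ((1 : ℂ) / 2)).re := by
    rw [Complex.cpow_def_of_ne_zero hz0, Complex.exp_re]
    have him : (Complex.log z * ((1 : ℂ) / 2)).im = Complex.arg z / 2 := by
      simp [Complex.mul_im, Complex.log_im]
      ring
    rw [him]
    have h1 : 0 ≤ Complex.arg z := Complex.arg_nonneg_iff.2 hz.le
    have h2 : Complex.arg z < Real.pi := by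
      rcases lt_or_eq_of_le (Complex.arg_le_pi z) with h | h
      · exact h
      · rw [Complex.arg_eq_pi_iff] at h
        linarith [h.2]
    have h3 : 0 < Real.cos (Complex.arg z / 2) :=
      Real.cos_pos_of_mem_Ioo ⟨by linarith [Real.pi_pos], by linarith⟩
    positivity
  refine ⟨hsq, hre, ?_⟩
  have hsl : z ∈ Complex.slitPlane := by
    rw [Complex.mem_slitPlane_iff]
    exact Or.inr hz.ne'
  have hp0 : z ^ ((1 : ℂ) / 2) ≠ 0 := by
    intro h
    rw [h] at hre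
    simp at hre
  have hd := (hasDerivAt_id z).cpow_const (c := (1 : ℂ) / 2) hsl
  simp only [id] at hd
  convert hd using 1
  have h4 : z ^ ((1 : ℂ) / 2 - 1) = z ^ ((1 : ℂ) / 2) / z := by
    rw [Complex.cpow_sub _ _ hz0, Complex.cpow_one]
  rw [h4]
  conv_rhs => rw [← hsq]
  field_simp
  rw [hsq]

theorem rpow_neg_le_exp (u q : ℝ) (hu : 0 < u) (hq : 0 < q) :
    u ^ (-(q / 2)) ≤ Real.exp (q / 2 * (1 / u)) := by
  rw [Real.rpow_def_of_pos hu]
  apply Real.exp_le_exp.2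
  have h1 : Real.log (1 / u) ≤ 1 / u - 1 := Real.log_le_sub_one_of_pos (by positivity)
  rw [Real.log_div one_ne_zero hu.ne', Real.log_one, zero_sub] at h1
  have h2 : -Real.log u ≤ 1 / u := by linarith
  have h3 : Real.log u * -(q / 2) = q / 2 * (-Real.log u) := by ring
  rw [h3]
  exact mul_le_mul_of_nonneg_left h2 (by positivity)

theorem left_deriv_bound {β : ℂ → ℂ} (hβ : IsLogB β) (q : ℝ) (hq : 0 < q) (ε : ℝ) (hε : 0 < ε)
    (Λ x : ℝ) (hx : x ≤ 0) (p : ℂ) (hp : 0 < p.re) (hp2 : p ^ 2 = (x : ℂ) + (ε : ℂ) * I) :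
    ‖FF β q (Λ : ℂ) p * (1 / (2 * p))‖ ≤
      (1 / 2) * Real.exp (ε + (q * (ε + 1 / ε)) ^ 2 / 4) * Real.exp ((Λ - 1) * x) := by
  obtain ⟨u, v, rfl⟩ : ∃ u v : ℝ, p = (u : ℂ) + (v : ℂ) * I := ⟨p.re, p.im, (Complex.re_add_im p).symm⟩
  have hu : 0 < u := by simpa using hp
  have hre : u ^ 2 - v ^ 2 = x := by
    have := congrArg Complex.re hp2
    simp [pow_two] at this
    linarith
  have him : 2 * u * v = ε := by
    have := congrArg Complex.im hp2
    simp [pow_two] at this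
    linarith
  have hv : 0 < v := by
    by_contra h
    have h' : v ≤ 0 := not_lt.1 h
    nlinarith
  have huv : u ≤ v := by
    by_contra h
    have h' : v < u := not_le.1 h
    nlinarith
  have hv2 : v ^ 2 ≤ -x + ε := by nlinarith
  have h1 := norm_FF_le hβ q hq (Λ : ℂ) ((u : ℂ) + (v : ℂ) * I) hp
  have hA : ((Λ : ℂ) * ((u : ℂ) + (v : ℂ) * I) ^ 2).re = Λ * x := by
    rw [hp2]
    simp
  have hB : (((u : ℂ) + (v : ℂ) * I) ^ 3).re = u ^ 3 - 3 * u * v ^ 2 := by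
    simp [pow_succ]
    ring
  have hR : ((u : ℂ) + (v : ℂ) * I).re = u := by simp
  rw [hA, hB, hR] at h1
  have hnp : 0 < ‖(u : ℂ) + (v : ℂ) * I‖ := by
    apply norm_pos_iff.2
    intro h
    rw [h] at hp
    simp at hp
  rw [norm_mul, norm_div, norm_one, norm_mul, Complex.norm_ofNat]
  have h2 : ‖FF β q (Λ : ℂ) ((u : ℂ) + (v : ℂ) * I)‖ * (1 / (2 * ‖(u : ℂ) + (v : ℂ) * I‖)) ≤
      (1 / 2) * (Real.exp (Λ * x - 2 / 3 * q * (u ^ 3 - 3 * u * v ^ 2)) * u ^ (-(q / 2))) := by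
    rw [mul_one_div, div_le_iff₀ (by positivity)]
    calc _ ≤ _ := h1
      _ = _ := by ring
  refine h2.trans ?_
  have h3 : u ^ (-(q / 2)) ≤ Real.exp (q * v / ε) := by
    refine (rpow_neg_le_exp u q hu hq).trans (le_of_eq ?_)
    congr 1
    rw [← him]
    field_simp
  have h4 : Real.exp (Λ * x - 2 / 3 * q * (u ^ 3 - 3 * u * v ^ 2)) * u ^ (-(q / 2)) ≤
      Real.exp (Λ * x - 2 / 3 * q * (u ^ 3 - 3 * u * v ^ 2)) * Real.exp (q * v / ε) :=
    mul_le_mul_of_nonneg_left h3 (Real.exp_pos _).le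
  have h5 : Λ * x - 2 / 3 * q * (u ^ 3 - 3 * u * v ^ 2) + q * v / ε ≤
      ε + (q * (ε + 1 / ε)) ^ 2 / 4 + (Λ - 1) * x := by
    have e1 : 2 * q * u * v ^ 2 = q * ε * v := by rw [← him]; ring
    have e2 : 0 ≤ 2 / 3 * q * u ^ 3 := by positivity
    have e3 : q * v / ε = q * (1 / ε) * v := by ring
    have e4 : q * (ε + 1 / ε) * v ≤ v ^ 2 + (q * (ε + 1 / ε)) ^ 2 / 4 := by
      nlinarith [sq_nonneg (v - q * (ε + 1 / ε) / 2)]
    have e5 : q * (ε + 1 / ε) * v = q * ε * v + q * (1 / ε) * v := by ring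
    nlinarith
  calc (1 / 2) * (Real.exp (Λ * x - 2 / 3 * q * (u ^ 3 - 3 * u * v ^ 2)) * u ^ (-(q / 2)))
      ≤ (1 / 2) * (Real.exp (Λ * x - 2 / 3 * q * (u ^ 3 - 3 * u * v ^ 2)) * Real.exp (q * v / ε)) := by
        apply mul_le_mul_of_nonneg_left h4 (by norm_num)
    _ = (1 / 2) * Real.exp (Λ * x - 2 / 3 * q * (u ^ 3 - 3 * u * v ^ 2) + q * v / ε) := by
        rw [Real.exp_add]
    _ ≤ (1 / 2) * Real.exp (ε + (q * (ε + 1 / ε)) ^ 2 / 4 + (Λ - 1) * x) := by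
        apply mul_le_mul_of_nonneg_left (Real.exp_le_exp.2 h5) (by norm_num)
    _ = _ := by rw [Real.exp_add, mul_assoc]

/-- joining `u + iv` to `a + iv` horizontally. -/
theorem left_horizontal {β : ℂ → ℂ} (hβ : IsLogB β) (q : ℝ) (hq : 0 < q) (ε : ℝ) (hε : 0 < ε)
    (Λ : ℝ) (hΛ : 0 < Λ) (G : ℂ → ℂ)
    (hG : ∀ p : ℂ, 0 < p.re → HasDerivAt G (FF β q (Λ : ℂ) p) p) (a : ℝ) (ha : 0 < a)
    (ha2 : 4 * q * a = Λ) :
    ∃ K : ℝ, ∀ u v : ℝ, 0 < u → 0 < v → u ≤ a → 2 * u * v = ε →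
      ‖G ((u : ℂ) + (v : ℂ) * I) - G ((a : ℂ) + (v : ℂ) * I)‖ ≤ K * Real.exp (-v) := by
  refine ⟨Real.exp (Λ * a ^ 2 + a + (2 + q / ε) ^ 2 / (2 * Λ)) * a, ?_⟩
  intro u v hu hv hua huv
  have hconv : Convex ℝ (segment ℝ ((a : ℂ) + (v : ℂ) * I) ((u : ℂ) + (v : ℂ) * I)) :=
    convex_segment _ _
  have hseg : ∀ z ∈ segment ℝ ((a : ℂ) + (v : ℂ) * I) ((u : ℂ) + (v : ℂ) * I),
      ∃ s : ℝ, u ≤ s ∧ s ≤ a ∧ z = (s : ℂ) + (v : ℂ) * I := by
    rintro z ⟨c, d, hc, hd, hcd, rfl⟩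
    refine ⟨c * a + d * u, ?_, ?_, ?_⟩
    · nlinarith
    · nlinarith
    · have : (d : ℂ) = 1 - (c : ℂ) := by
        have : d = 1 - c := by linarith
        rw [this]; push_cast; ring
      simp only [Complex.real_smul]
      push_cast
      rw [this]
      ring
  have hbound : ∀ z ∈ segment ℝ ((a : ℂ) + (v : ℂ) * I) ((u : ℂ) + (v : ℂ) * I),
      ‖FF β q (Λ : ℂ) z‖ ≤ Real.exp (Λ * a ^ 2 + a + (2 + q / ε) ^ 2 / (2 * Λ)) * Real.exp (-v) := by
    intro z hz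
    obtain ⟨s, hs1, hs2, rfl⟩ := hseg z hz
    have hs : 0 < s := lt_of_lt_of_le hu hs1
    have hre : ((s : ℂ) + (v : ℂ) * I).re = s := by simp
    have h1 := norm_FF_le hβ q hq (Λ : ℂ) ((s : ℂ) + (v : ℂ) * I) (by rw [hre]; exact hs)
    rw [exponent_eq, hre] at h1
    simp only [Complex.ofReal_re, Complex.ofReal_im, mul_zero, zero_mul, sub_zero] at h1
    refine h1.trans ?_
    have hn : ‖(s : ℂ) + (v : ℂ) * I‖ ≤ Real.exp (a + v) := by
      calc ‖(s : ℂ) + (v : ℂ) * I‖ ≤ ‖(s : ℂ)‖ + ‖(v : ℂ) * I‖ := norm_add_le _ _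
        _ = s + v := by simp [abs_of_pos hs, abs_of_pos hv]
        _ ≤ a + v := by linarith
        _ ≤ (a + v) + 1 := by linarith
        _ ≤ Real.exp (a + v) := Real.add_one_le_exp _
    have hr : s ^ (-(q / 2)) ≤ Real.exp (q * v / ε) := by
      refine (rpow_neg_le_exp s q hs hq).trans (Real.exp_le_exp.2 ?_)
      have : 1 / s ≤ 1 / u := one_div_le_one_div_of_le hu hs1
      have h2 : q / 2 * (1 / s) ≤ q / 2 * (1 / u) := mul_le_mul_of_nonneg_left this (by positivity)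
      refine h2.trans (le_of_eq ?_)
      rw [← huv]
      field_simp
    have hexp : Λ * s ^ 2 - 2 / 3 * q * s ^ 3 - (Λ - 2 * q * s) * v ^ 2 ≤
        Λ * a ^ 2 - Λ / 2 * v ^ 2 := by
      have e1 : Λ * s ^ 2 ≤ Λ * a ^ 2 := by
        apply mul_le_mul_of_nonneg_left _ hΛ.le
        nlinarith
      have e2 : 0 ≤ 2 / 3 * q * s ^ 3 := by positivity
      have e3 : Λ / 2 ≤ Λ - 2 * q * s := by nlinarith
      have e4 : Λ / 2 * v ^ 2 ≤ (Λ - 2 * q * s) * v ^ 2 :=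
        mul_le_mul_of_nonneg_right e3 (by positivity)
      linarith
    have hfin : Λ * a ^ 2 - Λ / 2 * v ^ 2 + (a + v) + q * v / ε ≤
        (Λ * a ^ 2 + a + (2 + q / ε) ^ 2 / (2 * Λ)) + -v := by
      have e1 : (2 + q / ε) * v ≤ Λ / 2 * v ^ 2 + (2 + q / ε) ^ 2 / (2 * Λ) := by
        have h0 : 0 ≤ (Λ * v - (2 + q / ε)) ^ 2 / (2 * Λ) := by positivity
        have h00 : (Λ * v - (2 + q / ε)) ^ 2 / (2 * Λ) =
            Λ / 2 * v ^ 2 - (2 + q / ε) * v + (2 + q / ε) ^ 2 / (2 * Λ) := by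
          field_simp
          ring
        linarith
      have e2 : (2 + q / ε) * v = 2 * v + q * v / ε := by ring
      linarith
    calc Real.exp (Λ * s ^ 2 - 2 / 3 * q * s ^ 3 - (Λ - 2 * q * s) * v ^ 2) *
          ‖(s : ℂ) + (v : ℂ) * I‖ * s ^ (-(q / 2))
        ≤ Real.exp (Λ * a ^ 2 - Λ / 2 * v ^ 2) * Real.exp (a + v) * Real.exp (q * v / ε) := by
          gcongr
      _ = Real.exp (Λ * a ^ 2 - Λ / 2 * v ^ 2 + (a + v) + q * v / ε) := by
          rw [Real.exp_add _ (q * v / ε), Real.exp_add _ (a + v)]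
      _ ≤ Real.exp ((Λ * a ^ 2 + a + (2 + q / ε) ^ 2 / (2 * Λ)) + -v) := Real.exp_le_exp.2 hfin
      _ = _ := Real.exp_add _ _
  have hder : ∀ z ∈ segment ℝ ((a : ℂ) + (v : ℂ) * I) ((u : ℂ) + (v : ℂ) * I),
      HasDerivWithinAt G (FF β q (Λ : ℂ) z)
        (segment ℝ ((a : ℂ) + (v : ℂ) * I) ((u : ℂ) + (v : ℂ) * I)) z := by
    intro z hz
    obtain ⟨s, hs1, hs2, rfl⟩ := hseg z hz
    exact (hG _ (by simp; linarith)).hasDerivWithinAt
  have h := hconv.norm_image_sub_le_of_norm_hasDerivWithin_le hder hbound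
    (left_mem_segment ℝ _ _) (right_mem_segment ℝ _ _)
  refine h.trans ?_
  have hlen : ‖((u : ℂ) + (v : ℂ) * I) - ((a : ℂ) + (v : ℂ) * I)‖ ≤ a := by
    have : ((u : ℂ) + (v : ℂ) * I) - ((a : ℂ) + (v : ℂ) * I) = ((u - a : ℝ) : ℂ) := by
      push_cast; ring
    rw [this, Complex.norm_real, Real.norm_eq_abs, abs_le]
    constructor <;> linarith
  calc _ ≤ Real.exp (Λ * a ^ 2 + a + (2 + q / ε) ^ 2 / (2 * Λ)) * Real.exp (-v) * a := by
        apply mul_le_mul_of_nonneg_left hlen (by positivity)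
    _ = _ := by ring

theorem ghost_left {β : ℂ → ℂ} (hβ : IsLogB β) (q : ℝ) (hq : 0 < q) (ε : ℝ) (hε : 0 < ε) (x₁ : ℝ)
    (hx₁ : x₁ < 0) :
    ∃ C Λ₀ : ℝ, 0 < Λ₀ ∧ ∀ Λ : ℝ, Λ₀ ≤ Λ → ∀ (G : ℂ → ℂ) (L U : ℂ), Ends β q (Λ : ℂ) G L U →
      ‖G (((x₁ : ℂ) + (ε : ℂ) * I) ^ ((1 : ℂ) / 2)) - U‖ ≤ C * Real.exp (Λ * x₁) := by
  obtain ⟨C₁, hC₁⟩ : ∃ C₁ : ℝ, C₁ = (1 / 2) * Real.exp (ε + (q * (ε + 1 / ε)) ^ 2 / 4) := ⟨_, rfl⟩
  have hC₁0 : 0 < C₁ := by rw [hC₁]; positivity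
  refine ⟨C₁ * Real.exp (-x₁), 2, by norm_num, ?_⟩
  intro Λ hΛ G L U hE
  set p : ℝ → ℂ := fun x => ((x : ℂ) + (ε : ℂ) * I) ^ ((1 : ℂ) / 2) with hpdef
  have him : ∀ x : ℝ, 0 < ((x : ℂ) + (ε : ℂ) * I).im := by intro x; simpa using hε
  have hp2 : ∀ x : ℝ, (p x) ^ 2 = (x : ℂ) + (ε : ℂ) * I := fun x => (sqrt_facts _ (him x)).1
  have hpre : ∀ x : ℝ, 0 < (p x).re := fun x => (sqrt_facts _ (him x)).2.1
  have hpder : ∀ x : ℝ, HasDerivAt p (1 / (2 * p x)) x := by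
    intro x
    have h1 := (sqrt_facts _ (him x)).2.2
    have h2 : HasDerivAt (fun t : ℝ => (t : ℂ) + (ε : ℂ) * I) 1 x := by
      have h3 : HasDerivAt (fun t : ℝ => (t : ℂ)) 1 x := by
        simpa using (hasDerivAt_id x).ofReal_comp
      exact h3.add_const _
    have h4 := HasDerivAt.comp x h1 h2
    simpa [Function.comp_def, hpdef] using h4
  have hfder : ∀ x : ℝ, HasDerivAt (fun t => G (p t)) (FF β q (Λ : ℂ) (p x) * (1 / (2 * p x))) x := by
    intro x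
    exact HasDerivAt.comp x (hE.prim (p x) (hpre x)) (hpder x)
  have huv : ∀ x : ℝ, (p x).re ^ 2 - (p x).im ^ 2 = x ∧ 2 * (p x).re * (p x).im = ε := by
    intro x
    have h1 := congrArg Complex.re (hp2 x)
    have h2 := congrArg Complex.im (hp2 x)
    simp [pow_two] at h1 h2
    constructor <;> nlinarith
  have hvpos : ∀ x : ℝ, 0 < (p x).im := by
    intro x
    by_contra h
    have h' := not_lt.1 h
    have := hpre x
    have h2 := (huv x).2
    nlinarith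
  -- difference bound
  have hdiff : ∀ x : ℝ, x ≤ x₁ → ‖G (p x₁) - G (p x)‖ ≤ C₁ * Real.exp (-x₁) * Real.exp (Λ * x₁) := by
    intro x hx
    have hB : ∀ t : ℝ, HasDerivAt (fun t => C₁ * Real.exp ((Λ - 1) * t) / (Λ - 1))
        (C₁ * Real.exp ((Λ - 1) * t)) t := by
      intro t
      have h1 : HasDerivAt (fun t => Real.exp ((Λ - 1) * t)) (Real.exp ((Λ - 1) * t) * (Λ - 1)) t := by
        have := ((hasDerivAt_id t).const_mul (Λ - 1)).exp
        simpa using this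
      have h2 := (h1.const_mul C₁).div_const (Λ - 1)
      have h3 : (Λ - 1) ≠ 0 := by
        have : 0 < Λ - 1 := by linarith
        exact this.ne'
      have h4 : C₁ * Real.exp ((Λ - 1) * t) =
          C₁ * (Real.exp ((Λ - 1) * t) * (Λ - 1)) / (Λ - 1) := by
        rw [← mul_assoc, mul_div_assoc, div_self h3, mul_one]
      rw [h4]
      exact h2
    have hmain : ∀ t ∈ Icc x x₁, ‖G (p t) - G (p x)‖ ≤
        C₁ * Real.exp ((Λ - 1) * t) / (Λ - 1) - C₁ * Real.exp ((Λ - 1) * x) / (Λ - 1) := by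
      apply image_norm_le_of_norm_deriv_right_le_deriv_boundary
        (f := fun t => G (p t) - G (p x)) (f' := fun t => FF β q (Λ : ℂ) (p t) * (1 / (2 * p t)))
        (B := fun t => C₁ * Real.exp ((Λ - 1) * t) / (Λ - 1) - C₁ * Real.exp ((Λ - 1) * x) / (Λ - 1))
        (B' := fun t => C₁ * Real.exp ((Λ - 1) * t))
      · exact fun t _ => (((hfder t).sub_const _).continuousAt).continuousWithinAt
      · exact fun t _ => ((hfder t).sub_const _).hasDerivWithinAt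
      · simp
      · exact fun t => (hB t).sub_const _
      · intro t ht
        rw [hC₁]
        exact left_deriv_bound hβ q hq ε hε Λ t (by linarith [ht.2]) (p t) (hpre t) (hp2 t)
    have h1 := hmain x₁ ⟨hx, le_refl _⟩
    refine h1.trans ?_
    have h3 : 0 ≤ C₁ * Real.exp ((Λ - 1) * x) / (Λ - 1) := by
      apply div_nonneg (by positivity) (by linarith)
    have h4 : C₁ * Real.exp ((Λ - 1) * x₁) / (Λ - 1) ≤ C₁ * Real.exp ((Λ - 1) * x₁) := by
      apply div_le_self (by positivity) (by linarith)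
    have h5 : C₁ * Real.exp ((Λ - 1) * x₁) = C₁ * Real.exp (-x₁) * Real.exp (Λ * x₁) := by
      rw [mul_assoc, ← Real.exp_add]
      congr 2
      ring
    linarith
  -- limit
  have hΛ0 : 0 < Λ := by linarith
  set a : ℝ := Λ / (4 * q) with hadef
  have ha : 0 < a := by positivity
  have ha2 : 4 * q * a = Λ := by rw [hadef]; field_simp
  obtain ⟨K, hK⟩ := left_horizontal hβ q hq ε hε Λ hΛ0 G hE.prim a ha ha2
  have hvlim : Tendsto (fun x : ℝ => (p x).im) atBot atTop := by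
    have h1 : Tendsto (fun x : ℝ => Real.sqrt (-x)) atBot atTop :=
      Real.tendsto_sqrt_atTop.comp tendsto_neg_atBot_atTop
    refine tendsto_atTop_mono' _ ?_ h1
    filter_upwards with x
    apply Real.sqrt_le_iff.2
    refine ⟨(hvpos x).le, ?_⟩
    nlinarith [(huv x).1, sq_nonneg (p x).re]
  have hup : Tendsto (fun x : ℝ => G ((a : ℂ) + ((p x).im : ℂ) * I)) atBot (𝓝 U) := by
    have h1 := hE.up a ha (by simp; nlinarith)
    exact h1.comp hvlim
  have hdif0 : Tendsto (fun x : ℝ => G (p x) - G ((a : ℂ) + ((p x).im : ℂ) * I)) atBot (𝓝 0) := by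
    have h1 : Tendsto (fun x : ℝ => K * Real.exp (-(p x).im)) atBot (𝓝 0) := by
      have h2 : Tendsto (fun x : ℝ => Real.exp (-(p x).im)) atBot (𝓝 0) :=
        Real.tendsto_exp_neg_atTop_nhds_zero.comp hvlim
      simpa using h2.const_mul K
    refine squeeze_zero_norm' ?_ h1
    have h3 : ∀ᶠ x : ℝ in atBot, ε / (2 * a) ≤ (p x).im := hvlim.eventually_ge_atTop _
    filter_upwards [h3] with x hx
    have h4 : (p x).re ≤ a := by
      have h5 := (huv x).2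
      have h6 : ε ≤ (p x).im * (2 * a) := by rwa [div_le_iff₀ (by positivity)] at hx
      have h7 := hvpos x
      by_contra h
      have h8 := not_le.1 h
      nlinarith
    have h9 := hK (p x).re (p x).im (hpre x) (hvpos x) h4 (huv x).2
    rwa [Complex.re_add_im] at h9
  have hlim : Tendsto (fun x : ℝ => G (p x)) atBot (𝓝 U) := by
    have := hdif0.add hup
    simpa using this
  have hlim2 : Tendsto (fun x : ℝ => ‖G (p x₁) - G (p x)‖) atBot (𝓝 ‖G (p x₁) - U‖) :=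
    (tendsto_const_nhds.sub hlim).norm
  exact le_of_tendsto hlim2 ((eventually_le_atBot x₁).mono fun x hx => hdiff x hx)

end Pool.Agent.H140R2.FR
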