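import Pool.Agent.H140R2.FR.T07Ends

/-!
T11a.  A formula for `Im Psi` on the ray `arg lam = π/3`.

Notation: `lam = Λ ze`, `p = ze r`; `Hp β q Λ r = e^{-Λr² + (2/3)qr³ + qβ(ze r)} r^{1-q/2}`, and `Hm` the same with
`conj ze`; `FF β q (Λ ze) (ze r) * ze = ze * ze^{1-q/2} * Hp β q Λ r`, `conj (Hp r) = Hm (conj r)`.
`r₁ = Λ/(q-2)`, `rc = r₁(1 + i√2/3)`, `P_up = ze rc`, `P_low = ze (conj rc)`,
`JJ = L - U = (L - G P_low) + (G P_low - G P_up) + (G P_up - U)`.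
* `G P_up - U = -I ∫_{ρ>0} FF(P_up + iρ) dρ` (T07 with `a = Re P_up = r₁(1/2 - √6/6)`, `2qa < Λ/2 = Re lam` for `q > 4`).
* `L - G P_low = ∫_{ρ>0} FF(P_low + ρe^{iπ/6}) e^{iπ/6} dρ`: need `G(P_low + ρe^{iπ/6}) → L`; for `Q = P_low + ρe^{iπ/6}`,
  `L - G Q = ∫_{x>Re Q} FF(x + i Im Q) dx` (T07) and the exponent `exponent_eq` is decreasing in `x ≥ Re Q` at rate
  `≥ cρ²` and at `x = Re Q` it is `-(Λ/2 - 2q Im(P_low e^{-iπ/6}))ρ² + O(ρ) → -∞`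
  (`Im(P_low e^{-iπ/6}) = r₁(1/2 - √6/6)`).
Total phase of `Psi`: `ze * ze^{1-q/2} * (Λ ze)^{(q-1)/2} = I Λ^{(q-1)/2}`, `-lam³ = Λ³`.  Then
`Im Psi = const * Re K`, `Re K = (K + conj K)/2`, and conjugation maps the contour to itself reversed.
-/

set_option autoImplicit false

open Complex MeasureTheory Set Filter Topology

namespace Pool.Agent.H140R2.FR

noncomputable def Hp (β : ℂ → ℂ) (q Λ : ℝ) (r : ℂ) : ℂ :=
  cexp (-(Λ : ℂ) * r ^ 2 + (2 / 3) * (q : ℂ) * r ^ 3 + (q : ℂ) * β (ze * r)) * r ^ ((1 : ℂ) - (q : ℂ) / 2)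

noncomputable def Hm (β : ℂ → ℂ) (q Λ : ℝ) (r : ℂ) : ℂ :=
  cexp (-(Λ : ℂ) * r ^ 2 + (2 / 3) * (q : ℂ) * r ^ 3 + (q : ℂ) * β ((starRingEnd ℂ) ze * r)) *
    r ^ ((1 : ℂ) - (q : ℂ) / 2)

/-- the corner of the contour. -/
noncomputable def rc (q Λ : ℝ) : ℂ := ((Λ / (q - 2) : ℝ) : ℂ) * (1 + ((Real.sqrt 2 / 3 : ℝ) : ℂ) * I)

noncomputable def XX (β : ℂ → ℂ) (q Λ : ℝ) : ℂ :=
  (∫ ρ in Ioi (0 : ℝ), (Hp β q Λ ((starRingEnd ℂ) (rc q Λ) + (ρ : ℂ) * cexp (-(I * (Real.pi : ℂ) / 6))) -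
      Hm β q Λ ((starRingEnd ℂ) (rc q Λ) + (ρ : ℂ) * cexp (-(I * (Real.pi : ℂ) / 6)))) *
        cexp (-(I * (Real.pi : ℂ) / 6)))
  - I * ((Λ / (q - 2) : ℝ) : ℂ) *
    (∫ y in (-(Real.sqrt 2 / 3))..(Real.sqrt 2 / 3),
      (Hp β q Λ (((Λ / (q - 2) : ℝ) : ℂ) * (1 + (y : ℂ) * I)) -
        Hm β q Λ (((Λ / (q - 2) : ℝ) : ℂ) * (1 + (y : ℂ) * I))))
  - ∫ ρ in Ioi (0 : ℝ), (Hp β q Λ (rc q Λ + (ρ : ℂ) * cexp (I * (Real.pi : ℂ) / 6)) -
      Hm β q Λ (rc q Λ + (ρ : ℂ) * cexp (I * (Real.pi : ℂ) / 6))) * cexp (I * (Real.pi : ℂ) / 6)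

/-! ### trigonometric constants -/

theorem T11.ze_re : ze.re = 1 / 2 := by
  have : ze = cexp (((Real.pi / 3 : ℝ) : ℂ) * I) := by rw [ze]; congr 1; push_cast; ring
  rw [this, Complex.exp_ofReal_mul_I_re, Real.cos_pi_div_three]

theorem T11.ze_im : ze.im = Real.sqrt 3 / 2 := by
  have : ze = cexp (((Real.pi / 3 : ℝ) : ℂ) * I) := by rw [ze]; congr 1; push_cast; ring
  rw [this, Complex.exp_ofReal_mul_I_im, Real.sin_pi_div_three]

theorem T11.e6_re : (cexp (I * (Real.pi : ℂ) / 6)).re = Real.sqrt 3 / 2 := by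
  have : cexp (I * (Real.pi : ℂ) / 6) = cexp (((Real.pi / 6 : ℝ) : ℂ) * I) := by
    congr 1; push_cast; ring
  rw [this, Complex.exp_ofReal_mul_I_re, Real.cos_pi_div_six]

theorem T11.e6_im : (cexp (I * (Real.pi : ℂ) / 6)).im = 1 / 2 := by
  have : cexp (I * (Real.pi : ℂ) / 6) = cexp (((Real.pi / 6 : ℝ) : ℂ) * I) := by
    congr 1; push_cast; ring
  rw [this, Complex.exp_ofReal_mul_I_im, Real.sin_pi_div_six]

theorem T11.ze_pow_three : ze ^ 3 = -1 := by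
  rw [ze, ← Complex.exp_nat_mul]
  have : ((3 : ℕ) : ℂ) * (I * (Real.pi : ℂ) / 3) = (Real.pi : ℂ) * I := by push_cast; ring
  rw [this, Complex.exp_pi_mul_I]

theorem T11.ze_mul_e6' : ze * cexp (-(I * (Real.pi : ℂ) / 6)) = cexp (I * (Real.pi : ℂ) / 6) := by
  rw [ze, ← Complex.exp_add]; congr 1; ring

theorem T11.ze_mul_e6 : ze * cexp (I * (Real.pi : ℂ) / 6) = I := by
  rw [ze, ← Complex.exp_add]
  have : I * (Real.pi : ℂ) / 3 + I * (Real.pi : ℂ) / 6 = (Real.pi : ℂ) / 2 * I := by ring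
  rw [this, Complex.exp_pi_div_two_mul_I]

theorem T11.conj_e6 : (starRingEnd ℂ) (cexp (I * (Real.pi : ℂ) / 6)) =
    cexp (-(I * (Real.pi : ℂ) / 6)) := by
  rw [← Complex.exp_conj]
  congr 1
  have h6 : (starRingEnd ℂ) (6 : ℂ) = 6 := map_ofNat _ 6
  rw [map_div₀, map_mul, Complex.conj_I, Complex.conj_ofReal, h6]
  ring

theorem T11.ze_ne : ze ≠ 0 := by rw [ze]; exact Complex.exp_ne_zero _

/-- `log r = log (ze r) - iπ/3` if `ze r` is in the right half plane. -/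
theorem T11.log_eq (r : ℂ) (hr : 0 < (ze * r).re) :
    Complex.log r = Complex.log (ze * r) - I * (Real.pi : ℂ) / 3 := by
  have hne : ze * r ≠ 0 := by intro h; rw [h] at hr; simp at hr
  have h1 : cexp (Complex.log (ze * r) - I * (Real.pi : ℂ) / 3) = r := by
    rw [Complex.exp_sub, Complex.exp_log hne, ze]
    field_simp
  have h2 : |(ze * r).arg| < Real.pi / 2 := Complex.abs_arg_lt_pi_div_two_iff.2 (Or.inl hr)
  have h3 := abs_lt.1 h2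
  have him : (Complex.log (ze * r) - I * (Real.pi : ℂ) / 3).im = (ze * r).arg - Real.pi / 3 := by
    have : I * (Real.pi : ℂ) / 3 = ((Real.pi / 3 : ℝ) : ℂ) * I := by push_cast; ring
    rw [this, Complex.sub_im, Complex.log_im]
    simp
  have hpi := Real.pi_pos
  conv_lhs => rw [← h1]
  exact Complex.log_exp (by rw [him]; linarith [h3.1]) (by rw [him]; linarith [h3.2])

theorem T11.mul_cpow' (r c : ℂ) (hr : 0 < (ze * r).re) :
    (ze * r) ^ c = cexp (I * (Real.pi : ℂ) / 3 * c) * r ^ c := by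
  have hne : ze * r ≠ 0 := by intro h; rw [h] at hr; simp at hr
  have hr0 : r ≠ 0 := right_ne_zero_of_mul hne
  rw [Complex.cpow_def_of_ne_zero hne, Complex.cpow_def_of_ne_zero hr0, T11.log_eq r hr,
    ← Complex.exp_add]
  congr 1
  ring

theorem T11.arg_ne (r : ℂ) (hr : 0 < (ze * r).re) : r.arg ≠ Real.pi := by
  intro h
  have h1 := congrArg Complex.im (T11.log_eq r hr)
  have h2 : |(ze * r).arg| < Real.pi / 2 := Complex.abs_arg_lt_pi_div_two_iff.2 (Or.inl hr)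
  have h3 := abs_lt.1 h2
  have him : (Complex.log (ze * r) - I * (Real.pi : ℂ) / 3).im = (ze * r).arg - Real.pi / 3 := by
    have : I * (Real.pi : ℂ) / 3 = ((Real.pi / 3 : ℝ) : ℂ) * I := by push_cast; ring
    rw [this, Complex.sub_im, Complex.log_im]
    simp
  rw [him, Complex.log_im, h] at h1
  have hpi := Real.pi_pos
  linarith [h3.2]

/-- `FF` in the rotated variable. -/
theorem T11.FF_eq (β : ℂ → ℂ) (q Λ : ℝ) (r : ℂ) (hr : 0 < (ze * r).re) :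
    FF β q ((Λ : ℂ) * ze) (ze * r) =
      cexp (I * (Real.pi : ℂ) / 3 * ((1 : ℂ) - (q : ℂ) / 2)) * Hp β q Λ r := by
  rw [FF, Hp, T11.mul_cpow' r _ hr]
  have h : (Λ : ℂ) * ze * (ze * r) ^ 2 - 2 / 3 * (q : ℂ) * (ze * r) ^ 3 + (q : ℂ) * β (ze * r) =
      -(Λ : ℂ) * r ^ 2 + (2 / 3) * (q : ℂ) * r ^ 3 + (q : ℂ) * β (ze * r) := by
    have h1 : (Λ : ℂ) * ze * (ze * r) ^ 2 = (Λ : ℂ) * r ^ 2 * ze ^ 3 := by ring
    have h2 : (ze * r) ^ 3 = r ^ 3 * ze ^ 3 := by ring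
    rw [h1, h2, T11.ze_pow_three]
    ring
  rw [h]
  ring

theorem T11.conj_Hp {β : ℂ → ℂ} (hβ : IsLogB β) (q Λ : ℝ) (r : ℂ) (hr : 0 < (ze * r).re) :
    (starRingEnd ℂ) (Hp β q Λ r) = Hm β q Λ ((starRingEnd ℂ) r) := by
  rw [Hp, Hm, map_mul, ← Complex.exp_conj]
  have h1 : (starRingEnd ℂ) (r ^ ((1 : ℂ) - (q : ℂ) / 2)) =
      ((starRingEnd ℂ) r) ^ ((1 : ℂ) - (q : ℂ) / 2) := by
    rw [Complex.conj_cpow _ _ (T11.arg_ne r hr)]
    congr 2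
    have h2 : (starRingEnd ℂ) (2 : ℂ) = 2 := map_ofNat _ 2
    rw [map_sub, map_one, map_div₀, Complex.conj_ofReal, h2]
  rw [h1]
  congr 2
  have h2 : (starRingEnd ℂ) (β (ze * r)) = β ((starRingEnd ℂ) ze * (starRingEnd ℂ) r) := by
    rw [← map_mul, hβ.conj_eq _ hr]
  have h3 : (starRingEnd ℂ) ((2 : ℂ) / 3) = 2 / 3 := by
    rw [map_div₀, show (starRingEnd ℂ) (2 : ℂ) = 2 from map_ofNat _ 2,
      show (starRingEnd ℂ) (3 : ℂ) = 3 from map_ofNat _ 3]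
  simp only [map_add, map_mul, map_neg, map_pow, Complex.conj_ofReal, h2, h3]

theorem T11.quad_neg (A B C : ℝ) (hA : A < 0) : ∀ᶠ ρ : ℝ in atTop, A * ρ ^ 2 + B * ρ + C ≤ 0 := by
  filter_upwards [eventually_ge_atTop 1, eventually_ge_atTop ((|B| + |C|) / (-A))] with ρ h1 h2
  have h3 : |B| + |C| ≤ -A * ρ := by
    rw [div_le_iff₀ (by linarith)] at h2
    linarith
  have hB := le_abs_self B
  have hC := le_abs_self C
  have h4 : B * ρ ≤ |B| * ρ := mul_le_mul_of_nonneg_right hB (by linarith)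
  have h5 : C ≤ |C| * ρ := by nlinarith [abs_nonneg C]
  nlinarith [mul_le_mul_of_nonneg_right h3 (by linarith : (0:ℝ) ≤ ρ)]

/-- the estimate of the exponent to the right of the lower ray. -/
theorem T11.ray_est (q Λ : ℝ) (hq : 4 < q) (hΛ : 0 < Λ) (a s r₁ xl yl : ℝ) (ha : a ^ 2 = 3 / 4)
    (ha0 : 0 < a) (hs0 : 0 < s) (hs : s ^ 2 = 2) (hr₁ : r₁ * (q - 2) = Λ)
    (hxl : xl = r₁ * (1 / 2 + a * s / 3)) (hyl : yl = r₁ * (a - s / 6)) :
    ∀ᶠ ρ : ℝ in atTop, 1 ≤ xl + a * ρ ∧ 0 ≤ yl + ρ / 2 ∧ yl + ρ / 2 ≤ xl + a * ρ ∧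
      ∀ x : ℝ, xl + a * ρ ≤ x →
        Λ / 2 * x ^ 2 - 2 / 3 * q * x ^ 3 - (Λ / 2 - 2 * q * x) * (yl + ρ / 2) ^ 2 -
          2 * (Λ * a) * x * (yl + ρ / 2) ≤ -2 * x := by
  have hr0 : 0 < r₁ := by
    by_contra h
    push Not at h
    have := mul_nonpos_of_nonpos_of_nonneg h (by linarith : (0:ℝ) ≤ q - 2)
    linarith
  have hts : (a * s) ^ 2 = 3 / 2 := by rw [mul_pow, ha, hs]; norm_num
  have hts0 : 0 < a * s := mul_pos ha0 hs0
  have ht : 6 / 5 ≤ a * s := by nlinarith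
  have hA : -(Λ / 2) + q * (2 * a * yl - xl) < 0 := by
    have e : -(Λ / 2) + q * (2 * a * yl - xl) = r₁ * (1 + q * (1 / 2 - 2 * (a * s) / 3)) := by
      rw [hxl, hyl, ← hr₁]
      linear_combination (2 * q * r₁) * ha
    rw [e]
    refine mul_neg_of_pos_of_neg hr0 ?_
    have h1 : q * (6 / 5) ≤ q * (a * s) := mul_le_mul_of_nonneg_left ht (by linarith)
    linarith
  have hxl0 : 0 < xl := by rw [hxl]; positivity
  have hyl0 : 0 < yl := by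
    rw [hyl]
    refine mul_pos hr0 ?_
    by_contra h
    push Not at h
    nlinarith
  have E1 := T11.quad_neg (-(Λ / 2) + q * (2 * a * yl - xl))
    (Λ * xl * a - 2 * q * xl ^ 2 * a - Λ / 2 * yl + 2 * q * xl * yl + 2 * q * a * yl ^ 2 -
      2 * (Λ * a) * (xl / 2 + a * yl) + 2 * a)
    (Λ / 2 * xl ^ 2 - 2 / 3 * q * xl ^ 3 - (Λ / 2 - 2 * q * xl) * yl ^ 2 - 2 * (Λ * a) * xl * yl +
      2 * xl) hA
  have E2 := T11.quad_neg (1 / 4 - 3 / 8) (yl - xl * a) (yl ^ 2 - xl ^ 2 / 2) (by norm_num)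
  filter_upwards [E1, E2, eventually_ge_atTop 0, eventually_ge_atTop (1 / a),
    eventually_ge_atTop ((2 * Λ + 3) / (q * a))] with ρ h1 h2 h3 h4 h5
  have hX1 : 1 ≤ xl + a * ρ := by
    rw [div_le_iff₀ ha0] at h4
    linarith
  have hY : (yl + ρ / 2) ^ 2 ≤ (xl + a * ρ) ^ 2 / 2 := by
    have e : (yl + ρ / 2) ^ 2 - (xl + a * ρ) ^ 2 / 2 =
        (1 / 4 - 3 / 8) * ρ ^ 2 + (yl - xl * a) * ρ + (yl ^ 2 - xl ^ 2 / 2) := by
      linear_combination (-(ρ ^ 2) / 2) * ha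
    linarith
  have hY0 : 0 ≤ yl + ρ / 2 := by positivity
  have hX0 : 0 ≤ xl + a * ρ := by positivity
  refine ⟨hX1, hY0, ?_, ?_⟩
  · refine (pow_le_pow_iff_left₀ hY0 hX0 two_ne_zero).1 ?_
    have := sq_nonneg (xl + a * ρ)
    linarith
  · intro x hx
    set X := xl + a * ρ with hXdef
    set Y := yl + ρ / 2 with hYdef
    have hEX : Λ / 2 * X ^ 2 - 2 / 3 * q * X ^ 3 - (Λ / 2 - 2 * q * X) * Y ^ 2 -
        2 * (Λ * a) * X * Y ≤ -2 * X := by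
      have e : Λ / 2 * X ^ 2 - 2 / 3 * q * X ^ 3 - (Λ / 2 - 2 * q * X) * Y ^ 2 -
        2 * (Λ * a) * X * Y + 2 * X =
        (-(Λ / 2) + q * (2 * a * yl - xl)) * ρ ^ 2 +
        (Λ * xl * a - 2 * q * xl ^ 2 * a - Λ / 2 * yl + 2 * q * xl * yl + 2 * q * a * yl ^ 2 -
      2 * (Λ * a) * (xl / 2 + a * yl) + 2 * a) * ρ +
        (Λ / 2 * xl ^ 2 - 2 / 3 * q * xl ^ 3 - (Λ / 2 - 2 * q * xl) * yl ^ 2 - 2 * (Λ * a) * xl * yl +
      2 * xl) := by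
        rw [hXdef, hYdef]
        linear_combination (-(2 / 3) * q * a * ρ ^ 3 - 2 * q * xl * ρ ^ 2 - Λ / 2 * ρ ^ 2) * ha
      linarith
    have h6 : 2 * Λ + 3 ≤ q * X := by
      rw [div_le_iff₀ (by positivity)] at h5
      have h7 : q * (a * ρ) ≤ q * X := by
        refine mul_le_mul_of_nonneg_left ?_ (by linarith)
        rw [hXdef]; linarith
      linarith
    have hdiff : Λ / 2 * x ^ 2 - 2 / 3 * q * x ^ 3 - (Λ / 2 - 2 * q * x) * Y ^ 2 -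
        2 * (Λ * a) * x * Y - (Λ / 2 * X ^ 2 - 2 / 3 * q * X ^ 3 - (Λ / 2 - 2 * q * X) * Y ^ 2 -
        2 * (Λ * a) * X * Y) = (x - X) * (Λ / 2 * (x + X) - 2 / 3 * q * (x ^ 2 + x * X + X ^ 2) +
          2 * q * Y ^ 2 - 2 * (Λ * a) * Y) := by ring
    have hbr : Λ / 2 * (x + X) - 2 / 3 * q * (x ^ 2 + x * X + X ^ 2) +
          2 * q * Y ^ 2 - 2 * (Λ * a) * Y ≤ -2 := by
      have hq0 : 0 ≤ q := by linarith
      have b1 : 0 ≤ 2 * (Λ * a) * Y := by positivity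
      have b2 : 2 * q * Y ^ 2 ≤ 2 * q * (X ^ 2 / 2) := mul_le_mul_of_nonneg_left hY (by linarith)
      have b3 : Λ / 2 * (x + X) ≤ Λ / 2 * (x + x) :=
        mul_le_mul_of_nonneg_left (by linarith) (by linarith)
      have hx1 : 1 ≤ x := le_trans hX1 hx
      have b4 : (2 * Λ + 3) ≤ q * x := h6.trans (mul_le_mul_of_nonneg_left hx hq0)
      have b5 : q * (X * X) ≤ q * (x * X) :=
        mul_le_mul_of_nonneg_left (mul_le_mul_of_nonneg_right hx hX0) hq0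
      have b5' : 0 ≤ q * (X * X) := by positivity
      have b7 : (2 * Λ + 3) * x ≤ q * x * x := mul_le_mul_of_nonneg_right b4 (by linarith)
      have b8 : 0 ≤ Λ * x := by positivity
      linarith
    have : (x - X) * (Λ / 2 * (x + X) - 2 / 3 * q * (x ^ 2 + x * X + X ^ 2) +
          2 * q * Y ^ 2 - 2 * (Λ * a) * Y) ≤ (x - X) * (-2) :=
      mul_le_mul_of_nonneg_left hbr (by linarith)
    linarith

theorem T11.rc_re (q Λ : ℝ) : (rc q Λ).re = Λ / (q - 2) := by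
  rw [rc, Complex.re_ofReal_mul]; simp

theorem T11.rc_im (q Λ : ℝ) : (rc q Λ).im = Λ / (q - 2) * (Real.sqrt 2 / 3) := by
  rw [rc, Complex.im_ofReal_mul]; simp

theorem T11.pt_low (q Λ ρ : ℝ) :
    ze * ((starRingEnd ℂ) (rc q Λ) + (ρ : ℂ) * cexp (-(I * (Real.pi : ℂ) / 6))) =
      ((Λ / (q - 2) * (1 / 2 + Real.sqrt 3 / 2 * Real.sqrt 2 / 3) + Real.sqrt 3 / 2 * ρ : ℝ) : ℂ) +
      ((Λ / (q - 2) * (Real.sqrt 3 / 2 - Real.sqrt 2 / 6) + ρ / 2 : ℝ) : ℂ) * I := by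
  have h : ze * ((starRingEnd ℂ) (rc q Λ) + (ρ : ℂ) * cexp (-(I * (Real.pi : ℂ) / 6))) =
      ze * (starRingEnd ℂ) (rc q Λ) + (ρ : ℂ) * cexp (I * (Real.pi : ℂ) / 6) := by
    rw [← T11.ze_mul_e6']; ring
  rw [h]
  apply Complex.ext
  · rw [Complex.add_re, Complex.mul_re, Complex.re_ofReal_mul, T11.e6_re, Complex.conj_re,
      Complex.conj_im, T11.ze_re, T11.ze_im, T11.rc_re, T11.rc_im, Complex.add_re,
      Complex.re_ofReal_mul, Complex.I_re, Complex.ofReal_re]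
    ring
  · rw [Complex.add_im, Complex.mul_im, Complex.im_ofReal_mul, T11.e6_im, Complex.conj_re,
      Complex.conj_im, T11.ze_re, T11.ze_im, T11.rc_re, T11.rc_im, Complex.add_im,
      Complex.im_ofReal_mul, Complex.I_im, Complex.ofReal_im]
    ring

theorem T11.pt_up (q Λ ρ : ℝ) :
    ze * (rc q Λ + (ρ : ℂ) * cexp (I * (Real.pi : ℂ) / 6)) =
      ((Λ / (q - 2) * (1 / 2 - Real.sqrt 3 / 2 * Real.sqrt 2 / 3) : ℝ) : ℂ) +
      ((Λ / (q - 2) * (Real.sqrt 3 / 2 + Real.sqrt 2 / 6) + ρ : ℝ) : ℂ) * I := by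
  have h : ze * (rc q Λ + (ρ : ℂ) * cexp (I * (Real.pi : ℂ) / 6)) =
      ze * rc q Λ + (ρ : ℂ) * I := by
    have h' : ze * (rc q Λ + (ρ : ℂ) * cexp (I * (Real.pi : ℂ) / 6)) =
      ze * rc q Λ + (ρ : ℂ) * (ze * cexp (I * (Real.pi : ℂ) / 6)) := by ring
    rw [h', T11.ze_mul_e6]
  rw [h]
  apply Complex.ext
  · rw [Complex.add_re, Complex.mul_re, Complex.re_ofReal_mul,
      T11.ze_re, T11.ze_im, T11.rc_re, T11.rc_im, Complex.add_re,
      Complex.re_ofReal_mul, Complex.I_re, Complex.ofReal_re]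
    ring
  · rw [Complex.add_im, Complex.mul_im, Complex.im_ofReal_mul,
      T11.ze_re, T11.ze_im, T11.rc_re, T11.rc_im, Complex.add_im,
      Complex.im_ofReal_mul, Complex.I_im, Complex.ofReal_im]
    ring

theorem T11.pt_mid (r y : ℝ) :
    ze * ((r : ℂ) * (1 + (y : ℂ) * I)) =
      ((r * (1 / 2 - Real.sqrt 3 / 2 * y) : ℝ) : ℂ) +
      ((r * (Real.sqrt 3 / 2 + y / 2) : ℝ) : ℂ) * I := by
  have h : ze * ((r : ℂ) * (1 + (y : ℂ) * I)) = (r : ℂ) * (ze * (1 + (y : ℂ) * I)) := by ring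
  have e1 : (1 + (y : ℂ) * I).re = 1 := by simp
  have e2 : (1 + (y : ℂ) * I).im = y := by simp
  rw [h]
  apply Complex.ext
  · rw [Complex.re_ofReal_mul, Complex.mul_re, T11.ze_re, T11.ze_im, e1, e2, Complex.add_re,
      Complex.re_ofReal_mul, Complex.I_re, Complex.ofReal_re]
    ring
  · rw [Complex.im_ofReal_mul, Complex.mul_im, T11.ze_re, T11.ze_im, e1, e2, Complex.add_im,
      Complex.im_ofReal_mul, Complex.I_im, Complex.ofReal_im]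
    ring

theorem T11.lam_re (Λ : ℝ) : ((Λ : ℂ) * ze).re = Λ / 2 := by
  rw [Complex.re_ofReal_mul, T11.ze_re]; ring

theorem T11.lam_im (Λ : ℝ) : ((Λ : ℂ) * ze).im = Λ * (Real.sqrt 3 / 2) := by
  rw [Complex.im_ofReal_mul, T11.ze_im]

theorem T11.sqrt_facts : (Real.sqrt 3 / 2) ^ 2 = 3 / 4 ∧ 0 < Real.sqrt 3 / 2 ∧ 0 < Real.sqrt 2 ∧
    (Real.sqrt 2) ^ 2 = 2 ∧ Real.sqrt 3 / 2 * Real.sqrt 2 < 5 / 4 := by
  have h3 : Real.sqrt 3 ^ 2 = 3 := Real.sq_sqrt (by norm_num)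
  have h2 : Real.sqrt 2 ^ 2 = 2 := Real.sq_sqrt (by norm_num)
  have h3' : 0 < Real.sqrt 3 := Real.sqrt_pos.2 (by norm_num)
  have h2' : 0 < Real.sqrt 2 := Real.sqrt_pos.2 (by norm_num)
  refine ⟨by rw [div_pow, h3]; norm_num, by positivity, h2', h2, ?_⟩
  have h4 : (Real.sqrt 3 / 2 * Real.sqrt 2) ^ 2 = 3 / 2 := by
    rw [mul_pow, div_pow, h3, h2]; norm_num
  nlinarith [mul_pos h3' h2']

/-- pointwise bound to the right of the lower ray. -/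
theorem T11.FF_bound {β : ℂ → ℂ} (hβ : IsLogB β) (q Λ : ℝ) (hq : 0 < q) (x Y : ℝ) (hx1 : 1 ≤ x)
    (hY0 : 0 ≤ Y) (hYx : Y ≤ x)
    (hE : Λ / 2 * x ^ 2 - 2 / 3 * q * x ^ 3 - (Λ / 2 - 2 * q * x) * Y ^ 2 -
          2 * (Λ * (Real.sqrt 3 / 2)) * x * Y ≤ -2 * x) :
    ‖FF β q ((Λ : ℂ) * ze) ((x : ℂ) + (Y : ℂ) * I)‖ ≤ 2 * Real.exp (-x) := by
  have hre : ((x : ℂ) + (Y : ℂ) * I).re = x := by simp
  have h1 := norm_FF_le hβ q hq ((Λ : ℂ) * ze) ((x : ℂ) + (Y : ℂ) * I) (by rw [hre]; linarith)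
  rw [exponent_eq, T11.lam_re, T11.lam_im, hre] at h1
  refine h1.trans ?_
  have h2 : ‖(x : ℂ) + (Y : ℂ) * I‖ ≤ 2 * x := by
    refine (norm_add_le _ _).trans ?_
    rw [norm_mul, Complex.norm_I, mul_one, Complex.norm_real, Complex.norm_real, Real.norm_eq_abs,
      Real.norm_eq_abs, abs_of_nonneg hY0, abs_of_nonneg (by linarith)]
    linarith
  have h3 : x ^ (-(q / 2)) ≤ 1 := Real.rpow_le_one_of_one_le_of_nonpos hx1 (by linarith)
  have h3' : 0 ≤ x ^ (-(q / 2)) := Real.rpow_nonneg (by linarith) _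
  have h4 : x ≤ Real.exp x := by linarith [Real.add_one_le_exp x]
  calc _ ≤ Real.exp (-2 * x) * (2 * x) * 1 := by
        gcongr
    _ ≤ Real.exp (-2 * x) * (2 * Real.exp x) := by rw [mul_one]; gcongr
    _ = 2 * Real.exp (-x) := by
        have : Real.exp (-x) = Real.exp (-2 * x) * Real.exp x := by rw [← Real.exp_add]; congr 1; ring
        rw [this]; ring

theorem T11.exp_int (c : ℝ) : IntegrableOn (fun x : ℝ => 2 * Real.exp (-x)) (Ioi c) := by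
  have h0 := exp_neg_integrableOn_Ioi c one_pos
  have h : Integrable (fun x : ℝ => 2 * Real.exp (-x)) (volume.restrict (Ioi c)) := by
    simpa using h0.const_mul 2
  exact h

/-- the lower ray. -/
theorem T11.low {β : ℂ → ℂ} (hβ : IsLogB β) (q Λ : ℝ) (hq : 4 < q) (hΛ : 0 < Λ) {G : ℂ → ℂ}
    {L U : ℂ} (hE : Ends β q ((Λ : ℂ) * ze) G L U) :
    (∀ ρ : ℝ, 0 ≤ ρ →
      0 < (ze * ((starRingEnd ℂ) (rc q Λ) + (ρ : ℂ) * cexp (-(I * (Real.pi : ℂ) / 6)))).re) ∧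
    IntegrableOn (fun ρ : ℝ => FF β q ((Λ : ℂ) * ze)
      (ze * ((starRingEnd ℂ) (rc q Λ) + (ρ : ℂ) * cexp (-(I * (Real.pi : ℂ) / 6))))) (Ioi 0) ∧
    ∫ ρ in Ioi (0 : ℝ), FF β q ((Λ : ℂ) * ze)
      (ze * ((starRingEnd ℂ) (rc q Λ) + (ρ : ℂ) * cexp (-(I * (Real.pi : ℂ) / 6)))) *
        cexp (I * (Real.pi : ℂ) / 6) = L - G (ze * (starRingEnd ℂ) (rc q Λ)) := by
  obtain ⟨ha, ha0, hs0, hs, has⟩ := T11.sqrt_facts
  have hr : 0 < Λ / (q - 2) := div_pos hΛ (by linarith)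
  set a := Real.sqrt 3 / 2 with hadef
  set s := Real.sqrt 2 with hsdef
  set r₁ := Λ / (q - 2) with hr₁
  set xl := r₁ * (1 / 2 + a * s / 3) with hxl
  set yl := r₁ * (a - s / 6) with hyl
  have hxl0 : 0 < xl := by rw [hxl]; positivity
  set w : ℝ → ℂ := fun ρ => ze * ((starRingEnd ℂ) (rc q Λ) + (ρ : ℂ) * cexp (-(I * (Real.pi : ℂ) / 6)))
    with hw
  have hpt : ∀ ρ : ℝ, w ρ = ((xl + a * ρ : ℝ) : ℂ) + ((yl + ρ / 2 : ℝ) : ℂ) * I := fun ρ =>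
    T11.pt_low q Λ ρ
  have hre : ∀ ρ : ℝ, (w ρ).re = xl + a * ρ := by
    intro ρ; rw [hpt]; simp
  have him : ∀ ρ : ℝ, (w ρ).im = yl + ρ / 2 := by
    intro ρ; rw [hpt]; simp
  have hpos : ∀ ρ : ℝ, 0 ≤ ρ → 0 < (w ρ).re := by
    intro ρ hρ; rw [hre]; positivity
  have hest := T11.ray_est q Λ hq hΛ a s r₁ xl yl ha ha0 hs0 hs
    (by rw [hr₁]; field_simp [(by linarith : q - 2 ≠ 0)]) hxl hyl
  -- derivative of the parametrisation
  have hwd : ∀ ρ : ℝ, HasDerivAt w (cexp (I * (Real.pi : ℂ) / 6)) ρ := by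
    intro ρ
    have h1 : HasDerivAt (fun ρ : ℝ => (ρ : ℂ)) 1 ρ := Complex.ofRealCLM.hasDerivAt
    have h2 := ((h1.mul_const (cexp (-(I * (Real.pi : ℂ) / 6)))).const_add
      ((starRingEnd ℂ) (rc q Λ))).const_mul ze
    rw [one_mul, T11.ze_mul_e6'] at h2
    exact h2
  have hGd : ∀ ρ : ℝ, 0 ≤ ρ → HasDerivAt (fun ρ => G (w ρ))
      (FF β q ((Λ : ℂ) * ze) (w ρ) * cexp (I * (Real.pi : ℂ) / 6)) ρ := by
    intro ρ hρ
    exact (hE.prim (w ρ) (hpos ρ hρ)).comp ρ (hwd ρ)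
  -- integrability
  have hcont : ContinuousOn (fun ρ : ℝ => FF β q ((Λ : ℂ) * ze) (w ρ)) (Ici 0) := by
    refine (FF_differentiableOn hβ q _).continuousOn.comp
      (fun ρ _ => (hwd ρ).continuousAt.continuousWithinAt) ?_
    intro ρ hρ
    exact hpos ρ hρ
  have hbd : ∀ᶠ ρ : ℝ in atTop, ‖FF β q ((Λ : ℂ) * ze) (w ρ)‖ ≤ 2 * Real.exp (-(xl + a * ρ)) := by
    filter_upwards [hest] with ρ h
    rw [hpt]
    exact T11.FF_bound hβ q Λ (by linarith) _ _ h.1 h.2.1 h.2.2.1 (h.2.2.2 _ le_rfl)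
  have hO : (fun ρ : ℝ => FF β q ((Λ : ℂ) * ze) (w ρ)) =O[atTop] fun ρ => Real.exp (-a * ρ) := by
    refine Asymptotics.IsBigO.of_bound (2 * Real.exp (-xl)) ?_
    filter_upwards [hbd] with ρ h
    refine h.trans (le_of_eq ?_)
    rw [Real.norm_eq_abs, abs_of_pos (Real.exp_pos _), mul_assoc, ← Real.exp_add]
    congr 2
    ring
  have hint : IntegrableOn (fun ρ : ℝ => FF β q ((Λ : ℂ) * ze) (w ρ)) (Ioi 0) :=
    integrableOn_Ici_iff_integrableOn_Ioi (by finiteness) |>.mp <|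
      (hcont.locallyIntegrableOn measurableSet_Ici).integrableOn_of_isBigO_atTop
      hO ⟨Ioi a, Ioi_mem_atTop a, exp_neg_integrableOn_Ioi a ha0⟩
  refine ⟨hpos, hint, ?_⟩
  -- the limit
  have hlim : Tendsto (fun ρ => G (w ρ)) atTop (𝓝 L) := by
    rw [tendsto_iff_norm_sub_tendsto_zero]
    have hub : ∀ᶠ ρ : ℝ in atTop, ‖G (w ρ) - L‖ ≤ 2 * Real.exp (-(xl + a * ρ)) := by
      filter_upwards [hest] with ρ h
      have h1 := hE.integral_right hβ (by linarith : 0 < q) (xl + a * ρ) (yl + ρ / 2) (by linarith)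
      have h2 : G (w ρ) = G (((xl + a * ρ : ℝ) : ℂ) + ((yl + ρ / 2 : ℝ) : ℂ) * I) := by rw [hpt]
      rw [h2, norm_sub_rev, ← h1]
      have h3 : ∫ x in Ioi (xl + a * ρ), 2 * Real.exp (-x) = 2 * Real.exp (-(xl + a * ρ)) := by
        rw [integral_const_mul, integral_exp_neg_Ioi]
      rw [← h3]
      refine norm_integral_le_of_norm_le (T11.exp_int _) ?_
      rw [ae_restrict_iff' measurableSet_Ioi]
      refine Eventually.of_forall fun x hx => ?_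
      have hx' : xl + a * ρ ≤ x := le_of_lt hx
      exact T11.FF_bound hβ q Λ (by linarith) x (yl + ρ / 2) (by linarith) h.2.1
        (by linarith [h.2.2.1]) (h.2.2.2 x hx')
    refine squeeze_zero' (Eventually.of_forall fun _ => norm_nonneg _) hub ?_
    have : Tendsto (fun ρ : ℝ => 2 * Real.exp (-(xl + a * ρ))) atTop (𝓝 (2 * 0)) := by
      refine Tendsto.const_mul 2 (Real.tendsto_exp_neg_atTop_nhds_zero.comp ?_)
      exact tendsto_atTop_add_const_left _ _ (tendsto_id.const_mul_atTop ha0)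
    simpa using this
  have h0 : w 0 = ze * (starRingEnd ℂ) (rc q Λ) := by simp [hw]
  rw [← h0]
  exact integral_Ioi_of_hasDerivAt_of_tendsto' (fun ρ hρ => hGd ρ hρ) (hint.mul_const _) hlim

/-- the upper ray. -/
theorem T11.up {β : ℂ → ℂ} (hβ : IsLogB β) (q Λ : ℝ) (hq : 4 < q) (hΛ : 0 < Λ) {G : ℂ → ℂ}
    {L U : ℂ} (hE : Ends β q ((Λ : ℂ) * ze) G L U) :
    (∀ ρ : ℝ, 0 < (ze * (rc q Λ + (ρ : ℂ) * cexp (I * (Real.pi : ℂ) / 6))).re) ∧
    IntegrableOn (fun ρ : ℝ => FF β q ((Λ : ℂ) * ze)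
      (ze * (rc q Λ + (ρ : ℂ) * cexp (I * (Real.pi : ℂ) / 6)))) (Ioi 0) ∧
    ∫ ρ in Ioi (0 : ℝ), FF β q ((Λ : ℂ) * ze)
      (ze * (rc q Λ + (ρ : ℂ) * cexp (I * (Real.pi : ℂ) / 6))) * I = U - G (ze * rc q Λ) := by
  obtain ⟨ha, ha0, hs0, hs, has⟩ := T11.sqrt_facts
  have hr : 0 < Λ / (q - 2) := div_pos hΛ (by linarith)
  set a := Real.sqrt 3 / 2 with hadef
  set s := Real.sqrt 2 with hsdef
  set r₁ := Λ / (q - 2) with hr₁
  have hr₁' : r₁ * (q - 2) = Λ := by rw [hr₁]; field_simp [(by linarith : q - 2 ≠ 0)]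
  set xu := r₁ * (1 / 2 - a * s / 3) with hxu
  set yu := r₁ * (a + s / 6) with hyu
  have hxu0 : 0 < xu := by
    rw [hxu]; exact mul_pos hr (by linarith)
  have hts : (a * s) ^ 2 = 3 / 2 := by rw [mul_pow, ha, hs]; norm_num
  have ht : 6 / 5 ≤ a * s := by nlinarith [mul_pos ha0 hs0]
  have hsmall : 2 * q * xu < ((Λ : ℂ) * ze).re := by
    rw [T11.lam_re, hxu, ← hr₁']
    have h1 : 2 * q * (r₁ * (1 / 2 - a * s / 3)) = r₁ * (2 * q * (1 / 2 - a * s / 3)) := by ring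
    have h2 : r₁ * (q - 2) / 2 = r₁ * ((q - 2) / 2) := by ring
    rw [h1, h2]
    exact mul_lt_mul_of_pos_left (by nlinarith) hr
  set w : ℝ → ℂ := fun ρ => ze * (rc q Λ + (ρ : ℂ) * cexp (I * (Real.pi : ℂ) / 6)) with hw
  have hpt : ∀ ρ : ℝ, w ρ = (xu : ℂ) + ((yu + ρ : ℝ) : ℂ) * I := fun ρ =>
    T11.pt_up q Λ ρ
  have hre : ∀ ρ : ℝ, (w ρ).re = xu := by
    intro ρ; rw [hpt]; simp
  have hpos : ∀ ρ : ℝ, 0 < (w ρ).re := by
    intro ρ; rw [hre]; exact hxu0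
  have hwd : ∀ ρ : ℝ, HasDerivAt w I ρ := by
    intro ρ
    have h1 : HasDerivAt (fun ρ : ℝ => (ρ : ℂ)) 1 ρ := Complex.ofRealCLM.hasDerivAt
    have h2 := ((h1.mul_const (cexp (I * (Real.pi : ℂ) / 6))).const_add (rc q Λ)).const_mul ze
    rw [one_mul, T11.ze_mul_e6] at h2
    exact h2
  have hGd : ∀ ρ : ℝ, HasDerivAt (fun ρ => G (w ρ))
      (FF β q ((Λ : ℂ) * ze) (w ρ) * I) ρ := by
    intro ρ
    exact (hE.prim (w ρ) (hpos ρ)).comp ρ (hwd ρ)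
  have hint : IntegrableOn (fun ρ : ℝ => FF β q ((Λ : ℂ) * ze) (w ρ)) (Ioi 0) := by
    have h1 := integrableOn_FF_up hβ q (by linarith) ((Λ : ℂ) * ze) xu hxu0 hsmall yu
    have h2 := (measurePreserving_add_left volume yu).integrableOn_comp_preimage
      (measurableEmbedding_addLeft yu) (f := fun y : ℝ => FF β q ((Λ : ℂ) * ze) ((xu : ℂ) + (y : ℂ) * I))
      (s := Ioi yu)
    have h3 := h2.2 h1
    have h4 : (fun x => yu + x) ⁻¹' Ioi yu = Ioi 0 := by ext x; simp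
    rw [h4] at h3
    refine h3.congr_fun (fun ρ _ => ?_) measurableSet_Ioi
    simp only [Function.comp]
    rw [hpt]
  refine ⟨hpos, hint, ?_⟩
  have hlim : Tendsto (fun ρ => G (w ρ)) atTop (𝓝 U) := by
    have h1 := hE.up xu hxu0 hsmall
    have h2 : Tendsto (fun ρ : ℝ => yu + ρ) atTop atTop := tendsto_atTop_add_const_left _ _ tendsto_id
    refine (h1.comp h2).congr fun ρ => ?_
    simp only [Function.comp]
    rw [hpt]
  have h0 : w 0 = ze * rc q Λ := by simp [hw]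
  rw [← h0]
  exact integral_Ioi_of_hasDerivAt_of_tendsto' (fun ρ _ => hGd ρ) (hint.mul_const _) hlim

theorem T11.rc_eq (q Λ : ℝ) :
    rc q Λ = ((Λ / (q - 2) : ℝ) : ℂ) * (1 + ((Real.sqrt 2 / 3 : ℝ) : ℂ) * I) := rfl

theorem T11.conj_rc_eq (q Λ : ℝ) :
    (starRingEnd ℂ) (rc q Λ) = ((Λ / (q - 2) : ℝ) : ℂ) * (1 + ((-(Real.sqrt 2 / 3) : ℝ) : ℂ) * I) := by
  rw [rc, map_mul, map_add, map_mul, Complex.conj_ofReal, Complex.conj_ofReal, Complex.conj_I,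
    map_one]
  push_cast
  ring

/-- the middle segment. -/
theorem T11.mid {β : ℂ → ℂ} (hβ : IsLogB β) (q Λ : ℝ) (hq : 4 < q) (hΛ : 0 < Λ) {G : ℂ → ℂ}
    {L U : ℂ} (hE : Ends β q ((Λ : ℂ) * ze) G L U) :
    (∀ y ∈ uIcc (-(Real.sqrt 2 / 3)) (Real.sqrt 2 / 3),
      0 < (ze * (((Λ / (q - 2) : ℝ) : ℂ) * (1 + (y : ℂ) * I))).re) ∧
    ContinuousOn (fun y : ℝ => FF β q ((Λ : ℂ) * ze)
      (ze * (((Λ / (q - 2) : ℝ) : ℂ) * (1 + (y : ℂ) * I))))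
        (uIcc (-(Real.sqrt 2 / 3)) (Real.sqrt 2 / 3)) ∧
    ∫ y in (-(Real.sqrt 2 / 3))..(Real.sqrt 2 / 3), FF β q ((Λ : ℂ) * ze)
      (ze * (((Λ / (q - 2) : ℝ) : ℂ) * (1 + (y : ℂ) * I))) * (ze * (((Λ / (q - 2) : ℝ) : ℂ) * I)) =
        G (ze * rc q Λ) - G (ze * (starRingEnd ℂ) (rc q Λ)) := by
  obtain ⟨ha, ha0, hs0, hs, has⟩ := T11.sqrt_facts
  have hr : 0 < Λ / (q - 2) := div_pos hΛ (by linarith)
  set r₁ := Λ / (q - 2) with hr₁
  have hle : -(Real.sqrt 2 / 3) ≤ Real.sqrt 2 / 3 := by linarith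
  set w : ℝ → ℂ := fun y => ze * ((r₁ : ℂ) * (1 + (y : ℂ) * I)) with hw
  have hre : ∀ y : ℝ, (w y).re = r₁ * (1 / 2 - Real.sqrt 3 / 2 * y) := by
    intro y
    have := T11.pt_mid r₁ y
    rw [hw]
    simp only
    rw [this]
    simp
  have hpos : ∀ y ∈ uIcc (-(Real.sqrt 2 / 3)) (Real.sqrt 2 / 3), 0 < (w y).re := by
    intro y hy
    rw [uIcc_of_le hle] at hy
    rw [hre]
    refine mul_pos hr ?_
    have h1 : Real.sqrt 3 / 2 * y ≤ Real.sqrt 3 / 2 * (Real.sqrt 2 / 3) :=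
      mul_le_mul_of_nonneg_left hy.2 ha0.le
    nlinarith
  have hwd : ∀ y : ℝ, HasDerivAt w (ze * ((r₁ : ℂ) * I)) y := by
    intro y
    have h1 : HasDerivAt (fun y : ℝ => (y : ℂ)) 1 y := Complex.ofRealCLM.hasDerivAt
    have h2 := ((((h1.mul_const I).const_add 1).const_mul (r₁ : ℂ))).const_mul ze
    rw [one_mul] at h2
    exact h2
  have hcont : ContinuousOn (fun y : ℝ => FF β q ((Λ : ℂ) * ze) (w y))
      (uIcc (-(Real.sqrt 2 / 3)) (Real.sqrt 2 / 3)) := by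
    refine (FF_differentiableOn hβ q _).continuousOn.comp
      (fun y _ => (hwd y).continuousAt.continuousWithinAt) ?_
    intro y hy
    exact hpos y hy
  refine ⟨hpos, hcont, ?_⟩
  have h1 : G (ze * rc q Λ) = G (w (Real.sqrt 2 / 3)) := by rw [T11.rc_eq]
  have h2 : G (ze * (starRingEnd ℂ) (rc q Λ)) = G (w (-(Real.sqrt 2 / 3))) := by
    rw [T11.conj_rc_eq]
  rw [h1, h2]
  refine intervalIntegral.integral_eq_sub_of_hasDerivAt (f := fun y => G (w y)) (fun y hy => ?_) ?_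
  · exact (hE.prim (w y) (hpos y hy)).comp y (hwd y)
  · exact (hcont.mul continuousOn_const).intervalIntegrable

theorem Psi_im_eq {β : ℂ → ℂ} (hβ : IsLogB β) (q : ℝ) (hq : 4 < q) :
    ∃ R : ℝ, 0 < R ∧ ∀ Λ : ℝ, R ≤ Λ →
      (Psi β q ((Λ : ℂ) * ze)).im =
        q ^ (1 - q / 2) * Real.pi ^ (-(1 / 2 : ℝ)) * Λ ^ ((q - 1) / 2) *
          Real.exp (Λ ^ 3 / (3 * q ^ 2)) * (1 / 2) * (XX β q Λ).re := by
  refine ⟨4 * q + 1, by linarith, fun Λ hΛ => ?_⟩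
  have hΛ0 : 0 < Λ := by linarith
  have hq0 : 0 < q := by linarith
  obtain ⟨G, L, U, hE⟩ := exists_ends hβ q hq0 ((Λ : ℂ) * ze) (by rw [T11.lam_re]; linarith)
  have hJJ := JJ_eq_ends hβ hq0 hE (by rw [T11.lam_re]; linarith)
  obtain ⟨hposl, hintl, hl⟩ := T11.low hβ q Λ hq hΛ0 hE
  obtain ⟨hposu, hintu, hu⟩ := T11.up hβ q Λ hq hΛ0 hE
  obtain ⟨hposm, hcontm, hm⟩ := T11.mid hβ q Λ hq hΛ0 hE
  set r₁ : ℂ := ((Λ / (q - 2) : ℝ) : ℂ) with hr₁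
  set e6 : ℂ := cexp (I * (Real.pi : ℂ) / 6) with he6
  set e6' : ℂ := cexp (-(I * (Real.pi : ℂ) / 6)) with he6'
  set W : ℂ := cexp (I * (Real.pi : ℂ) / 3 * ((1 : ℂ) - (q : ℂ) / 2)) with hW
  set c₀ : ℂ := (starRingEnd ℂ) (rc q Λ) with hc₀
  set c₁ : ℂ := rc q Λ with hc₁
  have hWne : W ≠ 0 := Complex.exp_ne_zero _
  have hcc : (starRingEnd ℂ) c₀ = c₁ := by rw [hc₀, Complex.conj_conj]
  have he : (starRingEnd ℂ) e6 = e6' := T11.conj_e6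
  have he' : (starRingEnd ℂ) e6' = e6 := by rw [← he, Complex.conj_conj]
  -- integrability of `Hp`
  have hHpl : IntegrableOn (fun ρ : ℝ => Hp β q Λ (c₀ + (ρ : ℂ) * e6')) (Ioi 0) := by
    have h1 : IntegrableOn (fun ρ : ℝ => W * Hp β q Λ (c₀ + (ρ : ℂ) * e6')) (Ioi 0) := by
      refine hintl.congr_fun (fun ρ hρ => ?_) measurableSet_Ioi
      exact T11.FF_eq β q Λ _ (hposl ρ (le_of_lt hρ))
    have h2 : Integrable (fun ρ : ℝ => W⁻¹ * (W * Hp β q Λ (c₀ + (ρ : ℂ) * e6')))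
      (volume.restrict (Ioi 0)) := Integrable.const_mul h1 W⁻¹
    refine Integrable.congr h2 (Eventually.of_forall fun ρ => ?_)
    simp only
    rw [← mul_assoc, inv_mul_cancel₀ hWne, one_mul]
  have hHpu : IntegrableOn (fun ρ : ℝ => Hp β q Λ (c₁ + (ρ : ℂ) * e6)) (Ioi 0) := by
    have h1 : IntegrableOn (fun ρ : ℝ => W * Hp β q Λ (c₁ + (ρ : ℂ) * e6)) (Ioi 0) := by
      refine hintu.congr_fun (fun ρ hρ => ?_) measurableSet_Ioi
      exact T11.FF_eq β q Λ _ (hposu ρ)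
    have h2 : Integrable (fun ρ : ℝ => W⁻¹ * (W * Hp β q Λ (c₁ + (ρ : ℂ) * e6)))
      (volume.restrict (Ioi 0)) := Integrable.const_mul h1 W⁻¹
    refine Integrable.congr h2 (Eventually.of_forall fun ρ => ?_)
    simp only
    rw [← mul_assoc, inv_mul_cancel₀ hWne, one_mul]
  have hHpm : ContinuousOn (fun y : ℝ => Hp β q Λ (r₁ * (1 + (y : ℂ) * I)))
      (uIcc (-(Real.sqrt 2 / 3)) (Real.sqrt 2 / 3)) := by
    refine ((continuousOn_const (c := W⁻¹)).mul hcontm).congr fun y hy => ?_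
    change _ = W⁻¹ * FF β q ((Λ : ℂ) * ze) (ze * (r₁ * (1 + (y : ℂ) * I)))
    rw [T11.FF_eq β q Λ _ (hposm y hy), ← mul_assoc, inv_mul_cancel₀ hWne, one_mul]
  -- `Hm` is the conjugate
  have hconjl : ∀ ρ : ℝ, 0 < ρ → Hm β q Λ (c₁ + (ρ : ℂ) * e6) =
      (starRingEnd ℂ) (Hp β q Λ (c₀ + (ρ : ℂ) * e6')) := by
    intro ρ hρ
    rw [T11.conj_Hp hβ q Λ _ (hposl ρ hρ.le), map_add, map_mul, Complex.conj_ofReal, hcc, he']
  have hconju : ∀ ρ : ℝ, Hm β q Λ (c₀ + (ρ : ℂ) * e6') =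
      (starRingEnd ℂ) (Hp β q Λ (c₁ + (ρ : ℂ) * e6)) := by
    intro ρ
    rw [T11.conj_Hp hβ q Λ _ (hposu ρ), map_add, map_mul, Complex.conj_ofReal, ← hc₀, he]
  have hconjm : ∀ y ∈ uIcc (-(Real.sqrt 2 / 3)) (Real.sqrt 2 / 3),
      Hm β q Λ (r₁ * (1 + (y : ℂ) * I)) =
      (starRingEnd ℂ) (Hp β q Λ (r₁ * (1 + ((-y : ℝ) : ℂ) * I))) := by
    intro y hy
    have hy' : -y ∈ uIcc (-(Real.sqrt 2 / 3)) (Real.sqrt 2 / 3) := by
      have hle : -(Real.sqrt 2 / 3) ≤ Real.sqrt 2 / 3 := by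
        have := T11.sqrt_facts.2.2.1
        linarith
      rw [uIcc_of_le hle] at hy ⊢
      exact ⟨by linarith [hy.2], by linarith [hy.1]⟩
    rw [T11.conj_Hp hβ q Λ _ (hposm (-y) hy')]
    congr 1
    rw [map_mul, map_add, map_mul, map_one, Complex.conj_I, Complex.conj_ofReal, hr₁,
      Complex.conj_ofReal]
    push_cast
    ring
  -- conjugates of the integrals
  have hHml : IntegrableOn (fun ρ : ℝ => Hm β q Λ (c₀ + (ρ : ℂ) * e6')) (Ioi 0) := by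
    have h1 : Integrable (fun ρ : ℝ => Complex.conjCLE (Hp β q Λ (c₁ + (ρ : ℂ) * e6)))
      (volume.restrict (Ioi 0)) := Complex.conjCLE.toContinuousLinearMap.integrable_comp hHpu
    refine Integrable.congr h1 (Eventually.of_forall fun ρ => ?_)
    simp only
    rw [hconju ρ]
    rfl
  have hHmu : IntegrableOn (fun ρ : ℝ => Hm β q Λ (c₁ + (ρ : ℂ) * e6)) (Ioi 0) := by
    have h1 : Integrable (fun ρ : ℝ => Complex.conjCLE (Hp β q Λ (c₀ + (ρ : ℂ) * e6')))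
      (volume.restrict (Ioi 0)) := Complex.conjCLE.toContinuousLinearMap.integrable_comp hHpl
    refine IntegrableOn.congr_fun h1 (fun ρ hρ => ?_) measurableSet_Ioi
    rw [hconjl ρ hρ]
    rfl
  have hHmm : ContinuousOn (fun y : ℝ => Hm β q Λ (r₁ * (1 + (y : ℂ) * I)))
      (uIcc (-(Real.sqrt 2 / 3)) (Real.sqrt 2 / 3)) := by
    have h0 : ContinuousOn (fun y : ℝ => (starRingEnd ℂ) (Hp β q Λ (r₁ * (1 + ((-y : ℝ) : ℂ) * I))))
      (uIcc (-(Real.sqrt 2 / 3)) (Real.sqrt 2 / 3)) := by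
      refine Complex.continuous_conj.comp_continuousOn ?_
      refine hHpm.comp (f := fun y : ℝ => -y) continuous_neg.continuousOn ?_
      intro y hy
      have hle : -(Real.sqrt 2 / 3) ≤ Real.sqrt 2 / 3 := by
        have := T11.sqrt_facts.2.2.1
        linarith
      rw [uIcc_of_le hle] at hy ⊢
      exact ⟨by linarith [hy.2], by linarith [hy.1]⟩
    exact h0.congr hconjm
  -- the three integrals
  set Al : ℂ := ∫ ρ in Ioi (0 : ℝ), Hp β q Λ (c₀ + (ρ : ℂ) * e6') with hAl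
  set Au : ℂ := ∫ ρ in Ioi (0 : ℝ), Hp β q Λ (c₁ + (ρ : ℂ) * e6) with hAu
  set Am : ℂ := ∫ y in (-(Real.sqrt 2 / 3))..(Real.sqrt 2 / 3), Hp β q Λ (r₁ * (1 + (y : ℂ) * I))
    with hAm
  have hBu : ∫ ρ in Ioi (0 : ℝ), Hm β q Λ (c₁ + (ρ : ℂ) * e6) = (starRingEnd ℂ) Al := by
    rw [hAl, ← integral_conj]
    exact setIntegral_congr_fun measurableSet_Ioi fun ρ hρ => hconjl ρ hρ
  have hBl : ∫ ρ in Ioi (0 : ℝ), Hm β q Λ (c₀ + (ρ : ℂ) * e6') = (starRingEnd ℂ) Au := by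
    rw [hAu, ← integral_conj]
    exact setIntegral_congr_fun measurableSet_Ioi fun ρ _ => hconju ρ
  have hBm : ∫ y in (-(Real.sqrt 2 / 3))..(Real.sqrt 2 / 3), Hm β q Λ (r₁ * (1 + (y : ℂ) * I)) =
      (starRingEnd ℂ) Am := by
    have h1 : ∫ y in (-(Real.sqrt 2 / 3))..(Real.sqrt 2 / 3), Hm β q Λ (r₁ * (1 + (y : ℂ) * I)) =
      ∫ y in (-(Real.sqrt 2 / 3))..(Real.sqrt 2 / 3),
        (starRingEnd ℂ) (Hp β q Λ (r₁ * (1 + ((-y : ℝ) : ℂ) * I))) :=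
      intervalIntegral.integral_congr hconjm
    rw [h1, intervalIntegral.integral_comp_neg
      (f := fun y : ℝ => (starRingEnd ℂ) (Hp β q Λ (r₁ * (1 + (y : ℂ) * I)))), neg_neg, hAm,
      intervalIntegral.integral_of_le (by have := T11.sqrt_facts.2.2.1; linarith),
      intervalIntegral.integral_of_le (by have := T11.sqrt_facts.2.2.1; linarith), ← integral_conj]
  have hXX : XX β q Λ = (Al - (starRingEnd ℂ) Au) * e6' - I * r₁ * (Am - (starRingEnd ℂ) Am) -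
      (Au - (starRingEnd ℂ) Al) * e6 := by
    rw [XX]
    congr 1
    · congr 1
      · rw [integral_mul_const, integral_sub hHpl hHml, hBl]
      · rw [intervalIntegral.integral_sub hHpm.intervalIntegrable hHmm.intervalIntegrable, hBm]
    · rw [integral_mul_const, integral_sub hHpu hHmu, hBu]
  set Kp : ℂ := Al * e6' - I * r₁ * Am - Au * e6 with hKp
  have hr₁c : (starRingEnd ℂ) r₁ = r₁ := by rw [hr₁, Complex.conj_ofReal]
  have hXXre : (XX β q Λ).re = 2 * Kp.re := by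
    have h1 : XX β q Λ = Kp + (starRingEnd ℂ) Kp := by
      rw [hXX, hKp]
      simp only [map_sub, map_mul, Complex.conj_I, he, he', hr₁c]
      ring
    rw [h1, Complex.add_re, Complex.conj_re]
    ring
  have hJK : JJ β q ((Λ : ℂ) * ze) = W * ze * Kp := by
    have h1 : ∫ ρ in Ioi (0 : ℝ), FF β q ((Λ : ℂ) * ze) (ze * (c₀ + (ρ : ℂ) * e6')) * e6 =
        W * ze * (Al * e6') := by
      rw [integral_mul_const]
      have : ∫ ρ in Ioi (0 : ℝ), FF β q ((Λ : ℂ) * ze) (ze * (c₀ + (ρ : ℂ) * e6')) = W * Al := by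
        rw [hAl, ← integral_const_mul]
        exact setIntegral_congr_fun measurableSet_Ioi fun ρ hρ =>
          T11.FF_eq β q Λ _ (hposl ρ (le_of_lt hρ))
      rw [this, he6, ← T11.ze_mul_e6']
      ring
    have h2 : ∫ ρ in Ioi (0 : ℝ), FF β q ((Λ : ℂ) * ze) (ze * (c₁ + (ρ : ℂ) * e6)) * I =
        W * ze * (Au * e6) := by
      rw [integral_mul_const]
      have : ∫ ρ in Ioi (0 : ℝ), FF β q ((Λ : ℂ) * ze) (ze * (c₁ + (ρ : ℂ) * e6)) = W * Au := by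
        rw [hAu, ← integral_const_mul]
        exact setIntegral_congr_fun measurableSet_Ioi fun ρ _ =>
          T11.FF_eq β q Λ _ (hposu ρ)
      rw [this]
      have h3 : I = ze * e6 := T11.ze_mul_e6.symm
      calc W * Au * I = W * Au * (ze * e6) := by rw [← h3]
        _ = _ := by ring
    have h3 : ∫ y in (-(Real.sqrt 2 / 3))..(Real.sqrt 2 / 3), FF β q ((Λ : ℂ) * ze)
      (ze * (r₁ * (1 + (y : ℂ) * I))) * (ze * (r₁ * I)) = W * ze * (I * r₁ * Am) := by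
      rw [intervalIntegral.integral_mul_const]
      have : ∫ y in (-(Real.sqrt 2 / 3))..(Real.sqrt 2 / 3), FF β q ((Λ : ℂ) * ze)
        (ze * (r₁ * (1 + (y : ℂ) * I))) = W * Am := by
        rw [hAm, ← intervalIntegral.integral_const_mul]
        exact intervalIntegral.integral_congr fun y hy => T11.FF_eq β q Λ _ (hposm y hy)
      rw [this]
      ring
    rw [h1] at hl
    rw [h2] at hu
    rw [h3] at hm
    rw [hJJ, hKp]
    linear_combination -hl + hu + hm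
  -- the phase
  have hphase : W * ze * ((Λ : ℂ) * ze) ^ (((q : ℂ) - 1) / 2) =
      I * ((Λ ^ ((q - 1) / 2) : ℝ) : ℂ) := by
    have h1 : (Λ : ℂ) * ze = ze * (Λ : ℂ) := mul_comm _ _
    rw [h1, T11.mul_cpow' _ _ (by rw [← h1, T11.lam_re]; linarith), hW, ze, ← mul_assoc,
      ← Complex.exp_add, ← Complex.exp_add]
    have h2 : I * (Real.pi : ℂ) / 3 * (1 - (q : ℂ) / 2) + I * (Real.pi : ℂ) / 3 +
        I * (Real.pi : ℂ) / 3 * (((q : ℂ) - 1) / 2) = (Real.pi : ℂ) / 2 * I := by ring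
    rw [h2, Complex.exp_pi_div_two_mul_I, Complex.ofReal_cpow hΛ0.le]
    push_cast
    rfl
  have hexp : cexp (-((Λ : ℂ) * ze) ^ 3 / (3 * (q : ℂ) ^ 2)) =
      ((Real.exp (Λ ^ 3 / (3 * q ^ 2)) : ℝ) : ℂ) := by
    have h1 : ((Λ : ℂ) * ze) ^ 3 = -(Λ : ℂ) ^ 3 := by rw [mul_pow, T11.ze_pow_three]; ring
    rw [h1, neg_neg]
    push_cast
    rfl
  have hPsi : Psi β q ((Λ : ℂ) * ze) = ((q ^ (1 - q / 2) * Real.pi ^ (-(1 / 2 : ℝ)) *
      Λ ^ ((q - 1) / 2) * Real.exp (Λ ^ 3 / (3 * q ^ 2)) : ℝ) : ℂ) * (I * Kp) := by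
    rw [Psi, hJK, hexp]
    calc _ = ((q ^ (1 - q / 2) * Real.pi ^ (-(1 / 2 : ℝ)) : ℝ) : ℂ) *
          ((Real.exp (Λ ^ 3 / (3 * q ^ 2)) : ℝ) : ℂ) * Kp *
          (W * ze * ((Λ : ℂ) * ze) ^ (((q : ℂ) - 1) / 2)) := by ring
      _ = _ := by rw [hphase]; push_cast; ring
  rw [hPsi, Complex.im_ofReal_mul, hXXre]
  have : (I * Kp).im = Kp.re := by simp
  rw [this]
  ring

end Pool.Agent.H140R2.FR
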